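import Pool.Agent.XV.MT.Sk
import Pool.Agent.XV.T.Stm

/-!
Project XV, part T1, second part: the statements for `S_MOD` of `Pool/Agent/XV/T/Stm.lean`
(the value of the complete `L`-function of the global minimal equation and the real period).
-/

set_option autoImplicit false

open UpperHalfPlane MatrixGroups CongruenceSubgroup Filter Topology MeasureTheory Set

namespace Pool.Agent.XV.MT

open Pool.Agent.W97.TW
open Pool.Agent.W97.MT (qq tt iI QV Rep affCount ap hecke prim)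
open Pool.Agent.XV.T (W15)
open Pool.Agent.Y700 (IsL Omega)
open Pool.Agent.Y687 (SS)

/-- AP15: the coefficients of the twist (port of `Y700/Ap.lean`) -/
def S_AP15 : Prop := ∀ n : ℕ, n % 4 = 3 → ∀ p : ℕ, p.Prime →
  ap (W15 (-(n : ℤ))) p = jacobiSym (p : ℤ) n * ap E15 p

/-- DEL15: the primes of bad reduction (port of `Delta_WM`, `dvd_Delta` in `Y700/Lm.lean`) -/
def S_DEL15 : Prop := ∀ n : ℕ, n % 4 = 3 → ∀ p : ℕ, p.Prime →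
  ((p : ℤ) ∣ (W15 (-(n : ℤ))).Δ ↔ p ∣ 15 ∨ p ∣ n)

/-- OM15: the real period of the twist (port of `Y248/BSD14/Omega.lean`) -/
def S_OM15 : Prop := ∀ (L : PeriodPair) (Op Om : ℝ), 0 < Op → 0 < Om →
  L.g₂ = 481 / 12 → L.g₃ = 4879 / 216 →
  (∀ w : ℂ, w ∈ L.lattice ↔ ∃ a b : ℤ, w = a * Op + b * Om * Complex.I) →
  ∀ n : ℕ, n % 4 = 3 → Omega (W15 (-(n : ℤ))) = 2 * Om / Real.sqrt n

/-- the conclusion of `S_LFN` -/
def XL : Prop := ∀ (q : ℕ) [NeZero q], Nat.Coprime q 15 → ∀ χ : DirichletCharacter ℂ q,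
  χ.IsPrimitive →
    ∃ g : ℂ → ℂ, Differentiable ℂ g ∧
      (∀ s : ℂ, 3 / 2 < s.re → HasProd (fun p : Nat.Primes =>
        (1 - (ap E15 p : ℂ) * χ p * (p : ℂ) ^ (-s) +
          (if (p : ℕ) ∣ 15 then 0 else (p : ℂ)) * (χ p) ^ 2 * (p : ℂ) ^ (-2 * s))⁻¹) (g s)) ∧
      gaussSum χ⁻¹ (ZMod.stdAddChar (N := q)) * g 1 =
        ∑ u : (ZMod q)ˣ, χ⁻¹ (u : ZMod q) * II (((u : ZMod q).val : ℚ) / q)

/-- LV15: the central value (port of `Y700/Lm.lean`, `gs_sq`, `exists_LM`, `sum_real`, `value`) -/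
def S_LV15 : Prop := S_AP15 → S_DEL15 → XL → IIOK → ∀ (s : ℚ → ℤ) (Om : ℝ),
  (∀ r : ℚ, ¬ (3 : ℤ) ∣ r.den → ¬ (5 : ℤ) ∣ r.den → (II r).im = s r * Om) →
  ∀ n : ℕ, Squarefree n → n % 4 = 3 → Nat.Coprime n 15 → ∃ (f : ℂ → ℂ) (ε : ℤ),
    (ε = 1 ∨ ε = -1) ∧ IsL (W15 (-(n : ℤ))) f ∧
    f 1 = (((ε : ℝ) * (SS s n n : ℝ) * (Om / Real.sqrt n) : ℝ) : ℂ)

/-- SY15: the integral odd symbol -/
def S_SY15 : Prop := S_LAT → S_MIN → S_CM → PrimOK → IIOK →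
  (∀ L : PeriodPair, L.g₂ = 481 / 12 → L.g₃ = 4879 / 216 → IntOK L ∧
    ∀ w : ℂ, w ∈ L.lattice ↔ IsPer w) →
  ∃ (s : ℚ → ℤ) (L : PeriodPair) (Op Om : ℝ), 0 < Op ∧ 0 < Om ∧
    L.g₂ = 481 / 12 ∧ L.g₃ = 4879 / 216 ∧
    (∀ w : ℂ, w ∈ L.lattice ↔ ∃ a b : ℤ, w = a * Op + b * Om * Complex.I) ∧
    SyM s (fun q => ap E15 q) ∧ Odd (s (1 / 4)) ∧
    ∀ r : ℚ, ¬ (3 : ℤ) ∣ r.den → ¬ (5 : ℤ) ∣ r.den → (II r).im = s r * Om

/-- the assembly -/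
theorem mod_of (h_AP : S_AP15) (h_DEL : S_DEL15) (h_OM : S_OM15) (h_LV : S_LV15) (h_SY : S_SY15)
    (h_LAT : S_LAT) (h_MIN : S_MIN) (h_CM : S_CM) (hp : PrimOK) (hi : IIOK) (hx : XL)
    (hL : ∀ L : PeriodPair, L.g₂ = 481 / 12 → L.g₃ = 4879 / 216 → IntOK L ∧
      ∀ w : ℂ, w ∈ L.lattice ↔ IsPer w) : Pool.Agent.XV.T.S_MOD := by
  obtain ⟨s, L, Op, Om, h1, h2, g2, g3, hw, hs, hodd, hii⟩ := h_SY h_LAT h_MIN h_CM hp hi hL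
  refine ⟨s, _, Om, h2, hs, hodd, fun n hsq h4 h15 => ?_⟩
  obtain ⟨f, ε, hε, hf, hv⟩ := h_LV h_AP h_DEL hx hi s Om hii n hsq h4 h15
  exact ⟨f, ε, hε, hf, hv, h_OM L Op Om h1 h2 g2 g3 hw n h4⟩

end Pool.Agent.XV.MT
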