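import Mathlib
import Pool.Agent.XV.MT.Sk2
import Pool.Agent.Helper620.Wg.KI
import Pool.Agent.H285R3.Str.PerCx

/-!
# OM15: the real period of the twists of `X_0(15)` from the period lattice
(port of `Pool/Agent/Y248/BSD14/Omega.lean`; the real locus has two components)
-/

set_option autoImplicit false

namespace Pool.Agent.XV.MT.OM

open Set Filter Topology PeriodPair MeasureTheory
open Pool.Agent.H285R3.Str (P_conj P'_conj)

/-- the hypotheses -/
structure Rect (L : PeriodPair) (Op Om : ℝ) : Prop where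
  pOp : 0 < Op
  pOm : 0 < Om
  g2 : L.g₂ = 481 / 12
  g3 : L.g₃ = 4879 / 216
  lat : ∀ w : ℂ, w ∈ L.lattice ↔ ∃ a b : ℤ, w = a * Op + b * Om * Complex.I

/-- the point with the coordinates `s`, `t` -/
noncomputable def uu (Op Om s t : ℝ) : ℂ := s * Op + t * Om * Complex.I

variable {L : PeriodPair} {Op Om : ℝ}

theorem mem (h : Rect L Op Om) (a b : ℤ) : uu Op Om a b ∈ L.lattice :=
  (h.lat _).2 ⟨a, b, by simp [uu]⟩

theorem coords (h : Rect L Op Om) {s t : ℝ} (hm : uu Op Om s t ∈ L.lattice) :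
    ∃ a b : ℤ, s = a ∧ t = b := by
  obtain ⟨a, b, hab⟩ := (h.lat _).1 hm
  have hi := congrArg Complex.im hab
  have hr := congrArg Complex.re hab
  simp [uu, h.pOp.ne', h.pOm.ne'] at hi hr
  exact ⟨a, b, hr, hi⟩

theorem conj_mem (h : Rect L Op Om) : ∀ l ∈ L.lattice, (starRingEnd ℂ) l ∈ L.lattice := by
  intro l hl
  obtain ⟨a, b, rfl⟩ := (h.lat _).1 hl
  rw [h.lat]
  refine ⟨a, -b, ?_⟩
  simp

theorem uu_add (s t s' t' : ℝ) : uu Op Om s t + uu Op Om s' t' = uu Op Om (s + s') (t + t') := by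
  simp only [uu]; push_cast; ring

theorem uu_sub (s t s' t' : ℝ) : uu Op Om s t - uu Op Om s' t' = uu Op Om (s - s') (t - t') := by
  simp only [uu]; push_cast; ring

theorem uu_conj (s t : ℝ) : (starRingEnd ℂ) (uu Op Om s t) = uu Op Om s (-t) := by
  simp [uu]

theorem uu_neg (s t : ℝ) : - uu Op Om s t = uu Op Om (-s) (-t) := by
  simp only [uu]; push_cast; ring

theorem P_per (h : Rect L Op Om) (a b : ℤ) (s t : ℝ) :
    L.weierstrassP (uu Op Om (s + a) (t + b)) = L.weierstrassP (uu Op Om s t) := by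
  rw [← uu_add]
  exact L.weierstrassP_add_coe _ ⟨_, mem h a b⟩

theorem P'_per (h : Rect L Op Om) (a b : ℤ) (s t : ℝ) :
    L.derivWeierstrassP (uu Op Om (s + a) (t + b)) = L.derivWeierstrassP (uu Op Om s t) := by
  rw [← uu_add]
  exact L.derivWeierstrassP_add_coe _ ⟨_, mem h a b⟩

theorem P_neg (s t : ℝ) :
    L.weierstrassP (uu Op Om (-s) (-t)) = L.weierstrassP (uu Op Om s t) := by
  rw [← uu_neg, L.weierstrassP_neg]

theorem P'_neg (s t : ℝ) :
    L.derivWeierstrassP (uu Op Om (-s) (-t)) = - L.derivWeierstrassP (uu Op Om s t) := by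
  rw [← uu_neg, L.derivWeierstrassP_neg]

/-- reality on the vertical lines -/
theorem re_P (h : Rect L Op Om) (s t : ℝ) (hs : ∃ k : ℤ, 2 * s = k) :
    L.weierstrassP (uu Op Om s t) = ((L.weierstrassP (uu Op Om s t)).re : ℂ) := by
  obtain ⟨k, hk⟩ := hs
  have h1 := P_conj L (conj_mem h) (uu Op Om s t)
  rw [uu_conj] at h1
  have h2 : uu Op Om s (-t) = uu Op Om (-s + k) (-t + (0 : ℤ)) := by
    congr 1
    · linarith
    · simp
  rw [h2, P_per h, P_neg] at h1
  exact (Complex.conj_eq_iff_re.1 h1.symm).symm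

theorem re_P' (h : Rect L Op Om) (s t : ℝ) (hs : ∃ k : ℤ, 2 * s = k) :
    L.derivWeierstrassP (uu Op Om s t) * Complex.I =
      (((L.derivWeierstrassP (uu Op Om s t)) * Complex.I).re : ℂ) := by
  obtain ⟨k, hk⟩ := hs
  have h1 := P'_conj L (conj_mem h) (uu Op Om s t)
  rw [uu_conj] at h1
  have h2 : uu Op Om s (-t) = uu Op Om (-s + k) (-t + (0 : ℤ)) := by
    congr 1
    · linarith
    · simp
  rw [h2, P'_per h, P'_neg] at h1
  refine (Complex.conj_eq_iff_re.1 ?_).symm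
  rw [map_mul, ← h1, Complex.conj_I]
  ring

/-- the function on the vertical line -/
noncomputable def p (L : PeriodPair) (Op Om s t : ℝ) : ℝ := (L.weierstrassP (uu Op Om s t)).re

/-- its derivative -/
noncomputable def q (L : PeriodPair) (Op Om s t : ℝ) : ℝ :=
  Om * (L.derivWeierstrassP (uu Op Om s t) * Complex.I).re

theorem ode (h : Rect L Op Om) (s t : ℝ) (hs : ∃ k : ℤ, 2 * s = k)
    (hn : uu Op Om s t ∉ L.lattice) :
    q L Op Om s t ^ 2 = - Om ^ 2 * (4 * p L Op Om s t ^ 3 - 481 / 12 * p L Op Om s t -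
      4879 / 216) := by
  have h1 := L.derivWeierstrassP_sq (uu Op Om s t) hn
  rw [h.g2, h.g3, re_P h s t hs] at h1
  have h2 := re_P' h s t hs
  have h3 : ((((L.derivWeierstrassP (uu Op Om s t)) * Complex.I).re : ℂ)) ^ 2 =
      - (4 * ((L.weierstrassP (uu Op Om s t)).re : ℂ) ^ 3 - 481 / 12 *
        ((L.weierstrassP (uu Op Om s t)).re : ℂ) - 4879 / 216) := by
    rw [← h2, mul_pow, h1, Complex.I_sq]
    ring
  have h4 : (((L.derivWeierstrassP (uu Op Om s t)) * Complex.I).re) ^ 2 =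
      - (4 * ((L.weierstrassP (uu Op Om s t)).re) ^ 3 - 481 / 12 *
        ((L.weierstrassP (uu Op Om s t)).re) - 4879 / 216) := by
    apply Complex.ofReal_injective
    push_cast
    exact h3
  simp only [q, p]
  rw [mul_pow, h4]
  ring

theorem der (h : Rect L Op Om) (s t : ℝ) (hn : uu Op Om s t ∉ L.lattice) :
    HasDerivAt (p L Op Om s) (q L Op Om s t) t := by
  have h1 : HasDerivAt L.weierstrassP (L.derivWeierstrassP (uu Op Om s t)) (uu Op Om s t) :=
    Wg.wp_inj_hasDeriv L _ hn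
  have h2 : HasDerivAt (fun z : ℂ => (s : ℂ) * Op + z * Om * Complex.I) (Om * Complex.I) (t : ℂ) := by
    have := (((hasDerivAt_id (t : ℂ)).mul_const (Om : ℂ)).mul_const Complex.I).const_add
      ((s : ℂ) * Op)
    simpa using this
  have h1' : HasDerivAt L.weierstrassP (L.derivWeierstrassP (uu Op Om s t))
      ((fun z : ℂ => (s : ℂ) * Op + z * Om * Complex.I) (t : ℂ)) := h1
  have h3' := HasDerivAt.comp (t : ℂ) h1' h2
  have h3 : HasDerivAt (fun z : ℂ => L.weierstrassP ((s : ℂ) * Op + z * Om * Complex.I))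
      (L.derivWeierstrassP (uu Op Om s t) * (Om * Complex.I)) (t : ℂ) := h3'
  have h4 := h3.real_of_complex
  have h5 : (L.derivWeierstrassP (uu Op Om s t) * (Om * Complex.I)).re = q L Op Om s t := by
    simp only [q]
    have : L.derivWeierstrassP (uu Op Om s t) * (Om * Complex.I) =
        ((Om : ℝ) : ℂ) * (L.derivWeierstrassP (uu Op Om s t) * Complex.I) := by ring
    rw [this, Complex.re_ofReal_mul]
  rw [h5] at h4
  exact h4

theorem cont_q (s : ℝ) (S : Set ℝ) (hn : ∀ t ∈ S, uu Op Om s t ∉ L.lattice) :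
    ContinuousOn (q L Op Om s) S := by
  have h2 : ContinuousOn L.derivWeierstrassP (L.lattice : Set ℂ)ᶜ :=
    L.differentiableOn_derivWeierstrassP.continuousOn
  have h3 : ContinuousOn (fun t : ℝ => L.derivWeierstrassP (uu Op Om s t)) S := by
    refine h2.comp (Continuous.continuousOn ?_) (fun t ht => hn t ht)
    change Continuous fun t : ℝ => ((s : ℂ) * Op + (t : ℂ) * Om * Complex.I)
    fun_prop
  have h4 : ContinuousOn (fun t : ℝ => L.derivWeierstrassP (uu Op Om s t) * Complex.I) S :=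
    h3.mul continuousOn_const
  exact continuousOn_const.mul (Complex.continuous_re.comp_continuousOn h4)

/-- the half periods -/
theorem q_half (h : Rect L Op Om) (s t : ℝ) (hs : ∃ k : ℤ, 2 * s = k) (ht : ∃ k : ℤ, 2 * t = k) :
    q L Op Om s t = 0 := by
  obtain ⟨k, hk⟩ := hs
  obtain ⟨l, hl⟩ := ht
  have h1 : uu Op Om s t = uu Op Om (-s + k) (-t + l) := by
    congr 1 <;> linarith
  have h2 : L.derivWeierstrassP (uu Op Om s t) = - L.derivWeierstrassP (uu Op Om s t) := by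
    conv_lhs => rw [h1]
    rw [P'_per h, P'_neg]
  have h3 : L.derivWeierstrassP (uu Op Om s t) = 0 := by
    have : (2 : ℂ) * L.derivWeierstrassP (uu Op Om s t) = 0 := by linear_combination h2
    simpa using this
  simp [q, h3]

/-- roots of the cubic -/
theorem roots {x : ℝ} (hx : 4 * x ^ 3 - 481 / 12 * x - 4879 / 216 = 0) :
    x = 41 / 12 ∨ x = -7 / 12 ∨ x = -17 / 6 := by
  have h1 : (x - 41 / 12) * ((x + 7 / 12) * (x + 17 / 6)) = 0 := by
    linear_combination (1 / 4) * hx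
  rcases mul_eq_zero.1 h1 with h | h
  · left; linarith
  · rcases mul_eq_zero.1 h with h | h
    · right; left; linarith
    · right; right; linarith

/-- injectivity -/
theorem inj (h : Rect L Op Om) {s t s' t' : ℝ} (hs : ∃ k : ℤ, 2 * s = k) (hs' : ∃ k : ℤ, 2 * s' = k)
    (hn : uu Op Om s t ∉ L.lattice) (hn' : uu Op Om s' t' ∉ L.lattice)
    (he : p L Op Om s t = p L Op Om s' t') :
    (∃ a b : ℤ, s - s' = a ∧ t - t' = b) ∨ (∃ a b : ℤ, s + s' = a ∧ t + t' = b) := by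
  have h1 : L.weierstrassP (uu Op Om s t) = L.weierstrassP (uu Op Om s' t') := by
    rw [re_P h s t hs, re_P h s' t' hs']
    simp only [p] at he
    rw [he]
  rcases Wg.wp_inj L _ _ hn hn' h1 with h2 | h2
  · rw [uu_sub] at h2
    exact Or.inl (coords h h2)
  · rw [uu_add] at h2
    exact Or.inr (coords h h2)


theorem nint {t : ℝ} (h0 : 0 < t) (h1 : t < 1) : ¬ ∃ b : ℤ, t = b := by
  rintro ⟨b, rfl⟩
  have h2 : (0 : ℤ) < b := by exact_mod_cast h0
  have h3 : b < (1 : ℤ) := by exact_mod_cast h1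
  omega

theorem nmem_t (h : Rect L Op Om) (s : ℝ) {t : ℝ} (h0 : 0 < t) (h1 : t < 1) :
    uu Op Om s t ∉ L.lattice := fun hm => by
  obtain ⟨a, b, -, hb⟩ := coords h hm
  exact nint h0 h1 ⟨b, hb⟩

theorem nmem_s (h : Rect L Op Om) {s : ℝ} (t : ℝ) (h0 : 0 < s) (h1 : s < 1) :
    uu Op Om s t ∉ L.lattice := fun hm => by
  obtain ⟨a, b, ha, -⟩ := coords h hm
  exact nint h0 h1 ⟨a, ha⟩

theorem half_int : ∃ k : ℤ, 2 * (1 / 2 : ℝ) = k := ⟨1, by norm_num⟩

theorem zero_int : ∃ k : ℤ, 2 * (0 : ℝ) = k := ⟨0, by norm_num⟩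

theorem root_of (h : Rect L Op Om) (s t : ℝ) (hs : ∃ k : ℤ, 2 * s = k)
    (hn : uu Op Om s t ∉ L.lattice) (hq : q L Op Om s t = 0) :
    p L Op Om s t = 41 / 12 ∨ p L Op Om s t = -7 / 12 ∨ p L Op Om s t = -17 / 6 := by
  apply roots
  have h1 := ode h s t hs hn
  rw [hq] at h1
  have h2 : Om ^ 2 ≠ 0 := pow_ne_zero _ h.pOm.ne'
  have h3 : Om ^ 2 * (4 * p L Op Om s t ^ 3 - 481 / 12 * p L Op Om s t - 4879 / 216) = 0 := by
    linear_combination h1
  exact (mul_eq_zero.1 h3).resolve_left h2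

theorem ne_AB (h : Rect L Op Om) : p L Op Om (1 / 2) 0 ≠ p L Op Om (1 / 2) (1 / 2) := by
  intro he
  rcases inj h half_int half_int (nmem_s h _ (by norm_num) (by norm_num))
    (nmem_s h _ (by norm_num) (by norm_num)) he with ⟨a, b, -, hb⟩ | ⟨a, b, -, hb⟩
  · exact nint (t := 1 / 2) (by norm_num) (by norm_num) ⟨-b, by push_cast; rw [← hb]; norm_num⟩
  · exact nint (t := 1 / 2) (by norm_num) (by norm_num) ⟨b, by rw [← hb]; norm_num⟩

theorem ne_AC (h : Rect L Op Om) : p L Op Om (1 / 2) 0 ≠ p L Op Om 0 (1 / 2) := by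
  intro he
  rcases inj h half_int zero_int (nmem_s h _ (by norm_num) (by norm_num))
    (nmem_t h _ (by norm_num) (by norm_num)) he with ⟨a, b, ha, -⟩ | ⟨a, b, ha, -⟩
  · exact nint (t := 1 / 2) (by norm_num) (by norm_num) ⟨a, by rw [← ha]; norm_num⟩
  · exact nint (t := 1 / 2) (by norm_num) (by norm_num) ⟨a, by rw [← ha]; norm_num⟩

theorem ne_BC (h : Rect L Op Om) : p L Op Om (1 / 2) (1 / 2) ≠ p L Op Om 0 (1 / 2) := by
  intro he
  rcases inj h half_int zero_int (nmem_s h _ (by norm_num) (by norm_num))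
    (nmem_t h _ (by norm_num) (by norm_num)) he with ⟨a, b, ha, -⟩ | ⟨a, b, ha, -⟩
  · exact nint (t := 1 / 2) (by norm_num) (by norm_num) ⟨a, by rw [← ha]; norm_num⟩
  · exact nint (t := 1 / 2) (by norm_num) (by norm_num) ⟨a, by rw [← ha]; norm_num⟩

theorem three (h : Rect L Op Om) {x : ℝ} (hx : x = 41 / 12 ∨ x = -7 / 12 ∨ x = -17 / 6) :
    x = p L Op Om (1 / 2) 0 ∨ x = p L Op Om (1 / 2) (1 / 2) ∨ x = p L Op Om 0 (1 / 2) := by
  have hA := root_of h (1 / 2) 0 half_int (nmem_s h _ (by norm_num) (by norm_num))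
    (q_half h _ _ half_int zero_int)
  have hB := root_of h (1 / 2) (1 / 2) half_int (nmem_s h _ (by norm_num) (by norm_num))
    (q_half h _ _ half_int half_int)
  have hC := root_of h 0 (1 / 2) zero_int (nmem_t h _ (by norm_num) (by norm_num))
    (q_half h _ _ zero_int half_int)
  have h1 := ne_AB h
  have h2 := ne_AC h
  have h3 := ne_BC h
  generalize p L Op Om (1 / 2) 0 = A at *
  generalize p L Op Om (1 / 2) (1 / 2) = B at *
  generalize p L Op Om 0 (1 / 2) = C at *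
  rcases hA with rfl | rfl | rfl <;> rcases hB with rfl | rfl | rfl <;>
    rcases hC with rfl | rfl | rfl <;> rcases hx with rfl | rfl | rfl <;> norm_num at * 

theorem q_ne (h : Rect L Op Om) (s t : ℝ) (hs : s = 0 ∨ s = 1 / 2) (h0 : 0 < t) (h1 : t < 1 / 2) :
    q L Op Om s t ≠ 0 := by
  intro hq
  have hsi : ∃ k : ℤ, 2 * s = k := by
    rcases hs with rfl | rfl
    · exact zero_int
    · exact half_int
  have hn : uu Op Om s t ∉ L.lattice := nmem_t h s h0 (by linarith)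
  rcases three h (root_of h s t hsi hn hq) with he | he | he
  · rcases inj h hsi half_int hn (nmem_s h _ (by norm_num) (by norm_num)) he with
      ⟨a, b, -, hb⟩ | ⟨a, b, -, hb⟩
    · exact nint h0 (by linarith) ⟨b, by rw [← hb]; ring⟩
    · exact nint h0 (by linarith) ⟨b, by rw [← hb]; ring⟩
  · rcases inj h hsi half_int hn (nmem_s h _ (by norm_num) (by norm_num)) he with
      ⟨a, b, -, hb⟩ | ⟨a, b, -, hb⟩
    · exact nint (t := 1 / 2 - t) (by linarith) (by linarith)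
        ⟨-b, by push_cast; rw [← hb]; ring⟩
    · exact nint (t := t + 1 / 2) (by linarith) (by linarith) ⟨b, hb⟩
  · rcases inj h hsi zero_int hn (nmem_t h _ (by norm_num) (by norm_num)) he with
      ⟨a, b, -, hb⟩ | ⟨a, b, -, hb⟩
    · exact nint (t := 1 / 2 - t) (by linarith) (by linarith)
        ⟨-b, by push_cast; rw [← hb]; ring⟩
    · exact nint (t := t + 1 / 2) (by linarith) (by linarith) ⟨b, hb⟩

/-- the sign of the derivative -/
theorem sgn (h : Rect L Op Om) (s : ℝ) (hs : s = 0 ∨ s = 1 / 2) :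
    (∀ t ∈ Ioo (0 : ℝ) (1 / 2), 0 < q L Op Om s t) ∨
      (∀ t ∈ Ioo (0 : ℝ) (1 / 2), q L Op Om s t < 0) := by
  have hc : ContinuousOn (q L Op Om s) (Ioo (0 : ℝ) (1 / 2)) :=
    cont_q s _ fun t ht => nmem_t h s ht.1 (by linarith [ht.2])
  by_contra hcon
  push Not at hcon
  obtain ⟨⟨x, hx, hx'⟩, ⟨y, hy, hy'⟩⟩ := hcon
  obtain ⟨z, hz, hz'⟩ := isPreconnected_Ioo.intermediate_value hx hy hc
    (show (0 : ℝ) ∈ Icc (q L Op Om s x) (q L Op Om s y) from ⟨hx', hy'⟩)
  exact q_ne h s z hs hz.1 hz.2 hz'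

/-- the limit at the pole -/
theorem lim0 (h : Rect L Op Om) : Tendsto (p L Op Om 0) (𝓝[>] 0) atBot := by
  have h2 : ∀ x : ℝ, p L Op Om 0 x = (L.weierstrassPExcept 0 (uu Op Om 0 x)).re +
      -((Om⁻¹) ^ 2 * (x⁻¹) ^ 2) := by
    intro x
    have h3 := L.weierstrassPExcept_add 0 (uu Op Om 0 x)
    simp only [Submodule.coe_zero, sub_zero] at h3
    simp only [p]
    rw [← h3]
    rw [Complex.add_re]
    congr 1
    have : (1 / (uu Op Om 0 x) ^ 2 - 1 / (0 : ℂ) ^ 2) = ((-((Om⁻¹) ^ 2 * (x⁻¹) ^ 2) : ℝ) : ℂ) := by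
      have e1 : (uu Op Om 0 x) ^ 2 = -((Om : ℂ) ^ 2 * (x : ℂ) ^ 2) := by
        simp only [uu]
        push_cast
        linear_combination ((x : ℂ) * Om) ^ 2 * Complex.I_sq
      rw [e1]
      push_cast
      simp only [ne_eq, OfNat.ofNat_ne_zero, not_false_eq_true, zero_pow, div_zero, sub_zero,
        one_div, inv_neg, mul_inv, inv_pow]
    rw [this, Complex.ofReal_re]
  have h3 : ContinuousAt (fun x : ℝ => (L.weierstrassPExcept 0 (uu Op Om 0 x)).re) 0 := by
    have h4 : ContinuousAt (L.weierstrassPExcept 0) (uu Op Om 0 0) := by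
      have e : uu Op Om 0 0 = 0 := by simp [uu]
      rw [e]
      refine ((L.differentiableOn_weierstrassPExcept 0).differentiableAt ?_).continuousAt
      exact_mod_cast L.compl_lattice_sdiff_singleton_mem_nhds 0
    have h5 : ContinuousAt (fun x : ℝ => uu Op Om 0 x) 0 := by
      refine Continuous.continuousAt ?_
      change Continuous fun t : ℝ => (((0 : ℝ) : ℂ) * Op + (t : ℂ) * Om * Complex.I)
      fun_prop
    exact Complex.continuous_re.continuousAt.comp
      (ContinuousAt.comp (f := fun x : ℝ => uu Op Om 0 x) h4 h5)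
  have h4 : Tendsto (fun x : ℝ => (L.weierstrassPExcept 0 (uu Op Om 0 x)).re) (𝓝[>] 0)
      (𝓝 (L.weierstrassPExcept 0 (uu Op Om 0 0)).re) := h3.tendsto.mono_left nhdsWithin_le_nhds
  have h5 : Tendsto (fun x : ℝ => -((Om⁻¹) ^ 2 * (x⁻¹) ^ 2)) (𝓝[>] 0) atBot := by
    have h6 : Tendsto (fun x : ℝ => (x⁻¹) ^ 2) (𝓝[>] 0) atTop :=
      (tendsto_pow_atTop two_ne_zero).comp tendsto_inv_nhdsGT_zero
    have h7 : 0 < (Om⁻¹) ^ 2 := pow_pos (inv_pos.2 h.pOm) 2
    exact tendsto_neg_atTop_atBot.comp (h6.const_mul_atTop h7)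
  have h7 := h4.add_atBot h5
  exact h7.congr fun x => (h2 x).symm

/-- the first path -/
theorem path1 (h : Rect L Op Om) : InjOn (p L Op Om 0) (Ioo (0 : ℝ) (1 / 2)) ∧
    p L Op Om 0 '' Ioo (0 : ℝ) (1 / 2) = Iio (-17 / 6) := by
  have hd : ∀ t ∈ Ioc (0 : ℝ) (1 / 2), HasDerivAt (p L Op Om 0) (q L Op Om 0 t) t :=
    fun t ht => der h 0 t (nmem_t h 0 ht.1 (by linarith [ht.2]))
  have hc : ContinuousOn (p L Op Om 0) (Ioc (0 : ℝ) (1 / 2)) :=
    fun t ht => (hd t ht).continuousAt.continuousWithinAt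
  have hpos : ∀ t ∈ Ioo (0 : ℝ) (1 / 2), 0 < q L Op Om 0 t := by
    rcases sgn h 0 (Or.inl rfl) with h1 | h1
    · exact h1
    · exfalso
      have hanti : StrictAntiOn (p L Op Om 0) (Ioc (0 : ℝ) (1 / 2)) := by
        refine strictAntiOn_of_deriv_neg (convex_Ioc _ _) hc ?_
        intro x hx
        rw [interior_Ioc] at hx
        rw [(hd x ⟨hx.1, hx.2.le⟩).deriv]
        exact h1 x hx
      have h3 : ∀ᶠ x in 𝓝[>] (0 : ℝ), p L Op Om 0 x < p L Op Om 0 (1 / 2) :=
        (lim0 h).eventually_lt_atBot _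
      have h4 : ∀ᶠ x in 𝓝[>] (0 : ℝ), x ∈ Ioo (0 : ℝ) (1 / 2) := Ioo_mem_nhdsGT (by norm_num)
      obtain ⟨x, hx, hx'⟩ := (h3.and h4).exists
      have := hanti ⟨hx'.1, hx'.2.le⟩ ⟨by norm_num, le_rfl⟩ hx'.2
      linarith
  have hmono : StrictMonoOn (p L Op Om 0) (Ioc (0 : ℝ) (1 / 2)) := by
    refine strictMonoOn_of_deriv_pos (convex_Ioc _ _) hc ?_
    intro x hx
    rw [interior_Ioc] at hx
    rw [(hd x ⟨hx.1, hx.2.le⟩).deriv]
    exact hpos x hx
  have himg : p L Op Om 0 '' Ioo (0 : ℝ) (1 / 2) = Iio (p L Op Om 0 (1 / 2)) := by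
    apply Subset.antisymm
    · rintro _ ⟨x, hx, rfl⟩
      exact hmono ⟨hx.1, hx.2.le⟩ ⟨by norm_num, le_rfl⟩ hx.2
    · intro v hv
      have hv : v < p L Op Om 0 (1 / 2) := hv
      have h3 : ∀ᶠ x in 𝓝[>] (0 : ℝ), p L Op Om 0 x < v := (lim0 h).eventually_lt_atBot _
      have h4 : ∀ᶠ x in 𝓝[>] (0 : ℝ), x ∈ Ioo (0 : ℝ) (1 / 2) := Ioo_mem_nhdsGT (by norm_num)
      obtain ⟨a, ha, ha'⟩ := (h3.and h4).exists
      obtain ⟨x, hx, hx'⟩ := intermediate_value_Icc ha'.2.le
        (hc.mono (show Icc a (1 / 2 : ℝ) ⊆ Ioc (0 : ℝ) (1 / 2) from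
          fun z hz => ⟨lt_of_lt_of_le ha'.1 hz.1, hz.2⟩))
        (show v ∈ Icc (p L Op Om 0 a) (p L Op Om 0 (1 / 2)) from ⟨ha.le, hv.le⟩)
      refine ⟨x, ⟨lt_of_lt_of_le ha'.1 hx.1, lt_of_le_of_ne hx.2 ?_⟩, hx'⟩
      rintro rfl
      rw [hx'] at hv
      exact lt_irrefl _ hv
  have hneg : ∀ v : ℝ, v < p L Op Om 0 (1 / 2) → 4 * v ^ 3 - 481 / 12 * v - 4879 / 216 < 0 := by
    intro v hv
    have hv' : v ∈ p L Op Om 0 '' Ioo (0 : ℝ) (1 / 2) := by rw [himg]; exact hv
    obtain ⟨t, ht, rfl⟩ := hv'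
    have h1 := ode h 0 t zero_int (nmem_t h 0 ht.1 (by linarith [ht.2]))
    have h2 := hpos t ht
    have h3 : 0 < Om ^ 2 := pow_pos h.pOm 2
    by_contra hcon
    push Not at hcon
    have h4 := mul_nonneg h3.le hcon
    have h5 : 0 < q L Op Om 0 t ^ 2 := pow_pos h2 2
    linarith
  have hC := root_of h 0 (1 / 2) zero_int (nmem_t h _ (by norm_num) (by norm_num))
    (q_half h _ _ zero_int half_int)
  have hC' : p L Op Om 0 (1 / 2) = -17 / 6 := by
    rcases hC with h1 | h1 | h1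
    · have := hneg (-2) (by rw [h1]; norm_num)
      norm_num at this
    · have := hneg (-2) (by rw [h1]; norm_num)
      norm_num at this
    · exact h1
  refine ⟨hmono.injOn.mono Ioo_subset_Ioc_self, ?_⟩
  rw [himg, hC']

theorem C_eq (h : Rect L Op Om) : p L Op Om 0 (1 / 2) = -17 / 6 := by
  have hC := root_of h 0 (1 / 2) zero_int (nmem_t h _ (by norm_num) (by norm_num))
    (q_half h _ _ zero_int half_int)
  have h1 := (path1 h).2
  have hcont : ContinuousAt (p L Op Om 0) (1 / 2) :=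
    (der h 0 (1 / 2) (nmem_t h _ (by norm_num) (by norm_num))).continuousAt
  have h2 : p L Op Om 0 (1 / 2) ≤ -17 / 6 := by
    have h3 : Tendsto (p L Op Om 0) (𝓝[<] (1 / 2)) (𝓝 (p L Op Om 0 (1 / 2))) :=
      hcont.tendsto.mono_left nhdsWithin_le_nhds
    refine le_of_tendsto h3 ?_
    have h4 : Ioo (0 : ℝ) (1 / 2) ∈ 𝓝[<] (1 / 2 : ℝ) := Ioo_mem_nhdsLT (by norm_num)
    filter_upwards [h4] with z hz
    have : p L Op Om 0 z ∈ Iio (-17 / 6 : ℝ) := by
      rw [← h1]
      exact ⟨z, hz, rfl⟩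
    exact (mem_Iio.1 this).le
  rcases hC with h3 | h3 | h3
  · rw [h3] at h2; norm_num at h2
  · rw [h3] at h2; norm_num at h2
  · exact h3

/-- the second path -/
theorem path2 (h : Rect L Op Om) : InjOn (p L Op Om (1 / 2)) (Ioo (0 : ℝ) (1 / 2)) ∧
    p L Op Om (1 / 2) '' Ioo (0 : ℝ) (1 / 2) = Ioo (-7 / 12) (41 / 12) := by
  have hd : ∀ t ∈ Icc (0 : ℝ) (1 / 2), HasDerivAt (p L Op Om (1 / 2)) (q L Op Om (1 / 2) t) t :=
    fun t ht => der h (1 / 2) t (nmem_s h t (by norm_num) (by norm_num))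
  have hc : ContinuousOn (p L Op Om (1 / 2)) (Icc (0 : ℝ) (1 / 2)) :=
    fun t ht => (hd t ht).continuousAt.continuousWithinAt
  have hA := root_of h (1 / 2) 0 half_int (nmem_s h _ (by norm_num) (by norm_num))
    (q_half h _ _ half_int zero_int)
  have hB := root_of h (1 / 2) (1 / 2) half_int (nmem_s h _ (by norm_num) (by norm_num))
    (q_half h _ _ half_int half_int)
  have hAC := ne_AC h
  have hBC := ne_BC h
  rw [C_eq h] at hAC hBC
  have hA' : p L Op Om (1 / 2) 0 = 41 / 12 ∨ p L Op Om (1 / 2) 0 = -7 / 12 := by tauto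
  have hB' : p L Op Om (1 / 2) (1 / 2) = 41 / 12 ∨ p L Op Om (1 / 2) (1 / 2) = -7 / 12 := by tauto
  have m0 : (0 : ℝ) ∈ Icc (0 : ℝ) (1 / 2) := ⟨le_rfl, by norm_num⟩
  have m1 : (1 / 2 : ℝ) ∈ Icc (0 : ℝ) (1 / 2) := ⟨by norm_num, le_rfl⟩
  rcases sgn h (1 / 2) (Or.inr rfl) with hs | hs
  · have hmono : StrictMonoOn (p L Op Om (1 / 2)) (Icc (0 : ℝ) (1 / 2)) := by
      refine strictMonoOn_of_deriv_pos (convex_Icc _ _) hc ?_
      intro x hx
      rw [interior_Icc] at hx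
      rw [(hd x ⟨hx.1.le, hx.2.le⟩).deriv]
      exact hs x hx
    have hlt : p L Op Om (1 / 2) 0 < p L Op Om (1 / 2) (1 / 2) := hmono m0 m1 (by norm_num)
    have e0 : p L Op Om (1 / 2) 0 = -7 / 12 := by
      rcases hA' with h1 | h1
      · exfalso
        rcases hB' with h2 | h2 <;> rw [h1, h2] at hlt <;> norm_num at hlt
      · exact h1
    have e1 : p L Op Om (1 / 2) (1 / 2) = 41 / 12 := by
      rcases hB' with h1 | h1
      · exact h1
      · exfalso
        rcases hA' with h2 | h2 <;> rw [h1, h2] at hlt <;> norm_num at hlt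
    refine ⟨hmono.injOn.mono Ioo_subset_Icc_self, ?_⟩
    rw [← e0, ← e1]
    apply Subset.antisymm
    · rintro _ ⟨x, hx, rfl⟩
      exact ⟨hmono m0 (Ioo_subset_Icc_self hx) hx.1, hmono (Ioo_subset_Icc_self hx) m1 hx.2⟩
    · exact intermediate_value_Ioo (by norm_num) hc
  · have hanti : StrictAntiOn (p L Op Om (1 / 2)) (Icc (0 : ℝ) (1 / 2)) := by
      refine strictAntiOn_of_deriv_neg (convex_Icc _ _) hc ?_
      intro x hx
      rw [interior_Icc] at hx
      rw [(hd x ⟨hx.1.le, hx.2.le⟩).deriv]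
      exact hs x hx
    have hlt : p L Op Om (1 / 2) (1 / 2) < p L Op Om (1 / 2) 0 := hanti m0 m1 (by norm_num)
    have e0 : p L Op Om (1 / 2) (1 / 2) = -7 / 12 := by
      rcases hB' with h1 | h1
      · exfalso
        rcases hA' with h2 | h2 <;> rw [h1, h2] at hlt <;> norm_num at hlt
      · exact h1
    have e1 : p L Op Om (1 / 2) 0 = 41 / 12 := by
      rcases hA' with h1 | h1
      · exact h1
      · exfalso
        rcases hB' with h2 | h2 <;> rw [h1, h2] at hlt <;> norm_num at hlt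
    refine ⟨hanti.injOn.mono Ioo_subset_Icc_self, ?_⟩
    rw [← e0, ← e1]
    apply Subset.antisymm
    · rintro _ ⟨x, hx, rfl⟩
      exact ⟨hanti (Ioo_subset_Icc_self hx) m1 hx.2, hanti m0 (Ioo_subset_Icc_self hx) hx.1⟩
    · exact intermediate_value_Ioo' (by norm_num) hc

/-- the polynomial -/
theorem piece (h : Rect L Op Om) (s : ℝ) (hs : s = 0 ∨ s = 1 / 2) (n : ℝ) (hn : 0 < n)
    (f : ℝ → ℝ) (hf : ∀ x, f x = 4 * x ^ 3 - 5 * n * x ^ 2 - 38 * n ^ 2 * x + 39 * n ^ 3)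
    (hinj : InjOn (p L Op Om s) (Ioo (0 : ℝ) (1 / 2))) :
    IntegrableOn (fun x => 2 / Real.sqrt (f x))
      ((fun t => -n * (p L Op Om s t - 5 / 12)) '' Ioo (0 : ℝ) (1 / 2)) ∧
    ∫ x in (fun t => -n * (p L Op Om s t - 5 / 12)) '' Ioo (0 : ℝ) (1 / 2),
      2 / Real.sqrt (f x) = Om / Real.sqrt n := by
  have hsi : ∃ k : ℤ, 2 * s = k := by
    rcases hs with rfl | rfl
    · exact zero_int
    · exact half_int
  have hinj2 : InjOn (fun t => -n * (p L Op Om s t - 5 / 12)) (Ioo (0 : ℝ) (1 / 2)) := by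
    intro x hx y hy hxy
    apply hinj hx hy
    have h2 : -n * (p L Op Om s x - 5 / 12) = -n * (p L Op Om s y - 5 / 12) := hxy
    have := mul_left_cancel₀ (neg_ne_zero.2 hn.ne') h2
    linarith
  have hder : ∀ t ∈ Ioo (0 : ℝ) (1 / 2),
      HasDerivWithinAt (fun t => -n * (p L Op Om s t - 5 / 12)) (-n * q L Op Om s t)
        (Ioo (0 : ℝ) (1 / 2)) t := by
    intro t ht
    exact (((der h s t (nmem_t h s ht.1 (by linarith [ht.2]))).sub_const _).const_mul
      _).hasDerivWithinAt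
  have hconst : ∀ t ∈ Ioo (0 : ℝ) (1 / 2),
      |-n * q L Op Om s t| • (2 / Real.sqrt (f (-n * (p L Op Om s t - 5 / 12)))) =
        2 * Om / Real.sqrt n := by
    intro t ht
    have hqx := q_ne h s t hs ht.1 ht.2
    have ho := ode h s t hsi (nmem_t h s ht.1 (by linarith [ht.2]))
    have hOm := h.pOm
    have h2 : f (-n * (p L Op Om s t - 5 / 12)) = n * (n * (|q L Op Om s t| / Om)) ^ 2 := by
      have e : (n * (|q L Op Om s t| / Om)) ^ 2 = n ^ 2 * (q L Op Om s t ^ 2 / Om ^ 2) := by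
        rw [mul_pow, div_pow, sq_abs]
      have hO : Om ≠ 0 := hOm.ne'
      rw [hf, e, ho]
      field_simp
      ring
    have h3 : 0 < |q L Op Om s t| := abs_pos.2 hqx
    have h3' : 0 < n * (|q L Op Om s t| / Om) := by positivity
    rw [h2, Real.sqrt_mul hn.le, Real.sqrt_sq h3'.le, smul_eq_mul, abs_mul, abs_neg,
      abs_of_pos hn]
    have h5 : 0 < Real.sqrt n := Real.sqrt_pos.2 hn
    field_simp
  constructor
  · rw [integrableOn_image_iff_integrableOn_abs_deriv_smul measurableSet_Ioo hder hinj2]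
    refine (integrableOn_congr_fun hconst measurableSet_Ioo).2 ?_
    exact integrableOn_const (by simp)
  · rw [integral_image_eq_integral_abs_deriv_smul measurableSet_Ioo hder hinj2,
      setIntegral_congr_fun measurableSet_Ioo hconst]
    simp only [integral_const, MeasurableSet.univ, measureReal_restrict_apply, univ_inter,
      smul_eq_mul, Real.volume_real_Ioo]
    rw [sub_zero, max_eq_left (by norm_num)]
    ring

theorem core (h : Rect L Op Om) (n : ℝ) (hn : 0 < n)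
    (f : ℝ → ℝ) (hf : ∀ x, f x = 4 * x ^ 3 - 5 * n * x ^ 2 - 38 * n ^ 2 * x + 39 * n ^ 3) :
    ∫ x in {x : ℝ | 0 < f x}, 2 / Real.sqrt (f x) = 2 * Om / Real.sqrt n := by
  have hset : {x : ℝ | 0 < f x} = Ioo (-3 * n) n ∪ Ioi (13 / 4 * n) := by
    ext x
    simp only [mem_ofPred_eq, mem_union, mem_Ioo, mem_Ioi]
    have h1 : f x = (x + 3 * n) * ((x - n) * (4 * x - 13 * n)) := by rw [hf]; ring
    rw [h1]
    constructor
    · intro h2
      by_contra hcon
      push Not at hcon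
      obtain ⟨c1, c2⟩ := hcon
      by_cases h3 : -3 * n < x
      · have h4 := c1 h3
        have : (x + 3 * n) * ((x - n) * (4 * x - 13 * n)) ≤ 0 := by
          have h5 : (x - n) * (4 * x - 13 * n) ≤ 0 :=
            mul_nonpos_of_nonneg_of_nonpos (by linarith) (by linarith)
          exact mul_nonpos_of_nonneg_of_nonpos (by linarith) h5
        linarith
      · push Not at h3
        have h5 : 0 ≤ (x - n) * (4 * x - 13 * n) :=
          mul_nonneg_of_nonpos_of_nonpos (by linarith) (by linarith)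
        have : (x + 3 * n) * ((x - n) * (4 * x - 13 * n)) ≤ 0 :=
          mul_nonpos_of_nonpos_of_nonneg (by linarith) h5
        linarith
    · rintro (⟨h2, h3⟩ | h2)
      · exact mul_pos (by linarith) (mul_pos_of_neg_of_neg (by linarith) (by linarith))
      · exact mul_pos (by linarith) (mul_pos (by linarith) (by linarith))
  have i1 : (fun t => -n * (p L Op Om 0 t - 5 / 12)) '' Ioo (0 : ℝ) (1 / 2) =
      Ioi (13 / 4 * n) := by
    have h2 : (fun t => -n * (p L Op Om 0 t - 5 / 12)) '' Ioo (0 : ℝ) (1 / 2) =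
        (fun v => -n * (v - 5 / 12)) '' (p L Op Om 0 '' Ioo (0 : ℝ) (1 / 2)) := by
      rw [image_image]
    rw [h2, (path1 h).2]
    ext v
    simp only [mem_image, mem_Iio, mem_Ioi]
    constructor
    · rintro ⟨w, hw, rfl⟩
      nlinarith
    · intro hv
      refine ⟨-(v / n) + 5 / 12, ?_, by field_simp; ring⟩
      have : 13 / 4 < v / n := by rw [lt_div_iff₀ hn]; exact hv
      linarith
  have i2 : (fun t => -n * (p L Op Om (1 / 2) t - 5 / 12)) '' Ioo (0 : ℝ) (1 / 2) =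
      Ioo (-3 * n) n := by
    have h2 : (fun t => -n * (p L Op Om (1 / 2) t - 5 / 12)) '' Ioo (0 : ℝ) (1 / 2) =
        (fun v => -n * (v - 5 / 12)) '' (p L Op Om (1 / 2) '' Ioo (0 : ℝ) (1 / 2)) := by
      rw [image_image]
    rw [h2, (path2 h).2]
    ext v
    simp only [mem_image, mem_Ioo]
    constructor
    · rintro ⟨w, ⟨hw1, hw2⟩, rfl⟩
      constructor <;> nlinarith
    · rintro ⟨hv1, hv2⟩
      refine ⟨-(v / n) + 5 / 12, ⟨?_, ?_⟩, by field_simp; ring⟩
      · have : v / n < 1 := by rw [div_lt_iff₀ hn]; linarith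
        linarith
      · have : -3 < v / n := by rw [lt_div_iff₀ hn]; linarith
        linarith
  obtain ⟨a1, b1⟩ := piece h 0 (Or.inl rfl) n hn f hf (path1 h).1
  obtain ⟨a2, b2⟩ := piece h (1 / 2) (Or.inr rfl) n hn f hf (path2 h).1
  rw [i1] at a1 b1
  rw [i2] at a2 b2
  rw [hset, setIntegral_union ?_ measurableSet_Ioi a2 a1, b1, b2]
  · ring
  · rw [Set.disjoint_left]
    rintro x ⟨-, hx1⟩ hx2
    have hx2 : 13 / 4 * n < x := hx2
    linarith

/-- `(2 y + a₁ x + a₃)²` of the equation of the twist -/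
theorem psi_W15 (D : ℤ) (hD : D % 4 = 1) (x : ℝ) :
    Y700.psi (T.W15 D) x = 4 * x ^ 3 + 5 * D * x ^ 2 - 38 * D ^ 2 * x - 39 * D ^ 3 := by
  obtain ⟨k, hk⟩ : ∃ k : ℤ, D = 4 * k + 1 := ⟨D / 4, by omega⟩
  have h1 : (5 * D - 1) / 4 = 5 * k + 1 := by omega
  have h2 : (19 * D ^ 2 + 1) / 2 = 152 * k ^ 2 + 76 * k + 10 := by
    have : 19 * D ^ 2 + 1 = (152 * k ^ 2 + 76 * k + 10) * 2 := by rw [hk]; ring
    rw [this, Int.mul_ediv_cancel _ (by norm_num)]
  have h3 : (39 * D ^ 3 + 1) / 4 = 624 * k ^ 3 + 468 * k ^ 2 + 117 * k + 10 := by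
    have : 39 * D ^ 3 + 1 = (624 * k ^ 3 + 468 * k ^ 2 + 117 * k + 10) * 4 := by rw [hk]; ring
    rw [this, Int.mul_ediv_cancel _ (by norm_num)]
  simp only [Y700.psi, T.W15, WeierstrassCurve.b₂, WeierstrassCurve.b₄, WeierstrassCurve.b₆, h1,
    h2, h3]
  rw [hk]
  push_cast
  ring

end Pool.Agent.XV.MT.OM

namespace Pool.Agent.XV.MT

theorem t_OM15 : S_OM15 := by
  intro L Op Om hOp hOm hg2 hg3 hL n hn
  have hn0 : (0 : ℝ) < n := by
    have : 0 < n := by omega
    exact_mod_cast this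
  have hD : (-(n : ℤ)) % 4 = 1 := by omega
  refine OM.core (L := L) (Op := Op) ⟨hOp, hOm, hg2, hg3, hL⟩ n hn0 _ fun x => ?_
  rw [OM.psi_W15 _ hD]
  push_cast
  ring

end Pool.Agent.XV.MT
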