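import Pool.Agent.XV.MT.Eta
import Pool.Agent.XV.Defs

/-!
Project XV, part T1 (modular side, helper59 and helper81): definitions and statements.
Every file of the chain `W97/MT` of `X_0(14)` has a counterpart for `X_0(15)`; all the statements
below are proved in separate files, with other statements as hypotheses.

Dictionary: `14 → 15`, `(2, 7) → (3, 5)`; `m14 → m15` (cusp `0`), `m7 → m5` (cusp `1/3`),
`m2 → m3` (cusp `1/5`).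
-/

set_option autoImplicit false

open UpperHalfPlane MatrixGroups CongruenceSubgroup Filter Topology MeasureTheory Set

namespace Pool.Agent.XV.MT

open Pool.Agent.W97.TW
open Pool.Agent.W97.MT (qq tt iI QV Rep affCount ap hecke prim S_INJ S_SUB S_SUP S_ODE S_HINT S_QEXP)

/-! ### independent statements -/

/-- CP: the constant principle on `X_0(15)` (port of `W646/MT/CP.lean`) -/
def S_CP : Prop := ∀ g : ℂ → ℂ, DifferentiableOn ℂ g {z : ℂ | 0 < z.im} →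
  (∀ a b c d : ℤ, a * d - b * (15 * c) = 1 → ∀ z : ℂ, 0 < z.im →
    g ((a * z + b) / (15 * c * z + d)) = g z) →
  (∃ B T : ℝ, ∀ z : ℂ, T < z.im → ‖g z‖ ≤ B) →
  (∃ B T : ℝ, 0 ≤ T ∧ ∀ z : ℂ, T < z.im → ‖g (-1 / (15 * z))‖ ≤ B) →
  (∃ B T : ℝ, 0 ≤ T ∧ ∀ z : ℂ, T < z.im → ‖g ((5 * z - 2) / (15 * z - 5))‖ ≤ B) →
  (∃ B T : ℝ, 0 ≤ T ∧ ∀ z : ℂ, T < z.im → ‖g ((3 * z + 1) / (15 * z + 6))‖ ≤ B) →
  ∃ c : ℂ, ∀ z : ℂ, 0 < z.im → g z = c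

/-- TORS: the cusps are torsion points of order dividing four (`℘ = x + 5/12`) -/
def S_TORS : Prop := ∀ L : PeriodPair, L.g₂ = 481 / 12 → L.g₃ = 4879 / 216 →
  ∀ u : ℂ, u ∉ L.lattice →
    (L.weierstrassP u = 101 / 12 → 2 * u ∉ L.lattice ∧ 4 * u ∈ L.lattice) ∧
    (L.weierstrassP u = -7 / 12 → 2 * u ∈ L.lattice) ∧
    (L.weierstrassP u = -19 / 12 → 4 * u ∈ L.lattice)

/-- LAT: the lattice is rectangular -/
def S_LAT : Prop := ∃ (L : PeriodPair) (Op Om : ℝ), 0 < Op ∧ 0 < Om ∧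
  L.g₂ = 481 / 12 ∧ L.g₃ = 4879 / 216 ∧
  ∀ w : ℂ, w ∈ L.lattice ↔ ∃ a b : ℤ, w = a * Op + b * Om * Complex.I

/-- HASSE: the coefficient of `q^p` modulo `p` -/
def S_HASSE : Prop := ∀ (p : ℕ) [Fact p.Prime], p ≠ 2 → ∀ φ ξ σ : PowerSeries (ZMod p),
  PowerSeries.constantCoeff ξ = 1 → PowerSeries.constantCoeff σ = -2 →
  PowerSeries.X * PowerSeries.derivative (ZMod p) ξ - 2 * ξ = φ * σ →
  σ ^ 2 = 4 * ξ ^ 3 - 7 * PowerSeries.X ^ 2 * ξ ^ 2 - 36 * PowerSeries.X ^ 4 * ξ →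
  PowerSeries.coeff (p - 1) φ = (ap E15 p : ZMod p)

/-- FOUR: four divides the number of points -/
def S_FOUR : Prop := ∀ (p : ℕ), p.Prime → p ≠ 2 → p ≠ 3 → p ≠ 5 → 4 ∣ affCount E15 p + 1

/-- MIN -/
def S_MIN : Prop := affCount E15 2 = 3 ∧ affCount E15 3 = 4 ∧ affCount E15 5 = 4 ∧
  ∀ p : ℕ, p.Prime → affCount E15 p ≤ 2 * p

/-! ### expansions -/

/-- the first fourteen coefficients of `xi` -/
def lxi : List ℤ := [1, 1, 2, 2, 4, 0, 2, -1, 3, -4, 2, -3, 1, -11]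

/-- the first fourteen coefficients of `ups` -/
def lups : List ℤ := [1, -2, -1, -2, 9, 4, -4, -6, -8, 0, -26, 22, 32, 42]

/-- the first fourteen coefficients of `phi` -/
def lphi : List ℤ := [1, -1, -1, -1, 1, 1, 0, 3, 1, -1, -4, 1, -2, 0]

/-- EXP: the expansions and their first coefficients (port of `W97/MT/QX.lean`, `expansions`) -/
def S_EXP : Prop := ∃ Ξ U P : PowerSeries ℤ, Rep xi Ξ ∧ Rep ups U ∧ Rep phi P ∧
  (∀ n : ℕ, n < 14 → PowerSeries.coeff n Ξ = lxi.getD n 0) ∧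
  (∀ n : ℕ, n < 14 → PowerSeries.coeff n U = lups.getD n 0) ∧
  (∀ n : ℕ, n < 14 → PowerSeries.coeff n P = lphi.getD n 0)

/-! ### cusps -/

/-- `z ↦ -1/(15z)` -/
noncomputable def m15 (z : ℂ) : ℂ := -1 / (15 * z)

/-- `z ↦ (5z-2)/(15z-5)` -/
noncomputable def m5 (z : ℂ) : ℂ := (5 * z - 2) / (15 * z - 5)

/-- `z ↦ (3z+1)/(15z+6)` -/
noncomputable def m3 (z : ℂ) : ℂ := (3 * z + 1) / (15 * z + 6)

/-- derivative of `m15` -/
noncomputable def j15 (z : ℂ) : ℂ := (15 * z ^ 2)⁻¹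

/-- derivative of `m5` -/
noncomputable def j5 (z : ℂ) : ℂ := (5 * (3 * z - 1) ^ 2)⁻¹

/-- derivative of `m3` -/
noncomputable def j3 (z : ℂ) : ℂ := (3 * (5 * z + 2) ^ 2)⁻¹

/-- the data at a cusp -/
structure IsCusp (m j : ℂ → ℂ) (x y : ℂ) : Prop where
  pos : ∀ z : ℂ, 0 < z.im → 0 < (m z).im
  der : ∀ z : ℂ, 0 < z.im → HasDerivAt m (j z) z
  jne : ∀ z : ℂ, 0 < z.im → j z ≠ 0
  jcont : ContinuousOn j {z : ℂ | 0 < z.im}
  ffj : ∀ z : ℂ, 0 < z.im → (ff (m z) * j z) ^ 2 = ff z ^ 2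
  X : QV (fun z => X1 (m z)) x
  Y : QV (fun z => Y2 (m z)) y

/-- CU15: the cusp `0`, up to the sign of `X1` (port of `W97/MT/{AL,Cusps}.lean`, `cusp14`) -/
def S_CU15 : Prop := IsCusp m15 j15 9 0 ∨ IsCusp m15 j15 (-9) 0

/-- CU5: the cusp `1/3`, up to the sign of `X1` (port of `W97/MT/{AL,Cusps}.lean`, `cusp7`) -/
def S_CU5 : Prop := IsCusp m5 j5 1 0 ∨ IsCusp m5 j5 (-1) 0

/-- CU3: the cusp `1/5` (port of `W97/MT/{AL,Cusps}.lean`, `cusp2`) -/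
def S_CU3 : Prop := IsCusp m3 j3 0 9

/-- CUSP -/
def S_CUSP : Prop := S_CU15 ∧ S_CU5 ∧ S_CU3

/-- invariance under `Γ_0(15)` -/
def Inv (g : ℂ → ℂ) : Prop := ∀ a b c d : ℤ, a * d - b * (15 * c) = 1 → ∀ z : ℂ, 0 < z.im →
  g ((a * z + b) / (15 * c * z + d)) = g z

/-- `dx / (2πi f dz)` -/
noncomputable def R0 (z : ℂ) : ℂ := deriv X1 z / (2 * Real.pi * Complex.I * ff z)

/-- `2y + x + 1` (up to sign) -/
noncomputable def RR (z : ℂ) : ℂ := (Y2 z - X1 z ^ 2 - 9) / 2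

/-- the identities (port of `W97/MT/Ident.lean`) -/
structure IdOK : Prop where
  x1inv : Inv X1
  rrsq : ∀ z : ℂ, 0 < z.im → RR z ^ 2 = 4 * X1 z ^ 3 - 7 * X1 z ^ 2 - 36 * X1 z
  dx1 : ∀ z : ℂ, 0 < z.im → deriv X1 z = 2 * Real.pi * Complex.I * ff z * RR z
  ffg : ∀ a b c d : ℤ, a * d - b * (15 * c) = 1 → ∀ z : ℂ, 0 < z.im →
    ff ((a * z + b) / (15 * c * z + d)) = (15 * c * z + d) ^ 2 * ff z
  c15 : IsCusp m15 j15 9 0
  c5 : IsCusp m5 j5 (-1) 0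
  c3 : IsCusp m3 j3 0 9

/-- ID1: the equation of the curve (port of `W97/MT/Ident.lean` up to `curve`, and of
`identity_one` in `W97/MT/QX.lean`) -/
def S_ID1 : Prop := S_CP → S_CUSP → S_EXP → ∀ z : ℂ, 0 < z.im →
  (Y2 z - X1 z ^ 2 - 9) ^ 2 + 28 * X1 z ^ 2 = 16 * (X1 z * (X1 z ^ 2 - 9))

/-- ID2: the rest of `W97/MT/Ident.lean` -/
def S_ID2 : Prop := S_CP → S_CUSP → S_EXP → (∀ z : ℂ, 0 < z.im →
  (Y2 z - X1 z ^ 2 - 9) ^ 2 + 28 * X1 z ^ 2 = 16 * (X1 z * (X1 z ^ 2 - 9))) → IdOK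

/-! ### the primitive -/

lemma phi_diff : DifferentiableOn ℂ phi (Metric.ball 0 1) := by
  have hd : ∀ d : ℕ, d ≠ 0 → DifferentiableOn ℂ (fun q => Q (q ^ d)) (Metric.ball 0 1) := by
    intro d hd
    refine Q_diff.comp (by fun_prop) ?_
    intro q hq
    rw [Metric.mem_ball, dist_zero_right] at hq ⊢
    rw [norm_pow]
    exact pow_lt_one₀ (norm_nonneg _) hq hd
  exact ((Q_diff.mul (hd 3 (by norm_num))).mul (hd 5 (by norm_num))).mul (hd 15 (by norm_num))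

lemma exists_Phi : ∃ Φ : ℂ → ℂ, Φ 0 = 0 ∧ ∀ q : ℂ, ‖q‖ < 1 → HasDerivAt Φ (phi q) q := by
  obtain ⟨g, h0, hg⟩ := phi_diff.isExactOn_ball.with_val_at 0 0
  exact ⟨g, h0, fun q hq => hg q (by simpa using hq)⟩

/-- the primitive of `phi` -/
noncomputable def Phi : ℂ → ℂ := exists_Phi.choose

lemma Phi_zero : Phi 0 = 0 := exists_Phi.choose_spec.1

lemma Phi_deriv {q : ℂ} (hq : ‖q‖ < 1) : HasDerivAt Phi (phi q) q := exists_Phi.choose_spec.2 q hq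

/-- the primitive of `2πi ff` -/
noncomputable def F (z : ℂ) : ℂ := Phi (qq z)

/-- a change of variable multiplying the form by a constant -/
structure IsMap (m j : ℂ → ℂ) : Prop where
  pos : ∀ z : ℂ, 0 < z.im → 0 < (m z).im
  der : ∀ z : ℂ, 0 < z.im → HasDerivAt m (j z) z
  jne : ∀ z : ℂ, 0 < z.im → j z ≠ 0
  jcont : ContinuousOn j {z : ℂ | 0 < z.im}
  ffj : ∀ z : ℂ, 0 < z.im → (ff (m z) * j z) ^ 2 = ff z ^ 2

lemma IsCusp.map {m j : ℂ → ℂ} {x y : ℂ} (h : IsCusp m j x y) : IsMap m j :=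
  ⟨h.pos, h.der, h.jne, h.jcont, h.ffj⟩

/-- the rational number `r` is `γ m (i∞)` -/
def Hit (r : ℂ) (m : ℂ → ℂ) : Prop := ∃ a b c d : ℤ, a * d - b * (15 * c) = 1 ∧
  ∃ K x : ℝ, 0 < K ∧ ∀ s : ℝ, 0 < s →
    (a * m (x + s * Complex.I) + b) / (15 * c * m (x + s * Complex.I) + d) =
      r + ((K * s)⁻¹ : ℝ) * Complex.I

/-- HIT: every rational number is equivalent to one of the four cusps
(port of `W97/MT/Rat.lean`) -/
def S_HIT : Prop := (∀ r : ℚ, Hit (r : ℂ) m15 ∨ Hit (r : ℂ) m5 ∨ Hit (r : ℂ) m3 ∨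
    Hit (r : ℂ) (fun z => z)) ∧
  ∀ r : ℚ, ¬ (3 : ℤ) ∣ r.den → ¬ (5 : ℤ) ∣ r.den → Hit (r : ℂ) m15

/-- the integral from `r` -/
noncomputable def II (r : ℚ) : ℂ :=
  2 * Real.pi * ∫ t in Ioi (0 : ℝ), ff ((r : ℂ) + t * Complex.I)

/-- the facts on the primitive and its limits (port of `W97/MT/{Prim,Hit}.lean`) -/
structure PrimOK : Prop where
  der : ∀ z : ℂ, 0 < z.im → HasDerivAt F (2 * Real.pi * Complex.I * ff z) z
  qv : QV F 0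
  sign : ∀ m j : ℂ → ℂ, IsMap m j → ∃ ε : ℂ, (ε = 1 ∨ ε = -1) ∧
    ∀ z : ℂ, 0 < z.im → ff (m z) * j z = ε * ff z
  const : ∀ m j : ℂ → ℂ, IsMap m j → ∃ ε C : ℂ, (ε = 1 ∨ ε = -1) ∧
    (∀ z : ℂ, 0 < z.im → ff (m z) * j z = ε * ff z) ∧ ∀ z : ℂ, 0 < z.im → F (m z) = ε * F z + C
  gam : ∀ a b c d : ℤ, a * d - b * (15 * c) = 1 →
    ∃ p : ℂ, ∀ z : ℂ, 0 < z.im → F ((a * z + b) / (15 * c * z + d)) = F z + p
  hit : ∀ m j : ℂ → ℂ, IsMap m j → ∀ C : ℂ, Tendsto (fun z => F (m z)) iI (𝓝 C) → ∀ r : ℂ,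
    r.im = 0 → Hit r m → IntegrableOn (fun t : ℝ => ff (r + t * Complex.I)) (Ioi 0) ∧
    ∃ a b c d : ℤ, a * d - b * (15 * c) = 1 ∧ ∃ p : ℂ,
      (∀ z : ℂ, 0 < z.im → F ((a * z + b) / (15 * c * z + d)) = F z + p) ∧
      2 * Real.pi * ∫ t in Ioi (0 : ℝ), ff (r + t * Complex.I) = C + p
  line : ∀ z : ℂ, 0 ≤ z.im → ∀ C : ℂ,
    IntegrableOn (fun t : ℝ => ff (z + t * Complex.I)) (Ioi 0) →
    Tendsto (fun t : ℝ => F (z + t * Complex.I)) (𝓝[>] 0) (𝓝 C) →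
    2 * Real.pi * ∫ t in Ioi (0 : ℝ), ff (z + t * Complex.I) = C
  lint : ∀ z : ℂ, 0 < z.im → IntegrableOn (fun t : ℝ => ff (z + t * Complex.I)) (Ioi 0)
  llim : ∀ z : ℂ, Tendsto (fun t : ℝ => F (z + t * Complex.I)) atTop (𝓝 0)

/-- PRIM -/
def S_PRIM : Prop := IdOK → PrimOK

/-! ### the lattice -/

/-- `p` is a period -/
def IsPer (p : ℂ) : Prop := ∃ a b c d : ℤ, a * d - b * (15 * c) = 1 ∧
  ∀ z : ℂ, 0 < z.im → F ((a * z + b) / (15 * c * z + d)) = F z + p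

/-- WP: the parametrisation (port of `W97/MT/Lat.lean`, `near_inf`, `wp_F`) -/
def S_WP : Prop := S_EXP → IdOK → PrimOK → S_ODE → ∀ L : PeriodPair, L.g₂ = 481 / 12 →
  L.g₃ = 4879 / 216 → ∀ z : ℂ, 0 < z.im →
    F z ∉ L.lattice ∧ L.weierstrassP (F z) = X1 z - 7 / 12

/-- the facts on the integrals -/
structure IntOK (L : PeriodPair) : Prop where
  i1 : II 0 ∉ L.lattice
  i2 : 2 * II 0 ∉ L.lattice
  i4 : 4 * II 0 ∈ L.lattice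
  int : ∀ r : ℚ, IntegrableOn (fun t : ℝ => ff ((r : ℂ) + t * Complex.I)) (Ioi 0)
  four : ∀ r : ℚ, 4 * II r ∈ L.lattice
  cop : ∀ r : ℚ, ¬ (3 : ℤ) ∣ r.den → ¬ (5 : ℤ) ∣ r.den → II r - II 0 ∈ L.lattice

/-- INT: the integrals (port of `W97/MT/Lat.lean`, `period_mem`, `cusp_value`, `integrals`);
the parametrisation is a hypothesis -/
def S_INT : Prop := IdOK → PrimOK → S_HIT → S_INJ → S_TORS → ∀ L : PeriodPair,
  L.g₂ = 481 / 12 → L.g₃ = 4879 / 216 →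
  (∀ z : ℂ, 0 < z.im → F z ∉ L.lattice ∧ L.weierstrassP (F z) = X1 z - 7 / 12) → IntOK L

/-- OPT: optimality (port of `W97/MT/Opt.lean`); the parametrisation is a hypothesis -/
def S_OPT : Prop := S_CP → IdOK → PrimOK → S_INJ → S_SUB → ∀ L : PeriodPair,
  L.g₂ = 481 / 12 → L.g₃ = 4879 / 216 →
  (∀ z : ℂ, 0 < z.im → F z ∉ L.lattice ∧ L.weierstrassP (F z) = X1 z - 7 / 12) →
  ∀ w : ℂ, w ∈ L.lattice ↔ IsPer w

/-! ### the form -/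

/-- FORM: the cusp form (port of `W97/MT/Form.lean`) -/
def S_FORM : Prop := IdOK → ∃ f : CuspForm (Gamma0 15 : Subgroup (GL (Fin 2) ℝ)) 2,
  ∀ z : ℍ, f z = ff z

/-- DIM: `dim S_2(Γ_0(15)) = 1` (port of `W97/MT/Dim.lean`) -/
def S_DIM : Prop := S_CP → IdOK → PrimOK →
  ∀ g : CuspForm (Gamma0 15 : Subgroup (GL (Fin 2) ℝ)) 2, ∃ c : ℂ, ∀ z : ℍ, g z = c * ff z

/-- COEF: the Hecke operators and the expansion of the form (port of `W97/MT/Coef.lean`, first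
part) -/
def S_COEF : Prop := S_DIM → S_CP → IdOK → PrimOK →
  ∀ f : CuspForm (Gamma0 15 : Subgroup (GL (Fin 2) ℝ)) 2, (∀ z : ℍ, f z = ff z) →
  ∀ P : PowerSeries ℤ, Rep phi P →
  (∀ n : ℕ, (qExpansion 1 f).coeff n = ((PowerSeries.coeff n (PowerSeries.X * P) : ℤ) : ℂ)) ∧
  (PowerSeries.coeff 0 P = 1 → ∀ p : ℕ, p.Prime → ∀ z : ℍ,
    hecke 15 p f z = ((PowerSeries.coeff (p - 1) P : ℤ) : ℂ) * f z)

/-- CMOD: the coefficients modulo `p` (port of `W97/MT/Coef.lean`, `formal`, `coeff_mod`) -/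
def S_CMOD : Prop := IdOK → S_HASSE → ∀ Ξ U P : PowerSeries ℤ, Rep xi Ξ → Rep ups U → Rep phi P →
  (∀ n : ℕ, n < 14 → PowerSeries.coeff n Ξ = lxi.getD n 0) →
  (∀ n : ℕ, n < 14 → PowerSeries.coeff n U = lups.getD n 0) →
  ∀ p : ℕ, p.Prime → p ≠ 2 → ((PowerSeries.coeff (p - 1) P : ℤ) : ZMod p) = (ap E15 p : ZMod p)

/-- the facts on the form and the integrals that are used for the symbols and the `L`-functions;
`L` is the lattice -/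
structure FormOK (f : CuspForm (Gamma0 15 : Subgroup (GL (Fin 2) ℝ)) 2) : Prop where
  val : ∀ z : ℍ, f z = ff z
  int : ∀ n : ℕ, ∃ c : ℤ, (qExpansion 1 f).coeff n = (c : ℂ)
  one : (qExpansion 1 f).coeff 1 = 1
  ap : ∀ l : ℕ, l.Prime → (qExpansion 1 f).coeff l = (Pool.Agent.W97.MT.ap E15 l : ℂ)
  hec : ∀ p : ℕ, p.Prime → ∀ z : ℍ, hecke 15 p f z = (Pool.Agent.W97.MT.ap E15 p : ℂ) * f z

/-- CEQ: the coefficients of the form are the `a_p` of the curve (port of `W97/MT/Fin.lean`,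
`coef_eq`, with `4` in place of `6`, and of `TH940/Inst.lean`, `facts`) -/
def S_CEQ : Prop := S_EXP → S_COEF → S_DIM → S_CP → S_CMOD → S_HASSE → S_FOUR → S_MIN → S_SUP →
  S_HINT → IdOK → PrimOK →
  (∃ L : PeriodPair, IntOK L) →
  ∀ f : CuspForm (Gamma0 15 : Subgroup (GL (Fin 2) ℝ)) 2, (∀ z : ℍ, f z = ff z) → FormOK f

/-- the symmetries of the integrals -/
structure IIOK : Prop where
  conj : ∀ r : ℚ, II (-r) = starRingEnd ℂ (II r)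
  per : ∀ r : ℚ, II (r + 1) = II r
  im0 : (II 0).im = 0
  aff : ∀ A B C D : ℤ, A * D - B * (15 * C) = 1 → ∀ x c : ℤ, IsCoprime (15 * x) c →
    II (((A * x + B * c : ℤ) : ℚ) / ((15 * C * x + D * c : ℤ) : ℚ)) =
      II ((x : ℚ) / c) + II ((B : ℚ) / D) - II 0
  lim : ∀ (a : ℤ) (c : ℕ), 0 < c → IsCoprime (15 * a) (c : ℤ) →
    Tendsto (fun t : ℝ => F ((a : ℂ) / c + t * Complex.I)) (𝓝[>] 0) (𝓝 (II ((a : ℚ) / c)))
  pval : ∀ A B C D : ℤ, A * D - B * (15 * C) = 1 → ∀ p : ℂ,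
    (∀ z : ℂ, 0 < z.im → F ((A * z + B) / (15 * C * z + D)) = F z + p) →
    p = II ((B : ℚ) / D) - II 0
  hec : ∀ q : ℕ, q.Prime → ¬ q ∣ 15 → ∀ x : ℚ,
    (ap E15 q : ℂ) * II x = II (q * x) + ∑ b ∈ Finset.range q, II ((x + b) / q)

/-- SYM: port of `W97/MT/Asm.lean` (`II_conj`, ...), `Y687/Sym.lean` (`F_tendsto`),
`Y687/K2/Aff.lean` (`II_aff`), `Y687/N/SymM.lean` (`II_hecke`) -/
def S_SYM : Prop := S_EXP → S_HINT → IdOK → PrimOK → (∃ L : PeriodPair, IntOK L) →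
  (∃ f : CuspForm (Gamma0 15 : Subgroup (GL (Fin 2) ℝ)) 2, FormOK f) → IIOK

/-! ### the results -/

open Classical in
/-- UOD0: an odd cocycle which vanishes at `5/16` and at `1/4` vanishes -/
def S_UOD0 : Prop := ∀ f : ℤ → ℤ → ℤ, Coc f → (∀ x M : ℤ, f (-x) M = - f x M) → f 5 16 = 0 →
  f 1 4 = 0 → ∀ x M : ℤ, 0 < M → IsCoprime (15 * x) M → f x M = 0

/-- G1: the odd symbol -/
def S_G1 : Prop := ∃ (t sp sm : ℚ → ℤ) (Op Om : ℝ), 0 < Op ∧ 0 < Om ∧ (∀ r, t r = sp r + sm r) ∧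
  (∀ r : ℚ, (4 : ℂ) * II r = sp r * Op + sm r * Om * Complex.I) ∧
  (∀ r, sp (-r) = sp r) ∧ (∀ r, sp (r + 1) = sp r) ∧ SyM sm (fun q => ap E15 q) ∧ sm (1 / 4) ≠ 0

/-- SM: assembly of G1 (port of `Y687/N/SymM.lean`) -/
def S_SM : Prop := S_LAT → S_MIN → S_CM → S_UOD0 → PrimOK → IIOK →
  (∀ L : PeriodPair, L.g₂ = 481 / 12 → L.g₃ = 4879 / 216 → IntOK L ∧
    ∀ w : ℂ, w ∈ L.lattice ↔ IsPer w) → S_G1

/-- the Euler factor of `y² = x³ + A x + B` -/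
noncomputable def fac (A B : ℤ) (s : ℂ) (p : ℕ) : ℂ :=
  ((1 : ℂ)
            - ((((p : ℤ) - (Nat.card {q : ZMod p × ZMod p //
                  q.2 ^ 2 = q.1 ^ 3 + (A : ZMod p) * q.1 + (B : ZMod p)} : ℤ)) : ℤ) : ℂ)
                * ((p : ℂ) ^ (-s))
            + (p : ℂ) ^ (1 - 2 * s))⁻¹

/-- the facts on the coefficients and the Fricke involution -/
structure NewOK (f : CuspForm (Gamma0 15 : Subgroup (GL (Fin 2) ℝ)) 2) : Prop where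
  mul : ∀ m n : ℕ, Nat.Coprime m n →
    (qExpansion 1 f).coeff (m * n) = (qExpansion 1 f).coeff m * (qExpansion 1 f).coeff n
  pow : ∀ p j : ℕ, p.Prime → (qExpansion 1 f).coeff (p ^ (j + 2)) =
    (qExpansion 1 f).coeff p * (qExpansion 1 f).coeff (p ^ (j + 1)) -
      (if p ∣ 15 then 0 else (p : ℂ) * (qExpansion 1 f).coeff (p ^ j))
  fricke : ∃ w : ℝ, (w = 1 ∨ w = -1) ∧ ∀ τ τ' : ℍ, (τ' : ℂ) * ((15 : ℂ) * (τ : ℂ)) = -1 →
    f τ' = -(w : ℂ) * (15 : ℂ) * (τ : ℂ) ^ 2 * f τ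
  good : ∀ l : ℕ, l.Prime → ¬ l ∣ 15 → ‖(qExpansion 1 f).coeff l‖ ≤ 2 * Real.sqrt l
  bad : ∀ l : ℕ, l.Prime → l ∣ 15 → ‖(qExpansion 1 f).coeff l‖ ≤ 1

/-- CARD: the number of points on the short equation (port of `TH940/Inst.lean`, `points_card`) -/
def S_PCARD : Prop := ∀ l : ℕ, l.Prime → l ≠ 2 → l ≠ 3 → Nat.card {x : ZMod l × ZMod l //
      x.2 ^ 2 = x.1 ^ 3 + ((-12987 : ℤ) : ZMod l) * x.1 + ((-263466 : ℤ) : ZMod l)} =
    affCount E15 l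

/-- INST: port of `TH940/Inst.lean` -/
def S_INST : Prop := S_MIN → S_PCARD → IdOK → PrimOK →
  ∀ f : CuspForm (Gamma0 15 : Subgroup (GL (Fin 2) ℝ)) 2, FormOK f → NewOK f

/-- LFN: the twisted `L`-functions (port of `Y687/{Lval,Lval2}.lean`, `exists_L`) -/
def S_LFN : Prop := PrimOK → IIOK →
  (∃ f : CuspForm (Gamma0 15 : Subgroup (GL (Fin 2) ℝ)) 2, FormOK f ∧ NewOK f) →
  ∀ (q : ℕ) [NeZero q], Nat.Coprime q 15 → ∀ χ : DirichletCharacter ℂ q, χ.IsPrimitive →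
    ∃ g : ℂ → ℂ, Differentiable ℂ g ∧
      (∀ s : ℂ, 3 / 2 < s.re → HasProd (fun p : Nat.Primes =>
        (1 - (ap E15 p : ℂ) * χ p * (p : ℂ) ^ (-s) +
          (if (p : ℕ) ∣ 15 then 0 else (p : ℂ)) * (χ p) ^ 2 * (p : ℂ) ^ (-2 * s))⁻¹) (g s)) ∧
      gaussSum χ⁻¹ (ZMod.stdAddChar (N := q)) * g 1 =
        ∑ u : (ZMod q)ˣ, χ⁻¹ (u : ZMod q) * II (((u : ZMod q).val : ℚ) / q)

/-- G2: non-vanishing of the central value if the sum of the symbols does not vanish -/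
def S_G2 : Prop := ∀ D : ℤ, Squarefree D → 1 < D.natAbs → D % 4 = 1 →
    Nat.Coprime D.natAbs 30 → ∀ (t sp sm : ℚ → ℤ) (Op Om : ℝ), 0 < Op → 0 < Om →
    (∀ r, t r = sp r + sm r) →
    (∀ r : ℚ, (4 : ℂ) * II r = sp r * Op + sm r * Om * Complex.I) →
    Pool.Agent.Y687.SS t D.natAbs D.natAbs ≠ 0 →
    ∃ f : ℂ → ℂ, Differentiable ℂ f ∧
      (∀ s : ℂ, (3 : ℝ) / 2 < s.re →
        HasProd (fun p : {p : ℕ // p.Prime ∧
            ¬ ((p : ℤ) ∣ 2 * (4 * (-12987 * D ^ 2) ^ 3 + 27 * (-263466 * D ^ 3) ^ 2))} =>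
          fac (-12987 * D ^ 2) (-263466 * D ^ 3) s p) (f s)) ∧ f 1 ≠ 0

/-- LEN: port of `Y687/{Lfin,K4/LfinT}.lean` (`exists_f_neD`) -/
def S_LEN : Prop := S_MIN → S_PCARD →
  (∀ (q : ℕ) [NeZero q], Nat.Coprime q 15 → ∀ χ : DirichletCharacter ℂ q, χ.IsPrimitive →
    ∃ g : ℂ → ℂ, Differentiable ℂ g ∧
      (∀ s : ℂ, 3 / 2 < s.re → HasProd (fun p : Nat.Primes =>
        (1 - (ap E15 p : ℂ) * χ p * (p : ℂ) ^ (-s) +
          (if (p : ℕ) ∣ 15 then 0 else (p : ℂ)) * (χ p) ^ 2 * (p : ℂ) ^ (-2 * s))⁻¹) (g s)) ∧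
      gaussSum χ⁻¹ (ZMod.stdAddChar (N := q)) * g 1 =
        ∑ u : (ZMod q)ˣ, χ⁻¹ (u : ZMod q) * II (((u : ZMod q).val : ℚ) / q)) → S_G2

end Pool.Agent.XV.MT
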