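import Pool.Agent.XV.MT.Sk
import Pool.Agent.W598.MT.QEXP

/-!
XV-T1-EXP (helper51): the first coefficients of the expansions, level 15. The list machinery for
fourteen coefficients (`Tr`, `mulL`, ...) is in the namespace `Pool.Agent.XV.MT.EXP`.
-/

set_option autoImplicit false

open PowerSeries

namespace Pool.Agent.XV.MT

open Pool.Agent.W97.TW
open Pool.Agent.W97.MT

namespace EXP

/-- the first fourteen coefficients of the power series are given by the list -/
def Tr (A : ℤ⟦X⟧) (a : List ℤ) : Prop := ∀ n : ℕ, n < 14 → coeff n A = a.getD n 0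

/-- product -/
def mulL (a b : List ℤ) : List ℤ := (List.range 14).map fun n =>
  ((List.range (n + 1)).map fun i => a.getD i 0 * b.getD (n - i) 0).sum

/-- sum -/
def addL (a b : List ℤ) : List ℤ := (List.range 14).map fun n => a.getD n 0 + b.getD n 0

/-- difference -/
def subL (a b : List ℤ) : List ℤ := (List.range 14).map fun n => a.getD n 0 - b.getD n 0

/-- `q d/dq` -/
def thL (a : List ℤ) : List ℤ := (List.range 14).map fun n => n * a.getD n 0

/-- dilation -/
def dilL (d : ℕ) (a : List ℤ) : List ℤ := (List.range 14).map fun n =>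
  if n % d = 0 then a.getD (n / d) 0 else 0

lemma getD_map_range (f : ℕ → ℤ) {n : ℕ} (hn : n < 14) : ((List.range 14).map f).getD n 0 = f n := by
  rw [List.getD_eq_getElem?_getD, List.getElem?_map, List.getElem?_range hn]
  simp

lemma list_sum_range (n : ℕ) (f : ℕ → ℤ) :
    ((List.range n).map f).sum = ∑ i ∈ Finset.range n, f i := by
  induction n with
  | zero => simp
  | succ n ih => rw [List.range_succ, List.map_append, List.sum_append, ih, Finset.sum_range_succ]; simp

namespace Tr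

variable {A B W : ℤ⟦X⟧} {a b w : List ℤ}

lemma mul (hA : Tr A a) (hB : Tr B b) : Tr (A * B) (mulL a b) := by
  intro n hn
  unfold mulL
  rw [getD_map_range _ hn, coeff_mul, Finset.Nat.sum_antidiagonal_eq_sum_range_succ_mk,
    list_sum_range]
  refine Finset.sum_congr rfl fun i hi => ?_
  have hi' : i < n + 1 := by simpa using hi
  dsimp only
  rw [hA i (by omega), hB (n - i) (by omega)]

lemma add (hA : Tr A a) (hB : Tr B b) : Tr (A + B) (addL a b) := by
  intro n hn
  unfold addL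
  rw [getD_map_range _ hn, map_add, hA n hn, hB n hn]

lemma sub (hA : Tr A a) (hB : Tr B b) : Tr (A - B) (subL a b) := by
  intro n hn
  unfold subL
  rw [getD_map_range _ hn, map_sub, hA n hn, hB n hn]

lemma theta (hA : Tr A a) : Tr (PowerSeries.X * PowerSeries.derivative ℤ A) (thL a) := by
  intro n hn
  unfold thL
  rw [getD_map_range _ hn]
  cases n with
  | zero => simp
  | succ n => 
    rw [coeff_succ_X_mul, coeff_derivative, hA (n + 1) hn]
    push_cast
    ring

lemma C (c : ℤ) : Tr (PowerSeries.C c) [c] := by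
  intro n hn
  rw [coeff_C]
  cases n with
  | zero => simp
  | succ n => simp

lemma X : Tr PowerSeries.X [0, 1] := by
  intro n hn
  rw [coeff_X]
  match n with
  | 0 => simp
  | 1 => simp
  | n + 2 => simp

lemma expand (hA : Tr A a) {d : ℕ} (hd : d ≠ 0) : Tr (PowerSeries.expand d hd A) (dilL d a) := by
  intro n hn
  unfold dilL
  rw [getD_map_range _ hn]
  split_ifs with h
  · obtain ⟨m, rfl⟩ := Nat.dvd_of_mod_eq_zero h
    have hd' : 0 < d := Nat.pos_of_ne_zero hd
    rw [coeff_expand_mul, Nat.mul_div_cancel_left _ hd']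
    exact hA m (by nlinarith)
  · rw [coeff_expand_of_not_dvd]
    intro h'
    exact h (Nat.mod_eq_zero_of_dvd h')

lemma one : Tr 1 [1] := by
  have := C 1
  rwa [map_one] at this

/-- power -/
def powL (a : List ℤ) : ℕ → List ℤ
  | 0 => [1]
  | n + 1 => mulL (powL a n) a

lemma pow (hA : Tr A a) (n : ℕ) : Tr (A ^ n) (powL a n) := by
  induction n with
  | zero => rw [pow_zero]; exact one
  | succ n ih => rw [pow_succ]; exact ih.mul hA

lemma congr (hA : Tr A a) (h : a = b) : Tr A b := h ▸ hA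

/-- the polynomial of a list -/
def ofL (a : List ℤ) : ℤ⟦X⟧ := PowerSeries.mk fun n => a.getD n 0

lemma ofL' (a : List ℤ) : Tr (ofL a) a := fun n _ => by rw [ofL, coeff_mk]

lemma dvd_iff : Tr A a ↔ PowerSeries.X ^ 14 ∣ A - ofL a := by
  rw [PowerSeries.X_pow_dvd_iff]
  unfold ofL
  simp only [map_sub, coeff_mk, sub_eq_zero]
  rfl

lemma cancel (hAW : Tr (A * W) b) (hW : Tr W w) (h1 : constantCoeff W = 1)
    (h : mulL a w = b) : Tr A a := by
  have hu : IsUnit W := by
    rw [PowerSeries.isUnit_iff_constantCoeff, h1]; exact isUnit_one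
  rw [dvd_iff]
  rw [← hu.dvd_mul_right, sub_mul, PowerSeries.X_pow_dvd_iff]
  intro m hm
  rw [map_sub, hAW m hm, ((ofL' a).mul hW) m hm, h, sub_self]

lemma of_eq (hA : Tr A a) (h : A = B) : Tr B a := h ▸ hA

lemma dvd_of_zero (hA : Tr A (List.replicate 14 0)) : PowerSeries.X ^ 14 ∣ A := by
  rw [PowerSeries.X_pow_dvd_iff]
  intro m hm
  rw [hA m hm]
  interval_cases m <;> rfl

end Tr

/-- list of Euler's product -/
def l1 : List ℤ := [1, -1, -1, 0, 0, 1, 0, 1, 0, 0, 0, 0, -1, 0]

lemma tr_euler {φ : ℤ⟦X⟧} (h : PowerSeries.X ^ 14 ∣ φ - (1 - PowerSeries.X - PowerSeries.X ^ 2 +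
    PowerSeries.X ^ 5 + PowerSeries.X ^ 7 - PowerSeries.X ^ 12)) : Tr φ l1 := by
  rw [PowerSeries.X_pow_dvd_iff] at h
  intro n hn
  have := h n (by omega)
  rw [map_sub, sub_eq_zero] at this
  rw [this]
  simp only [map_sub, map_add, coeff_one, coeff_X, coeff_X_pow]
  interval_cases n <;> norm_num [l1]

end EXP

open EXP in
theorem t_EXP : S_EXP := by
  obtain ⟨φ, h1, hr, hx⟩ := Pool.Agent.W598.MT.s_qexp
  have hR : Rep Q φ := fun q hq => by
    have := hr q hq
    simpa [Q] using this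
  have t1 := tr_euler hx
  have three : (3 : ℕ) ≠ 0 := by norm_num
  have five : (5 : ℕ) ≠ 0 := by norm_num
  have ft : (15 : ℕ) ≠ 0 := by norm_num
  have r3 := hR.expand 3 three
  have r5 := hR.expand 5 five
  have r15 := hR.expand 15 ft
  have t3 := t1.expand three
  have t5 := t1.expand five
  have t15 := t1.expand ft
  set E3 := PowerSeries.expand 3 three φ with hE3
  set E5 := PowerSeries.expand 5 five φ with hE5
  set E15 := PowerSeries.expand 15 ft φ with hE15
  have c15 : constantCoeff E15 = 1 := by rw [hE15]; simpa using h1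
  have hinv : ∀ E : ℤ⟦X⟧, constantCoeff E = 1 → ∃ V : ℤ⟦X⟧, E * V = 1 := fun E hE => by
    have hu : IsUnit E := by
      rw [PowerSeries.isUnit_iff_constantCoeff, hE]; exact isUnit_one
    exact hu.exists_right_inv
  obtain ⟨V1, hV1⟩ := hinv φ h1
  obtain ⟨V5, hV5⟩ := hinv (E15 ^ 5) (by rw [map_pow, c15, one_pow])
  obtain ⟨V8, hV8⟩ := hinv (E15 ^ 8) (by rw [map_pow, c15, one_pow])
  have i1 := hR.inv hV1 fun q hq => Q_ne hq
  have i5 := (r15.pow 5).inv hV5 fun q hq => pow_ne_zero _ (Q_ne_pow hq ft)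
  have i8 := (r15.pow 8).inv hV8 fun q hq => pow_ne_zero _ (Q_ne_pow hq ft)
  refine ⟨V1 * E3 * E5 ^ 5 * V5, φ ^ 2 * E3 ^ 4 * E5 ^ 2 * V8, φ * E3 * E5 * E15, ?_, ?_, ?_, ?_, ?_, ?_⟩
  · exact ((i1.mul r3).mul (r5.pow 5)).mul i5
  · exact (((hR.pow 2).mul (r3.pow 4)).mul (r5.pow 2)).mul i8
  · exact ((hR.mul r3).mul r5).mul r15
  · refine Tr.cancel (W := φ * E15 ^ 5) (b := mulL (dilL 3 l1) (Tr.powL (dilL 5 l1) 5)) ?_
      (t1.mul (t15.pow 5)) (by rw [map_mul, map_pow, h1, c15]; norm_num) (by decide +kernel)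
    refine (t3.mul (t5.pow 5)).of_eq ?_
    linear_combination (-(E3 * E5 ^ 5 * (V5 * E15 ^ 5))) * hV1 - E3 * E5 ^ 5 * hV5
  · refine Tr.cancel (W := E15 ^ 8)
      (b := mulL (mulL (Tr.powL l1 2) (Tr.powL (dilL 3 l1) 4)) (Tr.powL (dilL 5 l1) 2)) ?_
      (t15.pow 8) (by rw [map_pow, c15]; norm_num)
      (by decide +kernel)
    refine (((t1.pow 2).mul (t3.pow 4)).mul (t5.pow 2)).of_eq ?_
    linear_combination (-(φ ^ 2 * E3 ^ 4 * E5 ^ 2)) * hV8
  · exact (((t1.mul t3).mul t5).mul t15).congr (by decide +kernel)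

end Pool.Agent.XV.MT
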