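import Pool.Agent.XV.MT.Sk

/-!
Project XV, part T1, CEQ: the coefficients of the form are the `a_p` of the curve
(port of `W97/MT/Fin.lean` and of `TH940/Inst.lean`, `facts`).
-/

set_option autoImplicit false

open UpperHalfPlane MatrixGroups CongruenceSubgroup Filter Topology MeasureTheory

namespace Pool.Agent.XV.MT

namespace CEQ

open Pool.Agent.W97.TW
open Pool.Agent.W97.MT (qq tt iI QV Rep affCount ap hecke prim S_INJ S_SUB S_SUP S_ODE S_HINT
  S_QEXP im_mul)

/-- an integer multiple of a point of order four -/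
lemma four_dvd (L : PeriodPair) (x : ℂ) (h2 : 2 * x ∉ L.lattice)
    (h4 : 4 * x ∈ L.lattice) (n : ℤ) (hn : (n : ℂ) * x ∈ L.lattice) : (4 : ℤ) ∣ n := by
  have key : ∀ m k : ℤ, (m : ℂ) * x ∈ L.lattice → ((k * m : ℤ) : ℂ) * x ∈ L.lattice := by
    intro m k hm
    have := L.lattice.smul_mem k hm
    rw [zsmul_eq_mul] at this
    push_cast
    rwa [mul_assoc]
  have h4' : ((4 : ℤ) : ℂ) * x ∈ L.lattice := by exact_mod_cast h4
  have hr : ((n % 4 : ℤ) : ℂ) * x ∈ L.lattice := by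
    have h1 := sub_mem hn (key 4 (n / 4) h4')
    have h2 : ((n % 4 : ℤ) : ℂ) * x = (n : ℂ) * x - ((n / 4 * 4 : ℤ) : ℂ) * x := by
      have : (n % 4 : ℤ) = n - n / 4 * 4 := by omega
      rw [this]; push_cast; ring
    rw [h2]; exact h1
  have hn2 : ¬ ((2 : ℤ) : ℂ) * x ∈ L.lattice := by exact_mod_cast h2
  have hcases : n % 4 = 0 ∨ n % 4 = 1 ∨ n % 4 = 2 ∨ n % 4 = 3 := by omega
  rcases hcases with h | h | h | h
  · omega
  · rw [h] at hr; exact absurd (key 1 2 hr) hn2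
  · rw [h] at hr; exact absurd hr hn2
  · rw [h] at hr
    have := key 3 2 hr
    have h7 := sub_mem this h4'
    refine absurd ?_ hn2
    convert h7 using 1
    push_cast; ring

lemma ff_ne {z : ℂ} (hz : 0 < z.im) : ff z ≠ 0 := by
  unfold ff
  have e : ∀ w : ℂ, 0 < w.im → ModularForm.eta w ≠ 0 := fun w hw =>
    ModularForm.eta_ne_zero hw
  exact mul_ne_zero (mul_ne_zero (mul_ne_zero (e _ hz) (e _ (im_mul hz 3 (by norm_num))))
    (e _ (im_mul hz 5 (by norm_num)))) (e _ (im_mul hz 15 (by norm_num)))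

lemma line_im (z : ℂ) (t : ℝ) : (z + t * Complex.I).im = z.im + t := by simp

section form

variable (f : CuspForm (Gamma0 15 : Subgroup (GL (Fin 2) ℝ)) 2) (hf : ∀ z : ℍ, f z = ff z)
include hf

lemma form_of {w : ℂ} (hw : 0 < w.im) : f (ofComplex w) = ff w := by
  rw [hf, ofComplex_apply_of_im_pos hw]

lemma line_eq (z : ℂ) (hz : 0 ≤ z.im) : Set.EqOn
    (fun t : ℝ => f (ofComplex (z + t * Complex.I))) (fun t : ℝ => ff (z + t * Complex.I))
    (Set.Ioi 0) := by
  intro t ht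
  have ht' : 0 < t := ht
  exact form_of f hf (by rw [line_im]; linarith)

lemma prim_rat (r : ℚ) : prim f (r : ℂ) = II r := by
  unfold prim II
  rw [setIntegral_congr_fun measurableSet_Ioi (line_eq f hf r (by simp))]

/-- the coefficients of the form and of the curve -/
theorem coef_eq (hcoef : S_COEF) (hdim : S_DIM) (hcp : S_CP) (hcm : S_CMOD) (hasse : S_HASSE)
    (hfour : S_FOUR) (hmin : S_MIN) (hsup : S_SUP) (hhint : S_HINT) (hid : IdOK) (hpr : PrimOK)
    (L : PeriodPair) (hL : IntOK L)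
    {P Ξ U : PowerSeries ℤ} (rΞ : Rep xi Ξ) (rU : Rep ups U) (rP : Rep phi P)
    (tΞ : ∀ n : ℕ, n < 14 → PowerSeries.coeff n Ξ = lxi.getD n 0)
    (tU : ∀ n : ℕ, n < 14 → PowerSeries.coeff n U = lups.getD n 0)
    (tP : ∀ n : ℕ, n < 14 → PowerSeries.coeff n P = lphi.getD n 0) {l : ℕ} (hl : l.Prime) :
    PowerSeries.coeff (l - 1) P = ap E15 l := by
  obtain ⟨m2, m3, m5, mb⟩ := hmin
  have hP0 : PowerSeries.coeff 0 P = 1 := by
    rw [tP 0 (by norm_num)]; rfl
  by_cases l2 : l = 2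
  · subst l2
    rw [tP 1 (by norm_num)]
    unfold ap; rw [m2]; rfl
  by_cases l3 : l = 3
  · subst l3
    rw [tP 2 (by norm_num)]
    unfold ap; rw [m3]; rfl
  by_cases l5 : l = 5
  · subst l5
    rw [tP 4 (by norm_num)]
    unfold ap; rw [m5]; rfl
  have h7 : 6 ≤ l := by
    have := hl.two_le
    by_contra h
    have : l = 4 := by omega
    rw [this] at hl
    norm_num at hl
  set A : ℤ := PowerSeries.coeff (l - 1) P with hA
  have hH : ∀ z : ℍ, hecke 15 l f z = (A : ℂ) * f z := fun z =>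
    (hcoef hdim hcp hid hpr f hf P rP).2 hP0 l hl z
  -- the bound
  have hb : |A| ≤ l + 1 := by
    have h1 := hsup 15 f ⟨UpperHalfPlane.I, by
      rw [hf]; exact ff_ne UpperHalfPlane.I.im_pos⟩ l hl A hH
    rw [Complex.norm_intCast] at h1
    exact_mod_cast h1
  -- modulo l
  have hmod : (l : ℤ) ∣ A - ap E15 l := by
    have h1 := hcm hid hasse Ξ U P rΞ rU rP tΞ tU l hl l2
    have h2 := (ZMod.intCast_eq_intCast_iff_dvd_sub _ _ _).1 h1
    have h3 := (dvd_neg (α := ℤ)).2 h2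
    rwa [neg_sub] at h3
  -- modulo 4
  have hl15 : ¬ l ∣ 15 := by
    intro h
    have h1 : l ∣ 3 * 5 := by simpa using h
    rcases (Nat.Prime.dvd_mul hl).1 h1 with h2 | h2
    · exact l3 ((Nat.prime_dvd_prime_iff_eq hl Nat.prime_three).1 h2)
    · exact l5 ((Nat.prime_dvd_prime_iff_eq hl Nat.prime_five).1 h2)
  have hint : ∀ r : ℚ, IntegrableOn (fun t : ℝ => f (ofComplex ((r : ℂ) + t * Complex.I)))
      (Set.Ioi 0) := fun r =>
    (hL.int r).congr_fun (line_eq f hf _ (by simp)).symm measurableSet_Ioi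
  have h4A : (4 : ℤ) ∣ l + 1 - A := by
    apply four_dvd L (II 0) hL.i2 hL.i4
    have h1 := hhint 15 l f A hl hint hH 0
    rw [if_neg hl15, prim_rat f hf, prim_rat f hf, mul_zero] at h1
    have h2 : ∀ b ∈ Finset.range l, prim f (((0 + b) / l : ℚ) : ℂ) - II 0 ∈ L.lattice := by
      intro b _
      rw [prim_rat f hf]
      have hden : (((((0 : ℚ) + b) / l : ℚ).den : ℤ)) ∣ l := by
        have := Rat.den_dvd (b : ℤ) (l : ℤ)
        rw [zero_add]
        rwa [Rat.divInt_eq_div, Int.cast_natCast, Int.cast_natCast] at this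
      have hp : ∀ m : ℕ, m.Prime → l ≠ m → ¬ ((m : ℤ)) ∣ ((((0 : ℚ) + b) / l : ℚ).den : ℤ) := by
        intro m hm hlm h
        have h3 : (m : ℤ) ∣ l := h.trans hden
        have h4 : m ∣ l := by exact_mod_cast h3
        exact hlm ((Nat.prime_dvd_prime_iff_eq hm hl).1 h4).symm
      exact hL.cop _ (hp 3 Nat.prime_three l3) (hp 5 Nat.prime_five l5)
    have h3 := sum_mem h2
    rw [Finset.sum_sub_distrib, Finset.sum_const, Finset.card_range, nsmul_eq_mul] at h3
    have h4 : ((l + 1 - A : ℤ) : ℂ) * II 0 =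
        -((∑ b ∈ Finset.range l, prim f (((0 + b) / l : ℚ) : ℂ)) - (l : ℂ) * II 0) := by
      push_cast at h1 ⊢
      linear_combination (-1 : ℂ) * h1
    rw [h4]
    exact neg_mem h3
  have h4E : (4 : ℤ) ∣ l + 1 - ap E15 l := by
    have h1 := hfour l hl l2 l3 l5
    have h2 : ((4 : ℕ) : ℤ) ∣ ((affCount E15 l + 1 : ℕ) : ℤ) := Int.natCast_dvd_natCast.2 h1
    unfold ap
    push_cast at h2
    convert h2 using 1
    ring
  have h4' : (4 : ℤ) ∣ A - ap E15 l := by omega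
  have hE : |ap E15 l| ≤ l := by
    have h1 := mb l hl
    unfold ap
    rw [abs_le]
    omega
  have hcop : IsCoprime (4 : ℤ) (l : ℤ) := by
    have h1 : Nat.Coprime 4 l := by
      rw [show 4 = 2 * 2 by norm_num]
      exact Nat.Coprime.mul_left ((Nat.coprime_primes Nat.prime_two hl).2 (Ne.symm l2))
        ((Nat.coprime_primes Nat.prime_two hl).2 (Ne.symm l2))
    exact_mod_cast Nat.isCoprime_iff_coprime.2 h1
  obtain ⟨k, hk⟩ := hcop.mul_dvd h4' hmod
  have hA' := abs_le.1 hb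
  have hE' := abs_le.1 hE
  have hl6 : (6 : ℤ) ≤ l := by exact_mod_cast h7
  have hk0 : k = 0 := by
    have h1 : |A - ap E15 l| < 4 * l := by
      rw [abs_lt]
      constructor <;> [linarith [hA'.1, hE'.2]; linarith [hA'.2, hE'.1]]
    rw [hk, abs_mul, abs_of_pos (by positivity : (0 : ℤ) < 4 * l)] at h1
    have h2 : |k| < 1 := by nlinarith [abs_nonneg k]
    exact Int.abs_lt_one_iff.1 h2
  rw [hk0, mul_zero] at hk
  linarith

end form

end CEQ

open Pool.Agent.W97.MT (S_SUP S_HINT Rep) in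
theorem t_CEQ : S_CEQ := by
  intro hexp hcoef hdim hcp hcm hasse hfour hmin hsup hhint hid hpr ⟨L, hL⟩ f hf
  obtain ⟨Ξ, U, P, rΞ, rU, rP, tΞ, tU, tP⟩ := hexp
  have hP0 : PowerSeries.coeff 0 P = 1 := by
    rw [tP 0 (by norm_num)]; rfl
  have hco : ∀ l : ℕ, l.Prime → PowerSeries.coeff (l - 1) P = Pool.Agent.W97.MT.ap E15 l :=
    fun l hl => CEQ.coef_eq f hf hcoef hdim hcp hcm hasse hfour hmin hsup hhint hid hpr L hL
      rΞ rU rP tΞ tU tP hl
  obtain ⟨c1, c2⟩ := hcoef hdim hcp hid hpr f hf P rP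
  refine ⟨hf, fun n => ⟨_, c1 n⟩, ?_, ?_, ?_⟩
  · have h1 := c1 1
    rw [h1, show (1 : ℕ) = 0 + 1 by rfl, PowerSeries.coeff_succ_X_mul, hP0]
    norm_num
  · intro l hl
    have h1 := c1 l
    have h2 := hco l hl
    obtain ⟨m, hm⟩ : ∃ m, (l : ℕ) = m + 1 := ⟨l - 1, by have := hl.pos; omega⟩
    rw [hm] at h2
    rw [Nat.add_sub_cancel] at h2
    rw [h1, hm, PowerSeries.coeff_succ_X_mul, h2]
  · intro p hp z
    have h1 := c2 hP0 p hp z
    rw [hco p hp] at h1
    exact h1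

end Pool.Agent.XV.MT
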