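import Pool.Agent.XV.MT.Sk
import Pool.Agent.W97.MT.Lat

/-!
Project XV, part T1: the coefficients of the form modulo `p` (port of `W97/MT/Coef.lean`).
-/

set_option autoImplicit false

open UpperHalfPlane MatrixGroups CongruenceSubgroup Filter Topology

namespace Pool.Agent.XV.MT

namespace CMOD

open Pool.Agent.W97.TW
open Pool.Agent.W97.MT (qq tt iI QV Rep RepC affCount ap hecke prim S_INJ S_SUB S_SUP S_ODE S_HINT
  S_QEXP norm_qq_lt qq_ne Q_ne Q_ne_pow exists_qq hasDerivAt_qq num H_open)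

lemma phi_ne {q : ℂ} (hq : ‖q‖ < 1) : phi q ≠ 0 := by
  unfold phi
  exact mul_ne_zero (mul_ne_zero (mul_ne_zero (Q_ne hq) (Q_ne_pow hq (by norm_num)))
    (Q_ne_pow hq (by norm_num))) (Q_ne_pow hq (by norm_num))

lemma ff_ne {z : ℂ} (hz : 0 < z.im) : ff z ≠ 0 := by
  rw [ff_q]
  exact mul_ne_zero (qq_ne z) (phi_ne (norm_qq_lt hz))

/-- the derivative in terms of `q` -/
lemma R0_q {Ξ : PowerSeries ℤ} (hΞ : Rep xi Ξ) {z : ℂ} (hz : 0 < z.im) :
    qq z ^ 3 * (R0 z * phi (qq z)) = qq z * deriv xi (qq z) - 2 * xi (qq z) := by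
  have hx : DifferentiableAt ℂ xi (qq z) :=
    (RepC.differentiableOn hΞ).differentiableAt (Metric.isOpen_ball.mem_nhds
      (by simpa using norm_qq_lt hz))
  have hq := qq_ne z
  have h1 := (hx.hasDerivAt.comp z (hasDerivAt_qq z)).div ((hasDerivAt_qq z).pow 2)
    (pow_ne_zero 2 hq)
  have h2 : X1 =ᶠ[𝓝 z] (xi ∘ qq) / (qq ^ 2) := by
    filter_upwards [(isOpen_lt continuous_const Complex.continuous_im).mem_nhds hz] with w hw
    exact X1_q hw
  have h3 := (h1.congr_of_eventuallyEq h2).deriv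
  have hf := ff_ne hz
  have hph : phi (qq z) ≠ 0 := phi_ne (norm_qq_lt hz)
  have hI : (Complex.I : ℂ) ≠ 0 := Complex.I_ne_zero
  have hpi : (Real.pi : ℂ) ≠ 0 := by exact_mod_cast Real.pi_ne_zero
  unfold R0
  rw [h3, ff_q]
  simp only [Function.comp_apply, Pi.pow_apply]
  field_simp
  push_cast
  ring

lemma R0_eq (h : IdOK) {z : ℂ} (hz : 0 < z.im) : R0 z = RR z := by
  have hf := ff_ne hz
  have hI : (Complex.I : ℂ) ≠ 0 := Complex.I_ne_zero
  have hpi : (Real.pi : ℂ) ≠ 0 := by exact_mod_cast Real.pi_ne_zero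
  unfold R0
  rw [h.dx1 z hz]
  field_simp

lemma coeff_zero_of_rep {h : ℂ → ℂ} {φ : PowerSeries ℤ} (r : Rep h φ) :
    h 0 = ((PowerSeries.constantCoeff φ : ℤ) : ℂ) := by
  have h1 := r 0 (by simp)
  have h2 := hasSum_single (f := fun n : ℕ => (PowerSeries.coeff n
    (PowerSeries.map (Int.castRingHom ℂ) φ)) * (0 : ℂ) ^ n) 0 (by
    intro n hn
    rw [zero_pow hn, mul_zero])
  have h3 := h1.unique h2
  rw [h3]
  simp

lemma phi_zero : phi 0 = 1 := by
  unfold phi
  simp [Q_zero]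

/-- the formal identities -/
lemma formal (hid : IdOK) {Ξ P : PowerSeries ℤ} (rΞ : Rep xi Ξ) (rP : Rep phi P)
    (c0 : PowerSeries.constantCoeff Ξ = 1) : ∃ S : PowerSeries ℤ,
    PowerSeries.constantCoeff S = -2 ∧
    PowerSeries.X * PowerSeries.derivative ℤ Ξ - 2 * Ξ = P * S ∧
    S ^ 2 = 4 * Ξ ^ 3 - 7 * PowerSeries.X ^ 2 * Ξ ^ 2 - 36 * PowerSeries.X ^ 4 * Ξ := by
  have cP : PowerSeries.constantCoeff P = 1 := by
    have h1 := coeff_zero_of_rep rP
    rw [phi_zero] at h1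
    exact_mod_cast h1.symm
  obtain ⟨P', hP'⟩ : ∃ P' : PowerSeries ℤ, P * P' = 1 := by
    have : IsUnit P := by
      rw [PowerSeries.isUnit_iff_constantCoeff, cP]
      exact isUnit_one
    exact this.exists_right_inv
  have cP' : PowerSeries.constantCoeff P' = 1 := by
    have := congrArg PowerSeries.constantCoeff hP'
    rw [map_mul, cP, one_mul, map_one] at this
    exact this
  refine ⟨P' * (PowerSeries.X * PowerSeries.derivative ℤ Ξ - 2 * Ξ), ?_, ?_, ?_⟩
  · simp only [map_sub, map_mul, PowerSeries.constantCoeff_X, map_ofNat, cP', c0]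
    norm_num
  · rw [← mul_assoc, hP', one_mul]
  · have rI := rP.inv hP' (fun q hq => phi_ne hq)
    have rσ := rI.mul (rΞ.theta.sub ((Rep.C 2).mul rΞ))
    rw [num 2, num 4, num 7, num 36]
    refine (rσ.pow 2).unique ((((((Rep.C 4).mul (rΞ.pow 3)).sub (((Rep.C 7).mul
      (Rep.X.pow 2)).mul (rΞ.pow 2))).sub (((Rep.C 36).mul (Rep.X.pow 4)).mul rΞ))).congr
      fun q hq1 => ?_)
    push_cast
    by_cases h0 : q = 0
    · rw [h0]
      have h1 := coeff_zero_of_rep rΞ
      rw [c0] at h1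
      rw [phi_zero, h1]
      norm_num
    · obtain ⟨z, hz, rfl⟩ := exists_qq hq1 h0
      rw [← R0_q rΞ hz, R0_eq hid hz]
      have hph := phi_ne (norm_qq_lt hz)
      have h1 := hid.rrsq z hz
      have h2 : xi (qq z) = X1 z * qq z ^ 2 := by
        rw [X1_q hz, div_mul_cancel₀ _ (pow_ne_zero 2 (qq_ne z))]
      have h3 : ((phi (qq z))⁻¹ * (qq z ^ 3 * (RR z * phi (qq z)))) ^ 2 =
          qq z ^ 6 * RR z ^ 2 := by
        field_simp
      rw [h3, h1, h2]
      ring

end CMOD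

open Pool.Agent.W97.MT (Rep ap) in
open CMOD in
theorem t_CMOD : S_CMOD := by
  intro hid hasse Ξ U P rΞ rU rP tΞ tU p hp hp2
  have : Fact p.Prime := ⟨hp⟩
  have cΞ : PowerSeries.constantCoeff Ξ = 1 := by
    have := tΞ 0 (by norm_num)
    simpa [lxi] using this
  obtain ⟨S, c1, h1, h2⟩ := formal hid rΞ rP cΞ
  set m := PowerSeries.map (Int.castRingHom (ZMod p)) with hm
  have hX : m PowerSeries.X = PowerSeries.X := PowerSeries.map_X _
  have hd : m (PowerSeries.derivative ℤ Ξ) = PowerSeries.derivative (ZMod p) (m Ξ) := by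
    ext n
    simp [hm, PowerSeries.coeff_derivative]
  have h3 := congrArg m h1
  have h4 := congrArg m h2
  simp only [map_sub, map_mul, map_pow, hX, hd, map_ofNat] at h3 h4
  have hcc : ∀ V : PowerSeries ℤ, PowerSeries.constantCoeff (m V) =
      ((PowerSeries.constantCoeff V : ℤ) : ZMod p) := by
    intro V
    rw [← PowerSeries.coeff_zero_eq_constantCoeff_apply,
      ← PowerSeries.coeff_zero_eq_constantCoeff_apply, hm, PowerSeries.coeff_map]
    simp
  have h5 := hasse p hp2 (m P) (m Ξ) (m S)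
    (by rw [hcc, cΞ]; simp)
    (by rw [hcc, c1]; simp)
    h3 h4
  rw [← h5, hm, PowerSeries.coeff_map]
  simp

end Pool.Agent.XV.MT
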