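import Pool.Agent.XV.MT.Sk
import Pool.Agent.W97.TW.Lfun
import Pool.Agent.W97.TW.Hecke
import Pool.Agent.W97.TW.HeckeForm

/-!
Project XV, part T1: the Hecke operators and the expansion of the form (COEF).
-/

set_option autoImplicit false

open UpperHalfPlane MatrixGroups CongruenceSubgroup Filter Topology
open scoped ModularForm Pointwise

namespace Pool.Agent.XV.MT.COEF

open Pool.Agent.W97.TW
open Pool.Agent.W97.MT (qq norm_qq_lt Rep)

lemma qParam_one' (z : ℂ) : Function.Periodic.qParam 1 z = qq z := by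
  unfold Function.Periodic.qParam qq
  simp

lemma coeff_f15 (f : CuspForm (Gamma0 15 : Subgroup (GL (Fin 2) ℝ)) 2)
    (hf : ∀ z : ℍ, f z = ff z) {P : PowerSeries ℤ} (rP : Rep phi P) (n : ℕ) :
    (qExpansion 1 f).coeff n = ((PowerSeries.coeff n (PowerSeries.X * P) : ℤ) : ℂ) := by
  have h1 := ModularFormClass.qExpansion_coeff_unique
    (Γ := (Gamma0 15 : Subgroup (GL (Fin 2) ℝ))) (k := 2)
    (c := fun n => ((PowerSeries.coeff n (PowerSeries.X * P) : ℤ) : ℂ)) one_pos one_mem0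
    (f := f) (fun τ => by
      have h2 : HasSum (fun n : ℕ => PowerSeries.coeff n (PowerSeries.map (Int.castRingHom ℂ)
        (PowerSeries.X * P)) * qq τ ^ n) (qq τ * phi (qq τ)) :=
          (Rep.X.mul rP) (qq τ) (norm_qq_lt τ.im_pos)
      simp only [PowerSeries.coeff_map, eq_intCast] at h2
      rw [hf, ff_q]
      have h3 : Function.Periodic.qParam 1 (τ : ℂ) = qq τ := qParam_one' τ
      rw [h3]
      simpa only [smul_eq_mul] using h2) n
  exact h1.symm

lemma hecke_f15 (f : CuspForm (Gamma0 15 : Subgroup (GL (Fin 2) ℝ)) 2)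
    (hf : ∀ z : ℍ, f z = ff z) {P : PowerSeries ℤ} (rP : Rep phi P)
    (hdim : ∀ g : CuspForm (Gamma0 15 : Subgroup (GL (Fin 2) ℝ)) 2,
      ∃ c : ℂ, ∀ z : ℍ, g z = c * ff z)
    (hP0 : PowerSeries.coeff 0 P = 1) {p : ℕ} (hp : p.Prime) (z : ℍ) :
    Pool.Agent.W97.MT.hecke 15 p f z = ((PowerSeries.coeff (p - 1) P : ℤ) : ℂ) * f z := by
  obtain ⟨c, hc⟩ := hdim (heckeForm f hp)
  have h1 : ∀ z : ℍ, heckeT 15 2 p f z = c * f z := fun z => by
    rw [hf z]
    exact hc z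
  have h2 := hecke_rec f hp.pos h1 1
  have h3 : Pool.Agent.W97.TW.A f 1 = 1 := by
    unfold Pool.Agent.W97.TW.A
    rw [coeff_f15 f hf rP 1, show (1 : ℕ) = 0 + 1 by rfl, PowerSeries.coeff_succ_X_mul, hP0]
    norm_num
  have h4 : Pool.Agent.W97.TW.A f p = ((PowerSeries.coeff (p - 1) P : ℤ) : ℂ) := by
    unfold Pool.Agent.W97.TW.A
    rw [coeff_f15 f hf rP p]
    obtain ⟨m, rfl⟩ : ∃ m, p = m + 1 := ⟨p - 1, by have := hp.pos; omega⟩
    rw [PowerSeries.coeff_succ_X_mul]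
    rfl
  have h5 : Pool.Agent.W97.TW.B f p 1 = Pool.Agent.W97.TW.A f p := by
    unfold Pool.Agent.W97.TW.B
    rw [if_neg (c := p ∣ 1) (fun h => hp.one_lt.ne' (Nat.dvd_one.1 h)), mul_zero, zero_add, mul_one]
  rw [h3, mul_one, h5, h4] at h2
  have h6 : Pool.Agent.W97.MT.hecke 15 p f z = heckeT 15 2 p f z := by
    unfold Pool.Agent.W97.MT.hecke heckeT
    norm_num
  rw [h6, h1, h2]

end Pool.Agent.XV.MT.COEF

namespace Pool.Agent.XV.MT

/-- COEF: the Hecke operators and the expansion of the form -/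
theorem t_COEF : S_COEF := fun hdim hcp hid hpr f hf _ rP =>
  ⟨fun n => COEF.coeff_f15 f hf rP n, fun hP0 _ hp z =>
    COEF.hecke_f15 f hf rP (hdim hcp hid hpr) hP0 hp z⟩

end Pool.Agent.XV.MT
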