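import Pool.Agent.XV.MT.Gen

/-!
The cusp `0` of `X_0(15)` (port of section `w14` of `W97/MT/AL.lean` and of `cusp14` of
`W97/MT/Cusps.lean`, helper15).
-/

set_option autoImplicit false

open UpperHalfPlane MatrixGroups CongruenceSubgroup Filter Topology
open scoped ModularForm Pointwise

namespace Pool.Agent.XV.MT

open Pool.Agent.W97.TW
open Pool.Agent.W97.MT (qq tt iI QV tt_ne qq_ne tt_pow norm_qq norm_qq_lt G_mul Q_ne Q_ne_pow G_ne
  im_mul z_ne QV_Q QV_Q1 QV_of_sq Q_contOn Q_contOn1 qq_cont comp_cont iI_pos I4)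

namespace CU15

section w15

variable {z : ℂ} (hz : 0 < z.im)
include hz

lemma w15_pos : 0 < (-1 / (15 * z) : ℂ).im := by
  have h := (im_moebius (a := 0) (b := -1) (c := 1) (d := 0) (by norm_num)
    (im_mul hz 15 (by norm_num))).1
  simpa using h

lemma w15_G : G (-1 / (15 * z)) = -Complex.I * (15 * z) * G (15 * z) ∧
    G (3 * (-1 / (15 * z))) = -Complex.I * (5 * z) * G (5 * z) ∧
    G (5 * (-1 / (15 * z))) = -Complex.I * (3 * z) * G (3 * z) ∧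
    G (15 * (-1 / (15 * z))) = -Complex.I * z * G z := by
  have h0 := z_ne hz
  refine ⟨G_S (im_mul hz 15 (by norm_num)), ?_, ?_, ?_⟩
  · rw [show (3 : ℂ) * (-1 / (15 * z)) = -1 / (5 * z) by field_simp; norm_num]
    exact G_S (im_mul hz 5 (by norm_num))
  · rw [show (5 : ℂ) * (-1 / (15 * z)) = -1 / (3 * z) by field_simp; norm_num]
    exact G_S (im_mul hz 3 (by norm_num))
  · rw [show (15 : ℂ) * (-1 / (15 * z)) = -1 / z by field_simp]
    exact G_S hz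

lemma ff_w15 : ff (-1 / (15 * z)) ^ 2 = (15 * z ^ 2) ^ 2 * ff z ^ 2 := by
  obtain ⟨e1, e3, e5, e15⟩ := w15_G hz
  rw [ff_sq, ff_sq]
  unfold Gs
  simp only [zpow_one]
  rw [e1, e3, e5, e15]
  linear_combination (225 * z ^ 4 * G z * G (3 * z) * G (5 * z) * G (15 * z)) * I4

lemma X1_w15 : X1 (-1 / (15 * z)) ^ 2 = 81 * ((Q (qq z) ^ 5)⁻¹ * Q (qq z ^ 3) ^ 5 * Q (qq z ^ 5) *
    (Q (qq z ^ 15))⁻¹) ^ 2 := by
  obtain ⟨e1, e3, e5, e15⟩ := w15_G hz
  have h0 := z_ne hz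
  have g1 := G_mul 1 z
  have g3 := G_mul 3 z
  have g5 := G_mul 5 z
  have g15 := G_mul 15 z
  push_cast at g1 g3 g5 g15
  rw [one_mul, pow_one] at g1
  have hq := norm_qq_lt hz
  have n1 := Q_ne hq
  have n15 := Q_ne_pow hq (d := 15) (by norm_num)
  have ht := tt_ne z
  rw [X1_sq]
  unfold Gs
  rw [e1, e3, e5, e15, g1, g3, g5, g15, zpow_neg_one, zpow_one, zpow_neg]
  norm_cast
  have hI : Complex.I ≠ 0 := Complex.I_ne_zero
  field_simp
  ring_nf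

lemma Y2_w15 : Y2 (-1 / (15 * z)) = qq z ^ 2 * (1125 * ((Q (qq z) ^ 8)⁻¹ * Q (qq z ^ 3) ^ 2 *
    Q (qq z ^ 5) ^ 4 * Q (qq z ^ 15) ^ 2)) := by
  obtain ⟨e1, e3, e5, e15⟩ := w15_G hz
  have h0 := z_ne hz
  have g1 := G_mul 1 z
  have g3 := G_mul 3 z
  have g5 := G_mul 5 z
  have g15 := G_mul 15 z
  push_cast at g1 g3 g5 g15
  rw [one_mul, pow_one] at g1
  have hq := norm_qq_lt hz
  have n1 := Q_ne hq
  have n15 := Q_ne_pow hq (d := 15) (by norm_num)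
  have ht := tt_ne z
  rw [Y2_eq]
  unfold Gs
  have hq2 : qq z ^ 2 = tt z ^ 48 := by rw [← tt_pow]; ring
  rw [hq2, e1, e3, e5, e15, g1, g3, g5, g15, zpow_neg, zpow_one, zpow_one]
  norm_cast
  have hI : Complex.I ≠ 0 := Complex.I_ne_zero
  field_simp
  ring_nf

end w15

lemma core : (∀ z : ℂ, 0 < z.im → 0 < (m15 z).im) ∧
    (∀ z : ℂ, 0 < z.im → HasDerivAt m15 (j15 z) z) ∧
    (∀ z : ℂ, 0 < z.im → j15 z ≠ 0) ∧ ContinuousOn j15 {z : ℂ | 0 < z.im} ∧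
    (∀ z : ℂ, 0 < z.im → (ff (m15 z) * j15 z) ^ 2 = ff z ^ 2) ∧ QV (fun z => Y2 (m15 z)) 0 := by
  refine ⟨fun z hz => w15_pos hz, fun z hz => ?_, fun z hz => ?_, ?_, fun z hz => ?_, ?_⟩
  · have h0 := z_ne hz
    have h1 : HasDerivAt (fun w : ℂ => 15 * w) 15 z := by
      simpa using (hasDerivAt_id z).const_mul (15 : ℂ)
    have h2 := (hasDerivAt_const z (-1 : ℂ)).div h1 (mul_ne_zero (by norm_num) h0)
    unfold m15 j15
    refine h2.congr_deriv ?_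
    field_simp
    ring
  · have h0 := z_ne hz
    exact inv_ne_zero (mul_ne_zero (by norm_num) (pow_ne_zero 2 h0))
  · intro z hz
    have h0 := z_ne hz
    unfold j15
    exact ContinuousAt.continuousWithinAt (ContinuousAt.inv₀ (by fun_prop)
      (mul_ne_zero (by norm_num) (pow_ne_zero 2 h0)))
  · have h0 := z_ne hz
    unfold m15 j15
    rw [mul_pow, ff_w15 hz]
    field_simp
  · have q3 := QV_Q 3 (by norm_num)
    have q5 := QV_Q 5 (by norm_num)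
    have q15 := QV_Q 15 (by norm_num)
    have h := ((QV.qq'.pow 2).mul ((QV.const 1125).mul (((((QV_Q1.pow 8).inv (by norm_num)).mul
      (q3.pow 2)).mul (q5.pow 4)).mul (q15.pow 2)))).of_val (show _ = (0 : ℂ) by norm_num)
    refine h.of_eq (iI_pos.mono fun z hz => ?_)
    exact Y2_w15 hz

end CU15

open CU15

theorem t_CU15 : S_CU15 := by
  unfold S_CU15
  obtain ⟨h1, h2, h3, h4, h5, h6⟩ := core
  have q3 := QV_Q 3 (by norm_num)
  have q5 := QV_Q 5 (by norm_num)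
  have q15 := QV_Q 15 (by norm_num)
  have h := ((QV.const 9).mul (((((QV_Q1.pow 5).inv (by norm_num)).mul (q3.pow 5)).mul q5).mul
      (q15.inv one_ne_zero))).of_val (show _ = (9 : ℂ) by norm_num)
  have c1 := Q_contOn1
  have c3 := Q_contOn 3 (by norm_num)
  have c5 := Q_contOn 5 (by norm_num)
  have c15 := Q_contOn 15 (by norm_num)
  have e : ∀ z : ℂ, 0 < z.im → X1 (m15 z) ^ 2 = (9 * ((Q (qq z) ^ 5)⁻¹ * Q (qq z ^ 3) ^ 5 *
      Q (qq z ^ 5) * (Q (qq z ^ 15))⁻¹)) ^ 2 := fun z hz => by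
    rw [mul_pow]
    have := X1_w15 hz
    unfold m15
    rw [this]
    norm_num
  have e0 : ∀ z : ℂ, 0 < z.im → 9 * ((Q (qq z) ^ 5)⁻¹ * Q (qq z ^ 3) ^ 5 *
      Q (qq z ^ 5) * (Q (qq z ^ 15))⁻¹) ≠ 0 := fun z hz => by
    obtain ⟨n1, n3, n5, n15⟩ := Q_nes hz
    exact mul_ne_zero (by norm_num) (by positivity)
  have c : ContinuousOn (fun z => 9 * ((Q (qq z) ^ 5)⁻¹ * Q (qq z ^ 3) ^ 5 *
      Q (qq z ^ 5) * (Q (qq z ^ 15))⁻¹)) {z : ℂ | 0 < z.im} :=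
    continuousOn_const.mul (((((c1.pow 5).inv₀ fun z hz => pow_ne_zero _ (Q_nes hz).1).mul
      (c3.pow 5)).mul c5).mul (c15.inv₀ fun z hz => (Q_nes hz).2.2.2))
  rcases QV_of_sq (comp_cont h1 h2 X1_cont) c e e0 h with h7 | h7
  · exact Or.inl ⟨h1, h2, h3, h4, h5, h7, h6⟩
  · exact Or.inr ⟨h1, h2, h3, h4, h5, h7, h6⟩

end Pool.Agent.XV.MT
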