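import Pool.Agent.XV.MT.CU5

/-!
Project XV, part T1, job CU3 (helper71): the cusp `1/5` of `X_0(15)`.
-/

set_option autoImplicit false

open Filter Topology

namespace Pool.Agent.XV.MT

namespace CU3

open Pool.Agent.W97.TW CU5
open Pool.Agent.W97.MT (qq tt tt_ne qq_ne tt_pow norm_qq_lt G_mul Q_ne Q_ne_pow im_mul iI QV
  QV_Q QV_Q1 QV_of_sq Q_contOn Q_contOn1 qq_cont comp_cont iI_pos)

section w3

variable {z : ℂ} (hz : 0 < z.im)
include hz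

lemma w3_aux : (5 * z + 2 : ℂ) ≠ 0 := by
  intro h
  have := congrArg Complex.im h
  simp at this
  exact hz.ne' this

lemma w3_pos : 0 < ((3 * z + 1) / (15 * z + 6) : ℂ).im := by
  have h := (im_moebius (a := 1) (b := 1) (c := 5) (d := 6) (by norm_num)
    (im_mul hz 3 (by norm_num))).1
  push_cast at h
  convert h using 2
  congr 1 <;> ring

lemma w3_G : G ((3 * z + 1) / (15 * z + 6)) = ze ^ 8 * ((15 * z + 6) * G (3 * z)) ∧
    G (3 * ((3 * z + 1) / (15 * z + 6))) = ze ^ 10 * ((5 * z + 2) * G z) ∧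
    G (5 * ((3 * z + 1) / (15 * z + 6))) = ze ^ 4 * ((15 * z + 6) * G (15 * z)) ∧
    G (15 * ((3 * z + 1) / (15 * z + 6))) = ze ^ 2 * ((5 * z + 2) * G (5 * z)) := by
  have h0 := w3_aux hz
  have h7 : (15 * z + 6 : ℂ) = 3 * (5 * z + 2) := by ring
  have e1 := G_moebius (a := 1) (b := 1) (c := 5) (d := 6) (by norm_num)
    (im_mul hz 3 (by norm_num))
  have e3 := G_moebius (a := 3) (b := 1) (c := 5) (d := 2) (by norm_num) hz
  have e5 := G_moebius (a := 1) (b := 5) (c := 1) (d := 6) (by norm_num)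
    (im_mul hz 15 (by norm_num))
  have e15 := G_moebius (a := 3) (b := 5) (c := 1) (d := 2) (by norm_num)
    (im_mul hz 5 (by norm_num))
  rw [ze_congr (m := kap (1 : ℤ) 1 5 6) (n := ((8 : ℕ) : ℤ)) (by norm_num [kap]),
    zpow_natCast] at e1
  rw [ze_congr (m := kap (3 : ℤ) 1 5 2) (n := ((10 : ℕ) : ℤ)) (by norm_num [kap]),
    zpow_natCast] at e3
  rw [ze_congr (m := kap (1 : ℤ) 5 1 6) (n := ((4 : ℕ) : ℤ)) (by norm_num [kap]),
    zpow_natCast] at e5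
  rw [ze_congr (m := kap (3 : ℤ) 5 1 2) (n := ((2 : ℕ) : ℤ)) (by norm_num [kap]),
    zpow_natCast] at e15
  push_cast at e1 e3 e5 e15
  refine ⟨?_, ?_, ?_, ?_⟩
  · rw [show (3 * z + 1) / (15 * z + 6) = (1 * (3 * z) + 1) / (5 * (3 * z) + 6) by
      congr 1 <;> ring, e1]
    ring
  · rw [show 3 * ((3 * z + 1) / (15 * z + 6)) = (3 * z + 1) / (5 * z + 2) by
      rw [h7]; field_simp, e3]
    ring
  · rw [show 5 * ((3 * z + 1) / (15 * z + 6)) = (1 * (15 * z) + 5) / (1 * (15 * z) + 6) by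
      rw [← mul_div_assoc]; congr 1 <;> ring, e5]
    ring
  · rw [show 15 * ((3 * z + 1) / (15 * z + 6)) = (3 * (5 * z) + 5) / (1 * (5 * z) + 2) by
      rw [h7, show (1 * (5 * z) + 2 : ℂ) = 5 * z + 2 by ring]; field_simp; ring, e15]
    ring

lemma ff_w3 : ff ((3 * z + 1) / (15 * z + 6)) ^ 2 = (3 * (5 * z + 2) ^ 2) ^ 2 * ff z ^ 2 := by
  obtain ⟨e1, e3, e5, e15⟩ := w3_G hz
  rw [ff_sq, ff_sq]
  unfold Gs
  simp only [zpow_one]
  rw [e1, e3, e5, e15]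
  have h24 : ze ^ 24 = 1 := by rw [show (24 : ℕ) = 12 * 2 by norm_num, pow_mul, ze12, one_pow]
  linear_combination (9 * (5 * z + 2) ^ 4 * G z * G (3 * z) * G (5 * z) * G (15 * z)) * h24

lemma X1_w3 : X1 ((3 * z + 1) / (15 * z + 6)) ^ 2 = qq z ^ 4 * (81 * (Q (qq z) *
    (Q (qq z ^ 3))⁻¹ * (Q (qq z ^ 5) ^ 5)⁻¹ * (Q (qq z ^ 15)) ^ 5) ^ 2) := by
  obtain ⟨e1, e3, e5, e15⟩ := w3_G hz
  have h0 := w3_aux hz
  have h7 : (15 * z + 6 : ℂ) = 3 * (5 * z + 2) := by ring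
  have g1 := G_mul 1 z
  have g3 := G_mul 3 z
  have g5 := G_mul 5 z
  have g15 := G_mul 15 z
  push_cast at g1 g3 g5 g15
  rw [one_mul, pow_one] at g1
  obtain ⟨n1, n3, n5, n15⟩ := Q_nes hz
  have ht := tt_ne z
  have hze := ze_ne
  have hph : (ze ^ 8)⁻¹ * ze ^ 10 * (ze ^ 4) ^ 5 * ((ze ^ 2) ^ 5)⁻¹ = 1 := by
    have h12 : ze ^ 12 = 1 := ze12
    field_simp
    linear_combination h12
  rw [X1_sq]
  unfold Gs
  have hq2 : qq z ^ 4 = tt z ^ 96 := by rw [← tt_pow]; ring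
  rw [hq2, e1, e3, e5, e15, zpow_neg_one, zpow_one, zpow_neg]
  norm_cast
  have e : (ze ^ 8 * ((15 * z + 6) * G (3 * z)))⁻¹ * (ze ^ 10 * ((5 * z + 2) * G z)) *
      (ze ^ 4 * ((15 * z + 6) * G (15 * z))) ^ 5 *
      ((ze ^ 2 * ((5 * z + 2) * G (5 * z))) ^ 5)⁻¹ =
      ((ze ^ 8)⁻¹ * ze ^ 10 * (ze ^ 4) ^ 5 * ((ze ^ 2) ^ 5)⁻¹) *
      (((15 * z + 6) * G (3 * z))⁻¹ * ((5 * z + 2) * G z) *
      ((15 * z + 6) * G (15 * z)) ^ 5 * (((5 * z + 2) * G (5 * z)) ^ 5)⁻¹) := by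
    simp only [mul_inv, mul_pow]
    ring
  rw [hph, one_mul] at e
  refine e.trans ?_
  rw [g1, g3, g5, g15, h7]
  field_simp
  ring

lemma Y2_w3 : Y2 ((3 * z + 1) / (15 * z + 6)) = 9 * (Q (qq z) ^ 4 * Q (qq z ^ 3) ^ 2 *
    (Q (qq z ^ 5) ^ 8)⁻¹ * (Q (qq z ^ 15)) ^ 2) := by
  obtain ⟨e1, e3, e5, e15⟩ := w3_G hz
  have h0 := w3_aux hz
  have h7 : (15 * z + 6 : ℂ) = 3 * (5 * z + 2) := by ring
  have g1 := G_mul 1 z
  have g3 := G_mul 3 z
  have g5 := G_mul 5 z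
  have g15 := G_mul 15 z
  push_cast at g1 g3 g5 g15
  rw [one_mul, pow_one] at g1
  obtain ⟨n1, n3, n5, n15⟩ := Q_nes hz
  have ht := tt_ne z
  have hze := ze_ne
  have hph : ze ^ 8 * (ze ^ 10) ^ 2 * ze ^ 4 * ((ze ^ 2) ^ 4)⁻¹ = 1 := by
    have h24 : ze ^ 24 = 1 := by rw [show (24 : ℕ) = 12 * 2 by norm_num, pow_mul, ze12, one_pow]
    field_simp
    linear_combination h24
  rw [Y2_eq]
  unfold Gs
  rw [e1, e3, e5, e15, zpow_one, zpow_one, zpow_neg]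
  norm_cast
  have e : (ze ^ 8 * ((15 * z + 6) * G (3 * z))) * (ze ^ 10 * ((5 * z + 2) * G z)) ^ 2 *
      (ze ^ 4 * ((15 * z + 6) * G (15 * z))) *
      ((ze ^ 2 * ((5 * z + 2) * G (5 * z))) ^ 4)⁻¹ =
      (ze ^ 8 * (ze ^ 10) ^ 2 * ze ^ 4 * ((ze ^ 2) ^ 4)⁻¹) *
      (((15 * z + 6) * G (3 * z)) * ((5 * z + 2) * G z) ^ 2 *
      ((15 * z + 6) * G (15 * z)) * (((5 * z + 2) * G (5 * z)) ^ 4)⁻¹) := by
    simp only [mul_inv, mul_pow]
    ring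
  rw [hph, one_mul] at e
  refine e.trans ?_
  rw [g1, g3, g5, g15, h7]
  field_simp
  ring

end w3

end CU3

open Pool.Agent.W97.TW Pool.Agent.W97.MT CU3 in
theorem t_CU3 : S_CU3 := by
  have hne : ∀ z : ℂ, 0 < z.im → (3 : ℂ) * (5 * z + 2) ^ 2 ≠ 0 := fun z hz =>
    mul_ne_zero (by norm_num) (pow_ne_zero 2 (w3_aux hz))
  have hpos : ∀ z : ℂ, 0 < z.im → 0 < (m3 z).im := fun z hz => w3_pos hz
  have hder : ∀ z : ℂ, 0 < z.im → HasDerivAt m3 (j3 z) z := fun z hz => by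
    have h0 := w3_aux hz
    have h7 : (15 * z + 6 : ℂ) = 3 * (5 * z + 2) := by ring
    have h1 : HasDerivAt (fun w : ℂ => 15 * w + 6) 15 z := by
      simpa using ((hasDerivAt_id z).const_mul (15 : ℂ)).add_const 6
    have h1' : HasDerivAt (fun w : ℂ => 3 * w + 1) 3 z := by
      simpa using ((hasDerivAt_id z).const_mul (3 : ℂ)).add_const 1
    have h2 := h1'.div h1 (by rw [h7]; exact mul_ne_zero (by norm_num) h0)
    unfold m3 j3
    refine h2.congr_deriv ?_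
    rw [h7]
    field_simp
    ring
  refine ⟨hpos, hder, fun z hz => inv_ne_zero (hne z hz), ?_, fun z hz => ?_, ?_, ?_⟩
  · intro z hz
    unfold j3
    exact ContinuousAt.continuousWithinAt (ContinuousAt.inv₀ (by fun_prop) (hne z hz))
  · have h0 := w3_aux hz
    unfold m3 j3
    rw [mul_pow, ff_w3 hz]
    field_simp
  · have q3 := QV_Q 3 (by norm_num)
    have q5 := QV_Q 5 (by norm_num)
    have q15 := QV_Q 15 (by norm_num)
    have h := ((QV.qq'.pow 2).mul ((QV.const 9).mul (((QV_Q1.mul (q3.inv one_ne_zero)).mul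
      ((q5.pow 5).inv (by norm_num))).mul (q15.pow 5)))).of_val (show _ = (0 : ℂ) by norm_num)
    have c1 := Q_contOn1
    have c3 := Q_contOn 3 (by norm_num)
    have c5 := Q_contOn 5 (by norm_num)
    have c15 := Q_contOn 15 (by norm_num)
    have e : ∀ z : ℂ, 0 < z.im → Pool.Agent.XV.MT.X1 (m3 z) ^ 2 = (qq z ^ 2 * (9 * (Q (qq z) *
        (Q (qq z ^ 3))⁻¹ * (Q (qq z ^ 5) ^ 5)⁻¹ * (Q (qq z ^ 15)) ^ 5))) ^ 2 := fun z hz => by
      have := X1_w3 hz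
      unfold m3
      rw [this]
      ring
    have e0 : ∀ z : ℂ, 0 < z.im → qq z ^ 2 * (9 * (Q (qq z) * (Q (qq z ^ 3))⁻¹ *
        (Q (qq z ^ 5) ^ 5)⁻¹ * (Q (qq z ^ 15)) ^ 5)) ≠ 0 := fun z hz => by
      obtain ⟨n1, n3, n5, n15⟩ := CU5.Q_nes hz
      exact mul_ne_zero (pow_ne_zero 2 (qq_ne z)) (mul_ne_zero (by norm_num) (by positivity))
    have c : ContinuousOn (fun z => qq z ^ 2 * (9 * (Q (qq z) * (Q (qq z ^ 3))⁻¹ *
        (Q (qq z ^ 5) ^ 5)⁻¹ * (Q (qq z ^ 15)) ^ 5))) {z : ℂ | 0 < z.im} :=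
      (qq_cont.continuousOn.pow 2).mul (continuousOn_const.mul (((c1.mul
        (c3.inv₀ fun z hz => (CU5.Q_nes hz).2.1)).mul
        ((c5.pow 5).inv₀ fun z hz => pow_ne_zero _ (CU5.Q_nes hz).2.2.1)).mul (c15.pow 5)))
    rcases QV_of_sq (comp_cont hpos hder CU5.X1_cont) c e e0 h with h7 | h7
    · exact h7
    · exact h7.of_val (by norm_num)
  · have q3 := QV_Q 3 (by norm_num)
    have q5 := QV_Q 5 (by norm_num)
    have q15 := QV_Q 15 (by norm_num)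
    have h := ((QV.const 9).mul ((((QV_Q1.pow 4).mul (q3.pow 2)).mul ((q5.pow 8).inv
      (by norm_num))).mul (q15.pow 2))).of_val (show _ = (9 : ℂ) by norm_num)
    refine h.of_eq (iI_pos.mono fun z hz => ?_)
    exact Y2_w3 hz

end Pool.Agent.XV.MT
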