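import Pool.Agent.XV.MT.Sk
import Pool.Agent.W97.MT.Cusps

/-!
Project XV, part T1, job CU5 (helper71): the cusp `1/3` of `X_0(15)`.
-/

set_option autoImplicit false

open Filter Topology

namespace Pool.Agent.XV.MT

namespace CU5

open Pool.Agent.W97.TW
open Pool.Agent.W97.MT (qq tt tt_ne qq_ne tt_pow norm_qq_lt G_mul Q_ne Q_ne_pow im_mul iI QV
  QV_Q QV_Q1 QV_of_sq Q_contOn Q_contOn1 qq_cont comp_cont iI_pos eta_diff)

lemma eta_diffs {z : ℂ} (hz : 0 < z.im) : DifferentiableAt ℂ (fun w : ℂ => ModularForm.eta w) z ∧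
    DifferentiableAt ℂ (fun w : ℂ => ModularForm.eta (3 * w)) z ∧
    DifferentiableAt ℂ (fun w : ℂ => ModularForm.eta (5 * w)) z ∧
    DifferentiableAt ℂ (fun w : ℂ => ModularForm.eta (15 * w)) z := by
  have h1 := eta_diff hz 1 (by norm_num)
  have h3 := eta_diff hz 3 (by norm_num)
  have h5 := eta_diff hz 5 (by norm_num)
  have h15 := eta_diff hz 15 (by norm_num)
  push_cast at h1 h3 h5 h15
  simp only [one_mul] at h1
  exact ⟨h1, h3, h5, h15⟩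

lemma eta_nes {z : ℂ} (hz : 0 < z.im) : ModularForm.eta z ≠ 0 ∧ ModularForm.eta (3 * z) ≠ 0 ∧
    ModularForm.eta (5 * z) ≠ 0 ∧ ModularForm.eta (15 * z) ≠ 0 := by
  have h3 := ModularForm.eta_ne_zero (im_mul hz 3 (by norm_num))
  have h5 := ModularForm.eta_ne_zero (im_mul hz 5 (by norm_num))
  have h15 := ModularForm.eta_ne_zero (im_mul hz 15 (by norm_num))
  push_cast at h3 h5 h15
  exact ⟨ModularForm.eta_ne_zero hz, h3, h5, h15⟩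

lemma ff_ne {z : ℂ} (hz : 0 < z.im) : ff z ≠ 0 := by
  obtain ⟨e1, e3, e5, e15⟩ := eta_nes hz
  exact mul_ne_zero (mul_ne_zero (mul_ne_zero e1 e3) e5) e15

lemma X1_ne {z : ℂ} (hz : 0 < z.im) : X1 z ≠ 0 := by
  obtain ⟨e1, e3, e5, e15⟩ := eta_nes hz
  unfold X1
  positivity

lemma ff_diff {z : ℂ} (hz : 0 < z.im) : DifferentiableAt ℂ ff z := by
  obtain ⟨e1, e3, e5, e15⟩ := eta_diffs hz
  exact ((e1.mul e3).mul e5).mul e15

lemma X1_diff {z : ℂ} (hz : 0 < z.im) : DifferentiableAt ℂ X1 z := by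
  obtain ⟨e1, e3, e5, e15⟩ := eta_diffs hz
  obtain ⟨n1, n3, n5, n15⟩ := eta_nes hz
  exact (((e1.inv n1).mul e3).mul (e5.pow 5)).mul ((e15.pow 5).inv (pow_ne_zero _ n15))

lemma X1_cont : ContinuousOn X1 {z : ℂ | 0 < z.im} := fun _ hz =>
  (X1_diff hz).continuousAt.continuousWithinAt

lemma Q_nes {z : ℂ} (hz : 0 < z.im) : Q (qq z) ≠ 0 ∧ Q (qq z ^ 3) ≠ 0 ∧ Q (qq z ^ 5) ≠ 0 ∧
    Q (qq z ^ 15) ≠ 0 :=
  ⟨Q_ne (norm_qq_lt hz), Q_ne_pow (norm_qq_lt hz) (by norm_num),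
    Q_ne_pow (norm_qq_lt hz) (by norm_num), Q_ne_pow (norm_qq_lt hz) (by norm_num)⟩

lemma ze12 : ze ^ 12 = 1 := by
  have := ze_12
  rw [show (12 : ℤ) = ((12 : ℕ) : ℤ) by norm_num, zpow_natCast] at this
  exact this

section w5

variable {z : ℂ} (hz : 0 < z.im)
include hz

lemma w5_aux : (3 * z - 1 : ℂ) ≠ 0 := by
  intro h
  have := congrArg Complex.im h
  simp at this
  exact hz.ne' this

lemma w5_pos : 0 < ((5 * z - 2) / (15 * z - 5) : ℂ).im := by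
  have h := (im_moebius (a := 1) (b := -2) (c := 3) (d := -5) (by norm_num)
    (im_mul hz 5 (by norm_num))).1
  push_cast at h
  convert h using 2
  congr 1 <;> ring

lemma w5_G : G ((5 * z - 2) / (15 * z - 5)) = ze ^ 7 * ((15 * z - 5) * G (5 * z)) ∧
    G (3 * ((5 * z - 2) / (15 * z - 5))) = ze ^ 5 * ((15 * z - 5) * G (15 * z)) ∧
    G (5 * ((5 * z - 2) / (15 * z - 5))) = ze ^ 11 * ((3 * z - 1) * G z) ∧
    G (15 * ((5 * z - 2) / (15 * z - 5))) = ze ^ 1 * ((3 * z - 1) * G (3 * z)) := by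
  have h0 := w5_aux hz
  have h7 : (15 * z - 5 : ℂ) = 5 * (3 * z - 1) := by ring
  have e1 := G_moebius (a := 1) (b := -2) (c := 3) (d := -5) (by norm_num)
    (im_mul hz 5 (by norm_num))
  have e3 := G_moebius (a := 1) (b := -6) (c := 1) (d := -5) (by norm_num)
    (im_mul hz 15 (by norm_num))
  have e5 := G_moebius (a := 5) (b := -2) (c := 3) (d := -1) (by norm_num) hz
  have e15 := G_moebius (a := 5) (b := -6) (c := 1) (d := -1) (by norm_num)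
    (im_mul hz 3 (by norm_num))
  rw [ze_congr (m := kap (1 : ℤ) (-2) 3 (-5)) (n := ((7 : ℕ) : ℤ)) (by norm_num [kap]),
    zpow_natCast] at e1
  rw [ze_congr (m := kap (1 : ℤ) (-6) 1 (-5)) (n := ((5 : ℕ) : ℤ)) (by norm_num [kap]),
    zpow_natCast] at e3
  rw [ze_congr (m := kap (5 : ℤ) (-2) 3 (-1)) (n := ((11 : ℕ) : ℤ)) (by norm_num [kap]),
    zpow_natCast] at e5
  rw [ze_congr (m := kap (5 : ℤ) (-6) 1 (-1)) (n := ((1 : ℕ) : ℤ)) (by norm_num [kap]),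
    zpow_natCast] at e15
  push_cast at e1 e3 e5 e15
  refine ⟨?_, ?_, ?_, ?_⟩
  · rw [show (5 * z - 2) / (15 * z - 5) = (1 * (5 * z) + -2) / (3 * (5 * z) + -5) by
      congr 1 <;> ring, e1]
    ring
  · rw [show 3 * ((5 * z - 2) / (15 * z - 5)) = (1 * (15 * z) + -6) / (1 * (15 * z) + -5) by
      rw [← mul_div_assoc]; congr 1 <;> ring, e3]
    ring
  · rw [show 5 * ((5 * z - 2) / (15 * z - 5)) = (5 * z + -2) / (3 * z + -1) by
      rw [h7, show (3 * z + -1 : ℂ) = 3 * z - 1 by ring]; field_simp; ring, e5]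
    ring
  · rw [show 15 * ((5 * z - 2) / (15 * z - 5)) = (5 * (3 * z) + -6) / (1 * (3 * z) + -1) by
      rw [h7, show (1 * (3 * z) + -1 : ℂ) = 3 * z - 1 by ring]; field_simp; ring, e15]
    ring

lemma ff_w5 : ff ((5 * z - 2) / (15 * z - 5)) ^ 2 = (5 * (3 * z - 1) ^ 2) ^ 2 * ff z ^ 2 := by
  obtain ⟨e1, e3, e5, e15⟩ := w5_G hz
  rw [ff_sq, ff_sq]
  unfold Gs
  simp only [zpow_one]
  rw [e1, e3, e5, e15]
  have h24 : ze ^ 24 = 1 := by rw [show (24 : ℕ) = 12 * 2 by norm_num, pow_mul, ze12, one_pow]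
  linear_combination (25 * (3 * z - 1) ^ 4 * G z * G (3 * z) * G (5 * z) * G (15 * z)) * h24

lemma X1_w5 : X1 ((5 * z - 2) / (15 * z - 5)) ^ 2 = (Q (qq z) ^ 5 * (Q (qq z ^ 3) ^ 5)⁻¹ *
    (Q (qq z ^ 5))⁻¹ * (Q (qq z ^ 15))) ^ 2 := by
  obtain ⟨e1, e3, e5, e15⟩ := w5_G hz
  have h0 := w5_aux hz
  have h7 : (15 * z - 5 : ℂ) = 5 * (3 * z - 1) := by ring
  have g1 := G_mul 1 z
  have g3 := G_mul 3 z
  have g5 := G_mul 5 z
  have g15 := G_mul 15 z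
  push_cast at g1 g3 g5 g15
  rw [one_mul, pow_one] at g1
  obtain ⟨n1, n3, n5, n15⟩ := Q_nes hz
  have ht := tt_ne z
  have hze := ze_ne
  have hph : (ze ^ 7)⁻¹ * ze ^ 5 * (ze ^ 11) ^ 5 * ((ze ^ 1) ^ 5)⁻¹ = 1 := by
    have h48 : ze ^ 48 = 1 := by rw [show (48 : ℕ) = 12 * 4 by norm_num, pow_mul, ze12, one_pow]
    field_simp
    linear_combination h48
  rw [X1_sq]
  unfold Gs
  rw [e1, e3, e5, e15, zpow_neg_one, zpow_one, zpow_neg]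
  norm_cast
  have e : (ze ^ 7 * ((15 * z - 5) * G (5 * z)))⁻¹ * (ze ^ 5 * ((15 * z - 5) * G (15 * z))) *
      (ze ^ 11 * ((3 * z - 1) * G z)) ^ 5 * ((ze ^ 1 * ((3 * z - 1) * G (3 * z))) ^ 5)⁻¹ =
      ((ze ^ 7)⁻¹ * ze ^ 5 * (ze ^ 11) ^ 5 * ((ze ^ 1) ^ 5)⁻¹) *
      (((15 * z - 5) * G (5 * z))⁻¹ * ((15 * z - 5) * G (15 * z)) *
      ((3 * z - 1) * G z) ^ 5 * (((3 * z - 1) * G (3 * z)) ^ 5)⁻¹) := by
    simp only [mul_inv, mul_pow]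
    ring
  rw [hph, one_mul] at e
  refine e.trans ?_
  rw [g1, g3, g5, g15, h7]
  field_simp

lemma Y2_w5 : Y2 ((5 * z - 2) / (15 * z - 5)) = qq z ^ 2 * (125 * (Q (qq z) ^ 2 *
    (Q (qq z ^ 3) ^ 8)⁻¹ * Q (qq z ^ 5) ^ 2 * (Q (qq z ^ 15)) ^ 4)) := by
  obtain ⟨e1, e3, e5, e15⟩ := w5_G hz
  have h0 := w5_aux hz
  have h7 : (15 * z - 5 : ℂ) = 5 * (3 * z - 1) := by ring
  have g1 := G_mul 1 z
  have g3 := G_mul 3 z
  have g5 := G_mul 5 z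
  have g15 := G_mul 15 z
  push_cast at g1 g3 g5 g15
  rw [one_mul, pow_one] at g1
  obtain ⟨n1, n3, n5, n15⟩ := Q_nes hz
  have ht := tt_ne z
  have hze := ze_ne
  have hph : ze ^ 7 * (ze ^ 5) ^ 2 * ze ^ 11 * ((ze ^ 1) ^ 4)⁻¹ = 1 := by
    have h24 : ze ^ 24 = 1 := by rw [show (24 : ℕ) = 12 * 2 by norm_num, pow_mul, ze12, one_pow]
    field_simp
    linear_combination h24
  rw [Y2_eq]
  unfold Gs
  have hq2 : qq z ^ 2 = tt z ^ 48 := by rw [← tt_pow]; ring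
  rw [hq2, e1, e3, e5, e15, zpow_one, zpow_one, zpow_neg]
  norm_cast
  have e : (ze ^ 7 * ((15 * z - 5) * G (5 * z))) * (ze ^ 5 * ((15 * z - 5) * G (15 * z))) ^ 2 *
      (ze ^ 11 * ((3 * z - 1) * G z)) * ((ze ^ 1 * ((3 * z - 1) * G (3 * z))) ^ 4)⁻¹ =
      (ze ^ 7 * (ze ^ 5) ^ 2 * ze ^ 11 * ((ze ^ 1) ^ 4)⁻¹) *
      (((15 * z - 5) * G (5 * z)) * ((15 * z - 5) * G (15 * z)) ^ 2 *
      ((3 * z - 1) * G z) * (((3 * z - 1) * G (3 * z)) ^ 4)⁻¹) := by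
    simp only [mul_inv, mul_pow]
    ring
  rw [hph, one_mul] at e
  refine e.trans ?_
  rw [g1, g3, g5, g15, h7]
  field_simp
  ring

end w5

lemma cusp5_core : (∀ z : ℂ, 0 < z.im → 0 < (m5 z).im) ∧
    (∀ z : ℂ, 0 < z.im → HasDerivAt m5 (j5 z) z) ∧
    (∀ z : ℂ, 0 < z.im → j5 z ≠ 0) ∧ ContinuousOn j5 {z : ℂ | 0 < z.im} ∧
    (∀ z : ℂ, 0 < z.im → (ff (m5 z) * j5 z) ^ 2 = ff z ^ 2) ∧ QV (fun z => Y2 (m5 z)) 0 := by
  have hne : ∀ z : ℂ, 0 < z.im → (5 : ℂ) * (3 * z - 1) ^ 2 ≠ 0 := fun z hz =>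
    mul_ne_zero (by norm_num) (pow_ne_zero 2 (w5_aux hz))
  refine ⟨fun z hz => w5_pos hz, fun z hz => ?_, fun z hz => inv_ne_zero (hne z hz), ?_,
    fun z hz => ?_, ?_⟩
  · have h0 := w5_aux hz
    have h7 : (15 * z - 5 : ℂ) = 5 * (3 * z - 1) := by ring
    have h1 : HasDerivAt (fun w : ℂ => 15 * w - 5) 15 z := by
      simpa using ((hasDerivAt_id z).const_mul (15 : ℂ)).sub_const 5
    have h1' : HasDerivAt (fun w : ℂ => 5 * w - 2) 5 z := by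
      simpa using ((hasDerivAt_id z).const_mul (5 : ℂ)).sub_const 2
    have h2 := h1'.div h1 (by rw [h7]; exact mul_ne_zero (by norm_num) h0)
    unfold m5 j5
    refine h2.congr_deriv ?_
    rw [h7]
    field_simp
    ring
  · intro z hz
    unfold j5
    exact ContinuousAt.continuousWithinAt (ContinuousAt.inv₀ (by fun_prop) (hne z hz))
  · have h0 := w5_aux hz
    unfold m5 j5
    rw [mul_pow, ff_w5 hz]
    field_simp
  · have q3 := QV_Q 3 (by norm_num)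
    have q5 := QV_Q 5 (by norm_num)
    have q15 := QV_Q 15 (by norm_num)
    have h := ((QV.qq'.pow 2).mul ((QV.const 125).mul ((((QV_Q1.pow 2).mul ((q3.pow 8).inv
      (by norm_num))).mul (q5.pow 2)).mul (q15.pow 4)))).of_val
        (show _ = (0 : ℂ) by norm_num)
    refine h.of_eq (iI_pos.mono fun z hz => ?_)
    exact Y2_w5 hz

end CU5

open Pool.Agent.W97.TW Pool.Agent.W97.MT CU5 in
theorem t_CU5 : S_CU5 := by
  obtain ⟨h1, h2, h3, h4, h5, h6⟩ := cusp5_core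
  have q3 := QV_Q 3 (by norm_num)
  have q5 := QV_Q 5 (by norm_num)
  have q15 := QV_Q 15 (by norm_num)
  have h := ((((QV_Q1.pow 5).mul ((q3.pow 5).inv (by norm_num))).mul (q5.inv one_ne_zero)).mul
      q15).of_val (show _ = (1 : ℂ) by norm_num)
  have c1 := Q_contOn1
  have c3 := Q_contOn 3 (by norm_num)
  have c5 := Q_contOn 5 (by norm_num)
  have c15 := Q_contOn 15 (by norm_num)
  have e : ∀ z : ℂ, 0 < z.im → Pool.Agent.XV.MT.X1 (m5 z) ^ 2 = (Q (qq z) ^ 5 *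
    (Q (qq z ^ 3) ^ 5)⁻¹ * (Q (qq z ^ 5))⁻¹ * (Q (qq z ^ 15))) ^ 2 := fun z hz => X1_w5 hz
  have e0 : ∀ z : ℂ, 0 < z.im → (Q (qq z) ^ 5 * (Q (qq z ^ 3) ^ 5)⁻¹ *
    (Q (qq z ^ 5))⁻¹ * (Q (qq z ^ 15))) ≠ 0 := fun z hz => by
    obtain ⟨n1, n3, n5, n15⟩ := CU5.Q_nes hz
    positivity
  have c : ContinuousOn (fun z => Q (qq z) ^ 5 * (Q (qq z ^ 3) ^ 5)⁻¹ *
    (Q (qq z ^ 5))⁻¹ * (Q (qq z ^ 15))) {z : ℂ | 0 < z.im} :=
    ((((c1.pow 5).mul ((c3.pow 5).inv₀ fun z hz => pow_ne_zero _ (CU5.Q_nes hz).2.1)).mul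
      (c5.inv₀ fun z hz => (CU5.Q_nes hz).2.2.1)).mul c15)
  rcases QV_of_sq (comp_cont h1 h2 CU5.X1_cont) c e e0 h with h7 | h7
  · exact Or.inl ⟨h1, h2, h3, h4, h5, h7, h6⟩
  · exact Or.inr ⟨h1, h2, h3, h4, h5, h7, h6⟩

end Pool.Agent.XV.MT
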