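import Pool.Agent.XV.MT.Sk

/-!
Four divides the number of points of `E15` modulo `p`.
-/

set_option autoImplicit false

namespace Pool.Agent.XV.MT

open WeierstrassCurve WeierstrassCurve.Affine
open Pool.Agent.W97.MT (affCount)

theorem t_FOUR : S_FOUR := by
  classical
  intro p hp h2 h3 h5
  have : Fact p.Prime := ⟨hp⟩
  have hne : ∀ n : ℕ, (n : ZMod p) = 0 → p ∣ n := fun n h => (ZMod.natCast_eq_zero_iff n p).1 h
  have h2' : (2 : ZMod p) ≠ 0 := by
    intro h
    have := hne 2 (by exact_mod_cast h)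
    exact h2 ((Nat.prime_dvd_prime_iff_eq hp Nat.prime_two).1 this)
  have h3' : (3 : ZMod p) ≠ 0 := by
    intro h
    have := hne 3 (by exact_mod_cast h)
    exact h3 ((Nat.prime_dvd_prime_iff_eq hp (by norm_num)).1 this)
  have h5' : (5 : ZMod p) ≠ 0 := by
    intro h
    have := hne 5 (by exact_mod_cast h)
    exact h5 ((Nat.prime_dvd_prime_iff_eq hp (by norm_num)).1 this)
  have h45 : (45 : ZMod p) ≠ 0 := by
    have : (45 : ZMod p) = 3 ^ 2 * 5 := by norm_num
    rw [this]
    exact mul_ne_zero (pow_ne_zero _ h3') h5'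
  set W : WeierstrassCurve (ZMod p) := E15.map (Int.castRingHom (ZMod p)) with hW
  have ha1 : W.a₁ = 1 := by simp [hW, E15]
  have ha2 : W.a₂ = 1 := by simp [hW, E15]
  have ha3 : W.a₃ = 1 := by simp [hW, E15]
  have ha4 : W.a₄ = -10 := by simp [hW, E15]
  have ha6 : W.a₆ = -10 := by simp [hW, E15]
  have hΔ : W.Δ ≠ 0 := by
    have : W.Δ = (3 * 5) ^ 4 := by
      simp only [WeierstrassCurve.Δ, WeierstrassCurve.b₂, WeierstrassCurve.b₄, WeierstrassCurve.b₆,
        WeierstrassCurve.b₈, ha1, ha2, ha3, ha4, ha6]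
      norm_num
    rw [this]
    exact pow_ne_zero _ (mul_ne_zero h3' h5')
  have : W.IsElliptic := ⟨isUnit_iff_ne_zero.2 hΔ⟩
  have hcard : Nat.card (WeierstrassCurve.Affine.Point W.toAffine) = affCount E15 p + 1 := by
    rw [Nat.card_congr (pointEquiv W.toAffine)]
    unfold affCount
    exact Finite.card_option
  have : Finite (WeierstrassCurve.Affine.Point W.toAffine) := by
    have : Finite (WithZero {xy : ZMod p × ZMod p // W.toAffine.Equation xy.fst xy.snd}) :=
      inferInstanceAs (Finite (Option {xy : ZMod p × ZMod p //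
        W.toAffine.Equation xy.fst xy.snd}))
    exact Finite.of_equiv _ (pointEquiv W.toAffine).symm
  have hQe : W.toAffine.Equation 8 18 := by
    rw [WeierstrassCurve.Affine.equation_iff, ha1, ha2, ha3, ha4, ha6]; norm_num
  have hTe : W.toAffine.Equation 3 (-2) := by
    rw [WeierstrassCurve.Affine.equation_iff, ha1, ha2, ha3, ha4, ha6]; norm_num
  have hQn := (equation_iff_nonsingular (W := W.toAffine)).1 hQe
  have hTn := (equation_iff_nonsingular (W := W.toAffine)).1 hTe
  have hTT : (Point.some _ _ hTn : W.toAffine.Point) + Point.some _ _ hTn = 0 := by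
    apply Point.add_self_of_Y_eq
    rw [negY, ha1, ha3]; norm_num
  have hY : (18 : ZMod p) ≠ W.toAffine.negY 8 18 := by
    rw [negY, ha1, ha3]
    intro h
    apply h45
    linear_combination h
  have hsl : W.toAffine.slope 8 8 18 18 = 4 := by
    rw [slope_of_Y_ne rfl hY, ha1, ha2, ha4, negY, ha1, ha3]
    rw [div_eq_iff]
    · norm_num
    · intro h; apply h45; linear_combination h
  have hQQ : (Point.some _ _ hQn : W.toAffine.Point) + Point.some _ _ hQn =
      Point.some _ _ hTn := by
    rw [Point.add_self_of_Y_ne hY]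
    have e1 : W.toAffine.addX 8 8 (W.toAffine.slope 8 8 18 18) = 3 := by
      rw [hsl, addX, ha1, ha2]; norm_num
    have e2 : W.toAffine.addY 8 8 18 (W.toAffine.slope 8 8 18 18) = -2 := by
      rw [addY, e1, negAddY, e1, hsl, negY, ha1, ha3]; norm_num
    simp only [e1, e2]
  have hQ4 : addOrderOf (Point.some _ _ hQn : W.toAffine.Point) = 4 := by
    have : Fact (Nat.Prime 2) := ⟨Nat.prime_two⟩
    have h := addOrderOf_eq_prime_pow (p := 2) (n := 1)
      (x := (Point.some _ _ hQn : W.toAffine.Point)) ?_ ?_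
    · simpa using h
    · rw [pow_one, two_nsmul, hQQ]
      exact Point.some_ne_zero _
    · rw [show (2 : ℕ) ^ (1 + 1) = 2 * 2 from rfl, mul_nsmul, two_nsmul, two_nsmul, hQQ, hTT]
  rw [← hcard, ← hQ4]
  exact addOrderOf_dvd_natCard _

end Pool.Agent.XV.MT
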