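import Pool.Agent.XV.MT.Sk
import Pool.Agent.W97.MT.QX

/-!
Project XV, part T1: the equation of the curve (helper78).
-/

set_option autoImplicit false

open Filter Topology

namespace Pool.Agent.XV.MT.ID1

open Pool.Agent.W97.TW
open Pool.Agent.W97.MT (qq tt iI QV Rep RepC Tr mulL getD_map_range list_sum_range num qq_ne norm_qq_lt
  iI_pos im_mul)

lemma H_open : IsOpen {z : ℂ | 0 < z.im} := isOpen_lt continuous_const Complex.continuous_im

lemma eta_diff {z : ℂ} (hz : 0 < z.im) (n : ℕ) (hn : 0 < n) :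
    DifferentiableAt ℂ (fun w : ℂ => ModularForm.eta (n * w)) z := by
  have h3 := ModularForm.differentiableAt_eta_of_mem_upperHalfPlaneSet
    (show (n : ℂ) * z ∈ UpperHalfPlane.upperHalfPlaneSet from im_mul hz n hn)
  exact DifferentiableAt.comp z h3 (by fun_prop)

lemma eta_diffs {z : ℂ} (hz : 0 < z.im) : DifferentiableAt ℂ (fun w : ℂ => ModularForm.eta w) z ∧
    DifferentiableAt ℂ (fun w : ℂ => ModularForm.eta (3 * w)) z ∧
    DifferentiableAt ℂ (fun w : ℂ => ModularForm.eta (5 * w)) z ∧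
    DifferentiableAt ℂ (fun w : ℂ => ModularForm.eta (15 * w)) z := by
  have h1 := eta_diff hz 1 (by norm_num)
  have h3 := eta_diff hz 3 (by norm_num)
  have h5 := eta_diff hz 5 (by norm_num)
  have h15 := eta_diff hz 15 (by norm_num)
  push_cast at h1 h3 h5 h15
  simp only [one_mul] at h1
  exact ⟨h1, h3, h5, h15⟩

lemma eta_nes {z : ℂ} (hz : 0 < z.im) : ModularForm.eta z ≠ 0 ∧ ModularForm.eta (3 * z) ≠ 0 ∧
    ModularForm.eta (5 * z) ≠ 0 ∧ ModularForm.eta (15 * z) ≠ 0 := by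
  have h3 := ModularForm.eta_ne_zero (im_mul hz 3 (by norm_num))
  have h5 := ModularForm.eta_ne_zero (im_mul hz 5 (by norm_num))
  have h15 := ModularForm.eta_ne_zero (im_mul hz 15 (by norm_num))
  push_cast at h3 h5 h15
  exact ⟨ModularForm.eta_ne_zero hz, h3, h5, h15⟩

lemma X1_diff {z : ℂ} (hz : 0 < z.im) : DifferentiableAt ℂ X1 z := by
  obtain ⟨e1, e3, e5, e15⟩ := eta_diffs hz
  obtain ⟨n1, n3, n5, n15⟩ := eta_nes hz
  exact (((e1.inv n1).mul e3).mul (e5.pow 5)).mul ((e15.pow 5).inv (pow_ne_zero _ n15))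

lemma Y2_diff {z : ℂ} (hz : 0 < z.im) : DifferentiableAt ℂ Y2 z := by
  obtain ⟨e1, e3, e5, e15⟩ := eta_diffs hz
  obtain ⟨n1, n3, n5, n15⟩ := eta_nes hz
  exact (((e1.pow 2).mul (e3.pow 4)).mul (e5.pow 2)).mul
    ((e15.pow 8).inv (pow_ne_zero _ n15))

theorem cp_zero (hcp : S_CP) {g : ℂ → ℂ} (hd : ∀ z : ℂ, 0 < z.im → DifferentiableAt ℂ g z)
    (hinv : Inv g) (h1 : QV g 0) {v15 v5 v3 : ℂ} (h15 : QV (fun z => g (m15 z)) v15)
    (h5 : QV (fun z => g (m5 z)) v5) (h3 : QV (fun z => g (m3 z)) v3) :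
    ∀ z : ℂ, 0 < z.im → g z = 0 := by
  obtain ⟨c, hc⟩ := hcp g (fun z hz => (hd z hz).differentiableWithinAt) hinv h1.bounded'
    h15.bounded h5.bounded h3.bounded
  have h3 : QV g c := (QV.const c).of_eq (iI_pos.mono fun z hz => hc z hz)
  have h4 := h3.val_unique h1
  intro z hz
  rw [hc z hz, h4]

lemma mul_zero_or {f g : ℂ → ℂ} (hf : ∀ z : ℂ, 0 < z.im → DifferentiableAt ℂ f z)
    (hg : ∀ z : ℂ, 0 < z.im → DifferentiableAt ℂ g z) (h : ∀ z : ℂ, 0 < z.im → f z * g z = 0) :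
    (∀ z : ℂ, 0 < z.im → f z = 0) ∨ (∀ z : ℂ, 0 < z.im → g z = 0) := by
  have hf' : AnalyticOnNhd ℂ f {z : ℂ | 0 < z.im} := fun z hz =>
    (show DifferentiableOn ℂ f {z : ℂ | 0 < z.im} from
      fun w hw => (hf w hw).differentiableWithinAt).analyticAt (H_open.mem_nhds hz)
  have hg' : AnalyticOnNhd ℂ g {z : ℂ | 0 < z.im} := fun z hz =>
    (show DifferentiableOn ℂ g {z : ℂ | 0 < z.im} from
      fun w hw => (hg w hw).differentiableWithinAt).analyticAt (H_open.mem_nhds hz)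
  exact AnalyticOnNhd.eq_zero_or_eq_zero_of_mul_eq_zero hf' hg' h
    (convex_halfSpace_im_gt 0).isPreconnected

lemma qq_X1 {z : ℂ} (hz : 0 < z.im) : qq z ^ 2 * X1 z = xi (qq z) := by
  rw [X1_q hz]
  field_simp [qq_ne z]

lemma qq_Y2 {z : ℂ} (hz : 0 < z.im) : qq z ^ 4 * Y2 z = ups (qq z) := by
  rw [Y2_q hz]
  field_simp [qq_ne z]

/-- a generic quotient by a power of `q` -/
lemma QV_zero_of_dvd {g B : ℂ → ℂ} {φ : PowerSeries ℤ} {m : ℕ} (hB : Rep B φ)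
    (hd : PowerSeries.X ^ (m + 1) ∣ φ) (h : ∀ z : ℂ, 0 < z.im → qq z ^ m * g z = B (qq z)) :
    QV g 0 := by
  obtain ⟨k, hk, h2⟩ := hB.of_dvd hd
  refine ((QV.qq'.mul (QV.comp hk)).of_eq (iI_pos.mono fun z hz => ?_)).of_val (by simp)
  have h3 := h z hz
  rw [h2 _ (norm_qq_lt hz), pow_succ, mul_assoc] at h3
  exact mul_left_cancel₀ (pow_ne_zero m (qq_ne z)) h3

/-! ### fourteen coefficients -/

/-- the first fourteen coefficients of the power series are given by the list -/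
def T14 (A : PowerSeries ℤ) (a : List ℤ) : Prop := ∀ n : ℕ, n < 14 → PowerSeries.coeff n A = a.getD n 0

/-- product -/
def mul14 (a b : List ℤ) : List ℤ := (List.range 14).map fun n =>
  ((List.range (n + 1)).map fun i => a.getD i 0 * b.getD (n - i) 0).sum

lemma getD_map_range14 (f : ℕ → ℤ) {n : ℕ} (hn : n < 14) :
    ((List.range 14).map f).getD n 0 = f n := by
  rw [List.getD_eq_getElem?_getD, List.getElem?_map, List.getElem?_range hn]
  simp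

lemma T14.mul {A B : PowerSeries ℤ} {a b : List ℤ} (hA : T14 A a) (hB : T14 B b) :
    T14 (A * B) (mul14 a b) := by
  intro n hn
  unfold mul14
  rw [getD_map_range14 _ hn, PowerSeries.coeff_mul,
    Finset.Nat.sum_antidiagonal_eq_sum_range_succ_mk, list_sum_range]
  refine Finset.sum_congr rfl fun i hi => ?_
  have hi' : i < n + 1 := by simpa using hi
  dsimp only
  rw [hA i (by omega), hB (n - i) (by omega)]

/-- the list of the series `v` -/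
def lv : List ℤ := [-4, -6, -10, -16, -12, -28, -24, -36, -2, -46, 36, 16, 102]

/-- the list of `xi²` -/
def lx2 : List ℤ := mul14 lxi lxi

lemma lv_eq : ∀ n : ℕ, n < 13 → lups.getD (n + 1) 0 - lx2.getD (n + 1) 0 -
    (if n + 1 = 4 then 9 else 0) = lv.getD n 0 := by
  decide +kernel

lemma exists_V {Ξ U : PowerSeries ℤ} (hΞ : T14 Ξ lxi) (hU : T14 U lups) :
    ∃ V : PowerSeries ℤ, U - Ξ ^ 2 - 9 * PowerSeries.X ^ 4 = PowerSeries.X * V ∧ Tr V lv := by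
  have h2 : T14 (Ξ ^ 2) lx2 := by rw [pow_two]; exact hΞ.mul hΞ
  have hc : ∀ n : ℕ, n < 14 → PowerSeries.coeff n (U - Ξ ^ 2 - 9 * PowerSeries.X ^ 4) =
      lups.getD n 0 - lx2.getD n 0 - (if n = 4 then 9 else 0) := by
    intro n hn
    rw [num 9, map_sub, map_sub, hU n hn, h2 n hn, PowerSeries.coeff_C_mul,
      PowerSeries.coeff_X_pow]
    split_ifs <;> simp
  have h0 : PowerSeries.constantCoeff (U - Ξ ^ 2 - 9 * PowerSeries.X ^ 4) = 0 := by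
    rw [← PowerSeries.coeff_zero_eq_constantCoeff_apply, hc 0 (by norm_num)]
    decide +kernel
  obtain ⟨V, hV⟩ := PowerSeries.X_dvd_iff.2 h0
  refine ⟨V, hV, fun n hn => ?_⟩
  rw [← lv_eq n hn, ← hc (n + 1) (by omega), hV, PowerSeries.coeff_succ_X_mul]

theorem identity_one {Ξ V : PowerSeries ℤ} (hΞ : Tr Ξ lxi) (hV : Tr V lv) :
    PowerSeries.X ^ 13 ∣ (V ^ 2 + 28 * (PowerSeries.X ^ 2 * Ξ ^ 2)) ^ 2 -
      256 * (Ξ ^ 2 * (Ξ ^ 2 - 9 * PowerSeries.X ^ 4) ^ 2) := by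
  refine Tr.dvd_of_zero ?_
  rw [num 28, num 256, num 9]
  refine Tr.congr ((((hV.pow 2).add ((Tr.C 28).mul ((Tr.X.pow 2).mul (hΞ.pow 2)))).pow 2).sub
    ((Tr.C 256).mul ((hΞ.pow 2).mul (((hΞ.pow 2).sub ((Tr.C 9).mul (Tr.X.pow 4))).pow 2)))) ?_
  decide +kernel

/-- the first function -/
noncomputable def g1 (z : ℂ) : ℂ :=
  ((Y2 z - X1 z ^ 2 - 9) ^ 2 + 28 * X1 z ^ 2) ^ 2 - 256 * (X1 z ^ 2 * (X1 z ^ 2 - 9) ^ 2)

lemma g1_cusp {m j : ℂ → ℂ} {x y : ℂ} (h : IsCusp m j x y) : ∃ v, QV (fun z => g1 (m z)) v := by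
  refine ⟨_, (((((h.Y.sub (h.X.pow 2)).sub (QV.const 9)).pow 2).add ((QV.const 28).mul
    (h.X.pow 2))).pow 2).sub ((QV.const 256).mul ((h.X.pow 2).mul
    (((h.X.pow 2).sub (QV.const 9)).pow 2)))⟩

lemma g1_diff {z : ℂ} (hz : 0 < z.im) : DifferentiableAt ℂ g1 z := by
  have h1 := X1_diff hz
  have h2 := Y2_diff hz
  unfold g1
  fun_prop

lemma g1_inv : Inv g1 := by
  intro a b c d h z hz
  unfold g1
  rw [X1_sq_gamma h hz, Y2_gamma h hz]

lemma cusp_of_or {m j : ℂ → ℂ} {x x' y : ℂ} (h : IsCusp m j x y ∨ IsCusp m j x' y) :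
    ∃ x'', IsCusp m j x'' y := by
  rcases h with h | h
  · exact ⟨x, h⟩
  · exact ⟨x', h⟩

lemma tr_of {A : PowerSeries ℤ} {a : List ℤ}
    (h : ∀ n : ℕ, n < 14 → PowerSeries.coeff n A = a.getD n 0) : Tr A a :=
  fun n hn => h n (by omega)

theorem g1_zero (hcp : S_CP) (hcu : S_CUSP) (hex : S_EXP) : ∀ z : ℂ, 0 < z.im → g1 z = 0 := by
  obtain ⟨Ξ, U, P, rΞ, rU, rP, tΞ, tU, tP⟩ := hex
  obtain ⟨x15, c15⟩ := cusp_of_or hcu.1
  obtain ⟨x5, c5⟩ := cusp_of_or hcu.2.1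
  obtain ⟨v15, h15⟩ := g1_cusp c15
  obtain ⟨v5, h5⟩ := g1_cusp c5
  obtain ⟨v3, h3⟩ := g1_cusp hcu.2.2
  obtain ⟨V, hV, tV⟩ := exists_V tΞ tU
  have hid := identity_one (tr_of tΞ) tV
  have hd : PowerSeries.X ^ (16 + 1) ∣ ((U - Ξ ^ 2 - PowerSeries.C 9 * PowerSeries.X ^ 4) ^ 2 +
      PowerSeries.C 28 * (PowerSeries.X ^ 4 * Ξ ^ 2)) ^ 2 - PowerSeries.C 256 *
      (PowerSeries.X ^ 4 * (Ξ ^ 2 * (Ξ ^ 2 - PowerSeries.C 9 * PowerSeries.X ^ 4) ^ 2)) := by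
    rw [← num 9, ← num 28, ← num 256]
    have e : ((U - Ξ ^ 2 - 9 * PowerSeries.X ^ 4) ^ 2 +
      28 * (PowerSeries.X ^ 4 * Ξ ^ 2)) ^ 2 - 256 *
      (PowerSeries.X ^ 4 * (Ξ ^ 2 * (Ξ ^ 2 - 9 * PowerSeries.X ^ 4) ^ 2)) =
      PowerSeries.X ^ 4 * ((V ^ 2 + 28 * (PowerSeries.X ^ 2 * Ξ ^ 2)) ^ 2 -
      256 * (Ξ ^ 2 * (Ξ ^ 2 - 9 * PowerSeries.X ^ 4) ^ 2)) := by
      rw [hV]; ring
    rw [e, show 16 + 1 = 4 + 13 from rfl, pow_add]
    exact mul_dvd_mul_left _ hid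
  have hrep := ((((rU.sub (rΞ.pow 2)).sub ((Rep.C 9).mul (Rep.X.pow 4))).pow 2).add
    ((Rep.C 28).mul ((Rep.X.pow 4).mul (rΞ.pow 2)))).pow 2 |>.sub ((Rep.C 256).mul
    ((Rep.X.pow 4).mul ((rΞ.pow 2).mul (((rΞ.pow 2).sub ((Rep.C 9).mul (Rep.X.pow 4))).pow 2))))
  refine cp_zero hcp (fun z hz => g1_diff hz) g1_inv (QV_zero_of_dvd (m := 16) hrep hd ?_)
    h15 h5 h3
  intro z hz
  unfold g1
  rw [← qq_X1 hz, ← qq_Y2 hz]
  push_cast
  ring

lemma RepC_zero {k : ℂ → ℂ} {ψ : PowerSeries ℂ} (h : RepC k ψ) :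
    k 0 = PowerSeries.coeff 0 ψ := by
  have h1 := h 0 (by simp)
  have h2 : HasSum (fun n : ℕ => PowerSeries.coeff n ψ * (0 : ℂ) ^ n) (PowerSeries.coeff 0 ψ) := by
    have := hasSum_single (f := fun n : ℕ => PowerSeries.coeff n ψ * (0 : ℂ) ^ n) 0 (by
      intro n hn
      rw [zero_pow hn, mul_zero])
    simpa using this
  exact h1.unique h2

/-- values of integral expansions -/
lemma QV_of_Rep {h : ℂ → ℂ} {φ : PowerSeries ℤ} (hr : Rep h φ) :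
    QV (fun z => h (qq z)) ((PowerSeries.coeff 0 φ : ℤ) : ℂ) := by
  refine (QV.comp hr.analyticAt_zero).of_val ?_
  have := RepC_zero hr
  rw [this, PowerSeries.coeff_map]
  simp

/-- the function `v` -/
lemma QV_v {Ξ U V : PowerSeries ℤ} (rΞ : Rep xi Ξ) (rU : Rep ups U)
    (hV : U - Ξ ^ 2 - 9 * PowerSeries.X ^ 4 = PowerSeries.X * V) (tV : Tr V lv) :
    QV (fun z => qq z ^ 3 * (Y2 z - X1 z ^ 2 - 9)) (-4) := by
  have hrep := (rU.sub (rΞ.pow 2)).sub ((Rep.C 9).mul (Rep.X.pow 4))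
  rw [← num 9, hV] at hrep
  have h1 : RepC (fun q => ups q - xi q ^ 2 - ((9 : ℤ) : ℂ) * q ^ 4) (PowerSeries.X ^ 1 *
      (PowerSeries.map (Int.castRingHom ℂ) V)) := by
    unfold Pool.Agent.W97.MT.Rep at hrep
    rwa [map_mul, PowerSeries.map_X, ← pow_one PowerSeries.X] at hrep
  obtain ⟨k, hk, h2⟩ := h1.of_X_pow_mul
  have hk0 : k 0 = -4 := by
    rw [RepC_zero hk, PowerSeries.coeff_map, tV 0 (by norm_num)]
    simp [lv]
  refine ((QV.comp hk.analyticAt_zero).of_eq (iI_pos.mono fun z hz => ?_)).of_val hk0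
  have h3 := h2 _ (norm_qq_lt hz)
  rw [← qq_X1 hz, ← qq_Y2 hz, pow_one] at h3
  have hq := qq_ne z
  have h4 : qq z * (qq z ^ 3 * (Y2 z - X1 z ^ 2 - 9)) = qq z * k (qq z) := by
    rw [← h3]
    push_cast
    ring
  exact mul_left_cancel₀ hq h4

theorem curve (hcp : S_CP) (hcu : S_CUSP) (hex : S_EXP) : ∀ z : ℂ, 0 < z.im →
    (Y2 z - X1 z ^ 2 - 9) ^ 2 + 28 * X1 z ^ 2 = 16 * (X1 z * (X1 z ^ 2 - 9)) := by
  have h0 := g1_zero hcp hcu hex
  obtain ⟨Ξ, U, P, rΞ, rU, rP, tΞ, tU, tP⟩ := hex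
  obtain ⟨V, hV, tV⟩ := exists_V tΞ tU
  have h := mul_zero_or (f := fun z => ((Y2 z - X1 z ^ 2 - 9) ^ 2 + 28 * X1 z ^ 2) -
      16 * (X1 z * (X1 z ^ 2 - 9))) (g := fun z => ((Y2 z - X1 z ^ 2 - 9) ^ 2 + 28 * X1 z ^ 2) +
      16 * (X1 z * (X1 z ^ 2 - 9))) (fun z hz => by
        have h1 := X1_diff hz
        have h2 := Y2_diff hz
        fun_prop) (fun z hz => by
        have h1 := X1_diff hz
        have h2 := Y2_diff hz
        fun_prop) (fun z hz => by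
        have := h0 z hz
        unfold g1 at this
        linear_combination this)
  rcases h with h | h
  · intro z hz
    exact sub_eq_zero.1 (h z hz)
  · exfalso
    have hv := QV_v rΞ rU hV tV
    have hx := QV_of_Rep rΞ
    have c0 : PowerSeries.coeff 0 Ξ = 1 := by rw [tΞ 0 (by norm_num)]; rfl
    rw [c0] at hx
    have h1 := (((hv.pow 2).add ((QV.const 28).mul ((QV.qq'.pow 2).mul (hx.pow 2)))).add
      ((QV.const 16).mul (hx.mul ((hx.pow 2).sub ((QV.const 9).mul (QV.qq'.pow 4)))))).of_eq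
      (f := fun _ => 0) (iI_pos.mono fun z hz => by
        have h2 := h z hz
        rw [← qq_X1 hz]
        linear_combination (-(qq z ^ 6)) * h2)
    have h2 := h1.val_unique (QV.const 0)
    norm_num at h2

end Pool.Agent.XV.MT.ID1

namespace Pool.Agent.XV.MT

theorem t_ID1 : S_ID1 := fun hcp hcu hex => ID1.curve hcp hcu hex

end Pool.Agent.XV.MT
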