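import Pool.Agent.XV.MT.Sk
import Pool.Agent.W97.MT.Ident

/-!
Project XV, job XV-T1-ID2: the identities between the modular functions on `X_0(15)`.
Port of `W97/MT/Ident.lean` to level `15`; the equation of the curve is a hypothesis.
-/

set_option autoImplicit false

open Filter Topology

namespace Pool.Agent.XV.MT

namespace ID2

open Pool.Agent.W97.TW
open Pool.Agent.W97.MT (qq qq_ne norm_qq_lt iI iI_pos QV Rep RepC H_open eta_diff im_mul
  Qq_analytic comp_cont eq_or_eq_neg mul_zero_or QV_zero_of_dvd tpi_ne hasDerivAt_qq)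

lemma eta_diffs {z : ℂ} (hz : 0 < z.im) : DifferentiableAt ℂ (fun w : ℂ => ModularForm.eta w) z ∧
    DifferentiableAt ℂ (fun w : ℂ => ModularForm.eta (3 * w)) z ∧
    DifferentiableAt ℂ (fun w : ℂ => ModularForm.eta (5 * w)) z ∧
    DifferentiableAt ℂ (fun w : ℂ => ModularForm.eta (15 * w)) z := by
  have h1 := eta_diff hz 1 (by norm_num)
  have h3 := eta_diff hz 3 (by norm_num)
  have h5 := eta_diff hz 5 (by norm_num)
  have h15 := eta_diff hz 15 (by norm_num)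
  push_cast at h1 h3 h5 h15
  simp only [one_mul] at h1
  exact ⟨h1, h3, h5, h15⟩

lemma eta_nes {z : ℂ} (hz : 0 < z.im) : ModularForm.eta z ≠ 0 ∧ ModularForm.eta (3 * z) ≠ 0 ∧
    ModularForm.eta (5 * z) ≠ 0 ∧ ModularForm.eta (15 * z) ≠ 0 := by
  have h3 := ModularForm.eta_ne_zero (im_mul hz 3 (by norm_num))
  have h5 := ModularForm.eta_ne_zero (im_mul hz 5 (by norm_num))
  have h15 := ModularForm.eta_ne_zero (im_mul hz 15 (by norm_num))
  push_cast at h3 h5 h15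
  exact ⟨ModularForm.eta_ne_zero hz, h3, h5, h15⟩

lemma ff_ne {z : ℂ} (hz : 0 < z.im) : ff z ≠ 0 := by
  obtain ⟨e1, e3, e5, e15⟩ := eta_nes hz
  exact mul_ne_zero (mul_ne_zero (mul_ne_zero e1 e3) e5) e15

lemma X1_ne {z : ℂ} (hz : 0 < z.im) : X1 z ≠ 0 := by
  obtain ⟨e1, e3, e5, e15⟩ := eta_nes hz
  unfold X1
  positivity

lemma ff_diff {z : ℂ} (hz : 0 < z.im) : DifferentiableAt ℂ ff z := by
  obtain ⟨e1, e3, e5, e15⟩ := eta_diffs hz
  exact ((e1.mul e3).mul e5).mul e15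

lemma X1_diff {z : ℂ} (hz : 0 < z.im) : DifferentiableAt ℂ X1 z := by
  obtain ⟨e1, e3, e5, e15⟩ := eta_diffs hz
  obtain ⟨n1, n3, n5, n15⟩ := eta_nes hz
  exact (((e1.inv n1).mul e3).mul (e5.pow 5)).mul ((e15.pow 5).inv (pow_ne_zero _ n15))

lemma Y2_diff {z : ℂ} (hz : 0 < z.im) : DifferentiableAt ℂ Y2 z := by
  obtain ⟨e1, e3, e5, e15⟩ := eta_diffs hz
  obtain ⟨n1, n3, n5, n15⟩ := eta_nes hz
  exact (((e1.pow 2).mul (e3.pow 4)).mul (e5.pow 2)).mul
    ((e15.pow 8).inv (pow_ne_zero _ n15))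

lemma X1_cont : ContinuousOn X1 {z : ℂ | 0 < z.im} := fun _ hz =>
  (X1_diff hz).continuousAt.continuousWithinAt

lemma ff_cont : ContinuousOn ff {z : ℂ | 0 < z.im} := fun _ hz =>
  (ff_diff hz).continuousAt.continuousWithinAt

theorem cp_zero (hcp : S_CP) {g : ℂ → ℂ} (hd : ∀ z : ℂ, 0 < z.im → DifferentiableAt ℂ g z)
    (hinv : Inv g) (h1 : QV g 0) {v15 v5 v3 : ℂ} (h15 : QV (fun z => g (m15 z)) v15)
    (h5 : QV (fun z => g (m5 z)) v5) (h3 : QV (fun z => g (m3 z)) v3) :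
    ∀ z : ℂ, 0 < z.im → g z = 0 := by
  obtain ⟨c, hc⟩ := hcp g (fun z hz => (hd z hz).differentiableWithinAt) hinv h1.bounded'
    h15.bounded h5.bounded h3.bounded
  have h3 : QV g c := (QV.const c).of_eq (iI_pos.mono fun z hz => hc z hz)
  have h4 := h3.val_unique h1
  intro z hz
  rw [hc z hz, h4]

lemma qq_X1 {z : ℂ} (hz : 0 < z.im) : qq z ^ 2 * X1 z = xi (qq z) := by
  rw [X1_q hz]
  field_simp [qq_ne z]

lemma qq_Y2 {z : ℂ} (hz : 0 < z.im) : qq z ^ 4 * Y2 z = ups (qq z) := by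
  rw [Y2_q hz]
  field_simp [qq_ne z]

lemma xi_zero : xi 0 = 1 := by
  unfold xi
  simp [Q_zero]

lemma phi_zero : phi 0 = 1 := by
  unfold phi
  simp [Q_zero]

lemma QV_xi : QV (fun z => xi (qq z)) 1 := by
  have h1 : AnalyticAt ℂ xi 0 := by
    have e1 := Qq_analytic 1 one_ne_zero
    have e3 := Qq_analytic 3 (by norm_num)
    have e5 := Qq_analytic 5 (by norm_num)
    have e15 := Qq_analytic 15 (by norm_num)
    simp only [pow_one] at e1
    exact (((e1.inv (by simp [Q_zero])).mul e3).mul (e5.pow 5)).mul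
      ((e15.pow 5).inv (by simp [Q_zero]))
  exact (QV.comp h1).of_val xi_zero

lemma phi_analytic : AnalyticAt ℂ phi 0 := by
  have e1 := Qq_analytic 1 one_ne_zero
  have e3 := Qq_analytic 3 (by norm_num)
  have e5 := Qq_analytic 5 (by norm_num)
  have e15 := Qq_analytic 15 (by norm_num)
  simp only [pow_one] at e1
  exact ((e1.mul e3).mul e5).mul e15

lemma QV_phi : QV (fun z => phi (qq z)) 1 := (QV.comp phi_analytic).of_val phi_zero

/-- the equation of the curve -/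
def Curve : Prop := ∀ z : ℂ, 0 < z.im →
  (Y2 z - X1 z ^ 2 - 9) ^ 2 + 28 * X1 z ^ 2 = 16 * (X1 z * (X1 z ^ 2 - 9))

/-- the leading term of `N` -/
lemma QV_N (hc : Curve) :
    QV (fun z => qq z ^ 6 * ((Y2 z - X1 z ^ 2 - 9) ^ 2 + 28 * X1 z ^ 2)) 16 := by
  refine (((QV.const 16).mul (QV_xi.mul ((QV_xi.pow 2).sub ((QV.const 9).mul
    (QV.qq'.pow 4))))).of_eq (iI_pos.mono fun z hz => ?_)).of_val (by norm_num)
  rw [hc z hz, ← qq_X1 hz]
  ring

lemma moebius_cont {a b c d : ℤ} (h : a * d - b * (15 * c) = 1) {g : ℂ → ℂ}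
    (hg : ContinuousOn g {z : ℂ | 0 < z.im}) :
    ContinuousOn (fun z : ℂ => g ((a * z + b) / (15 * c * z + d))) {z : ℂ | 0 < z.im} := by
  refine hg.comp ?_ fun z hz => (G_gamma h hz).1
  intro z hz
  have := (G_gamma h hz).2.1
  exact ContinuousAt.continuousWithinAt (ContinuousAt.div (by fun_prop) (by fun_prop) this)

/-- `X1` is invariant -/
theorem X1_inv (hcv : Curve) : Inv X1 := by
  intro a b c d h
  have hm : ∀ z : ℂ, 0 < z.im → 0 < ((a * z + b) / (15 * c * z + d) : ℂ).im := fun z hz =>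
    (G_gamma h hz).1
  rcases eq_or_eq_neg (moebius_cont h X1_cont) X1_cont (fun z hz => X1_sq_gamma h hz)
    (fun z hz => X1_ne hz) with h1 | h1
  · exact h1
  · exfalso
    have h2 : ∀ z : ℂ, 0 < z.im → (Y2 z - X1 z ^ 2 - 9) ^ 2 + 28 * X1 z ^ 2 = 0 := by
      intro z hz
      have h3 := hcv z hz
      have h4 := hcv _ (hm z hz)
      rw [h1 z hz, Y2_gamma h hz] at h4
      linear_combination (1 / 2 : ℂ) * h3 + (1 / 2 : ℂ) * h4
    have h3 := (QV_N hcv).of_eq (f := fun _ => 0) (iI_pos.mono fun z hz => by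
      rw [h2 z hz]; ring)
    have h4 := h3.val_unique (QV.const 0)
    norm_num at h4

lemma curve_cusp (hcv : Curve) {m j : ℂ → ℂ} {x y : ℂ} (h : IsCusp m j x y) :
    (y - x ^ 2 - 9) ^ 2 + 28 * x ^ 2 = 16 * (x * (x ^ 2 - 9)) := by
  have h1 := (((h.Y.sub (h.X.pow 2)).sub (QV.const 9)).pow 2).add ((QV.const 28).mul (h.X.pow 2))
  have h2 := (QV.const 16).mul (h.X.mul ((h.X.pow 2).sub (QV.const 9)))
  refine h1.val_unique (h2.of_eq (iI_pos.mono fun z hz => ?_))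
  exact hcv _ (h.pos z hz)

theorem isCusp15 (hcv : Curve) (hcu : S_CUSP) : IsCusp m15 j15 9 0 := by
  rcases hcu.1 with h | h
  · exact h
  · exfalso
    have := curve_cusp hcv h
    norm_num at this

theorem isCusp5 (hcv : Curve) (hcu : S_CUSP) : IsCusp m5 j5 (-1) 0 := by
  rcases hcu.2.1 with h | h
  · exfalso
    have := curve_cusp hcv h
    norm_num at this
  · exact h

lemma R0_diff {z : ℂ} (hz : 0 < z.im) : DifferentiableAt ℂ R0 z := by
  have h1 : DifferentiableOn ℂ X1 {z : ℂ | 0 < z.im} := fun w hw =>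
    (X1_diff hw).differentiableWithinAt
  have h2 := (h1.deriv H_open).differentiableAt (H_open.mem_nhds hz)
  exact h2.div ((ff_diff hz).const_mul _) (mul_ne_zero tpi_ne (ff_ne hz))

lemma hasDerivAt_gamma {a b c d : ℤ} (h : a * d - b * (15 * c) = 1) {z : ℂ} (hz : 0 < z.im) :
    HasDerivAt (fun z : ℂ => (a * z + b) / (15 * c * z + d)) (((15 * c * z + d) ^ 2)⁻¹) z := by
  have h0 := (G_gamma h hz).2.1
  have h1 : HasDerivAt (fun w : ℂ => (a : ℂ) * w + b) a z := by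
    simpa using ((hasDerivAt_id z).const_mul (a : ℂ)).add_const (b : ℂ)
  have h2 : HasDerivAt (fun w : ℂ => 15 * (c : ℂ) * w + d) (15 * c) z := by
    simpa using ((hasDerivAt_id z).const_mul (15 * (c : ℂ))).add_const (d : ℂ)
  refine (h1.div h2 h0).congr_deriv ?_
  have h3 : (a : ℂ) * d - b * (15 * c) = 1 := by exact_mod_cast h
  field_simp
  linear_combination h3

/-- the derivative of `X1` is of weight two -/
lemma deriv_X1_gamma (hcv : Curve) {a b c d : ℤ} (h : a * d - b * (15 * c) = 1)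
    {z : ℂ} (hz : 0 < z.im) :
    deriv X1 ((a * z + b) / (15 * c * z + d)) = (15 * c * z + d) ^ 2 * deriv X1 z := by
  have h0 := (G_gamma h hz).2.1
  have hm := (G_gamma h hz).1
  have h1 := (X1_diff hm).hasDerivAt.comp z (hasDerivAt_gamma h hz)
  have h2 : X1 ∘ (fun z : ℂ => (a * z + b) / (15 * c * z + d)) =ᶠ[𝓝 z] X1 := by
    filter_upwards [H_open.mem_nhds hz] with w hw
    exact X1_inv hcv a b c d h w hw
  have h3 := (h1.congr_of_eventuallyEq h2.symm).deriv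
  rw [h3, mul_comm (deriv X1 _), ← mul_assoc, mul_inv_cancel₀ (pow_ne_zero 2 h0), one_mul]

/-- the function comparing `R0²` with the cubic -/
noncomputable def g2 (z : ℂ) : ℂ := R0 z ^ 2 - (4 * X1 z ^ 3 - 7 * X1 z ^ 2 - 36 * X1 z)

lemma g2_diff {z : ℂ} (hz : 0 < z.im) : DifferentiableAt ℂ g2 z := by
  have h1 := X1_diff hz
  have h2 := R0_diff hz
  unfold g2
  fun_prop

lemma g2_inv (hcv : Curve) : Inv g2 := by
  intro a b c d h z hz
  have h0 := (G_gamma h hz).2.1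
  have hf := ff_ne hz
  unfold g2 R0
  rw [X1_inv hcv a b c d h z hz, deriv_X1_gamma hcv h hz, div_pow, mul_pow _ (ff _),
    ff_sq_gamma h hz]
  congr 1
  field_simp

/-- `R0²` at a cusp -/
lemma R0_cusp {m j : ℂ → ℂ} {x y : ℂ} (h : IsCusp m j x y) :
    ∃ v, QV (fun z => R0 (m z) ^ 2) v := by
  obtain ⟨k, hk, h1⟩ := h.X.deriv'
  refine ⟨_, (((QV.comp hk).mul (QV_phi.inv one_ne_zero)).pow 2).of_eq ?_⟩
  filter_upwards [h1, iI_pos] with z hz hp
  have h2 := (X1_diff (h.pos z hp)).hasDerivAt.comp z (h.der z hp)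
  have h3 := h2.unique hz
  have h4 := h.ffj z hp
  have hf := ff_ne hp
  have hj := h.jne z hp
  have hfm := ff_ne (h.pos z hp)
  have hq := qq_ne z
  have hph : phi (qq z) ≠ 0 := by
    intro h0
    rw [ff_q, h0, mul_zero] at hf
    exact hf rfl
  have h5 : R0 (m z) ^ 2 = (deriv X1 (m z) * j z) ^ 2 / ((2 * Real.pi * Complex.I) ^ 2 *
      (ff (m z) * j z) ^ 2) := by
    unfold R0
    field_simp
  have hI : (Complex.I : ℂ) ≠ 0 := Complex.I_ne_zero
  have hpi : (Real.pi : ℂ) ≠ 0 := by exact_mod_cast Real.pi_ne_zero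
  rw [h5, h3, h4, ff_q]
  field_simp

lemma g2_cusp {m j : ℂ → ℂ} {x y : ℂ} (h : IsCusp m j x y) : ∃ v, QV (fun z => g2 (m z)) v := by
  obtain ⟨v, hv⟩ := R0_cusp h
  exact ⟨_, hv.sub ((((QV.const 4).mul (h.X.pow 3)).sub ((QV.const 7).mul (h.X.pow 2))).sub
    ((QV.const 36).mul h.X))⟩

/-- `R0` in terms of `q` -/
lemma R0_q {Ξ : PowerSeries ℤ} (hΞ : Rep xi Ξ) {z : ℂ} (hz : 0 < z.im) :
    qq z ^ 3 * (R0 z * phi (qq z)) = qq z * deriv xi (qq z) - 2 * xi (qq z) := by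
  have hx : DifferentiableAt ℂ xi (qq z) :=
    (RepC.differentiableOn hΞ).differentiableAt (Metric.isOpen_ball.mem_nhds
      (by simpa using norm_qq_lt hz))
  have hq := qq_ne z
  have h1 := (hx.hasDerivAt.comp z (hasDerivAt_qq z)).div ((hasDerivAt_qq z).pow 2)
    (pow_ne_zero 2 hq)
  have h2 : X1 =ᶠ[𝓝 z] (xi ∘ qq) / (qq ^ 2) := by
    filter_upwards [H_open.mem_nhds hz] with w hw
    exact X1_q hw
  have h3 := (h1.congr_of_eventuallyEq h2).deriv
  have hf := ff_ne hz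
  have hph : phi (qq z) ≠ 0 := by
    intro h0
    rw [ff_q, h0, mul_zero] at hf
    exact hf rfl
  have hI : (Complex.I : ℂ) ≠ 0 := Complex.I_ne_zero
  have hpi : (Real.pi : ℂ) ≠ 0 := by exact_mod_cast Real.pi_ne_zero
  unfold R0
  rw [h3, ff_q]
  simp only [Function.comp_apply, Pi.pow_apply]
  field_simp
  push_cast
  ring

open Pool.Agent.W97.MT (Tr num) in
theorem identity_two {Ξ P : PowerSeries ℤ} (hΞ : Tr Ξ lxi) (hP : Tr P lphi) :
    PowerSeries.X ^ 13 ∣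
    (PowerSeries.X * PowerSeries.derivative ℤ Ξ - 2 * Ξ) ^ 2 - P ^ 2 * (4 * Ξ ^ 3 -
      7 * (PowerSeries.X * Ξ) ^ 2 - 36 * (PowerSeries.X ^ 4 * Ξ)) := by
  refine Tr.dvd_of_zero ?_
  rw [num 2, num 4, num 7, num 36]
  refine Tr.congr (((hΞ.theta.sub ((Tr.C 2).mul hΞ)).pow 2).sub ((hP.pow 2).mul
    ((((Tr.C 4).mul (hΞ.pow 3)).sub ((Tr.C 7).mul ((Tr.X.mul hΞ).pow 2))).sub
    ((Tr.C 36).mul ((Tr.X.pow 4).mul hΞ))))) ?_
  decide +kernel

open Pool.Agent.W97.MT (num) in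
theorem g2_zero (hcp : S_CP) (hcu : S_CUSP) (he : S_EXP) (hcv : Curve) :
    ∀ z : ℂ, 0 < z.im → g2 z = 0 := by
  obtain ⟨Ξ, U, P, rΞ, rU, rP, tΞ, tU, tP⟩ := he
  obtain ⟨v15, h15⟩ := g2_cusp (isCusp15 hcv hcu)
  obtain ⟨v5, h5⟩ := g2_cusp (isCusp5 hcv hcu)
  obtain ⟨v3, h3⟩ := g2_cusp hcu.2.2
  have hid := identity_two (Ξ := Ξ) (P := P) (fun n hn => tΞ n (by omega))
    (fun n hn => tP n (by omega))
  rw [num 2, num 4, num 7, num 36] at hid
  have hrep := ((rΞ.theta.sub ((Rep.C 2).mul rΞ)).pow 2).sub ((rP.pow 2).mul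
    ((((Rep.C 4).mul (rΞ.pow 3)).sub ((Rep.C 7).mul ((Rep.X.mul rΞ).pow 2))).sub
    ((Rep.C 36).mul ((Rep.X.pow 4).mul rΞ))))
  have h0 : QV (fun z => phi (qq z) ^ 2 * g2 z) 0 := by
    refine QV_zero_of_dvd (m := 6) hrep (dvd_trans (pow_dvd_pow _ (by norm_num)) hid) ?_
    intro z hz
    unfold g2
    push_cast
    rw [← R0_q rΞ hz, ← qq_X1 hz]
    ring
  have h0' : QV g2 0 := by
    refine ((((QV_phi.pow 2).inv (by norm_num)).mul h0).of_eq (iI_pos.mono fun z hz => ?_)).of_val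
      (by simp)
    have hf := ff_ne hz
    have hph : phi (qq z) ≠ 0 := by
      intro h0
      rw [ff_q, h0, mul_zero] at hf
      exact hf rfl
    field_simp
  exact cp_zero hcp (fun z hz => g2_diff hz) (g2_inv hcv) h0' h15 h5 h3

lemma QV_R {Ξ : PowerSeries ℤ} (hΞ : Rep xi Ξ) : QV (fun z => qq z ^ 3 * R0 z) (-2) := by
  have h1 : AnalyticAt ℂ (deriv xi) 0 := hΞ.analyticAt_zero.deriv
  refine ((((QV.qq'.mul (QV.comp h1)).sub ((QV.const 2).mul QV_xi)).mul
    (QV_phi.inv one_ne_zero)).of_eq (iI_pos.mono fun z hz => ?_)).of_val (by norm_num)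
  have hf := ff_ne hz
  have hph : phi (qq z) ≠ 0 := by
    intro h0
    rw [ff_q, h0, mul_zero] at hf
    exact hf rfl
  rw [← R0_q hΞ hz]
  field_simp

lemma RR_diff {z : ℂ} (hz : 0 < z.im) : DifferentiableAt ℂ RR z := by
  have h1 := X1_diff hz
  have h2 := Y2_diff hz
  unfold RR
  fun_prop

open Pool.Agent.W97.MT (Tr) in
lemma dvd_two {Ξ U : PowerSeries ℤ} (hΞ : Tr Ξ lxi) (hU : Tr U lups) :
    PowerSeries.X ^ 2 ∣ U - Ξ ^ 2 - PowerSeries.C 9 * PowerSeries.X ^ 4 +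
      PowerSeries.C 4 * PowerSeries.X := by
  have h := ((hU.sub (hΞ.pow 2)).sub ((Tr.C 9).mul (Tr.X.pow 4))).add ((Tr.C 4).mul Tr.X)
  rw [PowerSeries.X_pow_dvd_iff]
  intro m hm
  rw [h m (by omega)]
  interval_cases m <;> decide +kernel

lemma QV_RR (he : S_EXP) : QV (fun z => qq z ^ 3 * RR z) (-2) := by
  obtain ⟨Ξ, U, P, rΞ, rU, rP, tΞ, tU, tP⟩ := he
  have hd := dvd_two (Ξ := Ξ) (U := U) (fun n hn => tΞ n (by omega)) (fun n hn => tU n (by omega))
  have hrep := ((rU.sub (rΞ.pow 2)).sub ((Rep.C 9).mul (Rep.X.pow 4))).add ((Rep.C 4).mul Rep.X)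
  have h0 : QV (fun z => 2 * (qq z ^ 3 * RR z) + 4) 0 := by
    refine QV_zero_of_dvd (m := 1) hrep hd ?_
    intro z hz
    unfold RR
    push_cast
    rw [← qq_X1 hz, ← qq_Y2 hz]
    ring
  refine (((QV.const (1 / 2)).mul (h0.sub (QV.const 4))).of_eq (iI_pos.mono fun z hz => ?_)).of_val
    (by norm_num)
  ring

lemma RR_sq (hcv : Curve) {z : ℂ} (hz : 0 < z.im) :
    RR z ^ 2 = 4 * X1 z ^ 3 - 7 * X1 z ^ 2 - 36 * X1 z := by
  have := hcv z hz
  unfold RR
  linear_combination (1 / 4 : ℂ) * this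

/-- the differential -/
theorem R0_eq (hcp : S_CP) (hcu : S_CUSP) (he : S_EXP) (hcv : Curve) :
    ∀ z : ℂ, 0 < z.im → R0 z = RR z := by
  have he' := he
  obtain ⟨Ξ, U, P, rΞ, rU, rP, tΞ, tU, tP⟩ := he'
  have h := mul_zero_or (f := fun z => R0 z - RR z) (g := fun z => R0 z + RR z) (fun z hz => by
        have h1 := R0_diff hz
        have h2 := RR_diff hz
        fun_prop) (fun z hz => by
        have h1 := R0_diff hz
        have h2 := RR_diff hz
        fun_prop) (fun z hz => by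
        have h1 := g2_zero hcp hcu he hcv z hz
        have h2 := RR_sq hcv hz
        unfold g2 at h1
        linear_combination h1 - h2)
  rcases h with h | h
  · intro z hz
    exact sub_eq_zero.1 (h z hz)
  · exfalso
    have h1 := ((QV_R rΞ).add (QV_RR he)).of_eq (f := fun _ => 0) (iI_pos.mono fun z hz => by
      have := h z hz
      linear_combination (-(qq z ^ 3)) * this)
    have h2 := h1.val_unique (QV.const 0)
    norm_num at h2

theorem deriv_X1 (hcp : S_CP) (hcu : S_CUSP) (he : S_EXP) (hcv : Curve) {z : ℂ} (hz : 0 < z.im) :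
    deriv X1 z = 2 * Real.pi * Complex.I * ff z * RR z := by
  rw [← R0_eq hcp hcu he hcv z hz]
  unfold R0
  rw [mul_div_cancel₀ _ (mul_ne_zero tpi_ne (ff_ne hz))]

/-- `ff` is of weight two -/
theorem ff_gamma (hcp : S_CP) (hcu : S_CUSP) (he : S_EXP) (hcv : Curve) {a b c d : ℤ}
    (h : a * d - b * (15 * c) = 1) :
    ∀ z : ℂ, 0 < z.im → ff ((a * z + b) / (15 * c * z + d)) = (15 * c * z + d) ^ 2 * ff z := by
  have hm : ∀ z : ℂ, 0 < z.im → 0 < ((a * z + b) / (15 * c * z + d) : ℂ).im := fun z hz =>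
    (G_gamma h hz).1
  have hc' : ContinuousOn (fun z : ℂ => (15 * c * z + d) ^ 2 * ff z) {z : ℂ | 0 < z.im} :=
    (by fun_prop : Continuous fun z : ℂ => (15 * (c : ℂ) * z + d) ^ 2).continuousOn.mul ff_cont
  rcases eq_or_eq_neg (moebius_cont h ff_cont) hc' (fun z hz => by rw [ff_sq_gamma h hz]; ring)
    (fun z hz => mul_ne_zero (pow_ne_zero 2 (G_gamma h hz).2.1) (ff_ne hz)) with h1 | h1
  · exact h1
  · exfalso
    have h2 : ∀ z : ℂ, 0 < z.im → RR z = 0 := by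
      intro z hz
      have h3 := deriv_X1 hcp hcu he hcv hz
      have h4 := deriv_X1 hcp hcu he hcv (hm z hz)
      rw [deriv_X1_gamma hcv h hz, h1 z hz, h3] at h4
      have h5 : RR ((a * z + b) / (15 * c * z + d)) = RR z := by
        unfold RR
        rw [X1_inv hcv a b c d h z hz, Y2_gamma h hz]
      rw [h5] at h4
      have h6 : (2 * Real.pi * Complex.I * ff z * (15 * c * z + d) ^ 2) * RR z = 0 := by
        linear_combination (1 / 2 : ℂ) * h4
      rcases mul_eq_zero.1 h6 with h7 | h7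
      · exact absurd h7 (mul_ne_zero (mul_ne_zero tpi_ne (ff_ne hz))
          (pow_ne_zero 2 (G_gamma h hz).2.1))
      · exact h7
    have h3 := (QV_RR he).of_eq (f := fun _ => 0) (iI_pos.mono fun z hz => by
      rw [h2 z hz]; ring)
    have h4 := h3.val_unique (QV.const 0)
    norm_num at h4

end ID2

theorem t_ID2 : S_ID2 := by
  intro hcp hcu he hcv
  exact {
    x1inv := ID2.X1_inv hcv
    rrsq := fun z hz => ID2.RR_sq hcv hz
    dx1 := fun z hz => ID2.deriv_X1 hcp hcu he hcv hz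
    ffg := fun a b c d h z hz => ID2.ff_gamma hcp hcu he hcv h z hz
    c15 := ID2.isCusp15 hcv hcu
    c5 := ID2.isCusp5 hcv hcu
    c3 := hcu.2.2 }

end Pool.Agent.XV.MT
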