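import Pool.Agent.XV.MT.Sk
import Pool.Agent.W97.TW.Hecke
import Pool.Agent.W165.CE.FF

/-!
Project XV, part T1: the newform `η(z) η(3z) η(5z) η(15z)` of the curve `X_0(15)` has all the
properties of the newform of the short Weierstrass equation `y² = x³ - 12987 x - 263466`.
-/

set_option autoImplicit false

open UpperHalfPlane MatrixGroups CongruenceSubgroup Filter Topology MeasureTheory
open scoped ModularForm Pointwise

namespace Pool.Agent.XV.MT

open Pool.Agent.W97.TW
open Pool.Agent.W97.MT (qq tt iI QV Rep affCount hecke prim)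

namespace INST

variable {f : CuspForm (Gamma0 15 : Subgroup (GL (Fin 2) ℝ)) 2}

theorem heckeT_eq (hf : FormOK f) (p : ℕ) (hp : p.Prime) (z : ℍ) :
    heckeT 15 2 p f z = (Pool.Agent.W97.MT.ap E15 p : ℂ) * f z := by
  rw [← hf.hec p hp z]
  unfold hecke heckeT
  norm_num

/-- the Hecke relation at `p` -/
theorem rec (hf : FormOK f) (p : ℕ) (hp : p.Prime) (m : ℕ) :
    (qExpansion 1 f).coeff (p * m) = (qExpansion 1 f).coeff p *
      (qExpansion 1 f).coeff m - (if p ∣ 15 then 0 else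
        (p : ℂ) * (if p ∣ m then (qExpansion 1 f).coeff (m / p) else 0)) := by
  have h := hecke_rec f hp.pos (heckeT_eq hf p hp) m
  unfold W97.TW.B W97.TW.A at h
  rw [← hf.ap p hp] at h
  have e : (p : ℂ) ^ ((2 : ℤ) - 1) = p := by norm_num
  rw [e] at h
  rw [← h]
  split_ifs <;> ring

theorem rec_pow (hf : FormOK f) (p : ℕ) (hp : p.Prime) (m : ℕ) (hm : ¬ p ∣ m) (j : ℕ) :
    (qExpansion 1 f).coeff (p ^ j * m) = (qExpansion 1 f).coeff (p ^ j) *
      (qExpansion 1 f).coeff m := by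
  have h1 := hf.one
  induction j using Nat.strong_induction_on with
  | _ j ih =>
    match j with
    | 0 => rw [pow_zero, one_mul, h1, one_mul]
    | 1 =>
      rw [pow_one, rec hf p hp m, if_neg hm]
      split_ifs <;> ring
    | j + 2 =>
      have e1 : p ^ (j + 2) * m = p * (p ^ (j + 1) * m) := by ring
      have e2 : p ^ (j + 2) = p * p ^ (j + 1) := by ring
      have d1 : p ∣ p ^ (j + 1) * m := Dvd.dvd.mul_right (dvd_pow_self p (by omega)) m
      have d2 : p ∣ p ^ (j + 1) := dvd_pow_self p (by omega)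
      have q1 : p ^ (j + 1) * m / p = p ^ j * m := by
        rw [show p ^ (j + 1) * m = p * (p ^ j * m) by ring, Nat.mul_div_cancel_left _ hp.pos]
      have q2 : p ^ (j + 1) / p = p ^ j := by
        rw [show p ^ (j + 1) = p * p ^ j by ring, Nat.mul_div_cancel_left _ hp.pos]
      rw [e1, e2, rec hf p hp (p ^ (j + 1) * m), rec hf p hp (p ^ (j + 1)), if_pos d1, if_pos d2,
        q1, q2, ih (j + 1) (by omega), ih j (by omega)]
      split_ifs <;> ring

theorem mul (hf : FormOK f) (m n : ℕ) (h : Nat.Coprime m n) :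
    (qExpansion 1 f).coeff (m * n) = (qExpansion 1 f).coeff m *
      (qExpansion 1 f).coeff n := by
  have h1 := hf.one
  induction m using Nat.strong_induction_on generalizing n with
  | _ m ih =>
    rcases Nat.eq_zero_or_pos m with rfl | hm
    · have hn : n = 1 := by simpa using h
      subst hn
      rw [mul_one, h1, mul_one]
    by_cases hm1 : m = 1
    · subst hm1
      rw [one_mul, h1, one_mul]
    set p := m.minFac with hp
    have hpp : p.Prime := Nat.minFac_prime hm1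
    obtain ⟨j, m', hm', he⟩ := Nat.exists_eq_pow_mul_and_not_dvd hm.ne' p hpp.ne_one
    have hj : j ≠ 0 := by
      rintro rfl
      rw [pow_zero, one_mul] at he
      exact hm' (he ▸ Nat.minFac_dvd m)
    have hpn : ¬ p ∣ n := by
      intro hd
      have := Nat.dvd_gcd (Nat.minFac_dvd m) hd
      rw [h] at this
      exact hpp.one_lt.ne' (Nat.dvd_one.1 this)
    have hm'0 : 0 < m' := Nat.pos_of_ne_zero fun h0 => hm' (h0 ▸ dvd_zero p)
    have hlt : m' < m := by
      rw [he]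
      have : 1 < p ^ j := Nat.one_lt_pow hj hpp.one_lt
      nlinarith
    have hc : Nat.Coprime m' n := Nat.Coprime.coprime_dvd_left (he ▸ Dvd.intro_left _ rfl) h
    have hnd : ¬ p ∣ m' * n := by
      intro hd
      rcases (Nat.Prime.dvd_mul hpp).1 hd with h2 | h2
      · exact hm' h2
      · exact hpn h2
    rw [he, mul_assoc, rec_pow hf p hpp (m' * n) hnd j, rec_pow hf p hpp m' hm' j, ih m' hlt n hc]
    ring

theorem pow (hf : FormOK f) (p j : ℕ) (hp : p.Prime) : (qExpansion 1 f).coeff (p ^ (j + 2)) =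
    (qExpansion 1 f).coeff p * (qExpansion 1 f).coeff (p ^ (j + 1)) -
      (if p ∣ 15 then 0 else (p : ℂ) * (qExpansion 1 f).coeff (p ^ j)) := by
  have e2 : p ^ (j + 2) = p * p ^ (j + 1) := by ring
  have d2 : p ∣ p ^ (j + 1) := dvd_pow_self p (by omega)
  have q2 : p ^ (j + 1) / p = p ^ j := by
    rw [show p ^ (j + 1) = p * p ^ j by ring, Nat.mul_div_cancel_left _ hp.pos]
  rw [e2, rec hf p hp (p ^ (j + 1)), if_pos d2, q2]

/-- the Fricke involution -/
theorem fricke (hI : IdOK) (hP : PrimOK) (hf : FormOK f) : ∃ w : ℝ, (w = 1 ∨ w = -1) ∧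
    ∀ τ τ' : ℍ, (τ' : ℂ) * ((15 : ℂ) * (τ : ℂ)) = -1 →
    f τ' = -(w : ℂ) * (15 : ℂ) * (τ : ℂ) ^ 2 * f τ := by
  obtain ⟨ε, hε, h⟩ := hP.sign m15 j15 hI.c15.map
  have key : ∀ τ τ' : ℍ, (τ' : ℂ) * ((15 : ℂ) * (τ : ℂ)) = -1 →
      f τ' = ε * (15 : ℂ) * (τ : ℂ) ^ 2 * f τ := by
    intro τ τ' hτ
    have h0 : (τ : ℂ) ≠ 0 := by
      intro h0
      have := τ.im_pos
      have h1 : (τ : ℂ).im = 0 := by rw [h0]; rfl
      have h2 : (τ : ℂ).im = τ.im := rfl
      rw [← h2, h1] at this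
      exact lt_irrefl _ this
    have e1 : (τ' : ℂ) = m15 τ := by
      unfold m15
      rw [eq_div_iff (mul_ne_zero (by norm_num) h0)]
      exact hτ
    have e2 := h τ τ.im_pos
    rw [← e1] at e2
    rw [hf.val τ', hf.val τ]
    unfold j15 at e2
    have h15 : (15 * (τ : ℂ) ^ 2) ≠ 0 := mul_ne_zero (by norm_num) (pow_ne_zero 2 h0)
    rw [← div_eq_mul_inv, div_eq_iff h15] at e2
    rw [e2]
    ring
  rcases hε with rfl | rfl
  · refine ⟨-1, Or.inr rfl, fun τ τ' hτ => ?_⟩
    rw [key τ τ' hτ]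
    push_cast
    ring
  · refine ⟨1, Or.inl rfl, fun τ τ' hτ => ?_⟩
    rw [key τ τ' hτ]
    push_cast
    ring

/-- `c(p) = a_p` for the short Weierstrass equation -/
theorem points (hC : S_PCARD) (hf : FormOK f) (l : ℕ) (hl : l.Prime) (h2 : l ≠ 2) (h3 : l ≠ 3) :
    (qExpansion 1 f).coeff l = (((l : ℤ) - Nat.card {x : ZMod l × ZMod l //
      x.2 ^ 2 = x.1 ^ 3 + ((-12987 : ℤ) : ZMod l) * x.1 + ((-263466 : ℤ) : ZMod l)} : ℤ) : ℂ) := by
  rw [hf.ap l hl, hC l hl h2 h3]
  rfl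

/-- Hasse's bound -/
theorem good (hM : S_MIN) (hC : S_PCARD) (hf : FormOK f) (l : ℕ) (hl : l.Prime)
    (h15 : ¬ l ∣ 15) : ‖(qExpansion 1 f).coeff l‖ ≤ 2 * Real.sqrt l := by
  have h3 : l ≠ 3 := by
    rintro rfl
    exact h15 (by norm_num)
  by_cases h2 : l = 2
  · subst h2
    obtain ⟨m2, -, -, -⟩ := hM
    rw [hf.ap 2 hl]
    unfold Pool.Agent.W97.MT.ap
    rw [m2]
    have h4 : (1 : ℝ) ≤ Real.sqrt 2 := by
      rw [Real.one_le_sqrt]
      norm_num
    push_cast
    norm_num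
    linarith
  · rw [points hC hf l hl h2 h3, Complex.norm_intCast]
    have : Fact l.Prime := ⟨hl⟩
    have hc : ringChar (ZMod l) ≠ 2 := by
      rw [ZMod.ringChar_zmod_n]; exact h2
    have h := W165.CE.hasse (k := ZMod l) hc ((-12987 : ℤ) : ZMod l) ((-263466 : ℤ) : ZMod l)
    rw [ZMod.card] at h
    exact_mod_cast h

theorem bad (hM : S_MIN) (hf : FormOK f) (l : ℕ) (hl : l.Prime) (h : l ∣ 15) :
    ‖(qExpansion 1 f).coeff l‖ ≤ 1 := by
  obtain ⟨-, m3, m5, -⟩ := hM
  have h1 : l = 3 ∨ l = 5 := by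
    have h1 : l ∣ 3 * 5 := by simpa using h
    rcases (Nat.Prime.dvd_mul hl).1 h1 with h2 | h2
    · exact Or.inl ((Nat.prime_dvd_prime_iff_eq hl Nat.prime_three).1 h2)
    · exact Or.inr ((Nat.prime_dvd_prime_iff_eq hl (by norm_num)).1 h2)
  rcases h1 with rfl | rfl
  · rw [hf.ap 3 hl]
    unfold Pool.Agent.W97.MT.ap
    rw [m3]
    norm_num
  · rw [hf.ap 5 hl]
    unfold Pool.Agent.W97.MT.ap
    rw [m5]
    norm_num

end INST

/-- **INST** -/
theorem t_INST : S_INST := fun hM hC hI hP _ hf =>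
  { mul := INST.mul hf
    pow := INST.pow hf
    fricke := INST.fricke hI hP hf
    good := INST.good hM hC hf
    bad := INST.bad hM hf }

end Pool.Agent.XV.MT
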