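import Pool.Agent.XV.MT.Gen
import Pool.Agent.W97.MT.Lat

/-!
Project XV, job T1-INT (helper59): the integrals.
-/

set_option autoImplicit false

open Filter Topology Set

namespace Pool.Agent.XV.MT

open Pool.Agent.W97.TW
open Pool.Agent.W97.MT (qq iI QV iI_pos wA wA_same wA_eq wA_analytic S_INJ)

namespace INT

/-- the periods are in the lattice -/
theorem period_mem (hid : IdOK) (hpr : PrimOK) (L : PeriodPair)
    (hw : ∀ z : ℂ, 0 < z.im → F z ∉ L.lattice ∧ L.weierstrassP (F z) = X1 z - 7 / 12)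
    (hinj : S_INJ) {a b c d : ℤ} (h : a * d - b * (15 * c) = 1) {p : ℂ}
    (hp : ∀ z : ℂ, 0 < z.im → F ((a * z + b) / (15 * c * z + d)) = F z + p) :
    p ∈ L.lattice := by
  by_contra hpL
  have h1 : ∀ z : ℂ, 0 < z.im → 2 * F z + p ∈ L.lattice := by
    intro z hz
    have hm := (G_gamma h hz).1
    obtain ⟨e1, e2⟩ := hw z hz
    obtain ⟨e3, e4⟩ := hw _ hm
    rw [hid.x1inv a b c d h z hz, ← e2] at e4
    rw [hp z hz] at e3 e4
    rcases hinj L _ _ e3 e1 e4 with h5 | h5
    · exact absurd (by simpa using h5) hpL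
    · have : F z + p + F z = 2 * F z + p := by ring
      rwa [this] at h5
  have h2 : Tendsto (fun z => 2 * F z + p) iI (𝓝 (2 * 0 + p)) :=
    (hpr.qv.tendsto.const_mul 2).add_const p
  have h3 := L.isClosed_lattice.mem_of_tendsto h2 (iI_pos.mono fun z hz => h1 z hz)
  apply hpL
  simpa using h3

/-- the values at the cusps -/
theorem cusp_value (L : PeriodPair)
    (hw : ∀ z : ℂ, 0 < z.im → F z ∉ L.lattice ∧ L.weierstrassP (F z) = X1 z - 7 / 12)
    {m j : ℂ → ℂ} {x y : ℂ} (h : IsCusp m j x y) {C : ℂ}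
    (hC : Tendsto (fun z => F (m z)) iI (𝓝 C)) :
    C ∉ L.lattice ∧ L.weierstrassP C = x - 7 / 12 := by
  have hX : Tendsto (fun z => X1 (m z) - 7 / 12) iI (𝓝 (x - 7 / 12)) :=
    h.X.tendsto.sub_const _
  have hCL : C ∉ L.lattice := by
    intro hCL
    have h1 : Tendsto (fun z => wA L C (F (m z))) iI (𝓝 (wA L C C)) :=
      (wA_analytic L C (by simp)).continuousAt.tendsto.comp hC
    rw [wA_same] at h1
    have h2 : Tendsto (fun z => (F (m z) - C) ^ 2 * (X1 (m z) - 7 / 12)) iI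
        (𝓝 ((C - C) ^ 2 * (x - 7 / 12))) := ((hC.sub_const C).pow 2).mul hX
    have h3 : (fun z => wA L C (F (m z))) =ᶠ[iI] fun z => (F (m z) - C) ^ 2 * (X1 (m z) - 7 / 12) := by
      filter_upwards [iI_pos] with z hz
      obtain ⟨e1, e2⟩ := hw _ (h.pos z hz)
      rw [wA_eq L hCL (fun h => e1 (by rw [h]; exact hCL)), e2]
    have h4 := tendsto_nhds_unique (h1.congr' h3) h2
    norm_num at h4
  refine ⟨hCL, ?_⟩
  have h1 : Tendsto (fun z => L.weierstrassP (F (m z))) iI (𝓝 (L.weierstrassP C)) :=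
    (L.analyticOnNhd_weierstrassP C hCL).continuousAt.tendsto.comp hC
  refine tendsto_nhds_unique h1 (hX.congr' ?_)
  filter_upwards [iI_pos] with z hz
  exact (hw _ (h.pos z hz)).2.symm

/-- limits at the cusps -/
lemma exists_limit (hpr : PrimOK) {m j : ℂ → ℂ} (h : IsMap m j) :
    ∃ C : ℂ, Tendsto (fun z => F (m z)) iI (𝓝 C) := by
  obtain ⟨ε, C, -, -, h1⟩ := hpr.const m j h
  refine ⟨ε * 0 + C, (((hpr.qv.tendsto).const_mul ε).add_const C).congr' ?_⟩
  filter_upwards [iI_pos] with z hz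
  rw [h1 z hz]

lemma idMap : IsMap (fun z => z) (fun _ => 1) where
  pos := fun _ h => h
  der := fun z _ => hasDerivAt_id z
  jne := fun _ _ => one_ne_zero
  jcont := continuousOn_const
  ffj := fun _ _ => by rw [mul_one]

end INT

open INT

/-- INT -/
theorem t_INT : S_INT := by
  intro hid hpr hhit hinj htors L g2 g3 hw
  have c15 := hid.c15
  have c5 := hid.c5
  have c3 := hid.c3
  obtain ⟨C15, l15⟩ := exists_limit hpr c15.map
  obtain ⟨C5, l5⟩ := exists_limit hpr c5.map
  obtain ⟨C3, l3⟩ := exists_limit hpr c3.map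
  obtain ⟨n15, v15⟩ := cusp_value L hw c15 l15
  obtain ⟨n5, v5⟩ := cusp_value L hw c5 l5
  obtain ⟨n3, v3⟩ := cusp_value L hw c3 l3
  have key : ∀ {m j : ℂ → ℂ} (_ : IsMap m j) {C : ℂ} (_ : Tendsto (fun z => F (m z)) iI (𝓝 C))
      (r : ℚ), Hit (r : ℂ) m → MeasureTheory.IntegrableOn
        (fun t : ℝ => ff ((r : ℂ) + t * Complex.I)) (Ioi 0) ∧ II r - C ∈ L.lattice := by
    intro m j h C hC r hr
    obtain ⟨h1, a, b, c, d, hdet, p, hp, h2⟩ := hpr.hit m j h C hC r (by simp) hr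
    refine ⟨h1, ?_⟩
    unfold II
    rw [h2, add_sub_cancel_left]
    exact period_mem hid hpr L hw hinj hdet hp
  have hc0 : Hit ((0 : ℚ) : ℂ) m15 := hhit.2 0 (by simp) (by simp)
  have i0 := (key c15.map l15 0 hc0).2
  have hper : ∀ x y : ℂ, x - y ∈ L.lattice → L.weierstrassP x = L.weierstrassP y := by
    intro x y hxy
    have := L.weierstrassP_add_coe y ⟨x - y, hxy⟩
    simpa using this
  have hII : II 0 ∉ L.lattice := by
    intro h
    apply n15
    have := sub_mem h i0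
    simpa using this
  have hv : L.weierstrassP (II 0) = 101 / 12 := by
    rw [hper _ _ i0, v15]; norm_num
  obtain ⟨t2, t4⟩ := (htors L g2 g3 (II 0) hII).1 hv
  have mul4 : ∀ x : ℂ, x ∈ L.lattice → 4 * x ∈ L.lattice := by
    intro x hx
    have := L.lattice.smul_mem (4 : ℤ) hx
    rw [zsmul_eq_mul] at this
    exact_mod_cast this
  have four_of : ∀ (C : ℂ), 4 * C ∈ L.lattice → ∀ r : ℚ, II r - C ∈ L.lattice →
      4 * II r ∈ L.lattice := by
    intro C hC r hr
    have h1 := add_mem (mul4 _ hr) hC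
    have e : 4 * (II r - C) + 4 * C = 4 * II r := by ring
    rwa [e] at h1
  have f15 : 4 * C15 ∈ L.lattice := ((htors L g2 g3 C15 n15).1 (by rw [v15]; norm_num)).2
  have f5 : 4 * C5 ∈ L.lattice := (htors L g2 g3 C5 n5).2.2 (by rw [v5]; norm_num)
  have f3 : 4 * C3 ∈ L.lattice := by
    have h1 := (htors L g2 g3 C3 n3).2.1 (by rw [v3]; norm_num)
    have h2 := add_mem h1 h1
    have e : 2 * C3 + 2 * C3 = 4 * C3 := by ring
    rwa [e] at h2
  refine ⟨hII, t2, t4, ?_, ?_, ?_⟩
  · intro r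
    rcases hhit.1 r with h | h | h | h
    · exact (key c15.map l15 r h).1
    · exact (key c5.map l5 r h).1
    · exact (key c3.map l3 r h).1
    · exact (key idMap hpr.qv.tendsto r h).1
  · intro r
    rcases hhit.1 r with h | h | h | h
    · exact four_of _ f15 r (key c15.map l15 r h).2
    · exact four_of _ f5 r (key c5.map l5 r h).2
    · exact four_of _ f3 r (key c3.map l3 r h).2
    · exact four_of 0 (by rw [mul_zero]; exact zero_mem _) r (key idMap hpr.qv.tendsto r h).2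
  · intro r h3 h5
    have := sub_mem (key c15.map l15 r (hhit.2 r h3 h5)).2 i0
    convert this using 1
    ring

end Pool.Agent.XV.MT
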