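import Pool.Agent.XV.MT.Sk
import Pool.Agent.Y687.Lval2

/-!
The twisted `L`-functions of `X_0(15)`: entire continuation, Euler product and central value
(port of `Y687/{Lval,Lval2}.lean`).
-/

set_option autoImplicit false
set_option linter.style.haveILetI false

open Complex Filter Topology Set UpperHalfPlane MatrixGroups CongruenceSubgroup ZMod

namespace Pool.Agent.XV.MT.LFN

open Pool.Agent.W97.MT (ap const_of_deriv)
open Pool.Agent.W440.TW Pool.Agent.W108.TW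
open Pool.Agent.Y687 (euler_prod)

variable {f : CuspForm (Gamma0 15 : Subgroup (GL (Fin 2) ℝ)) 2}

/-- the coefficients of the form -/
noncomputable def cc (f : CuspForm (Gamma0 15 : Subgroup (GL (Fin 2) ℝ)) 2) (n : ℕ) : ℂ :=
  (qExpansion 1 f).coeff n

theorem cc_re (hf : FormOK f) (n : ℕ) : cc f n = (((cc f n).re : ℝ) : ℂ) := by
  obtain ⟨c, hc⟩ := hf.int n
  unfold cc
  rw [hc]
  simp

theorem cc_zero : cc f 0 = 0 := W388.coeff_zero f

theorem cc_one (hf : FormOK f) : cc f 1 = 1 := hf.one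

theorem newf (hf : FormOK f) (hn : NewOK f) :
    ∃ w : ℝ, (w = 1 ∨ w = -1) ∧ W388.IsNewf 15 2 f w := by
  obtain ⟨w, hw, hfr⟩ := hn.fricke
  refine ⟨w, hw, cc_one hf, ?_, fun m n h => hn.mul m n h, ?_, hw, ?_⟩
  · intro n
    have := cc_re hf n
    change (cc f n).im = 0
    rw [this]
    simp
  · intro p j hp
    have h1 := hn.pow p j hp
    rw [h1]
    norm_num
  · intro τ τ' h
    push_cast at h
    rw [hfr τ τ' h]
    congr 1
    have hI : Complex.I ^ 2 = -1 := Complex.I_sq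
    have hsq : ((Real.sqrt ((15 : ℕ) : ℝ) : ℝ) : ℂ) ^ 2 = (15 : ℂ) := by
      have h1 : (Real.sqrt ((15 : ℕ) : ℝ)) ^ 2 = ((15 : ℕ) : ℝ) := Real.sq_sqrt (by positivity)
      have := congrArg (fun x : ℝ => (x : ℂ)) h1
      push_cast at this ⊢
      exact this
    have : (((Real.sqrt ((15 : ℕ) : ℝ) : ℝ) : ℂ) * (τ : ℂ) / Complex.I) ^ (2 : ℤ) =
        -((15 : ℂ) * (τ : ℂ) ^ 2) := by
      rw [zpow_ofNat, div_pow, mul_pow, hsq, hI]
      ring
    rw [this]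
    ring

theorem coef15 (hf : FormOK f) (hn : NewOK f) :
    Pool.Agent.W192.CY.Coef 15 (fun n => (cc f n).re) := by
  have hnorm : ∀ n, |(cc f n).re| = ‖cc f n‖ := by
    intro n
    conv_rhs => rw [cc_re hf n, Complex.norm_real, Real.norm_eq_abs]
  refine ⟨?_, ?_, ?_, ?_, ?_, ?_⟩
  · rw [cc_zero]; simp
  · rw [cc_one hf]; simp
  · intro m n hmn
    have h : cc f (m * n) = cc f m * cc f n := hn.mul m n hmn
    rw [cc_re hf, cc_re hf m, cc_re hf n] at h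
    exact_mod_cast h
  · intro p j hp
    have h : cc f (p ^ (j + 2)) = cc f p * cc f (p ^ (j + 1)) -
      (if p ∣ 15 then 0 else (p : ℂ) * cc f (p ^ j)) := hn.pow p j hp
    rw [cc_re hf, cc_re hf p, cc_re hf (p ^ (j + 1)), cc_re hf (p ^ j)] at h
    split_ifs at h ⊢ with hpN
    · rw [sub_zero] at h ⊢
      exact_mod_cast h
    · exact_mod_cast h
  · intro p hp hpN
    rw [hnorm]
    exact hn.good p hp hpN
  · intro p hp hpN
    rw [hnorm]
    exact hn.bad p hp hpN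

theorem cc_bound (hf : FormOK f) (hn : NewOK f) (ε : ℝ) (hε : 0 < ε) : ∃ C : ℝ, 0 < C ∧
    ∀ n : ℕ, 1 ≤ n → ‖cc f n‖ ≤ C * (n : ℝ) ^ (1 / 2 + ε) := by
  obtain ⟨m, hm⟩ := W612.CY.t_coef 15 _ (coef15 hf hn)
  obtain ⟨C, hC, h1, -⟩ := Pool.Agent.W216.CY.t_div ε hε
  refine ⟨C, hC, fun n hn => ?_⟩
  have h2 := hm.cle n hn
  have h3 : ‖cc f n‖ = |(cc f n).re| := by
    conv_lhs => rw [cc_re hf n, Complex.norm_real, Real.norm_eq_abs]
  rw [h3]
  have hn0 : (0 : ℝ) < n := by exact_mod_cast hn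
  calc |(cc f n).re| ≤ n.divisors.card * Real.sqrt n := h2
    _ ≤ (C * (n : ℝ) ^ ε) * Real.sqrt n := by gcongr; exact h1 n hn
    _ = C * (n : ℝ) ^ (1 / 2 + ε) := by
      rw [Real.sqrt_eq_rpow, mul_assoc, ← Real.rpow_add hn0]
      ring_nf

theorem cc_summable (hf : FormOK f) (hn : NewOK f) {q : ℕ} (χ : DirichletCharacter ℂ q) (s : ℂ)
    (hs : 3 / 2 < s.re) :
    Summable (fun n : ℕ => ‖cc f n * χ n * (n : ℂ) ^ (-s)‖) := by
  obtain ⟨C, hC, hb⟩ := cc_bound hf hn ((s.re - 3 / 2) / 2) (by linarith)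
  have hs2 : Summable (fun n : ℕ => C * (n : ℝ) ^ (1 / 2 + (s.re - 3 / 2) / 2 - s.re)) :=
    (Real.summable_nat_rpow.mpr (by linarith)).mul_left C
  refine Summable.of_nonneg_of_le (fun n => norm_nonneg _) (fun n => ?_) hs2
  rcases Nat.eq_zero_or_pos n with hn | hn
  · subst hn
    rw [cc_zero]
    simp only [zero_mul, norm_zero]
    positivity
  · have hnpos : (0 : ℝ) < n := by exact_mod_cast hn
    rw [norm_mul, norm_mul]
    have h2 : ‖χ n‖ ≤ 1 := DirichletCharacter.norm_le_one χ _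
    have h3 : ‖(n : ℂ) ^ (-s)‖ = (n : ℝ) ^ (-s.re) := by
      rw [← Complex.ofReal_natCast, Complex.norm_cpow_eq_rpow_re_of_pos hnpos]
      simp
    rw [h3]
    have hCn : 0 ≤ C * (n : ℝ) ^ (1 / 2 + (s.re - 3 / 2) / 2) := by positivity
    calc ‖cc f n‖ * ‖χ n‖ * (n : ℝ) ^ (-s.re)
        ≤ (C * (n : ℝ) ^ (1 / 2 + (s.re - 3 / 2) / 2)) * 1 * (n : ℝ) ^ (-s.re) := by
          gcongr
          exact hb n hn
      _ = C * (n : ℝ) ^ (1 / 2 + (s.re - 3 / 2) / 2 - s.re) := by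
          rw [mul_one, mul_assoc, ← Real.rpow_add hnpos]
          ring_nf

theorem cc_euler (hf : FormOK f) (hn : NewOK f) {q : ℕ} (χ : DirichletCharacter ℂ q) (s : ℂ)
    (hs : 3 / 2 < s.re) :
    HasProd (fun p : Nat.Primes =>
      (1 - (ap E15 p : ℂ) * χ p * (p : ℂ) ^ (-s) +
        (if (p : ℕ) ∣ 15 then 0 else (p : ℂ)) * (χ p) ^ 2 * (p : ℂ) ^ (-2 * s))⁻¹)
      (∑' n : ℕ, cc f n * χ n * (n : ℂ) ^ (-s)) := by
  have h := euler_prod (fun p => if (p : ℕ) ∣ 15 then 0 else (p : ℂ)) (cc f) cc_zero (cc_one hf)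
    (fun m n hmn => hn.mul m n hmn) (fun p j => ?_) χ s (cc_summable hf hn χ s hs)
  · refine (congrArg (fun g => HasProd g _) (funext fun p => ?_)).mp h
    have h2 : cc f p = (ap E15 p : ℂ) := hf.ap p p.2
    rw [h2]
  · have h1 : cc f ((p : ℕ) ^ (j + 2)) = cc f p * cc f ((p : ℕ) ^ (j + 1)) -
      (if (p : ℕ) ∣ 15 then 0 else (p : ℂ) * cc f ((p : ℕ) ^ j)) := hn.pow p j p.2
    rw [h1]
    split_ifs <;> ring

/-- the two primitives agree -/
theorem prim_eq_F (hP : PrimOK) (hf : FormOK f) {z : ℂ} (hz : 0 < z.im) :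
    TH940.prim f z = F z := by
  obtain ⟨C, hC⟩ := const_of_deriv (g := fun z => TH940.prim f z - F z) fun z hz => by
    have e1 := TH940.prim_deriv f ⟨z, hz⟩
    have e2 := e1.sub (hP.der z hz)
    refine e2.congr_deriv ?_
    have e3 : f ⟨z, hz⟩ = ff z := hf.val ⟨z, hz⟩
    rw [e3]
    ring
  have h1 := TH940.prim_line f 0
  have h2 := hP.llim 0
  have h3 : Tendsto (fun T : ℝ => TH940.prim f (((0 : ℝ) : ℂ) + (T : ℂ) * Complex.I)
      - F (0 + (T : ℂ) * Complex.I)) atTop (𝓝 (0 - 0)) := h1.sub h2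
  have h4 : C = 0 := by
    refine tendsto_nhds_unique (f := fun _ : ℝ => C) (l := atTop) tendsto_const_nhds ?_
    rw [sub_zero] at h3
    refine h3.congr' ?_
    filter_upwards [eventually_gt_atTop (0 : ℝ)] with T hT
    have := hC (0 + (T : ℂ) * Complex.I) (by simpa using hT)
    rw [Complex.ofReal_zero]
    exact this
  have h5 := hC z hz
  rw [h4] at h5
  exact sub_eq_zero.1 h5

theorem hlim (hP : PrimOK) (hI : IIOK) (hf : FormOK f) {q : ℕ} [NeZero q] (hco : Nat.Coprime q 15)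
    (u : (ZMod q)ˣ) {Yt : ℝ → ℝ}
    (hY : Tendsto Yt atTop (𝓝[>] 0)) : Tendsto (fun T : ℝ =>
      TH940.prim f (((((u : ZMod q).val : ℤ)) : ℂ) / q + (Yt T : ℂ) * Complex.I)) atTop
      (𝓝 (II (((u : ZMod q).val : ℚ) / q))) := by
  have h1 : Nat.Coprime (u : ZMod q).val q := ZMod.val_coe_unit_coprime u
  have h2 : Nat.Coprime (15 * (u : ZMod q).val) q := Nat.Coprime.mul_left hco.symm h1
  have h3 : IsCoprime (15 * ((u : ZMod q).val : ℤ)) (q : ℤ) := by
    exact_mod_cast Nat.isCoprime_iff_coprime.2 h2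
  have h4 := hI.lim _ q (Nat.pos_of_ne_zero (NeZero.ne q)) h3
  have h5 := h4.comp hY
  push_cast at h5 ⊢
  refine h5.congr' ?_
  have h6 : ∀ᶠ T in atTop, 0 < Yt T := hY.eventually self_mem_nhdsWithin
  filter_upwards [h6] with T hT
  refine (prim_eq_F hP hf ?_).symm
  have e : ((((u : ZMod q).val : ℂ) / q) + (Yt T : ℂ) * Complex.I) =
      (((((u : ZMod q).val : ℝ) / q : ℝ)) : ℂ) + (Yt T : ℂ) * Complex.I := by push_cast; rfl
  rw [e]
  simpa using hT

/-- the central value of the twist in terms of the integrals -/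
theorem center15 (hP : PrimOK) (hI : IIOK) (hf : FormOK f) {q : ℕ} [NeZero q] (hco : Nat.Coprime q 15)
    (χ : DirichletCharacter ℂ q) (hχ : χ.IsPrimitive) (F0 W : ℂ)
    (hF : ∀ X Y : ℝ, 0 < X → 0 < Y → X * Y = (15 : ℕ) * (q : ℝ) ^ 2 / (4 * Real.pi ^ 2) →
          F0 = ∑' n : ℕ, χ⁻¹ (n : ZMod q) * (qExpansion 1 f).coeff n / n *
              (Real.exp (-(n / X)) : ℂ) +
            W * ∑' n : ℕ, (starRingEnd ℂ) (χ⁻¹ (n : ZMod q) * (qExpansion 1 f).coeff n) / n *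
              (Real.exp (-(n / Y)) : ℂ)) :
    gaussSum χ (stdAddChar (N := q)) * F0 =
      ∑ u : (ZMod q)ˣ, χ (u : ZMod q) * II (((u : ZMod q).val : ℚ) / q) := by
  classical
  have hq0 : (0 : ℝ) < q := Nat.cast_pos.2 (Nat.pos_of_ne_zero (NeZero.ne q))
  have hpi := Real.pi_pos
  obtain ⟨C, hC0, hC⟩ := TH940.coeff_div_bd f
  set Yt : ℝ → ℝ := fun T => 1 / (((15 : ℕ) : ℝ) * (q : ℝ) ^ 2 * T) with hYt
  have hYlim : Tendsto Yt atTop (𝓝[>] 0) := by
    refine tendsto_nhdsWithin_iff.2 ⟨?_, ?_⟩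
    · have h1 : Tendsto (fun T : ℝ => (((15 : ℕ) : ℝ) * (q : ℝ) ^ 2)⁻¹ * T⁻¹) atTop
          (𝓝 ((((15 : ℕ) : ℝ) * (q : ℝ) ^ 2)⁻¹ * 0)) := tendsto_inv_atTop_zero.const_mul _
      rw [mul_zero] at h1
      refine h1.congr fun T => ?_
      rw [hYt]
      simp only [one_div, mul_inv]
    · filter_upwards [eventually_gt_atTop (0 : ℝ)] with T hT
      rw [hYt]
      show 0 < 1 / (((15 : ℕ) : ℝ) * (q : ℝ) ^ 2 * T)
      positivity
  -- the left hand side
  have h1 : Tendsto (fun T : ℝ => ∑ u : (ZMod q)ˣ, χ (u : ZMod q) *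
      TH940.prim f (((((u : ZMod q).val : ℤ)) : ℂ) / q + (Yt T : ℂ) * Complex.I)) atTop
      (𝓝 (∑ u : (ZMod q)ˣ, χ (u : ZMod q) * II (((u : ZMod q).val : ℚ) / q))) :=
    tendsto_finsetSum _ fun u _ => (hlim hP hI hf hco u hYlim).const_mul _
  -- the right hand side
  set a : ℕ → ℂ := fun n =>
    (starRingEnd ℂ) (χ⁻¹ (n : ZMod q) * (qExpansion 1 f).coeff n) / n with ha
  have ha0 : a 0 = 0 := by
    simp only [ha]
    rw [W388.coeff_zero f]; simp
  have hab : ∀ n : ℕ, 1 ≤ n → ‖a n‖ ≤ C * (n : ℝ) ^ (1 : ℝ) := by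
    intro n hn
    have h3 := hC n hn (χ⁻¹ (n : ZMod q)) (DirichletCharacter.norm_le_one _ _)
    refine le_trans (le_of_eq ?_) h3
    simp only [ha]
    rw [norm_div, RCLike.norm_conj, norm_mul, norm_mul, norm_div]
    ring
  have h4 : Tendsto (fun T : ℝ => gaussSum χ (stdAddChar (N := q)) *
      (F0 - W * Th a (2 * Real.pi) T)) atTop
      (𝓝 (gaussSum χ (stdAddChar (N := q)) * (F0 - W * 0))) :=
    ((((TH940.Th_tendsto ha0 hab (by positivity)).const_mul W).const_sub F0).const_mul _)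
  rw [mul_zero, sub_zero] at h4
  refine tendsto_nhds_unique h4 (h1.congr' ?_)
  filter_upwards [eventually_gt_atTop (0 : ℝ)] with T hT
  have hy : 0 < Yt T := by rw [hYt]; positivity
  rw [TH940.prim_gauss f χ hχ hy]
  congr 1
  have h5 := hF (((15 : ℕ) : ℝ) * (q : ℝ) ^ 2 * T / (2 * Real.pi)) (1 / (2 * Real.pi * T))
    (by positivity) (by positivity) (by field_simp; ring)
  rw [h5]
  have e1 : ∀ n : ℕ, Real.exp (-(2 * Real.pi * n * Yt T)) =
      Real.exp (-(n / (((15 : ℕ) : ℝ) * (q : ℝ) ^ 2 * T / (2 * Real.pi)))) := by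
    intro n
    congr 1
    rw [hYt]
    field_simp
  have e2 : Th a (2 * Real.pi) T = ∑' n : ℕ, (starRingEnd ℂ) (χ⁻¹ (n : ZMod q) *
      (qExpansion 1 f).coeff n) / n * (Real.exp (-(n / (1 / (2 * Real.pi * T)))) : ℂ) := by
    unfold Th
    refine tsum_congr fun n => ?_
    congr 3
    field_simp
  rw [e2]
  simp only [e1]
  ring

/-- the twisted `L`-function -/
theorem exists_L (hP : PrimOK) (hI : IIOK) (hfo : FormOK f) (hn : NewOK f) {q : ℕ} [NeZero q] (hco : Nat.Coprime q 15)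
    (χ : DirichletCharacter ℂ q) (hχ : χ.IsPrimitive) :
    ∃ g : ℂ → ℂ, Differentiable ℂ g ∧
      (∀ s : ℂ, 3 / 2 < s.re → HasProd (fun p : Nat.Primes =>
        (1 - (ap E15 p : ℂ) * χ p * (p : ℂ) ^ (-s) +
          (if (p : ℕ) ∣ 15 then 0 else (p : ℂ)) * (χ p) ^ 2 * (p : ℂ) ^ (-2 * s))⁻¹) (g s)) ∧
      gaussSum χ⁻¹ (stdAddChar (N := q)) * g 1 =
        ∑ u : (ZMod q)ˣ, χ⁻¹ (u : ZMod q) * II (((u : ZMod q).val : ℚ) / q) := by
  classical
  obtain ⟨ε, hε, hf⟩ := newf hfo hn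
  have hN0 : (0 : ℝ) < ((15 : ℕ) : ℝ) := by norm_num
  have hsN : 1 ≤ Real.sqrt ((15 : ℕ) : ℝ) := Real.one_le_sqrt.2 (by norm_num)
  obtain ⟨C, hC0, hC⟩ := TH940.coeff_bd f
  obtain ⟨K, hK, hmel⟩ := TH940.mellin2 1 C (by norm_num) (by norm_num)
  have hc0 := W388.coeff_zero f
  have h1 : 1 ≤ q := Nat.one_le_iff_ne_zero.2 (NeZero.ne q)
  have hq1 : (1 : ℝ) ≤ q := by exact_mod_cast h1
  have hRq : 1 ≤ Real.sqrt ((15 : ℕ) : ℝ) * q := by nlinarith
  set w : ℂ := (ε : ℂ) * χ (-((15 : ℕ) : ZMod q)) * gaussSum χ (stdAddChar (N := q)) /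
    gaussSum χ⁻¹ (stdAddChar (N := q)) with hw
  have hχi := inv_primitive χ hχ
  have hg0 : gaussSum χ (stdAddChar (N := q)) ≠ 0 := gauss_ne_zero χ hχ
  have hwn : ‖w‖ = 1 := by
    have e1 : ‖gaussSum χ⁻¹ (stdAddChar (N := q))‖ = ‖gaussSum χ (stdAddChar (N := q))‖ :=
      gauss_conj χ
    have e2 : ‖χ (-((15 : ℕ) : ZMod q))‖ = 1 := by
      have hu : IsUnit (-((15 : ℕ) : ZMod q)) :=
        ((ZMod.isUnit_iff_coprime 15 q).2 hco.symm).neg
      have := χ.unit_norm_eq_one hu.unit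
      simpa using this
    have e3 : ‖(ε : ℂ)‖ = 1 := by
      rcases hε with h | h <;> simp [h]
    rw [hw, norm_div, norm_mul, norm_mul, e1, e2, e3, one_mul, one_mul]
    exact div_self (norm_ne_zero_iff.2 hg0)
  have htheta : ∀ t : ℝ, 0 < t → ∑' n : ℕ, χ (n : ZMod q) * (qExpansion 1 f).coeff n *
      (Real.exp (-(2 * Real.pi * n / (Real.sqrt ((15 : ℕ) : ℝ) * q)) / t) : ℂ) =
      w * (t : ℂ) ^ 2 * ∑' n : ℕ, (starRingEnd ℂ) (χ (n : ZMod q) * (qExpansion 1 f).coeff n) *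
        (Real.exp (-(2 * Real.pi * n / (Real.sqrt ((15 : ℕ) : ℝ) * q)) * t) : ℂ) := by
    intro t ht
    have e := Pool.Agent.W378.CY.twist_explicit 15 2 f ε hf q χ hχ hco t ht
    rw [e, hw]
    norm_cast
  obtain ⟨F, hF1, hF2, hF3, hF4⟩ := hmel (fun n => χ (n : ZMod q) * (qExpansion 1 f).coeff n)
    (Real.sqrt ((15 : ℕ) : ℝ) * q) hRq (by rw [hc0, mul_zero]) (fun n hn => by
      rw [norm_mul]
      have e1 := DirichletCharacter.norm_le_one χ (n : ZMod q)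
      calc ‖χ (n : ZMod q)‖ * ‖(qExpansion 1 f).coeff n‖
          ≤ 1 * ‖(qExpansion 1 f).coeff n‖ := by gcongr
        _ = ‖(qExpansion 1 f).coeff n‖ := one_mul _
        _ ≤ _ := hC n hn) w hwn htheta
  -- the series in `Re s > 1`
  have hser : ∀ s : ℂ, 1 < s.re →
      F s = ∑' n : ℕ, (χ (n : ZMod q) * cc f n * (n : ℂ) ^ (-(1 / 2) : ℂ)) * (n : ℂ) ^ (-s) := by
    intro s hs
    refine W388.ext_series F hF1 (fun n => χ (n : ZMod q) * cc f n * (n : ℂ) ^ (-(1 / 2) : ℂ))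
      (by rw [cc_zero]; ring) (fun s hs => ?_) (1 + 2) (fun s hs => ?_) s hs
    · have h2 := cc_summable hfo hn χ (s + 1 / 2) (by
        have : (s + 1 / 2 : ℂ).re = s.re + 1 / 2 := by simp
        rw [this]; linarith)
      refine h2.congr fun n => ?_
      rcases Nat.eq_zero_or_pos n with rfl | hn
      · rw [cc_zero]; simp
      · have hn' : (n : ℂ) ≠ 0 := by exact_mod_cast hn.ne'
        congr 1
        rw [show (-(s + 1 / 2) : ℂ) = -(1 / 2) + -s by ring, Complex.cpow_add _ _ hn']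
        ring
    · rw [hF2 s hs]
      refine tsum_congr fun n => ?_
      rcases Nat.eq_zero_or_pos n with rfl | hn
      · rw [hc0, cc_zero]; simp
      · have hn' : (n : ℂ) ≠ 0 := by exact_mod_cast hn.ne'
        rw [show (-(s + 1 / 2) : ℂ) = -(1 / 2) + -s by ring, Complex.cpow_add _ _ hn']
        unfold cc
        ring
  refine ⟨fun s => F (s - 1 / 2), hF1.comp (by fun_prop), fun s hs => ?_, ?_⟩
  · have h2 := cc_euler hfo hn χ s hs
    have h3 : F (s - 1 / 2) = ∑' n : ℕ, cc f n * χ n * (n : ℂ) ^ (-s) := by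
      rw [hser (s - 1 / 2) (by
        have : (s - 1 / 2 : ℂ).re = s.re - 1 / 2 := by simp
        rw [this]; linarith)]
      refine tsum_congr fun n => ?_
      rcases Nat.eq_zero_or_pos n with rfl | hn
      · rw [cc_zero]; simp
      · have hn' : (n : ℂ) ≠ 0 := by exact_mod_cast hn.ne'
        rw [show (-s : ℂ) = -(1 / 2) + -(s - 1 / 2) by ring, Complex.cpow_add _ _ hn']
        ring
    show HasProd _ (F (s - 1 / 2))
    rw [h3]
    exact h2
  · have e1 : ((1 : ℂ) - 1 / 2) = 1 / 2 := by norm_num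
    show gaussSum χ⁻¹ (stdAddChar (N := q)) * F (1 - 1 / 2) = _
    rw [e1]
    refine center15 hP hI hfo hco χ⁻¹ hχi (F (1 / 2)) w ?_
    intro X Y hX hY hXY
    rw [inv_inv]
    have hR2 : X * Y = (Real.sqrt ((15 : ℕ) : ℝ) * q) ^ 2 / (4 * Real.pi ^ 2) := by
      rw [hXY, mul_pow, Real.sq_sqrt hN0.le]
    exact hF3 X Y hX hY hR2

end Pool.Agent.XV.MT.LFN

namespace Pool.Agent.XV.MT

theorem t_LFN : S_LFN := by
  intro hP hI hex q _ hco χ hχ
  obtain ⟨f, hf, hn⟩ := hex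
  exact LFN.exists_L hP hI hf hn hco χ hχ

end Pool.Agent.XV.MT
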