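import Pool.Agent.XV.MT.Sk

/-!
Small numbers of points of `E15` modulo `p`.
-/

set_option autoImplicit false

namespace Pool.Agent.XV.MT.MIN

open WeierstrassCurve
open Pool.Agent.W97.MT (affCount)

theorem e15_eq (p : ℕ) (P : ZMod p × ZMod p) :
    (E15.map (Int.castRingHom (ZMod p))).toAffine.Equation P.1 P.2 ↔
      P.2 ^ 2 + P.1 * P.2 + P.2 = P.1 ^ 3 + P.1 ^ 2 - 10 * P.1 - 10 := by
  have ha1 : (E15.map (Int.castRingHom (ZMod p))).a₁ = 1 := by simp [E15]
  have ha2 : (E15.map (Int.castRingHom (ZMod p))).a₂ = 1 := by simp [E15]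
  have ha3 : (E15.map (Int.castRingHom (ZMod p))).a₃ = 1 := by simp [E15]
  have ha4 : (E15.map (Int.castRingHom (ZMod p))).a₄ = -10 := by simp [E15]
  have ha6 : (E15.map (Int.castRingHom (ZMod p))).a₆ = -10 := by simp [E15]
  rw [WeierstrassCurve.Affine.equation_iff, ha1, ha2, ha3, ha4, ha6]
  constructor <;> intro h <;> linear_combination h

theorem aff_eq (p : ℕ) [NeZero p] : affCount E15 p =
    (Finset.univ.filter (fun P : ZMod p × ZMod p =>
      P.2 ^ 2 + P.1 * P.2 + P.2 = P.1 ^ 3 + P.1 ^ 2 - 10 * P.1 - 10)).card := by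
  unfold affCount
  rw [Nat.card_congr (Equiv.subtypeEquivRight (e15_eq p)), Nat.card_eq_fintype_card,
    Fintype.card_subtype]

end Pool.Agent.XV.MT.MIN

namespace Pool.Agent.XV.MT

open Pool.Agent.XV.MT.MIN

theorem t_MIN : S_MIN := by
  refine ⟨?_, ?_, ?_, ?_⟩
  · rw [aff_eq]; decide
  · rw [aff_eq]; decide
  · rw [aff_eq]; decide +kernel
  · intro p hp
    have : Fact p.Prime := ⟨hp⟩
    have : NeZero p := ⟨hp.ne_zero⟩
    rw [aff_eq]
    have h1 : (Finset.univ.filter (fun P : ZMod p × ZMod p =>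
        P.2 ^ 2 + P.1 * P.2 + P.2 = P.1 ^ 3 + P.1 ^ 2 - 10 * P.1 - 10)).card ≤
        2 * (Finset.univ : Finset (ZMod p)).card := by
      apply Finset.card_le_mul_card_image_of_maps_to (f := Prod.fst)
      · intro _ _; exact Finset.mem_univ _
      · intro x _
        rcases Finset.eq_empty_or_nonempty ((Finset.univ.filter (fun P : ZMod p × ZMod p =>
          P.2 ^ 2 + P.1 * P.2 + P.2 = P.1 ^ 3 + P.1 ^ 2 - 10 * P.1 - 10)).filter
            (fun P => P.1 = x)) with h | h
        · rw [h]; simp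
        · obtain ⟨⟨x0, y0⟩, h0⟩ := h
          simp only [Finset.mem_filter, Finset.mem_univ, true_and] at h0
          obtain ⟨h0, rfl⟩ := h0
          refine le_trans (Finset.card_le_card (t := {(x0, y0), (x0, -x0 - 1 - y0)}) ?_)
            Finset.card_le_two
          rintro ⟨x1, y1⟩ h1
          simp only [Finset.mem_filter, Finset.mem_univ, true_and] at h1
          obtain ⟨h1, rfl⟩ := h1
          have h2 : (y1 - y0) * (y1 - (-x1 - 1 - y0)) = 0 := by linear_combination h1 - h0
          rcases mul_eq_zero.1 h2 with h3 | h3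
          · rw [sub_eq_zero.1 h3]; simp
          · rw [sub_eq_zero.1 h3]; simp
    rwa [Finset.card_univ, ZMod.card] at h1

end Pool.Agent.XV.MT
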