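import Pool.Agent.XV.MT.B6

/-!
Optimality: the lattice of periods is the full lattice (port of `W97/MT/Opt.lean`, helper6).
-/

set_option autoImplicit false

open Filter Topology Set

namespace Pool.Agent.XV.MT.OPT

open Pool.Agent.W97.TW
open Pool.Agent.W97.MT (qq tt iI QV Rep H_open iI_pos tpi_ne S_INJ S_SUB wA wA_same wA_eq
  wA_analytic)
open Pool.Agent.XV.MT.B6

lemma frac_aux (u v : ℂ) {N D : ℂ} (hD : D ≠ 0) : u * (N / D) + v = (u * N + v * D) / D := by
  field_simp

lemma per_zero : IsPer 0 := ⟨1, 0, 0, 1, by norm_num, fun z _ => by simp⟩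

lemma per_add {p q : ℂ} (hp : IsPer p) (hq : IsPer q) : IsPer (p + q) := by
  obtain ⟨a, b, c, d, h, hp⟩ := hp
  obtain ⟨a', b', c', d', h', hq⟩ := hq
  have hdet : (a * a' + 15 * b * c') * (15 * c * b' + d * d') -
      (a * b' + b * d') * (15 * (c * a' + d * c')) = 1 := by
    linear_combination (a' * d' - b' * (15 * c')) * h + h'
  refine ⟨a * a' + 15 * b * c', a * b' + b * d', c * a' + d * c', 15 * c * b' + d * d', hdet, ?_⟩
  intro z hz
  have h1 := (G_gamma h' hz).1
  have h2 := (G_gamma h' hz).2.1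
  have h3 := (G_gamma h h1).2.1
  have h4 := (G_gamma hdet hz).2.1
  have e := hp _ h1
  rw [hq z hz] at e
  rw [add_comm p q, ← add_assoc, ← e]
  congr 1
  push_cast at h4 ⊢
  rw [frac_aux _ _ h2, frac_aux _ _ h2, div_div_div_cancel_right₀ h2]
  congr 1 <;> ring

lemma per_neg {p : ℂ} (hp : IsPer p) : IsPer (-p) := by
  obtain ⟨a, b, c, d, h, hp⟩ := hp
  have hdet : d * a - (-b) * (15 * (-c)) = 1 := by linarith
  refine ⟨d, -b, -c, a, hdet, ?_⟩
  intro z hz
  have h1 := (G_gamma hdet hz).1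
  have h2 := (G_gamma hdet hz).2.1
  have h3 := (G_gamma h h1).2.1
  have e := hp _ h1
  have h' : (a : ℂ) * d - b * (15 * c) = 1 := by exact_mod_cast h
  push_cast at h1 h2 h3 e ⊢
  rw [frac_aux _ _ h2, frac_aux _ _ h2, div_div_div_cancel_right₀ h2] at e
  have e1 : 15 * (c : ℂ) * (d * z + -b) + d * (15 * -c * z + a) = 1 := by
    linear_combination h'
  have e2 : (a : ℂ) * (d * z + -b) + b * (15 * -c * z + a) = z := by
    linear_combination z * h'
  rw [e1, e2, div_one] at e
  linear_combination -e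

/-- the group of periods -/
def perGroup : AddSubgroup ℂ where
  carrier := {p | IsPer p}
  zero_mem' := per_zero
  add_mem' := fun ha hb => per_add ha hb
  neg_mem' := fun ha => per_neg ha

section lattice

variable (hcp : S_CP) (hid : IdOK) (hpr : PrimOK) (L : PeriodPair)
  (hw : ∀ z : ℂ, 0 < z.im → F z ∉ L.lattice ∧ L.weierstrassP (F z) = X1 z - 7 / 12)

include hid hw in
/-- the periods are in the lattice -/
theorem period_mem (hinj : S_INJ) {a b c d : ℤ} (h : a * d - b * (15 * c) = 1) {p : ℂ}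
    (hp : ∀ z : ℂ, 0 < z.im → F ((a * z + b) / (15 * c * z + d)) = F z + p) :
    p ∈ L.lattice := by
  by_contra hpL
  have h1 : ∀ z : ℂ, 0 < z.im → 2 * F z + p ∈ L.lattice := by
    intro z hz
    have hm := (G_gamma h hz).1
    obtain ⟨e1, e2⟩ := hw z hz
    obtain ⟨e3, e4⟩ := hw _ hm
    rw [hid.x1inv a b c d h z hz, ← e2] at e4
    rw [hp z hz] at e3 e4
    rcases hinj L _ _ e3 e1 e4 with h5 | h5
    · exact absurd (by simpa using h5) hpL
    · have : F z + p + F z = 2 * F z + p := by ring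
      rwa [this] at h5
  have h2 : Tendsto (fun z => 2 * F z + p) iI (𝓝 (2 * 0 + p)) :=
    (F_QV.tendsto.const_mul 2).add_const p
  have h3 := L.isClosed_lattice.mem_of_tendsto h2 (iI_pos.mono fun z hz => h1 z hz)
  apply hpL
  simpa using h3

include hw in
/-- the values at the cusps -/
theorem cusp_value {m j : ℂ → ℂ} {x y : ℂ} (h : IsCusp m j x y) {C : ℂ}
    (hC : Tendsto (fun z => F (m z)) iI (𝓝 C)) :
    C ∉ L.lattice ∧ L.weierstrassP C = x - 7 / 12 := by
  have hX : Tendsto (fun z => X1 (m z) - 7 / 12) iI (𝓝 (x - 7 / 12)) :=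
    h.X.tendsto.sub_const _
  have hCL : C ∉ L.lattice := by
    intro hCL
    have h1 : Tendsto (fun z => wA L C (F (m z))) iI (𝓝 (wA L C C)) :=
      (wA_analytic L C (by simp)).continuousAt.tendsto.comp hC
    rw [wA_same] at h1
    have h2 : Tendsto (fun z => (F (m z) - C) ^ 2 * (X1 (m z) - 7 / 12)) iI
        (𝓝 ((C - C) ^ 2 * (x - 7 / 12))) := ((hC.sub_const C).pow 2).mul hX
    have h3 : (fun z => wA L C (F (m z))) =ᶠ[iI] fun z => (F (m z) - C) ^ 2 * (X1 (m z) - 7 / 12) := by
      filter_upwards [iI_pos] with z hz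
      obtain ⟨e1, e2⟩ := hw _ (h.pos z hz)
      rw [wA_eq L hCL (fun h => e1 (by rw [h]; exact hCL)), e2]
    have h4 := tendsto_nhds_unique (h1.congr' h3) h2
    norm_num at h4
  refine ⟨hCL, ?_⟩
  have h1 : Tendsto (fun z => L.weierstrassP (F (m z))) iI (𝓝 (L.weierstrassP C)) :=
    (L.analyticOnNhd_weierstrassP C hCL).continuousAt.tendsto.comp hC
  refine tendsto_nhds_unique h1 (hX.congr' ?_)
  filter_upwards [iI_pos] with z hz
  exact (hw _ (h.pos z hz)).2.symm

include hcp hid hpr hw in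
/-- the comparison of two lattices -/
lemma compare (L' : PeriodPair) (hsub : ∀ x : ℂ, x ∈ L'.lattice → x ∈ L.lattice)
    (hper : ∀ a b c d : ℤ, a * d - b * (15 * c) = 1 → ∃ p ∈ L'.lattice, ∀ z : ℂ, 0 < z.im →
      F ((a * z + b) / (15 * c * z + d)) = F z + p) :
    ∀ z : ℂ, 0 < z.im → L'.weierstrassP (F z) = L.weierstrassP (F z) := by
  have hP : ∀ (M : PeriodPair) (u : ℂ), M.weierstrassP u = M.weierstrassPExcept 0 u + 1 / u ^ 2 := by
    intro M u
    have := M.weierstrassPExcept_add 0 u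
    rw [← this]
    simp
  have han : ∀ M : PeriodPair, AnalyticAt ℂ (M.weierstrassPExcept 0) 0 := fun M =>
    M.analyticOnNhd_weierstrassPExcept 0 0 (by simp)
  have hcusp : ∀ {m j : ℂ → ℂ} {x y : ℂ} (_ : IsCusp m j x y),
      ∃ v, QV (fun z => L'.weierstrassP (F (m z)) - (X1 (m z) - 7 / 12)) v := by
    intro m j x y h
    obtain ⟨ε, C, -, -, h1⟩ := hpr.const m j h.map
    have hC : Tendsto (fun z => F (m z)) iI (𝓝 C) := by
      have := ((F_QV.tendsto).const_mul ε).add_const C
      rw [mul_zero, zero_add] at this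
      refine this.congr' ?_
      filter_upwards [iI_pos] with z hz
      rw [h1 z hz]
    have h2 := (cusp_value L hw h hC).1
    have h3 : AnalyticAt ℂ (fun q => L'.weierstrassP (ε * Phi q + C)) 0 := by
      have e1 : AnalyticAt ℂ (fun q => ε * Phi q + C) 0 := by
        have := Phi_analytic
        fun_prop
      refine AnalyticAt.fun_comp ?_ e1
      rw [Phi_zero, mul_zero, zero_add]
      exact L'.analyticOnNhd_weierstrassP C (fun h4 => h2 (hsub C h4))
    refine ⟨_, ((QV.comp h3).of_eq (f := fun z => L'.weierstrassP (F (m z)))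
      (iI_pos.mono fun z hz => ?_)).sub (h.X.sub (QV.const (7 / 12)))⟩
    rw [h1 z hz]
    rfl
  obtain ⟨v15, h15⟩ := hcusp hid.c15
  obtain ⟨v5, h5⟩ := hcusp hid.c5
  obtain ⟨v3, h3⟩ := hcusp hid.c3
  have hz : ∀ z : ℂ, 0 < z.im → L'.weierstrassP (F z) - (X1 z - 7 / 12) = 0 := by
    refine cp_zero hcp (g := fun z => L'.weierstrassP (F z) - (X1 z - 7 / 12)) ?_ ?_ ?_ h15 h5 h3
    · intro z hz
      have e1 := (L'.analyticOnNhd_weierstrassP (F z) (fun h4 => (hw z hz).1 (hsub _ h4)))
      have e2 := e1.differentiableAt.comp z (hpr.der z hz).differentiableAt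
      exact e2.sub ((X1_diff hz).sub_const _)
    · intro a b c d h z hz
      obtain ⟨p, hpL, hp⟩ := hper a b c d h
      have e1 := L'.weierstrassP_add_coe (F z) ⟨p, hpL⟩
      dsimp only
      rw [hp z hz, hid.x1inv a b c d h z hz]
      simp only at e1
      rw [e1]
    · have e1 : AnalyticAt ℂ (fun q => L'.weierstrassPExcept 0 (Phi q) -
          L.weierstrassPExcept 0 (Phi q)) 0 := by
        have a1 : AnalyticAt ℂ (fun q => L'.weierstrassPExcept 0 (Phi q)) 0 :=
          AnalyticAt.fun_comp (by rw [Phi_zero]; exact han L') Phi_analytic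
        have a2 : AnalyticAt ℂ (fun q => L.weierstrassPExcept 0 (Phi q)) 0 :=
          AnalyticAt.fun_comp (by rw [Phi_zero]; exact han L) Phi_analytic
        exact a1.sub a2
      refine ((QV.comp e1).of_eq (iI_pos.mono fun z hz => ?_)).of_val (by simp [Phi_zero])
      rw [← (hw z hz).2, hP L, hP L']
      change _ = L'.weierstrassPExcept 0 (F z) - L.weierstrassPExcept 0 (F z)
      ring
  intro z hz'
  rw [(hw z hz').2]
  exact sub_eq_zero.1 (hz z hz')

include hpr hw in
/-- two lattices with the same `℘` -/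
lemma lattice_le (L' : PeriodPair) (hsub : ∀ x : ℂ, x ∈ L'.lattice → x ∈ L.lattice)
    (heq : ∀ z : ℂ, 0 < z.im → L'.weierstrassP (F z) = L.weierstrassP (F z)) :
    ∀ x : ℂ, x ∈ L.lattice → x ∈ L'.lattice := by
  have hcount : (L.lattice : Set ℂ).Countable := by
    have : Countable L.lattice := L.latticeEquivProd.toEquiv.countable_iff.2 inferInstance
    exact this.to_set
  have hconn : IsPreconnected ((L.lattice : Set ℂ)ᶜ) :=
    (hcount.isConnected_compl_of_one_lt_rank (by rw [Complex.rank_real_complex]; norm_num)).isPreconnected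
  have hI : (0 : ℝ) < Complex.I.im := by simp
  have h1 : ∃ᶠ u in 𝓝[≠] (F Complex.I), L'.weierstrassP u = L.weierstrassP u := by
    have h2 := (hpr.der Complex.I hI).tendsto_nhdsNE (mul_ne_zero tpi_ne (ff_ne hI))
    refine h2.frequently (Eventually.frequently ?_)
    have : ∀ᶠ z in 𝓝[≠] Complex.I, 0 < z.im :=
      eventually_nhdsWithin_of_eventually_nhds (H_open.mem_nhds hI)
    exact this.mono fun z hz => heq z hz
  have h2 := (L'.analyticOnNhd_weierstrassP.mono (s := (L.lattice : Set ℂ)ᶜ)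
    (compl_subset_compl.2 fun x hx => hsub x hx)).eqOn_of_preconnected_of_frequently_eq
      L.analyticOnNhd_weierstrassP hconn (hw Complex.I hI).1 h1
  intro w hwL
  by_contra hwL'
  have h3 : Tendsto (wA L w) (𝓝[≠] w) (𝓝 1) := by
    have := (wA_analytic L w (u := w) (by simp)).continuousAt.tendsto
    rw [wA_same] at this
    exact this.mono_left nhdsWithin_le_nhds
  have h4 : Tendsto (fun u => (u - w) ^ 2 * L'.weierstrassP u) (𝓝[≠] w) (𝓝 0) := by
    have h5 : ContinuousAt (fun u => (u - w) ^ 2 * L'.weierstrassP u) w :=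
      ContinuousAt.mul (by fun_prop) (L'.analyticOnNhd_weierstrassP w hwL').continuousAt
    have := h5.tendsto
    simp only [sub_self] at this
    norm_num at this
    exact this.mono_left nhdsWithin_le_nhds
  have h5 : (wA L w) =ᶠ[𝓝[≠] w] fun u => (u - w) ^ 2 * L'.weierstrassP u := by
    filter_upwards [eventually_nhdsWithin_of_eventually_nhds
      (L.compl_lattice_sdiff_singleton_mem_nhds w), self_mem_nhdsWithin] with u hu hne
    have hne' : u ≠ w := hne
    have huL : u ∉ L.lattice := fun h => hu ⟨h, hne'⟩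
    rw [wA_eq L hwL hne', h2 huL]
  have h6 := tendsto_nhds_unique (h3.congr' h5) h4
  exact one_ne_zero h6

end lattice

end Pool.Agent.XV.MT.OPT

namespace Pool.Agent.XV.MT

open Pool.Agent.W97.TW
open Pool.Agent.W97.MT (qq tt iI QV Rep H_open iI_pos tpi_ne S_INJ S_SUB)
open Pool.Agent.XV.MT.B6 Pool.Agent.XV.MT.OPT

/-- optimality -/
theorem t_OPT : S_OPT := by
  intro hcp hid hpr hinj hsub L _ _ hw
  have hle : ∀ x ∈ perGroup, x ∈ L.lattice := by
    rintro x ⟨a, b, c, d, h, hp⟩
    exact period_mem hid L hw hinj h hp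
  intro w
  refine ⟨fun hw' => ?_, fun hw' => hle w hw'⟩
  rcases hsub L perGroup hle with ⟨L', hL'⟩ | ⟨v, hv, hn⟩
  · have h1 : ∀ x : ℂ, x ∈ L'.lattice → x ∈ L.lattice := fun x hx => hle x ((hL' x).1 hx)
    have h2 := compare hcp hid hpr L hw L' h1 fun a b c d h => by
      obtain ⟨p, hp⟩ := hpr.gam a b c d h
      exact ⟨p, (hL' p).2 ⟨a, b, c, d, h, hp⟩, hp⟩
    exact (hL' w).1 (lattice_le hpr L hw L' h1 h2 w hw')
  · exfalso
    have han : ∀ ε C : ℂ, AnalyticAt ℂ (fun q => Complex.exp (2 * Real.pi * Complex.I *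
        ((ε * Phi q + C) / v)) - 1) 0 := by
      intro ε C
      have := Phi_analytic
      fun_prop (disch := exact hv)
    have hcusp : ∀ {m j : ℂ → ℂ} (_ : IsMap m j),
        ∃ v', QV (fun z => Complex.exp (2 * Real.pi * Complex.I * (F (m z) / v)) - 1) v' := by
      intro m j h
      obtain ⟨ε, C, -, -, h1⟩ := hpr.const m j h
      refine ⟨_, (QV.comp (han ε C)).of_eq (iI_pos.mono fun z hz => ?_)⟩
      rw [h1 z hz]
      rfl
    obtain ⟨v15, h15⟩ := hcusp hid.c15.map
    obtain ⟨v5, h5⟩ := hcusp hid.c5.map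
    obtain ⟨v3, h3⟩ := hcusp hid.c3.map
    have hz := cp_zero hcp (g := fun z => Complex.exp (2 * Real.pi * Complex.I * (F z / v)) - 1)
      (fun z hz => by
        have := (hpr.der z hz).differentiableAt
        fun_prop) (fun a b c d h z hz => by
        obtain ⟨p, hp⟩ := hpr.gam a b c d h
        obtain ⟨n, hn'⟩ := hn p ⟨a, b, c, d, h, hp⟩
        dsimp only
        rw [hp z hz, hn', add_div, mul_div_assoc, div_self hv, mul_one, mul_add, Complex.exp_add]
        have : Complex.exp (2 * Real.pi * Complex.I * n) = 1 := by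
          rw [mul_comm]; exact Complex.exp_int_mul_two_pi_mul_I n
        rw [this, mul_one]) (((QV.comp (han 1 0)).of_eq (iI_pos.mono fun z hz => by
          rw [one_mul, add_zero]; rfl)).of_val (by simp [Phi_zero])) h15 h5 h3
    have hI : (0 : ℝ) < Complex.I.im := by simp
    have h3 : HasDerivAt (fun z => Complex.exp (2 * Real.pi * Complex.I * (F z / v)) - 1) _ Complex.I :=
      (((hpr.der Complex.I hI).div_const v).const_mul (2 * Real.pi * Complex.I)).cexp.sub_const 1
    have h4 : (fun z => Complex.exp (2 * Real.pi * Complex.I * (F z / v)) - 1) =ᶠ[𝓝 Complex.I]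
        fun _ => (0 : ℂ) := by
      filter_upwards [H_open.mem_nhds hI] with z hz'
      exact hz z hz'
    have h5 := (h3.congr_of_eventuallyEq h4.symm).unique (hasDerivAt_const _ _)
    have h6 := ff_ne hI
    have h7 := tpi_ne
    have h8 := Complex.exp_ne_zero (2 * Real.pi * Complex.I * (F Complex.I / v))
    exact (mul_ne_zero h8 (mul_ne_zero h7 (div_ne_zero (mul_ne_zero h7 h6) hv))) h5

end Pool.Agent.XV.MT
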