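import Pool.Agent.XV.MT.Sk

/-!
Project XV, part T1: the number of points on the short Weierstrass equation
`y² = x³ - 12987 x - 263466` of the curve `E15`.
-/

set_option autoImplicit false

namespace Pool.Agent.XV.MT

open Pool.Agent.W97.MT (affCount)

/-- the number of solutions of the short Weierstrass equation -/
theorem t_PCARD : S_PCARD := by
  intro l hl h2 h3
  have : Fact l.Prime := ⟨hl⟩
  have n2 : (2 : ZMod l) ≠ 0 := by
    intro h
    have : ((2 : ℕ) : ZMod l) = 0 := by exact_mod_cast h
    rw [ZMod.natCast_eq_zero_iff] at this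
    exact h2 ((Nat.prime_dvd_prime_iff_eq hl Nat.prime_two).1 this)
  have n3 : (3 : ZMod l) ≠ 0 := by
    intro h
    have : ((3 : ℕ) : ZMod l) = 0 := by exact_mod_cast h
    rw [ZMod.natCast_eq_zero_iff] at this
    exact h3 ((Nat.prime_dvd_prime_iff_eq hl Nat.prime_three).1 this)
  have n36 : (36 : ZMod l) ≠ 0 := by
    rw [show (36 : ZMod l) = 2 ^ 2 * 3 ^ 2 by norm_num]
    exact mul_ne_zero (pow_ne_zero 2 n2) (pow_ne_zero 2 n3)
  have n216 : (216 : ZMod l) ≠ 0 := by
    rw [show (216 : ZMod l) = 2 ^ 3 * 3 ^ 3 by norm_num]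
    exact mul_ne_zero (pow_ne_zero 3 n2) (pow_ne_zero 3 n3)
  unfold affCount
  symm
  refine Nat.card_congr
    { toFun := fun x => ⟨(36 * x.1.1 + 15, 216 * x.1.2 + 108 * x.1.1 + 108), ?_⟩
      invFun := fun x => ⟨((x.1.1 - 15) / 36, (x.1.2 - 3 * (x.1.1 - 15) - 108) / 216), ?_⟩
      left_inv := ?_
      right_inv := ?_ }
  · have h := x.2
    rw [WeierstrassCurve.Affine.equation_iff] at h
    simp only [E15, WeierstrassCurve.map, map_one, map_neg, map_ofNat] at h
    push_cast at h ⊢
    linear_combination 46656 * h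
  · have h := x.2
    rw [WeierstrassCurve.Affine.equation_iff]
    simp only [E15, WeierstrassCurve.map, map_one, map_neg, map_ofNat]
    push_cast at h ⊢
    have e1 : x.1.1 = 36 * ((x.1.1 - 15) / 36) + 15 := by field_simp; ring
    have e2 : x.1.2 = 216 * ((x.1.2 - 3 * (x.1.1 - 15) - 108) / 216) +
        108 * ((x.1.1 - 15) / 36) + 108 := by
      field_simp
      ring
    set u := (x.1.1 - 15) / 36 with hu
    set v := (x.1.2 - 3 * (x.1.1 - 15) - 108) / 216 with hv
    rw [e1, e2] at h
    have n46656 : (46656 : ZMod l) ≠ 0 := by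
      rw [show (46656 : ZMod l) = 216 * 216 by norm_num]
      exact mul_ne_zero n216 n216
    apply mul_left_cancel₀ n46656
    linear_combination h
  · intro x
    ext
    · show (36 * x.1.1 + 15 - 15) / 36 = x.1.1
      field_simp
      ring
    · show (216 * x.1.2 + 108 * x.1.1 + 108 - 3 * (36 * x.1.1 + 15 - 15) - 108) / 216 = x.1.2
      field_simp
      ring
  · intro x
    ext
    · show 36 * ((x.1.1 - 15) / 36) + 15 = x.1.1
      field_simp
      ring
    · show 216 * ((x.1.2 - 3 * (x.1.1 - 15) - 108) / 216) + 108 * ((x.1.1 - 15) / 36) + 108 = x.1.2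
      field_simp
      ring

end Pool.Agent.XV.MT
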