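import Pool.Agent.XV.MT.G49

/-!
XV-T1-PRIM (helper49): the primitive of the form and its limits (port of `W97/MT/{Prim,Hit}.lean`).
-/

set_option autoImplicit false

open Filter Topology MeasureTheory Set

namespace Pool.Agent.XV.MT.PRIM

open Pool.Agent.W97.TW
open Pool.Agent.W97.MT (qq tt qq_ne norm_qq norm_qq_lt im_mul iI QV iI_pos eq_or_eq_neg)
open Pool.Agent.XV.MT.G49

lemma Phi_diff : DifferentiableOn ℂ Phi (Metric.ball 0 1) := fun q hq =>
  (Phi_deriv (by simpa using hq)).differentiableAt.differentiableWithinAt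

lemma Phi_analytic : AnalyticAt ℂ Phi 0 := Phi_diff.analyticAt (Metric.ball_mem_nhds _ one_pos)

lemma F_deriv {z : ℂ} (hz : 0 < z.im) : HasDerivAt F (2 * Real.pi * Complex.I * ff z) z := by
  refine ((Phi_deriv (norm_qq_lt hz)).comp z (hasDerivAt_qq z)).congr_deriv ?_
  rw [ff_q]; ring

lemma F_QV : QV F 0 := (QV.comp Phi_analytic).of_val Phi_zero

lemma F_diff {z : ℂ} (hz : 0 < z.im) : DifferentiableAt ℂ F z := (F_deriv hz).differentiableAt

lemma idMap : IsMap (fun z => z) (fun _ => 1) where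
  pos := fun _ h => h
  der := fun z _ => hasDerivAt_id z
  jne := fun _ _ => one_ne_zero
  jcont := continuousOn_const
  ffj := fun _ _ => by rw [mul_one]

section map

variable {m j : ℂ → ℂ} (h : IsMap m j)
include h

lemma IsMap_sign : ∃ ε : ℂ, (ε = 1 ∨ ε = -1) ∧ ∀ z : ℂ, 0 < z.im → ff (m z) * j z = ε * ff z := by
  have hc : ContinuousOn (fun z => ff (m z) * j z) {z : ℂ | 0 < z.im} :=
    (comp_cont h.pos h.der ff_cont).mul h.jcont
  rcases eq_or_eq_neg hc ff_cont h.ffj (fun z hz => ff_ne hz) with h1 | h1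
  · exact ⟨1, Or.inl rfl, fun z hz => by rw [h1 z hz]; ring⟩
  · exact ⟨-1, Or.inr rfl, fun z hz => by rw [h1 z hz]; ring⟩

lemma IsMap_const : ∃ ε C : ℂ, (ε = 1 ∨ ε = -1) ∧
    (∀ z : ℂ, 0 < z.im → ff (m z) * j z = ε * ff z) ∧
    ∀ z : ℂ, 0 < z.im → F (m z) = ε * F z + C := by
  obtain ⟨ε, hε, h1⟩ := IsMap_sign h
  obtain ⟨C, hC⟩ := const_of_deriv (g := fun z => F (m z) - ε * F z) fun z hz => by
    have h2 := ((F_deriv (h.pos z hz)).comp z (h.der z hz)).sub ((F_deriv hz).const_mul ε)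
    refine h2.congr_deriv ?_
    linear_combination (2 * Real.pi * Complex.I) * h1 z hz
  refine ⟨ε, C, hε, h1, fun z hz => ?_⟩
  linear_combination hC z hz

end map

/-- the additive constants for `Γ_0(15)` -/
lemma F_gamma (hid : IdOK) {a b c d : ℤ} (h : a * d - b * (15 * c) = 1) :
    ∃ p : ℂ, ∀ z : ℂ, 0 < z.im → F ((a * z + b) / (15 * c * z + d)) = F z + p := by
  obtain ⟨C, hC⟩ := const_of_deriv (g := fun z => F ((a * z + b) / (15 * c * z + d)) - F z)
    fun z hz => by
      have h2 := ((F_deriv (G_gamma h hz).1).comp z (hasDerivAt_gamma h hz)).sub (F_deriv hz)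
      refine h2.congr_deriv ?_
      have h0 := (G_gamma h hz).2.1
      rw [hid.ffg a b c d h z hz]
      field_simp
      ring
  exact ⟨C, fun z hz => by linear_combination hC z hz⟩

/-- exponential decay -/
lemma ff_bound {y : ℝ} (hy : 0 < y) : ∃ C : ℝ, 0 ≤ C ∧ ∀ z : ℂ, y ≤ z.im →
    ‖ff z‖ ≤ C * Real.exp (-(2 * Real.pi) * z.im) := by
  have hpi := Real.pi_pos
  have hr : Real.exp (-2 * Real.pi * y) < 1 := by
    rw [Real.exp_lt_one_iff]; nlinarith [mul_pos hpi hy]
  have hc : ContinuousOn phi (Metric.closedBall 0 (Real.exp (-2 * Real.pi * y))) :=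
    phi_diff.continuousOn.mono (Metric.closedBall_subset_ball hr)
  obtain ⟨C, hC⟩ := (isCompact_closedBall (0 : ℂ) _).exists_bound_of_continuousOn hc
  refine ⟨max C 0, le_max_right _ _, fun z hz => ?_⟩
  rw [ff_q, norm_mul, norm_qq, mul_comm]
  have h1 : ‖phi (qq z)‖ ≤ max C 0 := by
    refine (hC (qq z) ?_).trans (le_max_left _ _)
    rw [mem_closedBall_zero_iff, norm_qq]
    exact Real.exp_le_exp.2 (by nlinarith [mul_le_mul_of_nonneg_left hz hpi.le])
  have e : -2 * Real.pi * z.im = -(2 * Real.pi) * z.im := by ring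
  rw [e]
  exact mul_le_mul_of_nonneg_right h1 (Real.exp_pos _).le

lemma ff_line_cont (z : ℂ) {a : ℝ} (h : 0 < z.im + a) :
    ContinuousOn (fun t : ℝ => ff (z + t * Complex.I)) (Ici a) := by
  refine ff_cont.comp (by fun_prop) ?_
  intro t ht
  change 0 < (z + t * Complex.I).im
  rw [line_im]
  have : a ≤ t := ht
  linarith

/-- integrability near infinity -/
lemma ff_line_int (z : ℂ) {a : ℝ} (h : 0 < z.im + a) :
    IntegrableOn (fun t : ℝ => ff (z + t * Complex.I)) (Ioi a) := by
  obtain ⟨C, hC0, hC⟩ := ff_bound h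
  have hpi := Real.pi_pos
  have hcont := ff_line_cont z h
  refine Integrable.mono' (g := fun t : ℝ => C * Real.exp (-(2 * Real.pi) * z.im) *
    Real.exp (-(2 * Real.pi) * t)) ?_ ?_ ?_
  · exact ((exp_neg_integrableOn_Ioi a (by positivity : 0 < 2 * Real.pi)).const_mul _)
  · exact (hcont.mono Ioi_subset_Ici_self).aestronglyMeasurable measurableSet_Ioi
  · refine (ae_restrict_mem measurableSet_Ioi).mono fun t ht => ?_
    have ht' : a < t := ht
    refine (hC (z + t * Complex.I) (by rw [line_im]; linarith)).trans (le_of_eq ?_)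
    rw [line_im, mul_assoc, ← Real.exp_add]
    ring_nf

lemma F_line_deriv (z : ℂ) {t : ℝ} (ht : 0 < z.im + t) :
    HasDerivAt (fun t : ℝ => F (z + t * Complex.I)) (-(2 * Real.pi) * ff (z + t * Complex.I)) t := by
  have h1 : HasDerivAt (fun t : ℝ => z + (t : ℂ) * Complex.I) Complex.I t := by
    have := ((Complex.ofRealCLM.hasDerivAt (x := t)).mul_const Complex.I).const_add z
    simpa using this
  have h2 : HasDerivAt F _ (z + t * Complex.I) := F_deriv (by rw [line_im]; exact ht)
  refine (h2.comp t h1).congr_deriv ?_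
  linear_combination (2 * Real.pi * ff (z + t * Complex.I)) * Complex.I_mul_I

lemma F_line_tendsto (z : ℂ) : Tendsto (fun t : ℝ => F (z + t * Complex.I)) atTop (𝓝 0) := by
  refine F_QV.tendsto.comp ?_
  unfold iI
  rw [tendsto_comap_iff]
  have : Complex.im ∘ (fun t : ℝ => z + (t : ℂ) * Complex.I) = fun t => z.im + t := by
    ext t; exact line_im z t
  rw [this]
  exact tendsto_atTop_add_const_left _ _ tendsto_id

/-- the integral from a point of the upper half-plane or from a good rational -/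
lemma integral_line (z : ℂ) (hz : 0 ≤ z.im) {C : ℂ}
    (hint : IntegrableOn (fun t : ℝ => ff (z + t * Complex.I)) (Ioi 0))
    (hlim : Tendsto (fun t : ℝ => F (z + t * Complex.I)) (𝓝[>] 0) (𝓝 C)) :
    2 * Real.pi * ∫ t in Ioi (0 : ℝ), ff (z + t * Complex.I) = C := by
  set g : ℝ → ℂ := Function.update (fun t : ℝ => F (z + t * Complex.I)) 0 C with hg
  have h1 : ContinuousWithinAt g (Ici 0) 0 := by
    rw [continuousWithinAt_update_same]
    convert hlim using 2
    ext t
    simp
  have h2 : ∀ t ∈ Ioi (0 : ℝ), HasDerivAt g (-(2 * Real.pi) * ff (z + t * Complex.I)) t := by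
    intro t ht
    have ht' : 0 < t := ht
    refine (F_line_deriv z (by linarith)).congr_of_eventuallyEq ?_
    filter_upwards [isOpen_Ioi.mem_nhds ht] with s hs
    have hs' : (0 : ℝ) < s := hs
    rw [hg, Function.update_of_ne hs'.ne']
  have h3 : Tendsto g atTop (𝓝 0) := by
    refine (F_line_tendsto z).congr' ?_
    filter_upwards [eventually_gt_atTop 0] with s hs
    rw [hg, Function.update_of_ne hs.ne']
  have h4 := integral_Ioi_of_hasDerivAt_of_tendsto h1 h2 (hint.const_mul _) h3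
  have h5 : g 0 = C := by rw [hg, Function.update_self]
  have h6 : (∫ t in Ioi (0 : ℝ), -(2 * Real.pi : ℂ) * ff (z + t * Complex.I)) =
      -(2 * Real.pi : ℂ) * ∫ t in Ioi (0 : ℝ), ff (z + t * Complex.I) := integral_const_mul _ _
  rw [h6, h5] at h4
  linear_combination -h4

section hit

variable {m j : ℂ → ℂ} (h : IsMap m j) {r : ℂ}
include h

/-- size of the form near a rational number -/
lemma hit_ff (hid : IdOK) {a b c d : ℤ} (hdet : a * d - b * (15 * c) = 1)
    {K x : ℝ} (hK : 0 < K) (he : ∀ s : ℝ, 0 < s →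
    (a * m (x + s * Complex.I) + b) / (15 * c * m (x + s * Complex.I) + d) =
      r + ((K * s)⁻¹ : ℝ) * Complex.I) {s : ℝ} (hs : 0 < s) :
    ‖ff (r + ((K * s)⁻¹ : ℝ) * Complex.I)‖ = K * s ^ 2 * ‖ff (x + s * Complex.I)‖ := by
  obtain ⟨ε, hε, hff⟩ := IsMap_sign h
  have him : 0 < ((x : ℂ) + s * Complex.I).im := by simpa using hs
  set w : ℂ := (x : ℂ) + s * Complex.I with hw
  have hm := h.pos w him
  have h0 := (G_gamma hdet hm).2.1
  -- the derivative along the path
  have h1 : HasDerivAt (fun t : ℝ => (x : ℂ) + (t : ℂ) * Complex.I) Complex.I s := by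
    have := ((Complex.ofRealCLM.hasDerivAt (x := s)).mul_const Complex.I).const_add (x : ℂ)
    simpa using this
  have h2 : HasDerivAt m (j w) (x + (s : ℂ) * Complex.I) := h.der w him
  have h3 : HasDerivAt (fun z : ℂ => (a * z + b) / (15 * c * z + d))
      (((15 * c * m w + d) ^ 2)⁻¹) (m (x + (s : ℂ) * Complex.I)) := hasDerivAt_gamma hdet hm
  have h4 := h3.comp s (h2.comp s h1)
  have h5 : HasDerivAt (fun t : ℝ => r + ((K * t)⁻¹ : ℝ) * Complex.I)
      (((-(K * s ^ 2)⁻¹ : ℝ) : ℂ) * Complex.I) s := by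
    have e1 : HasDerivAt (fun t : ℝ => (K * t)⁻¹) (-(K * s ^ 2)⁻¹) s := by
      have := ((hasDerivAt_id s).const_mul K).inv (by positivity)
      refine this.congr_deriv ?_
      simp only [id]
      field_simp
    exact ((HasDerivAt.ofReal_comp e1).mul_const Complex.I).const_add r
  have h6 : (fun t : ℝ => r + ((K * t)⁻¹ : ℝ) * Complex.I) =ᶠ[𝓝 s]
      ((fun z : ℂ => (a * z + b) / (15 * c * z + d)) ∘ (m ∘ fun t : ℝ => (x : ℂ) + (t : ℂ) * Complex.I)) := by
    filter_upwards [isOpen_Ioi.mem_nhds (show s ∈ Ioi (0 : ℝ) from hs)] with t ht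
    exact (he t ht).symm
  have h7 := (h4.congr_of_eventuallyEq h6).unique h5
  have h8 : ((15 * c * m w + d) ^ 2)⁻¹ * j w = ((-(K * s ^ 2)⁻¹ : ℝ) : ℂ) := by
    have := mul_right_cancel₀ (b := Complex.I) Complex.I_ne_zero (a := ((15 * c * m w + d) ^ 2)⁻¹ * j w)
      (c := ((-(K * s ^ 2)⁻¹ : ℝ) : ℂ)) (by rw [← h7]; ring)
    exact this
  have h9 := hid.ffg a b c d hdet (m w) hm
  have h10 := hff w him
  rw [← he s hs]
  change ‖ff ((a * m w + b) / (15 * c * m w + d))‖ = _
  rw [h9]
  have hj := h.jne w him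
  have h11 : (15 * c * m w + d) ^ 2 = -((K * s ^ 2 : ℝ) : ℂ) * j w := by
    have hKs : ((K * s ^ 2 : ℝ) : ℂ) ≠ 0 := by exact_mod_cast (by positivity : K * s ^ 2 ≠ 0)
    rw [Complex.ofReal_neg, Complex.ofReal_inv] at h8
    field_simp at h8
    linear_combination h8
  have h12 : (15 * c * m w + d) ^ 2 * ff (m w) = -((K * s ^ 2 : ℝ) : ℂ) * (ε * ff w) := by
    rw [h11, ← h10]; ring
  rw [h12, norm_mul, norm_neg, norm_mul, Complex.norm_real, Real.norm_of_nonneg (by positivity)]
  rcases hε with rfl | rfl <;> simp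

lemma hit_prim (hid : IdOK) {C : ℂ} (hC : Tendsto (fun z => F (m z)) iI (𝓝 C))
    (hr : r.im = 0) (hit : Hit r m) :
    IntegrableOn (fun t : ℝ => ff (r + t * Complex.I)) (Ioi 0) ∧
    ∃ a b c d : ℤ, a * d - b * (15 * c) = 1 ∧ ∃ p : ℂ,
      (∀ z : ℂ, 0 < z.im → F ((a * z + b) / (15 * c * z + d)) = F z + p) ∧
      2 * Real.pi * ∫ t in Ioi (0 : ℝ), ff (r + t * Complex.I) = C + p := by
  obtain ⟨a, b, c, d, hdet, K, x, hK, he⟩ := hit
  have hinv : ∀ t : ℝ, 0 < t → (K * (K * t)⁻¹)⁻¹ = t := fun t ht => by field_simp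
  have hint : IntegrableOn (fun t : ℝ => ff (r + t * Complex.I)) (Ioi 0) := by
    rw [← Ioc_union_Ioi_eq_Ioi (zero_le_one : (0 : ℝ) ≤ 1)]
    refine IntegrableOn.union ?_ (ff_line_int r (by rw [hr]; norm_num))
    obtain ⟨D, hD0, hD⟩ := ff_bound (inv_pos.2 hK)
    have hcont : ContinuousOn (fun t : ℝ => ff (r + t * Complex.I)) (Ioc 0 1) := by
      have h1 := ff_cont.comp (f := fun t : ℝ => r + t * Complex.I) (s := Ioi 0) (by fun_prop)
          (fun u hu => by
            change 0 < (r + u * Complex.I).im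
            rw [line_im, hr]
            simpa using hu)
      exact h1.mono Ioc_subset_Ioi_self
    refine IntegrableOn.of_bound (C := K * D) (by simp)
      (hcont.aestronglyMeasurable measurableSet_Ioc) ?_
    refine (ae_restrict_mem measurableSet_Ioc).mono fun t ht => ?_
    have ht0 : 0 < t := ht.1
    set s : ℝ := (K * t)⁻¹ with hs
    have hs0 : 0 < s := by positivity
    have h1 := hit_ff h hid hdet hK he hs0
    rw [hs, hinv t ht0] at h1
    rw [h1, ← hs]
    have h2 : K⁻¹ ≤ s := by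
      rw [hs]
      exact inv_anti₀ (by positivity) (by nlinarith [ht.2])
    have h3 := hD (x + s * Complex.I) (by simpa using h2)
    have h4 : ((x : ℂ) + s * Complex.I).im = s := by simp
    rw [h4] at h3
    have h5 : s ^ 2 * Real.exp (-(2 * Real.pi) * s) ≤ 1 := by
      have e1 := Real.add_one_le_exp s
      have e2 : s ^ 2 ≤ Real.exp (2 * Real.pi * s) := by
        have e3 : Real.exp (2 * s) ≤ Real.exp (2 * Real.pi * s) := by
          apply Real.exp_le_exp.2
          have := Real.pi_gt_three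
          nlinarith
        refine le_trans ?_ e3
        rw [two_mul, Real.exp_add]
        nlinarith [Real.exp_pos s]
      have e4 : Real.exp (-(2 * Real.pi) * s) = (Real.exp (2 * Real.pi * s))⁻¹ := by
        rw [← Real.exp_neg]; ring_nf
      rw [e4, ← div_eq_mul_inv]
      exact (div_le_one (Real.exp_pos _)).2 e2
    calc K * s ^ 2 * ‖ff (x + s * Complex.I)‖
        ≤ K * s ^ 2 * (D * Real.exp (-(2 * Real.pi) * s)) := by gcongr
      _ = K * D * (s ^ 2 * Real.exp (-(2 * Real.pi) * s)) := by ring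
      _ ≤ K * D * 1 := by gcongr
      _ = K * D := mul_one _
  refine ⟨hint, a, b, c, d, hdet, ?_⟩
  obtain ⟨p, hp⟩ := F_gamma hid hdet
  refine ⟨p, hp, integral_line r hr.ge hint ?_⟩
  have ht : Tendsto (fun t : ℝ => (x : ℂ) + ((K * t)⁻¹ : ℝ) * Complex.I) (𝓝[>] 0) iI := by
    unfold iI
    rw [tendsto_comap_iff]
    have e : Complex.im ∘ (fun t : ℝ => (x : ℂ) + ((K * t)⁻¹ : ℝ) * Complex.I) =
        fun t : ℝ => K⁻¹ * t⁻¹ := by
      ext t; simp [mul_comm]
    rw [e]
    exact tendsto_inv_nhdsGT_zero.const_mul_atTop (inv_pos.2 hK)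
  have h1 := (hC.comp ht).add_const p
  refine h1.congr' ?_
  filter_upwards [self_mem_nhdsWithin] with t ht
  have ht0 : (0 : ℝ) < t := ht
  have hs0 : 0 < (K * t)⁻¹ := by positivity
  have h2 := he _ hs0
  rw [hinv t ht0] at h2
  rw [← h2, hp _ (h.pos _ (by simpa using hs0))]
  rfl

end hit


end Pool.Agent.XV.MT.PRIM

namespace Pool.Agent.XV.MT

open PRIM in
theorem t_PRIM : S_PRIM := fun hid =>
  { der := fun _ hz => F_deriv hz
    qv := F_QV
    sign := fun _ _ h => IsMap_sign h
    const := fun _ _ h => IsMap_const h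
    gam := fun _ _ _ _ h => F_gamma hid h
    hit := fun _ _ h _ hC _ hr hit => hit_prim h hid hC hr hit
    line := fun z hz _ hint hlim => integral_line z hz hint hlim
    lint := fun z hz => ff_line_int z (by simpa using hz)
    llim := fun z => F_line_tendsto z }

end Pool.Agent.XV.MT
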