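import Pool.Agent.XV.MT.Sk

/-!
# Project XV, part T1: assembly of the odd symbol (S_SM)
-/

set_option autoImplicit false

open Filter Topology MeasureTheory Set

namespace Pool.Agent.XV.MT

open Pool.Agent.W97.TW
open Pool.Agent.W97.MT (qq tt iI QV Rep affCount ap hecke prim S_INJ S_SUB S_SUP S_ODE S_HINT S_QEXP)

theorem t_SM : S_SM := by
  intro hlat hmin hcm huod _hprim hii hall
  obtain ⟨L, Op, Om, hOp, hOm, g2, g3, hL⟩ := hlat
  obtain ⟨hI, hP⟩ := hall L g2 g3
  have hab : ∀ r : ℚ, ∃ a b : ℤ, (4 : ℂ) * II r = a * Op + b * Om * Complex.I :=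
    fun r => (hL _).1 (hI.four r)
  choose sp sm hs using hab
  -- imaginary parts
  have him : ∀ r : ℚ, 4 * (II r).im = sm r * Om := by
    intro r
    have h := congrArg Complex.im (hs r)
    simpa using h
  have hre : ∀ r : ℚ, 4 * (II r).re = sp r * Op := by
    intro r
    have h := congrArg Complex.re (hs r)
    simpa using h
  have injm : ∀ x y : ℤ, (x : ℝ) * Om = y * Om → x = y := fun x y h => by
    exact_mod_cast mul_right_cancel₀ hOm.ne' h
  have injp : ∀ x y : ℤ, (x : ℝ) * Op = y * Op → x = y := fun x y h => by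
    exact_mod_cast mul_right_cancel₀ hOp.ne' h
  have hneg : ∀ x, sm (-x) = -sm x := by
    intro x
    apply injm
    push_cast
    rw [← him, neg_mul, ← him, hii.conj, Complex.conj_im]
    ring
  have hnegp : ∀ x, sp (-x) = sp x := by
    intro x
    apply injp
    rw [← hre, ← hre, hii.conj, Complex.conj_re]
  have hsm0 : sm 0 = 0 := by
    have := hneg 0
    rw [neg_zero] at this
    omega
  have hper : ∀ x, sm (x + 1) = sm x := by
    intro x
    apply injm
    rw [← him, ← him, hii.per]
  have hperp : ∀ x, sp (x + 1) = sp x := by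
    intro x
    apply injp
    rw [← hre, ← hre, hii.per]
  have hS : SyM sm (fun q => ap E15 q) := by
    refine ⟨hper, hneg, ?_, ?_, ?_⟩
    · intro q hq hq15 x
      apply injm
      push_cast
      have h1 := congrArg Complex.im (hii.hec q hq hq15 x)
      rw [Complex.add_im, Complex.im_sum] at h1
      have h2 : ((ap E15 q : ℂ) * II x).im = (ap E15 q : ℝ) * (II x).im := by
        simp
      rw [h2] at h1
      rw [add_mul, Finset.sum_mul, ← him, mul_assoc, ← him]
      have h3 : ∀ b ∈ Finset.range q, (sm ((x + b) / q) : ℝ) * Om = 4 * (II ((x + b) / q)).im :=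
        fun b _ => (him _).symm
      rw [Finset.sum_congr rfl h3, ← Finset.mul_sum]
      linear_combination 4 * h1
    · intro A B C' D hdet x c hc
      apply injm
      push_cast
      have h1 := congrArg Complex.im (hii.aff A B C' D hdet x c hc)
      rw [Complex.sub_im, Complex.add_im] at h1
      have h0 := him 0
      rw [hsm0] at h0
      have e1 := him (((A * x + B * c : ℤ) : ℚ) / ((15 * C' * x + D * c : ℤ) : ℚ))
      have e2 := him ((x : ℚ) / c)
      have e3 := him ((B : ℚ) / D)
      push_cast at e1 h1 h0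
      rw [← e1, add_mul, ← e2, ← e3, h1]
      linarith
    · have h1 := hmin.1
      simp only [ap, h1]
      norm_num
  refine ⟨fun r => sp r + sm r, sp, sm, Op, Om, hOp, hOm, fun r => rfl, hs, hnegp, hperp, hS, ?_⟩
  intro h14
  obtain ⟨hcoc, hodd, h516⟩ := hcm sm _ hS
  have h516' : sm (((5 : ℤ) : ℚ) / ((16 : ℤ) : ℚ)) = 0 := by
    push_cast
    exact h516
  have h14' : sm (((1 : ℤ) : ℚ) / ((4 : ℤ) : ℚ)) = 0 := by
    push_cast
    exact h14
  have hz := huod (fun x M => sm ((x : ℚ) / M)) hcoc hodd h516' h14'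
  -- the period
  have hmem : ((Om : ℂ) * Complex.I) ∈ L.lattice := (hL _).2 ⟨0, 1, by push_cast; ring⟩
  obtain ⟨a, b, c, d, hdet, hF⟩ := (hP _).1 hmem
  have hv := hii.pval a b c d hdet _ hF
  have hcop : IsCoprime (15 * b) d := ⟨-c, a, by linear_combination hdet⟩
  have hd0 : d ≠ 0 := by
    rintro rfl
    have h1 : b * c * 15 = -1 := by linear_combination -hdet
    omega
  have hsm : sm ((b : ℚ) / d) = 0 := by
    rcases lt_or_gt_of_ne hd0 with h | h
    · have h1 := hz (-b) (-d) (by omega) (by
        rw [mul_neg]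
        exact hcop.neg_neg)
      push_cast at h1
      rwa [neg_div_neg_eq] at h1
    · exact hz b d h hcop
  have h1 := congrArg Complex.im hv
  rw [Complex.sub_im, hii.im0] at h1
  have h2 := him ((b : ℚ) / d)
  rw [hsm] at h2
  simp at h1 h2
  rw [h2] at h1
  linarith

end Pool.Agent.XV.MT
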