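import Pool.Agent.XV.MT.Sk

/-!
Project XV, part T1: symmetries of the integrals (port of `W97/MT/Asm.lean`, `Y687/Sym.lean`,
`Y687/K2/Aff.lean`, `Y687/N/SymM.lean`).
-/

set_option autoImplicit false

open UpperHalfPlane MatrixGroups CongruenceSubgroup Filter Topology MeasureTheory Set

namespace Pool.Agent.XV.MT.SYM

open Pool.Agent.W97.TW
open Pool.Agent.W97.MT (qq tt iI QV Rep affCount ap hecke prim S_HINT norm_qq_lt)

lemma line_im (z : ℂ) (t : ℝ) : (z + t * Complex.I).im = z.im + t := by simp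

lemma inv_I (K s : ℝ) (hs : s ≠ 0) :
    (((K * s)⁻¹ : ℝ) : ℂ) * Complex.I = -1 / (K * (s * Complex.I)) := by
  have hs' : (s : ℂ) ≠ 0 := by exact_mod_cast hs
  by_cases hK : K = 0
  · simp [hK]
  have hK' : (K : ℂ) ≠ 0 := by exact_mod_cast hK
  push_cast
  have hI := Complex.I_ne_zero
  field_simp
  exact Complex.I_sq

/-! ### complex conjugation -/

lemma phi_conj (hE : S_EXP) (q : ℂ) (hq : ‖q‖ < 1) :
    phi (starRingEnd ℂ q) = starRingEnd ℂ (phi q) := by
  obtain ⟨Ξ, U, P, rΞ, rU, rP, tΞ, tU, tP⟩ := hE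
  have h1 := rP (starRingEnd ℂ q) (by simpa using hq)
  have h2 := (rP q hq).map (starRingEnd ℂ) Complex.continuous_conj
  refine h1.unique (h2.congr_fun ?_ |> fun x => x)
  intro n
  simp only [Function.comp_apply, map_mul, map_pow, PowerSeries.coeff_map, eq_intCast]
  congr 1
  exact (map_intCast (starRingEnd ℂ) _).symm

lemma qq_conj (z : ℂ) : qq (-(starRingEnd ℂ z)) = starRingEnd ℂ (qq z) := by
  unfold qq
  rw [← Complex.exp_conj]
  congr 1
  simp only [map_mul, Complex.conj_I, Complex.conj_ofReal]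
  have : (starRingEnd ℂ) (2 : ℂ) = 2 := Complex.conj_ofNat 2
  rw [this]
  ring

lemma ff_conj (hE : S_EXP) {z : ℂ} (hz : 0 < z.im) :
    ff (-(starRingEnd ℂ z)) = starRingEnd ℂ (ff z) := by
  rw [ff_q, ff_q, qq_conj, phi_conj hE _ (norm_qq_lt hz), map_mul]

lemma II_conj (hE : S_EXP) (r : ℚ) : II (-r) = starRingEnd ℂ (II r) := by
  unfold II
  rw [map_mul, ← integral_conj]
  have h2 : (starRingEnd ℂ) (2 * (Real.pi : ℂ)) = 2 * Real.pi := by
    rw [map_mul, Complex.conj_ofReal]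
    congr 1
    exact Complex.conj_ofNat 2
  rw [h2]
  congr 1
  refine setIntegral_congr_fun measurableSet_Ioi fun t ht => ?_
  have ht' : 0 < t := ht
  rw [← ff_conj hE (by rw [line_im]; simpa using ht')]
  congr 1
  simp only [map_add, map_mul, Complex.conj_I, Complex.conj_ofReal]
  have : (starRingEnd ℂ) ((r : ℚ) : ℂ) = r := by
    have e : ((r : ℚ) : ℂ) = (((r : ℚ) : ℝ) : ℂ) := by push_cast; rfl
    rw [e]; exact Complex.conj_ofReal _
  rw [this]
  push_cast
  ring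

lemma II_add_one (r : ℚ) : II (r + 1) = II r := by
  unfold II
  congr 1
  refine setIntegral_congr_fun measurableSet_Ioi fun t ht => ?_
  have e : qq (((r + 1 : ℚ) : ℂ) + t * Complex.I) = qq ((r : ℂ) + t * Complex.I) := by
    unfold qq
    push_cast
    have : 2 * (Real.pi : ℂ) * Complex.I * ((r : ℂ) + 1 + t * Complex.I) =
        2 * Real.pi * Complex.I * ((r : ℂ) + t * Complex.I) + 2 * Real.pi * Complex.I := by ring
    rw [this, Complex.exp_add, Complex.exp_two_pi_mul_I, mul_one]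
  rw [ff_q, ff_q, e]

lemma II_zero_im (hE : S_EXP) : (II 0).im = 0 := by
  have h1 := II_conj hE 0
  rw [neg_zero] at h1
  have h2 := congrArg Complex.im h1
  rw [Complex.conj_im] at h2
  linarith

/-! ### the involution -/

/-- the path to a rational point -/
lemma path15 {a c w y : ℤ} (hc : 0 < c) (h : 15 * a * w - c * y = 1) {s : ℝ} (hs : 0 < s) :
    (((-y : ℤ) : ℂ) * m15 (((-w / c : ℝ) : ℂ) + s * Complex.I) + (a : ℤ)) /
      (15 * ((-w : ℤ) : ℂ) * m15 (((-w / c : ℝ) : ℂ) + s * Complex.I) + (c : ℤ)) =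
      (a : ℂ) / c + ((15 * (c : ℝ) ^ 2 * s)⁻¹ : ℝ) * Complex.I := by
  have hs' : (s : ℂ) ≠ 0 := by exact_mod_cast hs.ne'
  have hc' : (c : ℂ) ≠ 0 := by exact_mod_cast hc.ne'
  have h' : (15 : ℂ) * a * w - c * y = 1 := by exact_mod_cast h
  rw [inv_I _ _ hs.ne']
  have hz : 0 < (-(w : ℂ) / c + s * Complex.I).im := by
    have : -(w : ℂ) / c = ((-w / c : ℝ) : ℂ) := by push_cast; ring
    rw [this]; simpa using hs
  have hz0 : (-(w : ℂ) / c + s * Complex.I) ≠ 0 := fun h0 => by rw [h0] at hz; simp at hz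
  have hu : (s : ℂ) * Complex.I ≠ 0 := mul_ne_zero hs' Complex.I_ne_zero
  unfold m15
  push_cast
  set u : ℂ := (s : ℂ) * Complex.I with hu'
  have hz1 : -(w : ℂ) + c * u ≠ 0 := by
    intro h0
    apply hz0
    field_simp
    linear_combination h0
  have e1 : (15 : ℂ) * -w * (-1 / (15 * (-(w : ℂ) / c + u))) + c = c * c * u / (-(w : ℂ) + c * u) := by
    field_simp
    ring
  have e2 : -(y : ℂ) * (-1 / (15 * (-(w : ℂ) / c + u))) + a = (c * y + 15 * a * (-w + c * u)) /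
      (15 * (-(w : ℂ) + c * u)) := by
    field_simp
  rw [e1, e2]
  field_simp
  linear_combination -h'

lemma iI_real (f : ℝ → ℝ) (x : ℝ) {l : Filter ℝ} (h : Tendsto f l atTop) :
    Tendsto (fun t : ℝ => (x : ℂ) + ((f t : ℝ) : ℂ) * Complex.I) l iI := by
  unfold Pool.Agent.W97.MT.iI
  rw [tendsto_comap_iff]
  have e : Complex.im ∘ (fun t : ℝ => (x : ℂ) + ((f t : ℝ) : ℂ) * Complex.I) = f := by
    ext t; simp
  rw [e]
  exact h

/-- the limit at the end of the geodesic -/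
theorem F_lim (hP : PrimOK) {ε C : ℂ} (hm : ∀ z : ℂ, 0 < z.im → 0 < (m15 z).im)
    (hF : ∀ z : ℂ, 0 < z.im → F (m15 z) = ε * F z + C)
    {a c w y : ℤ} (hc : 0 < c) (h : 15 * a * w - c * y = 1) {p : ℂ}
    (hp : ∀ z : ℂ, 0 < z.im → F ((((-y : ℤ) : ℂ) * z + (a : ℤ)) /
      (15 * ((-w : ℤ) : ℂ) * z + (c : ℤ))) = F z + p) :
    Tendsto (fun t : ℝ => F (((a : ℂ) / c) + t * Complex.I)) (𝓝[>] 0) (𝓝 (C + p)) := by
  have hcR : (0 : ℝ) < c := by exact_mod_cast hc
  have key : ∀ s : ℝ, 0 < s → F ((a : ℂ) / c + ((15 * (c : ℝ) ^ 2 * s)⁻¹ : ℝ) * Complex.I)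
      = ε * F (((-w / c : ℝ) : ℂ) + s * Complex.I) + (C + p) := by
    intro s hs
    have him : 0 < (((-w / c : ℝ) : ℂ) + s * Complex.I).im := by simpa using hs
    have h1 := hp _ (hm _ him)
    rw [path15 hc h hs, hF _ him] at h1
    rw [h1]; ring
  have t1 : Tendsto (fun t : ℝ => (15 * (c : ℝ) ^ 2 * t)⁻¹) (𝓝[>] 0) atTop := by
    have e : (fun t : ℝ => (15 * (c : ℝ) ^ 2 * t)⁻¹) = fun t : ℝ => (15 * (c : ℝ) ^ 2)⁻¹ * t⁻¹ := by
      ext t; rw [mul_inv]
    rw [e]
    exact tendsto_inv_nhdsGT_zero.const_mul_atTop (by positivity)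
  have t2 := (((hP.qv.tendsto.comp (iI_real _ (-w / c) t1)).const_mul ε).add_const (C + p))
  rw [mul_zero, zero_add] at t2
  refine t2.congr' ?_
  filter_upwards [self_mem_nhdsWithin] with t ht
  have ht0 : (0 : ℝ) < t := ht
  have hs0 : 0 < (15 * (c : ℝ) ^ 2 * t)⁻¹ := by positivity
  have h2 := key _ hs0
  have h3 : (15 * (c : ℝ) ^ 2 * (15 * (c : ℝ) ^ 2 * t)⁻¹)⁻¹ = t := by field_simp
  rw [h3] at h2
  rw [h2]
  rfl

/-- the value of the symbol at `B / D` and the additive constant of the matrix -/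
theorem II_val (hP : PrimOK) (hint : ∀ r : ℚ, IntegrableOn
      (fun t : ℝ => ff ((r : ℂ) + t * Complex.I)) (Ioi 0))
    {ε C : ℂ} (hm : ∀ z : ℂ, 0 < z.im → 0 < (m15 z).im)
    (hF : ∀ z : ℂ, 0 < z.im → F (m15 z) = ε * F z + C)
    {A B C' D : ℤ} (hdet : A * D - B * (15 * C') = 1) (hD : 0 < D) {p : ℂ}
    (hp : ∀ z : ℂ, 0 < z.im → F ((A * z + B) / (15 * C' * z + D)) = F z + p) :
    II ((B : ℚ) / D) = C + p := by
  have hl := F_lim hP hm hF (a := B) (c := D) (w := -C') (y := -A) hD (by linarith) (p := p)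
    (by
      intro z hz
      rw [neg_neg, neg_neg]
      exact hp z hz)
  have e : (((B : ℚ) / D : ℚ) : ℂ) = (B : ℂ) / D := by push_cast; rfl
  have e' : ((B : ℂ) / D) = (((B : ℝ) / D : ℝ) : ℂ) := by push_cast; rfl
  unfold II
  rw [e]
  exact hP.line _ (by rw [e']; simp) _ (by rw [← e]; exact hint _) hl

theorem II_val' (hP : PrimOK) (hint : ∀ r : ℚ, IntegrableOn
      (fun t : ℝ => ff ((r : ℂ) + t * Complex.I)) (Ioi 0))
    {ε C : ℂ} (hm : ∀ z : ℂ, 0 < z.im → 0 < (m15 z).im)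
    (hF : ∀ z : ℂ, 0 < z.im → F (m15 z) = ε * F z + C)
    {A B C' D : ℤ} (hdet : A * D - B * (15 * C') = 1) {p : ℂ}
    (hp : ∀ z : ℂ, 0 < z.im → F ((A * z + B) / (15 * C' * z + D)) = F z + p) :
    II ((B : ℚ) / D) = C + p := by
  have hD : D ≠ 0 := by
    rintro rfl
    have : (15 : ℤ) ∣ 1 := ⟨-(B * C'), by linarith⟩
    norm_num at this
  rcases lt_or_gt_of_ne hD with h | h
  · have h1 := II_val hP hint hm hF (A := -A) (B := -B) (C' := -C') (D := -D) (by linarith)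
      (by linarith) (p := p) (fun z hz => by
        rw [← hp z hz]
        congr 1
        push_cast
        rw [← neg_div_neg_eq]
        congr 1 <;> ring)
    rw [← h1]
    congr 1
    push_cast
    rw [neg_div_neg_eq]
  · exact II_val hP hint hm hF hdet h hp

/-- the value at zero -/
theorem II_zero (hP : PrimOK) (hint : ∀ r : ℚ, IntegrableOn
      (fun t : ℝ => ff ((r : ℂ) + t * Complex.I)) (Ioi 0))
    {ε C : ℂ} (hm : ∀ z : ℂ, 0 < z.im → 0 < (m15 z).im)
    (hF : ∀ z : ℂ, 0 < z.im → F (m15 z) = ε * F z + C) : II 0 = C := by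
  have v0 := II_val' hP hint hm hF (A := 1) (B := 0) (C' := 0) (D := 1) (by norm_num) (p := 0)
    (fun z _ => by
      push_cast
      simp)
  have e0 : ((0 : ℤ) : ℚ) / ((1 : ℤ) : ℚ) = 0 := by norm_num
  rw [e0] at v0
  rw [v0, add_zero]

/-- the symbol under the group -/
theorem II_aff (hP : PrimOK) (hint : ∀ r : ℚ, IntegrableOn
      (fun t : ℝ => ff ((r : ℂ) + t * Complex.I)) (Ioi 0))
    {ε C : ℂ} (hm : ∀ z : ℂ, 0 < z.im → 0 < (m15 z).im)
    (hF : ∀ z : ℂ, 0 < z.im → F (m15 z) = ε * F z + C)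
    {A B C' D : ℤ} (hdet : A * D - B * (15 * C') = 1) {a c : ℤ}
    (hc : IsCoprime (15 * a) c) :
    II (((A * a + B * c : ℤ) : ℚ) / ((15 * C' * a + D * c : ℤ) : ℚ)) =
      II ((a : ℚ) / c) + II ((B : ℚ) / D) - II 0 := by
  obtain ⟨u, v, huv⟩ := hc
  obtain ⟨p1, hp1⟩ := hP.gam _ _ _ _ hdet
  have d2 : v * c - a * (15 * (-u)) = 1 := by linarith
  obtain ⟨p2, hp2⟩ := hP.gam _ _ _ _ d2
  have d3 : (A * v + B * (15 * (-u))) * (15 * C' * a + D * c) -
      (A * a + B * c) * (15 * (C' * v + D * (-u))) = 1 := by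
    linear_combination (v * c - a * (15 * (-u))) * hdet + d2
  obtain ⟨p3, hp3⟩ := hP.gam _ _ _ _ d3
  have e3 : p3 = p1 + p2 := by
    have hz : 0 < (Complex.I).im := by norm_num
    obtain ⟨i2, n2⟩ := im_moebius (a := v) (b := a) (c := 15 * (-u)) (d := c) d2 hz
    obtain ⟨i1, n1⟩ := im_moebius (a := A) (b := B) (c := 15 * C') (d := D) hdet i2
    have q3 := hp3 Complex.I hz
    have q1 := hp1 _ i2
    have q2 := hp2 Complex.I hz
    push_cast at q1 q2 q3 n2 n1
    rw [q2] at q1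
    have e : (((A : ℂ) * v + B * (15 * -u)) * Complex.I + (A * a + B * c)) /
        (15 * ((C' : ℂ) * v + D * -u) * Complex.I + (15 * C' * a + D * c)) =
        (A * ((v * Complex.I + a) / (15 * -u * Complex.I + c)) + B) /
          (15 * C' * ((v * Complex.I + a) / (15 * -u * Complex.I + c)) + D) := by
      have f1 : (((A : ℂ) * v + B * (15 * -u)) * Complex.I + (A * a + B * c)) =
          A * (v * Complex.I + a) + B * (15 * -u * Complex.I + c) := by ring
      have f2 : (15 * ((C' : ℂ) * v + D * -u) * Complex.I + (15 * C' * a + D * c)) =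
          15 * C' * (v * Complex.I + a) + D * (15 * -u * Complex.I + c) := by ring
      rw [f1, f2]
      generalize (v : ℂ) * Complex.I + a = X at *
      generalize (15 : ℂ) * -u * Complex.I + c = W at *
      have f3 : 15 * (C' : ℂ) * X + D * W = (15 * C' * (X / W) + D) * W := by
        field_simp
      have f4 : (A : ℂ) * X + B * W = (A * (X / W) + B) * W := by
        field_simp
      rw [f3, f4, mul_div_mul_right _ _ n2]
    rw [e, q1] at q3
    linear_combination -q3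
  have v1 := II_val' hP hint hm hF hdet hp1
  have v2 := II_val' hP hint hm hF d2 hp2
  have v3 := II_val' hP hint hm hF d3 hp3
  rw [v1, v2, v3, II_zero hP hint hm hF, e3]
  ring

/-- the primitive tends to the integral at a cusp prime to `15` -/
theorem F_tendsto (hP : PrimOK) (hint : ∀ r : ℚ, IntegrableOn
      (fun t : ℝ => ff ((r : ℂ) + t * Complex.I)) (Ioi 0))
    {ε C : ℂ} (hm : ∀ z : ℂ, 0 < z.im → 0 < (m15 z).im)
    (hF : ∀ z : ℂ, 0 < z.im → F (m15 z) = ε * F z + C)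
    {a : ℤ} {c : ℕ} (hc : 0 < c) (h15 : IsCoprime (15 * a) (c : ℤ)) :
    Tendsto (fun t : ℝ => F ((a : ℂ) / c + t * Complex.I)) (𝓝[>] 0) (𝓝 (II ((a : ℚ) / c))) := by
  obtain ⟨u, v, huv⟩ := h15
  have hdet : v * (c : ℤ) - a * (15 * (-u)) = 1 := by linarith
  obtain ⟨p, hp⟩ := hP.gam _ _ _ _ hdet
  have hc' : 0 < (c : ℤ) := by exact_mod_cast hc
  have hl := F_lim hP hm hF (a := a) (c := (c : ℤ)) (w := u) (y := -v) hc' (by linarith) (p := p)
    (by
      intro z hz
      rw [neg_neg]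
      exact hp z hz)
  have h2 := II_val hP hint hm hF hdet hc' hp
  rw [Int.cast_natCast] at h2
  rw [h2]
  refine hl.congr fun t => ?_
  rw [Int.cast_natCast]

/-! ### the Hecke operators -/

lemma form_of {f : CuspForm (Gamma0 15 : Subgroup (GL (Fin 2) ℝ)) 2}
    (hf : ∀ z : ℍ, f z = ff z) {w : ℂ} (hw : 0 < w.im) : f (ofComplex w) = ff w := by
  rw [ofComplex_apply_of_im_pos hw]
  exact hf _

lemma line_eq {f : CuspForm (Gamma0 15 : Subgroup (GL (Fin 2) ℝ)) 2}
    (hf : ∀ z : ℍ, f z = ff z) (z : ℂ) (hz : 0 ≤ z.im) : Set.EqOn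
    (fun t : ℝ => f (ofComplex (z + t * Complex.I))) (fun t : ℝ => ff (z + t * Complex.I))
    (Set.Ioi 0) := by
  intro t ht
  have ht' : 0 < t := ht
  exact form_of hf (by rw [line_im]; linarith)

lemma prim_eq {f : CuspForm (Gamma0 15 : Subgroup (GL (Fin 2) ℝ)) 2}
    (hf : ∀ z : ℍ, f z = ff z) (z : ℂ) (hz : 0 ≤ z.im) :
    prim f z = 2 * Real.pi * ∫ t in Set.Ioi (0 : ℝ), ff (z + t * Complex.I) := by
  unfold Pool.Agent.W97.MT.prim
  rw [setIntegral_congr_fun measurableSet_Ioi (line_eq hf z hz)]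

lemma prim_rat {f : CuspForm (Gamma0 15 : Subgroup (GL (Fin 2) ℝ)) 2}
    (hf : ∀ z : ℍ, f z = ff z) (r : ℚ) : prim f (r : ℂ) = II r := prim_eq hf _ (by simp)

/-- the action of the Hecke operators on the integrals -/
theorem II_hecke (hH : S_HINT) (hint : ∀ r : ℚ, IntegrableOn
      (fun t : ℝ => ff ((r : ℂ) + t * Complex.I)) (Ioi 0))
    {f : CuspForm (Gamma0 15 : Subgroup (GL (Fin 2) ℝ)) 2} (hf : FormOK f)
    (q : ℕ) (hq : q.Prime) (hq15 : ¬ q ∣ 15) (x : ℚ) :
    (ap E15 q : ℂ) * II x = II (q * x) + ∑ b ∈ Finset.range q, II ((x + b) / q) := by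
  have h1 := hH 15 q f (ap E15 q : ℂ) hq
    (fun r => (hint r).congr_fun (line_eq hf.val _ (by simp)).symm measurableSet_Ioi)
    (hf.hec q hq) x
  rw [if_neg hq15, prim_rat hf.val, prim_rat hf.val] at h1
  simp_rw [prim_rat hf.val] at h1
  linear_combination h1

end Pool.Agent.XV.MT.SYM

namespace Pool.Agent.XV.MT

open SYM

/-- SYM: symmetries of the integrals -/
theorem t_SYM : S_SYM := by
  intro hE hH hI hP ⟨L, hL⟩ ⟨f, hf⟩
  obtain ⟨ε, C, hε, -, hF⟩ := hP.const m15 j15 hI.c15.map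
  have hm : ∀ z : ℂ, 0 < z.im → 0 < (m15 z).im := hI.c15.pos
  exact
    { conj := II_conj hE
      per := II_add_one
      im0 := II_zero_im hE
      aff := fun A B C' D hdet x c hc => II_aff hP hL.int hm hF hdet hc
      lim := fun a c hc h => F_tendsto hP hL.int hm hF hc h
      pval := fun A B C' D hdet p hp => by
        rw [II_val' hP hL.int hm hF hdet hp, II_zero hP hL.int hm hF]
        ring
      hec := II_hecke hH hL.int hf }

end Pool.Agent.XV.MT
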