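import Pool.Agent.XV.MT.Sk
import Pool.Agent.W349.MT.TORS

/-! XV-T1-TORS: the cusps are torsion points of order dividing four (helper68). -/

set_option autoImplicit false

namespace Pool.Agent.XV.MT.TORS

open Pool.Agent.W97.MT Pool.Agent.Helper487.ECM Pool.Agent.W349.MT

/-- a zero of the derivative is a half period -/
theorem half_of (L : PeriodPair) (w : ℂ) (h : L.derivWeierstrassP w ^ 2 = 0) :
    2 * w ∈ L.lattice := by
  by_contra h2
  exact Wg.wpd_ne L w h2 (pow_eq_zero_iff (two_ne_zero) |>.1 h)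

/-- the general step: a point with double equal to the root `41/12` -/
theorem four_of (L : PeriodPair) (hg2 : L.g₂ = 481 / 12) (hg3 : L.g₃ = 4879 / 216) (u : ℂ)
    (hu : u ∉ L.lattice) (c : ℂ) (hP : L.weierstrassP u = c)
    (hc : 4 * c ^ 3 - 481 / 12 * c - 4879 / 216 ≠ 0)
    (hd : (6 * c ^ 2 - 481 / 24) ^ 2 / (4 * (4 * c ^ 3 - 481 / 12 * c - 4879 / 216)) - 2 * c =
      41 / 12) :
    2 * u ∉ L.lattice ∧ 4 * u ∈ L.lattice := by
  have hu' : u ∈ Dom L := hu
  have hY1 : L.derivWeierstrassP u ^ 2 = 4 * c ^ 3 - 481 / 12 * c - 4879 / 216 := by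
    rw [L.derivWeierstrassP_sq u hu, hP, hg2, hg3]
  have hY1ne : L.derivWeierstrassP u ≠ 0 := by
    intro h
    rw [h] at hY1
    apply hc
    rw [← hY1]
    ring
  have h2u : 2 * u ∉ L.lattice := fun h => hY1ne (dwp_zero L u h)
  have h2u' : u + u ∈ Dom L := by
    show u + u ∉ L.lattice
    rw [← two_mul]; exact h2u
  have hP2 : L.weierstrassP (2 * u) = 41 / 12 := by
    have h := wp_dup L hu' h2u' (by rw [wp_one_eq]; exact hY1ne)
    rw [wp_two L hu', wp_one_eq, wp_zero_eq, hP, hg2, ← two_mul] at h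
    rw [h, div_pow, mul_pow, hY1, ← hd]
    have h4 : (4 : ℂ) * (4 * c ^ 3 - 481 / 12 * c - 4879 / 216) ≠ 0 :=
      mul_ne_zero (by norm_num) hc
    have h2 : (2 : ℂ) ^ 2 = 4 := by norm_num
    rw [h2]
    ring
  refine ⟨h2u, ?_⟩
  have h := half_of L (2 * u) (by
    rw [L.derivWeierstrassP_sq _ h2u, hP2, hg2, hg3]
    norm_num)
  rwa [show 2 * (2 * u) = 4 * u by ring] at h

end Pool.Agent.XV.MT.TORS

namespace Pool.Agent.XV.MT

open Pool.Agent.XV.MT.TORS in
theorem t_TORS : S_TORS := by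
  intro L hg2 hg3 u hu
  refine ⟨fun hP => ?_, fun hP => ?_, fun hP => ?_⟩
  · exact four_of L hg2 hg3 u hu _ hP (by norm_num) (by norm_num)
  · apply half_of
    rw [L.derivWeierstrassP_sq u hu, hP, hg2, hg3]
    norm_num
  · exact (four_of L hg2 hg3 u hu _ hP (by norm_num) (by norm_num)).2

end Pool.Agent.XV.MT
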