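import Pool.Agent.XV.MT.Sk
import Pool.Agent.XV.Uod

/-!
Project XV, part T1: an odd cocycle of level 15 which vanishes at `5/16` and at `1/4` vanishes.
-/

set_option autoImplicit false

namespace Pool.Agent.XV.MT

open Pool.Agent.XV.Uod

/-- **UOD0** -/
theorem t_UOD0 : S_UOD0 := by
  intro f hf hodd h5 h4 x M hM hc
  have hq : CocR (fun x M => (f x M : ℚ)) :=
    ⟨fun x M _ => by exact_mod_cast hf.neg2 x M, fun x M _ => by exact_mod_cast hf.per x M,
      fun a b c d h1 h2 x M h3 _ _ => by exact_mod_cast hf.aff a b c d h1 h2 x M h3⟩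
  have hp : ∀ x M : ℤ, M ≠ 0 → (fun x M => (f x M : ℚ)) (-x) M = - (fun x M => (f x M : ℚ)) x M :=
    fun x M _ => by
      have := hodd x M
      simp [this]
  have H := comb hq hq hp hp 0 1
  have h14 : (fun x M => (fun x M => (f x M : ℚ)) x M * 1 - (fun x M => (f x M : ℚ)) x M * 0)
      (1 : ℤ) (4 : ℤ) = 0 := by
    simp [h4]
  have h516 : (fun x M => (fun x M => (f x M : ℚ)) x M * 1 - (fun x M => (f x M : ℚ)) x M * 0)
      (5 : ℤ) (16 : ℤ) = 0 := by
    simp [h5]
  have h := H.van h14 (H.eleven h14 h516) _ x M rfl hM.ne' hc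
  simpa using h

end Pool.Agent.XV.MT
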