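import Pool.Agent.XV.MT.G49

/-!
XV-T1-WP (helper49): `℘(F) = x + 5/12` (port of the first half of `W97/MT/Lat.lean`).
-/

set_option autoImplicit false

open Filter Topology Set

namespace Pool.Agent.XV.MT.WP

open Pool.Agent.W97.TW
open Pool.Agent.W97.MT (qq tt qq_ne norm_qq norm_qq_lt im_mul iI QV iI_pos iI_eventually tendsto_qq
  S_ODE Q_ne Q_ne_pow)
open Pool.Agent.XV.MT.G49

lemma exists_qq {q : ℂ} (hq : ‖q‖ < 1) (h0 : q ≠ 0) : ∃ z : ℂ, 0 < z.im ∧ qq z = q := by
  refine ⟨Function.Periodic.invQParam 1 q,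
    Function.Periodic.im_invQParam_pos_of_norm_lt_one one_pos hq h0, ?_⟩
  refine Eq.trans ?_ (Function.Periodic.qParam_right_inv one_ne_zero h0 :
    Function.Periodic.qParam 1 (Function.Periodic.invQParam 1 q) = q)
  unfold qq Function.Periodic.qParam
  simp

lemma Qd_diff (d : ℕ) (hd : d ≠ 0) : DifferentiableOn ℂ (fun q => Q (q ^ d)) (Metric.ball 0 1) := by
  refine Q_diff.comp (by fun_prop) ?_
  intro q hq
  rw [Metric.mem_ball, dist_zero_right] at hq ⊢
  rw [norm_pow]
  exact pow_lt_one₀ (norm_nonneg _) hq hd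

lemma xi_zero : xi 0 = 1 := by
  unfold xi
  simp [Q_zero]

lemma phi_zero : phi 0 = 1 := by
  unfold phi
  simp [Q_zero]

lemma Phi_diff : DifferentiableOn ℂ Phi (Metric.ball 0 1) := fun q hq =>
  (Phi_deriv (by simpa using hq)).differentiableAt.differentiableWithinAt

lemma Phi_analytic : AnalyticAt ℂ Phi 0 := Phi_diff.analyticAt (Metric.ball_mem_nhds _ one_pos)

lemma xi_diffAt {q : ℂ} (hq : ‖q‖ < 1) : DifferentiableAt ℂ xi q := by
  have hb : q ∈ Metric.ball (0 : ℂ) 1 := by simpa using hq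
  have hm := Metric.isOpen_ball.mem_nhds hb
  have e1 := Q_diff.differentiableAt hm
  have e3 := (Qd_diff 3 (by norm_num)).differentiableAt hm
  have e5 := (Qd_diff 5 (by norm_num)).differentiableAt hm
  have e15 := (Qd_diff 15 (by norm_num)).differentiableAt hm
  exact (((e1.inv (Q_ne hq)).mul e3).mul (e5.pow 5)).mul
    ((e15.pow 5).inv (pow_ne_zero _ (Q_ne_pow hq (by norm_num))))

lemma xi_analytic : AnalyticAt ℂ xi 0 := by
  have : DifferentiableOn ℂ xi (Metric.ball 0 1) := fun q hq =>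
    (xi_diffAt (by simpa using hq)).differentiableWithinAt
  exact this.analyticAt (Metric.ball_mem_nhds _ one_pos)

/-- the differential equation in `q` -/
lemma q_deriv (hid : IdOK) {z : ℂ} (hz : 0 < z.im) :
    qq z * deriv (fun t => xi t / t ^ 2) (qq z) = qq z * phi (qq z) * RR z := by
  have hq0 := qq_ne z
  have hd : DifferentiableAt ℂ (fun t => xi t / t ^ 2) (qq z) :=
    (xi_diffAt (norm_qq_lt hz)).div (by fun_prop) (pow_ne_zero 2 hq0)
  have h1 := hd.hasDerivAt.comp z (hasDerivAt_qq z)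
  have h2 : X1 =ᶠ[𝓝 z] (fun t => xi t / t ^ 2) ∘ qq := by
    filter_upwards [H_open.mem_nhds hz] with w hw
    exact X1_q hw
  have h3 := (h1.congr_of_eventuallyEq h2).deriv
  rw [hid.dx1 z hz, ff_q] at h3
  have h4 : (2 * Real.pi * Complex.I) * (qq z * phi (qq z) * RR z) =
    (2 * Real.pi * Complex.I) * (qq z * deriv (fun t => xi t / t ^ 2) (qq z)) := by
    linear_combination h3
  exact (mul_left_cancel₀ tpi_ne h4).symm

lemma near_inf (hid : IdOK) (hode : S_ODE) (L : PeriodPair) (g2 : L.g₂ = 481 / 12)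
    (g3 : L.g₃ = 4879 / 216) : ∀ᶠ z in iI, F z ∉ L.lattice ∧ L.weierstrassP (F z) = X1 z + (-7 / 12) := by
  have hα : AnalyticAt ℂ (fun q => xi q + (-7 / 12) * q ^ 2) 0 := by
    have := xi_analytic
    fun_prop
  have h := hode L Phi (fun q => xi q + (-7 / 12) * q ^ 2) Phi_analytic hα Phi_zero
    (by rw [(Phi_deriv (by simp : ‖(0 : ℂ)‖ < 1)).deriv, phi_zero]) (by simp [xi_zero]) ?_
  · rw [eventually_nhdsWithin_iff] at h
    have h1 := tendsto_qq.eventually h
    filter_upwards [h1, iI_pos] with z hz hp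
    obtain ⟨h2, h3⟩ := hz (qq_ne z)
    refine ⟨h2, h3.trans ?_⟩
    rw [X1_q hp]
    have := qq_ne z
    field_simp
  · rw [eventually_nhdsWithin_iff]
    filter_upwards [Metric.ball_mem_nhds (0 : ℂ) one_pos] with q hq1 hq0
    have hq1' : ‖q‖ < 1 := by simpa using hq1
    have hq0' : q ≠ 0 := hq0
    obtain ⟨z, hz, rfl⟩ := exists_qq hq1' hq0'
    have e : (fun t => (xi t + (-7 / 12) * t ^ 2) / t ^ 2) =ᶠ[𝓝 (qq z)]
        (fun t => xi t / t ^ 2 + (-7 / 12)) := by
      filter_upwards [isOpen_compl_singleton.mem_nhds hq0'] with t ht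
      have ht' : t ≠ 0 := ht
      field_simp
    rw [e.deriv_eq, deriv_add_const, q_deriv hid hz, (Phi_deriv hq1').deriv]
    have h1 := hid.rrsq z hz
    have h2 : (xi (qq z) + (-7 / 12) * qq z ^ 2) / qq z ^ 2 = X1 z + (-7 / 12) := by
      rw [X1_q hz]; field_simp
    rw [h2, g2, g3]
    linear_combination (qq z * phi (qq z)) ^ 2 * h1

/-- regularised `℘` near a lattice point -/
noncomputable def wA (L : PeriodPair) (l u : ℂ) : ℂ :=
  (u - l) ^ 2 * L.weierstrassPExcept l u + 1 - (u - l) ^ 2 / l ^ 2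

lemma wA_same (L : PeriodPair) (l : ℂ) : wA L l l = 1 := by unfold wA; simp

lemma wA_eq (L : PeriodPair) {l u : ℂ} (hl : l ∈ L.lattice) (hu : u ≠ l) :
    wA L l u = (u - l) ^ 2 * L.weierstrassP u := by
  have := L.ite_eq_one_sub_sq_mul_weierstrassP l hl u
  rw [if_neg hu] at this
  exact this.symm

lemma wA_analytic (L : PeriodPair) (l : ℂ) {u : ℂ} (hu : u ∈ ((L.lattice : Set ℂ) \ {l})ᶜ) :
    AnalyticAt ℂ (wA L l) u := by
  have h1 : AnalyticAt ℂ (L.weierstrassPExcept l) u := L.analyticOnNhd_weierstrassPExcept l u hu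
  unfold wA
  have h2 : AnalyticAt ℂ (fun u : ℂ => (u - l) ^ 2 / l ^ 2) u := by
    simp only [div_eq_mul_inv]
    fun_prop
  fun_prop

lemma F_cont (hP : PrimOK) : ContinuousOn F {z : ℂ | 0 < z.im} := fun _ hz =>
  (hP.der _ hz).differentiableAt.continuousAt.continuousWithinAt

lemma F_analytic (hP : PrimOK) {z : ℂ} (hz : 0 < z.im) : AnalyticAt ℂ F z :=
  (show DifferentiableOn ℂ F {z : ℂ | 0 < z.im} from
    fun w hw => (hP.der _ hw).differentiableAt.differentiableWithinAt).analyticAt (H_open.mem_nhds hz)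

lemma X1_analytic {z : ℂ} (hz : 0 < z.im) : AnalyticAt ℂ X1 z :=
  (show DifferentiableOn ℂ X1 {z : ℂ | 0 < z.im} from
    fun w hw => (X1_diff hw).differentiableWithinAt).analyticAt (H_open.mem_nhds hz)

/-- the parametrisation -/
theorem wp_F (hid : IdOK) (hP : PrimOK) (hode : S_ODE) (L : PeriodPair) (g2 : L.g₂ = 481 / 12)
    (g3 : L.g₃ = 4879 / 216) : ∀ z : ℂ, 0 < z.im →
    F z ∉ L.lattice ∧ L.weierstrassP (F z) = X1 z + (-7 / 12) := by
  set V : Set ℂ := {z : ℂ | 0 < z.im} ∩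
    {z : ℂ | ∀ᶠ w in 𝓝 z, F w ∉ L.lattice ∧ L.weierstrassP (F w) = X1 w + (-7 / 12)} with hV
  have hVo : IsOpen V := H_open.inter isOpen_setOfPred_eventually_nhds
  have hne : ({z : ℂ | 0 < z.im} ∩ V).Nonempty := by
    obtain ⟨T, hT, h1⟩ := iI_eventually.1 (near_inf hid hode L g2 g3)
    have him : 0 < (((T + 1 : ℝ) : ℂ) * Complex.I).im := by simp; linarith
    refine ⟨((T + 1 : ℝ) : ℂ) * Complex.I, him, him, ?_⟩
    have : {w : ℂ | T < w.im} ∈ 𝓝 (((T + 1 : ℝ) : ℂ) * Complex.I) :=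
      (isOpen_lt continuous_const Complex.continuous_im).mem_nhds (by simp)
    filter_upwards [this] with w hw
    exact h1 w hw
  have hcl : closure V ∩ {z : ℂ | 0 < z.im} ⊆ V := by
    rintro z0 ⟨hz0, him⟩
    have him' : 0 < z0.im := him
    refine ⟨him, ?_⟩
    by_cases hl : F z0 ∈ L.lattice
    · exfalso
      set O : Set ℂ := {z : ℂ | 0 < z.im} ∩ F ⁻¹' (((L.lattice : Set ℂ) \ {F z0})ᶜ) with hO
      have hOo : IsOpen O := (F_cont hP).isOpen_inter_preimage H_open L.isOpen_compl_lattice_sdiff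
      have hz0O : z0 ∈ O := ⟨him, by simp⟩
      obtain ⟨ε, hε, hball⟩ := Metric.isOpen_iff.1 hOo z0 hz0O
      obtain ⟨v, hvB, hvV⟩ := mem_closure_iff.1 hz0 _ Metric.isOpen_ball (Metric.mem_ball_self hε)
      have hA : AnalyticOnNhd ℂ (fun w => wA L (F z0) (F w)) (Metric.ball z0 ε) := fun w hw =>
        (wA_analytic L (F z0) (hball hw).2).fun_comp (F_analytic hP (hball hw).1)
      have hB : AnalyticOnNhd ℂ (fun w => (F w - F z0) ^ 2 * (X1 w + (-7 / 12))) (Metric.ball z0 ε) :=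
        fun w hw => by
          have h1 := F_analytic hP (hball hw).1
          have h2 := X1_analytic (hball hw).1
          fun_prop
      have heq : (fun w => wA L (F z0) (F w)) =ᶠ[𝓝 v] fun w => (F w - F z0) ^ 2 * (X1 w + (-7 / 12)) := by
        filter_upwards [hvV.2] with w hw
        rw [wA_eq L hl (fun h => hw.1 (by rw [h]; exact hl)), hw.2]
      have h3 := hA.eqOn_of_preconnected_of_eventuallyEq hB
        (convex_ball z0 ε).isPreconnected hvB heq (Metric.mem_ball_self hε)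
      simp only [wA_same, sub_self] at h3
      norm_num at h3
    · set O : Set ℂ := {z : ℂ | 0 < z.im} ∩ F ⁻¹' ((L.lattice : Set ℂ)ᶜ) with hO
      have hOo : IsOpen O := (F_cont hP).isOpen_inter_preimage H_open L.isClosed_lattice.isOpen_compl
      have hz0O : z0 ∈ O := ⟨him, hl⟩
      obtain ⟨ε, hε, hball⟩ := Metric.isOpen_iff.1 hOo z0 hz0O
      obtain ⟨v, hvB, hvV⟩ := mem_closure_iff.1 hz0 _ Metric.isOpen_ball (Metric.mem_ball_self hε)
      have hA : AnalyticOnNhd ℂ (fun w => L.weierstrassP (F w)) (Metric.ball z0 ε) := fun w hw =>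
        (L.analyticOnNhd_weierstrassP (F w) (hball hw).2).fun_comp (F_analytic hP (hball hw).1)
      have hB : AnalyticOnNhd ℂ (fun w => X1 w + (-7 / 12)) (Metric.ball z0 ε) :=
        fun w hw => by
          have h2 := X1_analytic (hball hw).1
          fun_prop
      have heq : (fun w => L.weierstrassP (F w)) =ᶠ[𝓝 v] fun w => X1 w + (-7 / 12) := by
        filter_upwards [hvV.2] with w hw
        exact hw.2
      have h3 := hA.eqOn_of_preconnected_of_eventuallyEq hB
        (convex_ball z0 ε).isPreconnected hvB heq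
      filter_upwards [Metric.ball_mem_nhds z0 hε] with w hw
      exact ⟨(hball hw).2, h3 hw⟩
  have hsub := (convex_halfSpace_im_gt 0).isPreconnected.subset_of_closure_inter_subset hVo hne hcl
  intro z hz
  exact (hsub hz).2.self_of_nhds

end Pool.Agent.XV.MT.WP

namespace Pool.Agent.XV.MT

open WP in
theorem t_WP : S_WP := by
  intro _ hid hP hode L g2 g3 z hz
  obtain ⟨h1, h2⟩ := wp_F hid hP hode L g2 g3 z hz
  refine ⟨h1, h2.trans (by ring)⟩

end Pool.Agent.XV.MT
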