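import Pool.Agent.XV.MT.Asm
import Pool.Agent.XV.MT.UOD0
import Pool.Agent.XV.MT.CP
import Pool.Agent.XV.MT.TORS
import Pool.Agent.XV.MT.LAT
import Pool.Agent.XV.MT.HASSE
import Pool.Agent.XV.MT.FOUR
import Pool.Agent.XV.MT.MIN
import Pool.Agent.XV.MT.EXP
import Pool.Agent.XV.MT.CU15
import Pool.Agent.XV.MT.CU5
import Pool.Agent.XV.MT.CU3
import Pool.Agent.XV.MT.ID1
import Pool.Agent.XV.MT.ID2
import Pool.Agent.XV.MT.PRIM
import Pool.Agent.XV.MT.HIT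
import Pool.Agent.XV.MT.WP
import Pool.Agent.XV.MT.INT
import Pool.Agent.XV.MT.OPT
import Pool.Agent.XV.MT.FORM
import Pool.Agent.XV.MT.DIM
import Pool.Agent.XV.MT.COEF
import Pool.Agent.XV.MT.CMOD
import Pool.Agent.XV.MT.CEQ
import Pool.Agent.XV.MT.SYM
import Pool.Agent.XV.MT.SM
import Pool.Agent.XV.MT.PCARD
import Pool.Agent.XV.MT.INST
import Pool.Agent.XV.MT.LFN
import Pool.Agent.XV.MT.LEN
import Pool.Agent.XV.Cm

/-!
Project XV, part T1: the modular side, unconditionally.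
-/

set_option autoImplicit false

open UpperHalfPlane MatrixGroups CongruenceSubgroup

namespace Pool.Agent.XV.MT

open Pool.Agent.W97.MT (hinj hsub hsup hode hhint)

theorem a_cusp : S_CUSP := ⟨t_CU15, t_CU5, t_CU3⟩

theorem a_id : IdOK := t_ID2 t_CP a_cusp t_EXP (t_ID1 t_CP a_cusp t_EXP)

theorem a_prim : PrimOK := t_PRIM a_id

theorem a_wp (L : PeriodPair) (g2 : L.g₂ = 481 / 12) (g3 : L.g₃ = 4879 / 216) (z : ℂ)
    (hz : 0 < z.im) : F z ∉ L.lattice ∧ L.weierstrassP (F z) = X1 z - 7 / 12 :=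
  t_WP t_EXP a_id a_prim hode L g2 g3 z hz

theorem a_int (L : PeriodPair) (g2 : L.g₂ = 481 / 12) (g3 : L.g₃ = 4879 / 216) : IntOK L :=
  t_INT a_id a_prim t_HIT hinj t_TORS L g2 g3 (a_wp L g2 g3)

theorem a_opt (L : PeriodPair) (g2 : L.g₂ = 481 / 12) (g3 : L.g₃ = 4879 / 216) (w : ℂ) :
    w ∈ L.lattice ↔ IsPer w :=
  t_OPT t_CP a_id a_prim hinj hsub L g2 g3 (a_wp L g2 g3) w

theorem a_exL : ∃ L : PeriodPair, IntOK L := by
  obtain ⟨L, Op, Om, _, _, g2, g3, _⟩ := t_LAT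
  exact ⟨L, a_int L g2 g3⟩

theorem a_form : ∃ f : CuspForm (Gamma0 15 : Subgroup (GL (Fin 2) ℝ)) 2, FormOK f ∧ NewOK f := by
  obtain ⟨f, hf⟩ := t_FORM a_id
  have fok : FormOK f := t_CEQ t_EXP t_COEF t_DIM t_CP t_CMOD t_HASSE t_FOUR t_MIN hsup hhint
    a_id a_prim a_exL f hf
  exact ⟨f, fok, t_INST t_MIN t_PCARD a_id a_prim f fok⟩

theorem a_ii : IIOK := by
  obtain ⟨f, h1, _⟩ := a_form
  exact t_SYM t_EXP hhint a_id a_prim a_exL ⟨f, h1⟩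

/-- the twisted `L`-functions -/
theorem a_xl (q : ℕ) [NeZero q] (hq : Nat.Coprime q 15) (χ : DirichletCharacter ℂ q)
    (hχ : χ.IsPrimitive) : ∃ g : ℂ → ℂ, Differentiable ℂ g ∧
      (∀ s : ℂ, 3 / 2 < s.re → HasProd (fun p : Nat.Primes =>
        (1 - (Pool.Agent.W97.MT.ap E15 p : ℂ) * χ p * (p : ℂ) ^ (-s) +
          (if (p : ℕ) ∣ 15 then 0 else (p : ℂ)) * (χ p) ^ 2 * (p : ℂ) ^ (-2 * s))⁻¹) (g s)) ∧
      gaussSum χ⁻¹ (ZMod.stdAddChar (N := q)) * g 1 =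
        ∑ u : (ZMod q)ˣ, χ⁻¹ (u : ZMod q) * II (((u : ZMod q).val : ℚ) / q) :=
  t_LFN a_prim a_ii a_form q hq χ hχ

/-- **G1**: the odd symbol of `X_0(15)` -/
theorem t_G1 : S_G1 :=
  t_SM t_LAT t_MIN t_CM t_UOD0 a_prim a_ii fun L g2 g3 => ⟨a_int L g2 g3, a_opt L g2 g3⟩

/-- **G2**: the non-vanishing of the central value -/
theorem t_G2 : S_G2 := t_LEN t_MIN t_PCARD a_xl

end Pool.Agent.XV.MT
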