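import Pool.Agent.XV.MT.Sk2
import Pool.Agent.H82R3.EK.FF

/-!
# Project XV: the coefficients of the twists of `X_0(15)` and the primes of bad reduction
-/

set_option autoImplicit false
set_option linter.style.haveILetI false

open scoped Classical

namespace Pool.Agent.XV.MT

open Pool.Agent.W97.MT (affCount ap)
open Pool.Agent.XV.T (W15)

namespace AP15

theorem W15_one : W15 1 = E15 := by
  unfold W15 E15
  norm_num

/-- the coefficients of `W15` -/
theorem W15_coeff {D : ℤ} (hD : D % 4 = 1) : ∃ a b c : ℤ, W15 D = ⟨1, a, 1, b, c⟩ ∧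
    4 * a = 5 * D - 1 ∧ 2 * b = -(19 * D ^ 2 + 1) ∧ 4 * c = -(39 * D ^ 3 + 1) := by
  obtain ⟨k, rfl⟩ : ∃ k, D = 4 * k + 1 := ⟨D / 4, by omega⟩
  refine ⟨5 * k + 1, -(152 * k ^ 2 + 76 * k + 10), -(624 * k ^ 3 + 468 * k ^ 2 + 117 * k + 10),
    ?_, by ring, by ring, by ring⟩
  unfold W15
  have e1 : (5 * (4 * k + 1) - 1) / 4 = 5 * k + 1 := by omega
  have e2 : -((19 * (4 * k + 1) ^ 2 + 1) / 2) = -(152 * k ^ 2 + 76 * k + 10) := by
    have : 19 * (4 * k + 1) ^ 2 + 1 = 2 * (152 * k ^ 2 + 76 * k + 10) := by ring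
    rw [this, Int.mul_ediv_cancel_left _ (by norm_num)]
  have e3 : -((39 * (4 * k + 1) ^ 3 + 1) / 4) =
      -(624 * k ^ 3 + 468 * k ^ 2 + 117 * k + 10) := by
    have : 39 * (4 * k + 1) ^ 3 + 1 = 4 * (624 * k ^ 3 + 468 * k ^ 2 + 117 * k + 10) := by ring
    rw [this, Int.mul_ediv_cancel_left _ (by norm_num)]
  rw [e1, e2, e3]

theorem Delta_W15 {D : ℤ} (hD : D % 4 = 1) : (W15 D).Δ = 50625 * D ^ 6 := by
  obtain ⟨a, b, c, hW, ha, hb, hc⟩ := W15_coeff hD
  rw [hW]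
  unfold WeierstrassCurve.Δ WeierstrassCurve.b₂ WeierstrassCurve.b₄ WeierstrassCurve.b₆
    WeierstrassCurve.b₈
  simp only
  have e2 : (1 : ℤ) ^ 2 + 4 * a = 5 * D := by linear_combination ha
  have e4 : (2 : ℤ) * b + 1 * 1 = -19 * D ^ 2 := by linear_combination hb
  have e6 : (1 : ℤ) ^ 2 + 4 * c = -39 * D ^ 3 := by linear_combination hc
  have e8 : 4 * ((1 : ℤ) ^ 2 * c + 4 * a * c - 1 * 1 * b + a * 1 ^ 2 - b ^ 2) =
      (5 * D) * (-39 * D ^ 3) - (-19 * D ^ 2) ^ 2 := by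
    rw [← e2, ← e4, ← e6]
    ring
  rw [e2, e4, e6]
  have h4 : (4 : ℤ) ≠ 0 := by norm_num
  apply mul_left_cancel₀ h4
  linear_combination (-(5 * D) ^ 2) * e8

theorem affCount_odd {D : ℤ} (hD : D % 4 = 1) (p : ℕ) [Fact p.Prime] (hp : p ≠ 2) :
    (affCount (W15 D) p : ℤ) = p + ∑ x : ZMod p,
      quadraticChar (ZMod p) (4 * x ^ 3 + 5 * (D : ZMod p) * x ^ 2 - 38 * (D : ZMod p) ^ 2 * x -
        39 * (D : ZMod p) ^ 3) := by
  have hpp : p.Prime := Fact.out
  have n2 : (2 : ZMod p) ≠ 0 := by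
    intro h
    have : ((2 : ℕ) : ZMod p) = 0 := by exact_mod_cast h
    rw [ZMod.natCast_eq_zero_iff] at this
    exact hp ((Nat.prime_dvd_prime_iff_eq hpp Nat.prime_two).1 this)
  have n4 : (4 : ZMod p) ≠ 0 := by
    rw [show (4 : ZMod p) = 2 ^ 2 by norm_num]
    exact pow_ne_zero 2 n2
  obtain ⟨a, b, c, hW, ha, hb, hc⟩ := W15_coeff hD
  have ha' : 4 * (a : ZMod p) = 5 * D - 1 := by
    exact_mod_cast congrArg (Int.cast : ℤ → ZMod p) ha
  have hb' : 2 * (b : ZMod p) = -(19 * (D : ZMod p) ^ 2 + 1) := by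
    have := congrArg (Int.cast : ℤ → ZMod p) hb
    push_cast at this
    exact this
  have hc' : 4 * (c : ZMod p) = -(39 * (D : ZMod p) ^ 3 + 1) := by
    have := congrArg (Int.cast : ℤ → ZMod p) hc
    push_cast at this
    exact this
  have hchar : ringChar (ZMod p) ≠ 2 := by rw [ZMod.ringChar_zmod_n]; exact hp
  set g : ZMod p → ZMod p := fun x => 4 * x ^ 3 + 5 * (D : ZMod p) * x ^ 2 -
    38 * (D : ZMod p) ^ 2 * x - 39 * (D : ZMod p) ^ 3 with hg
  have e1 : affCount (W15 D) p = Nat.card {q : ZMod p × ZMod p // q.2 ^ 2 = g q.1} := by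
    unfold affCount
    refine Nat.card_congr
      { toFun := fun x => ⟨(x.1.1, 2 * x.1.2 + x.1.1 + 1), ?_⟩
        invFun := fun x => ⟨(x.1.1, (x.1.2 - x.1.1 - 1) / 2), ?_⟩
        left_inv := ?_
        right_inv := ?_ }
    · have h := x.2
      rw [WeierstrassCurve.Affine.equation_iff] at h
      simp only [hW, WeierstrassCurve.map, map_one] at h
      simp only [eq_intCast, hg] at h ⊢
      linear_combination 4 * h + x.1.1 ^ 2 * ha' + 2 * x.1.1 * hb' + hc'
    · have h := x.2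
      rw [WeierstrassCurve.Affine.equation_iff]
      simp only [hW, WeierstrassCurve.map, map_one]
      simp only [eq_intCast, hg] at h ⊢
      have e2 : x.1.2 = 2 * ((x.1.2 - x.1.1 - 1) / 2) + x.1.1 + 1 := by
        field_simp
        ring
      set v := (x.1.2 - x.1.1 - 1) / 2 with hv
      rw [e2] at h
      apply mul_left_cancel₀ n4
      linear_combination h - x.1.1 ^ 2 * ha' - 2 * x.1.1 * hb' - hc'
    · intro x
      ext
      · rfl
      · show (2 * x.1.2 + x.1.1 + 1 - x.1.1 - 1) / 2 = x.1.2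
        field_simp
        ring
    · intro x
      ext
      · rfl
      · show 2 * ((x.1.2 - x.1.1 - 1) / 2) + x.1.1 + 1 = x.1.2
        field_simp
        ring
  rw [e1, Pool.Agent.H82R3.EK.card_points hchar g, ZMod.card]

/-- primes dividing the twisting factor -/
theorem ap_dvd {D : ℤ} (hD : D % 4 = 1) (p : ℕ) [Fact p.Prime] (hp : p ≠ 2) (h : (p : ℤ) ∣ D) :
    ap (W15 D) p = 0 := by
  have hpp : p.Prime := Fact.out
  have n2 : (2 : ZMod p) ≠ 0 := by
    intro h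
    have : ((2 : ℕ) : ZMod p) = 0 := by exact_mod_cast h
    rw [ZMod.natCast_eq_zero_iff] at this
    exact hp ((Nat.prime_dvd_prime_iff_eq hpp Nat.prime_two).1 this)
  have hD0 : (D : ZMod p) = 0 := (ZMod.intCast_zmod_eq_zero_iff_dvd D p).2 h
  have hchar : ringChar (ZMod p) ≠ 2 := by rw [ZMod.ringChar_zmod_n]; exact hp
  unfold ap
  rw [affCount_odd hD p hp, hD0]
  have : ∑ x : ZMod p, quadraticChar (ZMod p) (4 * x ^ 3 + 5 * 0 * x ^ 2 - 38 * 0 ^ 2 * x -
      39 * 0 ^ 3) = ∑ x : ZMod p, quadraticChar (ZMod p) x := by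
    refine Finset.sum_congr rfl fun x _ => ?_
    have e : 4 * x ^ 3 + 5 * 0 * x ^ 2 - 38 * 0 ^ 2 * x - 39 * 0 ^ 3 = (2 * x) ^ 2 * x := by ring
    rw [e, map_mul]
    by_cases hx : x = 0
    · rw [hx]; simp
    · rw [quadraticChar_sq_one' (mul_ne_zero n2 hx), one_mul]
  rw [this, quadraticChar_sum_zero hchar]
  ring

theorem jacD {D : ℤ} (hD : D % 4 = 1) {p : ℕ} (hp : p % 2 = 1) :
    jacobiSym D p = jacobiSym p D.natAbs := by
  have hodd : Odd p := Nat.odd_iff.2 hp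
  rcases Int.natAbs_eq D with h | h
  · have h4 : D.natAbs % 4 = 1 := by omega
    conv_lhs => rw [h]
    rw [jacobiSym.quadratic_reciprocity_one_mod_four h4 hodd]
  · have h4 : D.natAbs % 4 = 3 := by omega
    conv_lhs => rw [h]
    rw [← neg_one_mul, jacobiSym.mul_left, jacobiSym.at_neg_one hodd]
    rcases (by omega : p % 4 = 1 ∨ p % 4 = 3) with h5 | h5
    · rw [ZMod.χ₄_nat_one_mod_four h5, one_mul]
      have h6 := jacobiSym.quadratic_reciprocity_one_mod_four h5 (b := D.natAbs)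
        (Nat.odd_iff.2 (by omega))
      exact h6.symm
    · rw [ZMod.χ₄_nat_three_mod_four h5, jacobiSym.quadratic_reciprocity_three_mod_four h4 h5]
      ring

theorem ap_odd {D : ℤ} (hD : D % 4 = 1) (p : ℕ) [Fact p.Prime] (hp : p ≠ 2)
    (h : ¬ p ∣ D.natAbs) : ap (W15 D) p = jacobiSym p D.natAbs * ap E15 p := by
  have hpp : p.Prime := Fact.out
  have hD0 : (D : ZMod p) ≠ 0 := by
    intro h1
    rw [ZMod.intCast_zmod_eq_zero_iff_dvd] at h1
    exact h (Int.natCast_dvd.1 h1)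
  have h5 : quadraticChar (ZMod p) (D : ZMod p) = jacobiSym p D.natAbs := by
    have h6 : quadraticChar (ZMod p) (D : ZMod p) = legendreSym p D := rfl
    rw [h6, jacobiSym.legendreSym.to_jacobiSym]
    exact jacD hD (Nat.odd_iff.1 (hpp.odd_of_ne_two hp))
  rw [← W15_one]
  unfold ap
  rw [affCount_odd hD p hp, affCount_odd (by norm_num) p hp, ← h5, sub_add_cancel_left,
    sub_add_cancel_left, mul_neg, Finset.mul_sum]
  congr 1
  symm
  refine Fintype.sum_equiv (Equiv.mulLeft₀ (D : ZMod p) hD0) _ _ fun x => ?_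
  have h4 : quadraticChar (ZMod p) (D : ZMod p) = quadraticChar (ZMod p) ((D : ZMod p) ^ 3) := by
    rw [pow_succ, map_mul, quadraticChar_sq_one' hD0, one_mul]
  rw [h4, ← map_mul, Equiv.mulLeft₀_apply]
  congr 1
  push_cast
  ring

theorem two_zero : (2 : ZMod 2) = 0 := rfl

theorem card_A : Nat.card {P : ZMod 2 × ZMod 2 // P.2 ^ 2 + P.1 * P.2 + P.2 =
    P.1 ^ 3 + P.1 ^ 2} = 3 := by
  rw [Nat.card_eq_fintype_card]
  decide

theorem card_B : Nat.card {P : ZMod 2 × ZMod 2 // P.2 ^ 2 + P.1 * P.2 + P.2 =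
    P.1 ^ 3 + 1} = 1 := by
  rw [Nat.card_eq_fintype_card]
  decide

/-- `D = 1 mod 8` -/
theorem two_one {D : ℤ} (h8 : D % 8 = 1) : affCount (W15 D) 2 = 3 := by
  obtain ⟨a, b, c, hW, ha, hb, hc⟩ := W15_coeff (D := D) (by omega)
  unfold affCount
  rw [hW]
  obtain ⟨k, hk⟩ : ∃ k : ℤ, D = 8 * k + 1 := ⟨D / 8, by omega⟩
  have a0 : (a : ZMod 2) = 1 := by
    have : a = 2 * (5 * k) + 1 := by omega
    rw [this]
    push_cast
    rw [two_zero]
    ring
  have b0 : (b : ZMod 2) = 0 := (ZMod.intCast_zmod_eq_zero_iff_dvd b 2).2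
    ⟨-(304 * k ^ 2 + 76 * k + 5), by push_cast; rw [hk] at hb; linarith⟩
  have c0 : (c : ZMod 2) = 0 := (ZMod.intCast_zmod_eq_zero_iff_dvd c 2).2
    ⟨-(2496 * k ^ 3 + 936 * k ^ 2 + 117 * k + 5), by push_cast; rw [hk] at hc; linarith⟩
  have e : Nat.card {P : ZMod 2 × ZMod 2 //
      ((⟨1, a, 1, b, c⟩ : WeierstrassCurve ℤ).map (Int.castRingHom (ZMod 2))).toAffine.Equation
        P.1 P.2} = Nat.card {P : ZMod 2 × ZMod 2 // P.2 ^ 2 + P.1 * P.2 + P.2 =
          P.1 ^ 3 + P.1 ^ 2} := by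
    refine Nat.card_congr (Equiv.subtypeEquivRight fun P => ?_)
    rw [WeierstrassCurve.Affine.equation_iff]
    simp only [WeierstrassCurve.map, map_one, eq_intCast, a0, b0, c0]
    ring_nf
  rw [e, card_A]

/-- `D = 5 mod 8` -/
theorem two_five {D : ℤ} (h8 : D % 8 = 5) : affCount (W15 D) 2 = 1 := by
  obtain ⟨a, b, c, hW, ha, hb, hc⟩ := W15_coeff (D := D) (by omega)
  unfold affCount
  rw [hW]
  obtain ⟨k, hk⟩ : ∃ k : ℤ, D = 8 * k + 5 := ⟨D / 8, by omega⟩
  have a0 : (a : ZMod 2) = 0 := (ZMod.intCast_zmod_eq_zero_iff_dvd a 2).2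
    ⟨5 * k + 3, by push_cast; omega⟩
  have b0 : (b : ZMod 2) = 0 := (ZMod.intCast_zmod_eq_zero_iff_dvd b 2).2
    ⟨-(304 * k ^ 2 + 380 * k + 119), by push_cast; rw [hk] at hb; linarith⟩
  have c0 : (c : ZMod 2) = 1 := by
    have : c = 2 * (-(2496 * k ^ 3 + 4680 * k ^ 2 + 2925 * k + 610)) + 1 := by
      rw [hk] at hc; linarith
    rw [this]
    push_cast
    rw [two_zero]
    ring
  have e : Nat.card {P : ZMod 2 × ZMod 2 //
      ((⟨1, a, 1, b, c⟩ : WeierstrassCurve ℤ).map (Int.castRingHom (ZMod 2))).toAffine.Equation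
        P.1 P.2} = Nat.card {P : ZMod 2 × ZMod 2 // P.2 ^ 2 + P.1 * P.2 + P.2 =
          P.1 ^ 3 + 1} := by
    refine Nat.card_congr (Equiv.subtypeEquivRight fun P => ?_)
    rw [WeierstrassCurve.Affine.equation_iff]
    simp only [WeierstrassCurve.map, map_one, eq_intCast, a0, b0, c0]
    ring_nf
  rw [e, card_B]

theorem ap_two {n : ℕ} (hn : n % 4 = 3) : ap (W15 (-(n : ℤ))) 2 = jacobiSym 2 n * ap E15 2 := by
  have hodd : Odd n := Nat.odd_iff.2 (by omega)
  have h1 : ap E15 2 = -1 := by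
    rw [← W15_one]
    unfold ap
    rw [two_one (by norm_num)]
    norm_num
  rw [h1, jacobiSym.at_two hodd, ZMod.χ₈_nat_eq_if_mod_eight]
  unfold ap
  have h3 : n % 2 = 1 := by omega
  rcases (by omega : n % 8 = 7 ∨ n % 8 = 3) with h8 | h8
  · rw [two_one (by omega)]
    simp only [h3, h8]
    norm_num
  · rw [two_five (by omega)]
    simp only [h3, h8]
    norm_num

end AP15

/-- AP15: the coefficients of the twist -/
theorem t_AP15 : S_AP15 := by
  intro n hn p hp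
  haveI : Fact p.Prime := ⟨hp⟩
  have hD : (-(n : ℤ)) % 4 = 1 := by omega
  have hna : (-(n : ℤ)).natAbs = n := by rw [Int.natAbs_neg, Int.natAbs_natCast]
  by_cases h2 : p = 2
  · subst h2
    exact_mod_cast AP15.ap_two hn
  · by_cases hd : p ∣ n
    · have hz : ap (W15 (-(n : ℤ))) p = 0 :=
        AP15.ap_dvd hD p h2 (by rw [dvd_neg]; exact_mod_cast hd)
      have h0 : jacobiSym (p : ℤ) n = 0 := by
        haveI : NeZero n := ⟨by omega⟩
        rw [jacobiSym.eq_zero_iff_not_coprime, Int.gcd_natCast_natCast]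
        intro hg
        have := Nat.dvd_gcd (dvd_refl p) hd
        rw [hg] at this
        exact hp.one_lt.ne' (Nat.dvd_one.1 this)
      rw [hz, h0, zero_mul]
    · have h := AP15.ap_odd hD p h2 (by rw [hna]; exact hd)
      rw [hna] at h
      exact h

/-- DEL15: the primes of bad reduction -/
theorem t_DEL15 : S_DEL15 := by
  intro n hn p hp
  rw [AP15.Delta_W15 (by omega)]
  have e : (50625 * (-(n : ℤ)) ^ 6) = ((15 ^ 4 * n ^ 6 : ℕ) : ℤ) := by
    push_cast; ring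
  rw [e, Int.natCast_dvd_natCast, hp.dvd_mul]
  constructor
  · rintro (h | h)
    · exact Or.inl (hp.dvd_of_dvd_pow h)
    · exact Or.inr (hp.dvd_of_dvd_pow h)
  · rintro (h | h)
    · exact Or.inl (dvd_pow h (by norm_num))
    · exact Or.inr (dvd_pow h (by norm_num))

end Pool.Agent.XV.MT
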