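import Pool.Agent.XV.MT.Sk
import Pool.Agent.W97.MT.Asm

/-!
Project XV, part T1: the assembly of the modular side.
-/

set_option autoImplicit false

open UpperHalfPlane MatrixGroups CongruenceSubgroup Filter Topology MeasureTheory Set

namespace Pool.Agent.XV.MT

open Pool.Agent.W97.TW
open Pool.Agent.W97.MT (qq tt iI QV Rep affCount ap hecke prim S_INJ S_SUB S_SUP S_ODE S_HINT S_QEXP
  hinj hsub hsup hode hhint)

/-- the assembly -/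
theorem asm (h_CP : S_CP) (h_TORS : S_TORS) (h_LAT : S_LAT) (h_HASSE : S_HASSE) (h_FOUR : S_FOUR)
    (h_MIN : S_MIN) (h_EXP : S_EXP) (h_CU15 : S_CU15) (h_CU5 : S_CU5) (h_CU3 : S_CU3)
    (h_ID1 : S_ID1) (h_ID2 : S_ID2) (h_PRIM : S_PRIM) (h_HIT : S_HIT) (h_WP : S_WP) (h_INT : S_INT)
    (h_OPT : S_OPT) (h_FORM : S_FORM) (h_DIM : S_DIM) (h_COEF : S_COEF) (h_CMOD : S_CMOD)
    (h_CEQ : S_CEQ) (h_SYM : S_SYM) (h_CM : S_CM) (h_UOD0 : S_UOD0) (h_SM : S_SM)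
    (h_PCARD : S_PCARD) (h_INST : S_INST) (h_LFN : S_LFN) (h_LEN : S_LEN) : S_G1 ∧ S_G2 := by
  have cusp : S_CUSP := ⟨h_CU15, h_CU5, h_CU3⟩
  have idok : IdOK := h_ID2 h_CP cusp h_EXP (h_ID1 h_CP cusp h_EXP)
  have prok : PrimOK := h_PRIM idok
  have wp := fun (L : PeriodPair) (g2 : L.g₂ = 481 / 12) (g3 : L.g₃ = 4879 / 216) =>
    h_WP h_EXP idok prok hode L g2 g3
  have intok := fun (L : PeriodPair) (g2 : L.g₂ = 481 / 12) (g3 : L.g₃ = 4879 / 216) =>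
    h_INT idok prok h_HIT hinj h_TORS L g2 g3 (wp L g2 g3)
  have opt := fun (L : PeriodPair) (g2 : L.g₂ = 481 / 12) (g3 : L.g₃ = 4879 / 216) =>
    h_OPT h_CP idok prok hinj hsub L g2 g3 (wp L g2 g3)
  have exL : ∃ L : PeriodPair, IntOK L := by
    obtain ⟨L, Op, Om, _, _, g2, g3, _⟩ := h_LAT
    exact ⟨L, intok L g2 g3⟩
  obtain ⟨f, hf⟩ := h_FORM idok
  have fok : FormOK f := h_CEQ h_EXP h_COEF h_DIM h_CP h_CMOD h_HASSE h_FOUR h_MIN hsup hhint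
    idok prok exL f hf
  have iiok : IIOK := h_SYM h_EXP hhint idok prok exL ⟨f, fok⟩
  have nok : NewOK f := h_INST h_MIN h_PCARD idok prok f fok
  refine ⟨h_SM h_LAT h_MIN h_CM h_UOD0 prok iiok fun L g2 g3 => ⟨intok L g2 g3, opt L g2 g3⟩, ?_⟩
  exact h_LEN h_MIN h_PCARD (h_LFN prok iiok ⟨f, fok, nok⟩)

end Pool.Agent.XV.MT
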