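import Pool.Agent.XV.MT.Sk
import Pool.Agent.W97.MT.Lat

/-!
Basic facts on the functions of level `15`, for the files `OPT.lean` and `DIM.lean` (helper6).
-/

set_option autoImplicit false

open Filter Topology

namespace Pool.Agent.XV.MT.B6

open Pool.Agent.W97.TW
open Pool.Agent.W97.MT (qq tt iI QV Rep H_open eta_diff im_mul iI_pos Qq_analytic comp_cont qq_ne
  norm_qq_lt tpi_ne)

lemma eta_diffs {z : ℂ} (hz : 0 < z.im) : DifferentiableAt ℂ (fun w : ℂ => ModularForm.eta w) z ∧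
    DifferentiableAt ℂ (fun w : ℂ => ModularForm.eta (3 * w)) z ∧
    DifferentiableAt ℂ (fun w : ℂ => ModularForm.eta (5 * w)) z ∧
    DifferentiableAt ℂ (fun w : ℂ => ModularForm.eta (15 * w)) z := by
  have h1 := eta_diff hz 1 (by norm_num)
  have h3 := eta_diff hz 3 (by norm_num)
  have h5 := eta_diff hz 5 (by norm_num)
  have h15 := eta_diff hz 15 (by norm_num)
  push_cast at h1 h3 h5 h15
  simp only [one_mul] at h1
  exact ⟨h1, h3, h5, h15⟩

lemma eta_nes {z : ℂ} (hz : 0 < z.im) : ModularForm.eta z ≠ 0 ∧ ModularForm.eta (3 * z) ≠ 0 ∧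
    ModularForm.eta (5 * z) ≠ 0 ∧ ModularForm.eta (15 * z) ≠ 0 := by
  have h3 := ModularForm.eta_ne_zero (im_mul hz 3 (by norm_num))
  have h5 := ModularForm.eta_ne_zero (im_mul hz 5 (by norm_num))
  have h15 := ModularForm.eta_ne_zero (im_mul hz 15 (by norm_num))
  push_cast at h3 h5 h15
  exact ⟨ModularForm.eta_ne_zero hz, h3, h5, h15⟩

lemma ff_ne {z : ℂ} (hz : 0 < z.im) : ff z ≠ 0 := by
  obtain ⟨e1, e3, e5, e15⟩ := eta_nes hz
  exact mul_ne_zero (mul_ne_zero (mul_ne_zero e1 e3) e5) e15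

lemma X1_ne {z : ℂ} (hz : 0 < z.im) : X1 z ≠ 0 := by
  obtain ⟨e1, e3, e5, e15⟩ := eta_nes hz
  unfold X1
  positivity

lemma ff_diff {z : ℂ} (hz : 0 < z.im) : DifferentiableAt ℂ ff z := by
  obtain ⟨e1, e3, e5, e15⟩ := eta_diffs hz
  exact ((e1.mul e3).mul e5).mul e15

lemma X1_diff {z : ℂ} (hz : 0 < z.im) : DifferentiableAt ℂ X1 z := by
  obtain ⟨e1, e3, e5, e15⟩ := eta_diffs hz
  obtain ⟨n1, n3, n5, n15⟩ := eta_nes hz
  exact (((e1.inv n1).mul e3).mul (e5.pow 5)).mul ((e15.pow 5).inv (pow_ne_zero _ n15))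

lemma ff_cont : ContinuousOn ff {z : ℂ | 0 < z.im} := fun _ hz =>
  (ff_diff hz).continuousAt.continuousWithinAt

lemma phi_zero : phi 0 = 1 := by
  unfold phi
  simp [Q_zero]

lemma phi_analytic : AnalyticAt ℂ phi 0 := by
  have e1 := Qq_analytic 1 one_ne_zero
  have e3 := Qq_analytic 3 (by norm_num)
  have e5 := Qq_analytic 5 (by norm_num)
  have e15 := Qq_analytic 15 (by norm_num)
  simp only [pow_one] at e1
  exact ((e1.mul e3).mul e5).mul e15

lemma QV_phi : QV (fun z => phi (qq z)) 1 := (QV.comp phi_analytic).of_val phi_zero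

lemma phi_ne {z : ℂ} (hz : 0 < z.im) : phi (qq z) ≠ 0 := by
  intro h0
  have hf := ff_ne hz
  rw [ff_q, h0, mul_zero] at hf
  exact hf rfl

lemma Phi_diff : DifferentiableOn ℂ Phi (Metric.ball 0 1) := fun q hq =>
  (Phi_deriv (by simpa using hq)).differentiableAt.differentiableWithinAt

lemma Phi_analytic : AnalyticAt ℂ Phi 0 := Phi_diff.analyticAt (Metric.ball_mem_nhds _ one_pos)

lemma F_QV : QV F 0 := (QV.comp Phi_analytic).of_val Phi_zero

lemma idMap : IsMap (fun z => z) (fun _ => 1) where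
  pos := fun _ h => h
  der := fun z _ => hasDerivAt_id z
  jne := fun _ _ => one_ne_zero
  jcont := continuousOn_const
  ffj := fun _ _ => by rw [mul_one]

theorem cp_zero (hcp : S_CP) {g : ℂ → ℂ} (hd : ∀ z : ℂ, 0 < z.im → DifferentiableAt ℂ g z)
    (hinv : Inv g) (h1 : QV g 0) {v15 v5 v3 : ℂ} (h15 : QV (fun z => g (m15 z)) v15)
    (h5 : QV (fun z => g (m5 z)) v5) (h3 : QV (fun z => g (m3 z)) v3) :
    ∀ z : ℂ, 0 < z.im → g z = 0 := by
  obtain ⟨c, hc⟩ := hcp g (fun z hz => (hd z hz).differentiableWithinAt) hinv h1.bounded'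
    h15.bounded h5.bounded h3.bounded
  have h4 : QV g c := (QV.const c).of_eq (iI_pos.mono fun z hz => hc z hz)
  have h6 := h4.val_unique h1
  intro z hz
  rw [hc z hz, h6]

end Pool.Agent.XV.MT.B6
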