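import Pool.Agent.XV.MT.Sk

/-!
General lemmas for level 15 (helper49; used by the jobs PRIM, WP, FORM).
-/

set_option autoImplicit false

open Filter Topology

namespace Pool.Agent.XV.MT.G49

open Pool.Agent.W97.TW
open Pool.Agent.W97.MT (qq tt qq_ne norm_qq norm_qq_lt im_mul iI QV iI_pos)

lemma H_open : IsOpen {z : ℂ | 0 < z.im} := isOpen_lt continuous_const Complex.continuous_im

lemma eta_diff {z : ℂ} (hz : 0 < z.im) (n : ℕ) (hn : 0 < n) :
    DifferentiableAt ℂ (fun w : ℂ => ModularForm.eta (n * w)) z := by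
  have h3 := ModularForm.differentiableAt_eta_of_mem_upperHalfPlaneSet
    (show (n : ℂ) * z ∈ UpperHalfPlane.upperHalfPlaneSet from im_mul hz n hn)
  exact DifferentiableAt.comp z h3 (by fun_prop)

lemma eta_diffs {z : ℂ} (hz : 0 < z.im) : DifferentiableAt ℂ (fun w : ℂ => ModularForm.eta w) z ∧
    DifferentiableAt ℂ (fun w : ℂ => ModularForm.eta (3 * w)) z ∧
    DifferentiableAt ℂ (fun w : ℂ => ModularForm.eta (5 * w)) z ∧
    DifferentiableAt ℂ (fun w : ℂ => ModularForm.eta (15 * w)) z := by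
  have h1 := eta_diff hz 1 (by norm_num)
  have h3 := eta_diff hz 3 (by norm_num)
  have h5 := eta_diff hz 5 (by norm_num)
  have h15 := eta_diff hz 15 (by norm_num)
  push_cast at h1 h3 h5 h15
  simp only [one_mul] at h1
  exact ⟨h1, h3, h5, h15⟩

lemma eta_nes {z : ℂ} (hz : 0 < z.im) : ModularForm.eta z ≠ 0 ∧ ModularForm.eta (3 * z) ≠ 0 ∧
    ModularForm.eta (5 * z) ≠ 0 ∧ ModularForm.eta (15 * z) ≠ 0 := by
  have h3 := ModularForm.eta_ne_zero (im_mul hz 3 (by norm_num))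
  have h5 := ModularForm.eta_ne_zero (im_mul hz 5 (by norm_num))
  have h15 := ModularForm.eta_ne_zero (im_mul hz 15 (by norm_num))
  push_cast at h3 h5 h15
  exact ⟨ModularForm.eta_ne_zero hz, h3, h5, h15⟩

lemma ff_ne {z : ℂ} (hz : 0 < z.im) : ff z ≠ 0 := by
  obtain ⟨e1, e3, e5, e15⟩ := eta_nes hz
  exact mul_ne_zero (mul_ne_zero (mul_ne_zero e1 e3) e5) e15

lemma X1_ne {z : ℂ} (hz : 0 < z.im) : X1 z ≠ 0 := by
  obtain ⟨e1, e3, e5, e15⟩ := eta_nes hz
  unfold X1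
  positivity

lemma ff_diff {z : ℂ} (hz : 0 < z.im) : DifferentiableAt ℂ ff z := by
  obtain ⟨e1, e3, e5, e15⟩ := eta_diffs hz
  exact ((e1.mul e3).mul e5).mul e15

lemma X1_diff {z : ℂ} (hz : 0 < z.im) : DifferentiableAt ℂ X1 z := by
  obtain ⟨e1, e3, e5, e15⟩ := eta_diffs hz
  obtain ⟨n1, n3, n5, n15⟩ := eta_nes hz
  exact (((e1.inv n1).mul e3).mul (e5.pow 5)).mul ((e15.pow 5).inv (pow_ne_zero _ n15))

lemma Y2_diff {z : ℂ} (hz : 0 < z.im) : DifferentiableAt ℂ Y2 z := by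
  obtain ⟨e1, e3, e5, e15⟩ := eta_diffs hz
  obtain ⟨n1, n3, n5, n15⟩ := eta_nes hz
  exact (((e1.pow 2).mul (e3.pow 4)).mul (e5.pow 2)).mul
    ((e15.pow 8).inv (pow_ne_zero _ n15))

lemma X1_cont : ContinuousOn X1 {z : ℂ | 0 < z.im} := fun _ hz =>
  (X1_diff hz).continuousAt.continuousWithinAt

lemma Y2_cont : ContinuousOn Y2 {z : ℂ | 0 < z.im} := fun _ hz =>
  (Y2_diff hz).continuousAt.continuousWithinAt

lemma ff_cont : ContinuousOn ff {z : ℂ | 0 < z.im} := fun _ hz =>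
  (ff_diff hz).continuousAt.continuousWithinAt

lemma comp_cont {m j g : ℂ → ℂ} (hp : ∀ z : ℂ, 0 < z.im → 0 < (m z).im)
    (hd : ∀ z : ℂ, 0 < z.im → HasDerivAt m (j z) z) (hg : ContinuousOn g {z : ℂ | 0 < z.im}) :
    ContinuousOn (fun z => g (m z)) {z : ℂ | 0 < z.im} :=
  hg.comp (fun z hz => (hd z hz).continuousAt.continuousWithinAt) fun z hz => hp z hz

lemma tpi_ne : (2 * Real.pi * Complex.I : ℂ) ≠ 0 := Complex.two_pi_I_ne_zero

lemma hasDerivAt_gamma {a b c d : ℤ} (h : a * d - b * (15 * c) = 1) {z : ℂ} (hz : 0 < z.im) :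
    HasDerivAt (fun z : ℂ => (a * z + b) / (15 * c * z + d)) (((15 * c * z + d) ^ 2)⁻¹) z := by
  have h0 := (G_gamma h hz).2.1
  have h1 : HasDerivAt (fun w : ℂ => (a : ℂ) * w + b) a z := by
    simpa using ((hasDerivAt_id z).const_mul (a : ℂ)).add_const (b : ℂ)
  have h2 : HasDerivAt (fun w : ℂ => 15 * (c : ℂ) * w + d) (15 * c) z := by
    simpa using ((hasDerivAt_id z).const_mul (15 * (c : ℂ))).add_const (d : ℂ)
  refine (h1.div h2 h0).congr_deriv ?_
  have h3 : (a : ℂ) * d - b * (15 * c) = 1 := by exact_mod_cast h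
  field_simp
  linear_combination h3

lemma hasDerivAt_qq (z : ℂ) : HasDerivAt qq (2 * Real.pi * Complex.I * qq z) z := by
  unfold qq
  have h8 : HasDerivAt (fun z : ℂ => 2 * Real.pi * Complex.I * z) (2 * Real.pi * Complex.I) z := by
    simpa using (hasDerivAt_id z).const_mul (2 * Real.pi * Complex.I : ℂ)
  refine h8.cexp.congr_deriv ?_
  ring

lemma const_of_deriv {g : ℂ → ℂ} (h : ∀ z : ℂ, 0 < z.im → HasDerivAt g 0 z) :
    ∃ c, ∀ z : ℂ, 0 < z.im → g z = c := by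
  refine ⟨g Complex.I, fun z hz => ?_⟩
  refine H_open.is_const_of_deriv_eq_zero (convex_halfSpace_im_gt 0).isPreconnected
    (fun w hw => (h w hw).differentiableAt.differentiableWithinAt) (fun w hw => (h w hw).deriv)
    hz (by simp : (0:ℝ) < Complex.I.im)

lemma line_im (z : ℂ) (t : ℝ) : (z + t * Complex.I).im = z.im + t := by simp

lemma line_re (z : ℂ) (t : ℝ) : (z + t * Complex.I).re = z.re := by simp

end Pool.Agent.XV.MT.G49
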