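import Pool.Agent.XV.MT.Sk
import Pool.Agent.W97.MT.Ident

/-!
Project XV, part T1: general lemmas on the functions of level `15` (helper59).
-/

set_option autoImplicit false

open Filter Topology MeasureTheory Set

namespace Pool.Agent.XV.MT

open Pool.Agent.W97.TW
open Pool.Agent.W97.MT (qq tt iI QV Rep norm_qq_lt qq_ne Q_ne Q_ne_pow eta_diff H_open im_mul Q_contOn
  Q_contOn1 QV_Q QV_Q1 Qq_analytic hasDerivAt_qq iI_pos comp_cont eq_or_eq_neg tpi_ne)

lemma eta_diffs {z : ℂ} (hz : 0 < z.im) : DifferentiableAt ℂ (fun w : ℂ => ModularForm.eta w) z ∧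
    DifferentiableAt ℂ (fun w : ℂ => ModularForm.eta (3 * w)) z ∧
    DifferentiableAt ℂ (fun w : ℂ => ModularForm.eta (5 * w)) z ∧
    DifferentiableAt ℂ (fun w : ℂ => ModularForm.eta (15 * w)) z := by
  have h1 := eta_diff hz 1 (by norm_num)
  have h3 := eta_diff hz 3 (by norm_num)
  have h5 := eta_diff hz 5 (by norm_num)
  have h15 := eta_diff hz 15 (by norm_num)
  push_cast at h1 h3 h5 h15
  simp only [one_mul] at h1
  exact ⟨h1, h3, h5, h15⟩

lemma eta_nes {z : ℂ} (hz : 0 < z.im) : ModularForm.eta z ≠ 0 ∧ ModularForm.eta (3 * z) ≠ 0 ∧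
    ModularForm.eta (5 * z) ≠ 0 ∧ ModularForm.eta (15 * z) ≠ 0 := by
  have h3 := ModularForm.eta_ne_zero (im_mul hz 3 (by norm_num))
  have h5 := ModularForm.eta_ne_zero (im_mul hz 5 (by norm_num))
  have h15 := ModularForm.eta_ne_zero (im_mul hz 15 (by norm_num))
  push_cast at h3 h5 h15
  exact ⟨ModularForm.eta_ne_zero hz, h3, h5, h15⟩

lemma ff_ne {z : ℂ} (hz : 0 < z.im) : ff z ≠ 0 := by
  obtain ⟨e1, e3, e5, e15⟩ := eta_nes hz
  exact mul_ne_zero (mul_ne_zero (mul_ne_zero e1 e3) e5) e15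

lemma X1_ne {z : ℂ} (hz : 0 < z.im) : X1 z ≠ 0 := by
  obtain ⟨e1, e3, e5, e15⟩ := eta_nes hz
  unfold X1
  positivity

lemma ff_diff {z : ℂ} (hz : 0 < z.im) : DifferentiableAt ℂ ff z := by
  obtain ⟨e1, e3, e5, e15⟩ := eta_diffs hz
  exact ((e1.mul e3).mul e5).mul e15

lemma X1_diff {z : ℂ} (hz : 0 < z.im) : DifferentiableAt ℂ X1 z := by
  obtain ⟨e1, e3, e5, e15⟩ := eta_diffs hz
  obtain ⟨n1, n3, n5, n15⟩ := eta_nes hz
  exact (((e1.inv n1).mul e3).mul (e5.pow 5)).mul ((e15.pow 5).inv (pow_ne_zero _ n15))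

lemma Y2_diff {z : ℂ} (hz : 0 < z.im) : DifferentiableAt ℂ Y2 z := by
  obtain ⟨e1, e3, e5, e15⟩ := eta_diffs hz
  obtain ⟨n1, n3, n5, n15⟩ := eta_nes hz
  exact (((e1.pow 2).mul (e3.pow 4)).mul (e5.pow 2)).mul ((e15.pow 8).inv (pow_ne_zero _ n15))

lemma RR_diff {z : ℂ} (hz : 0 < z.im) : DifferentiableAt ℂ RR z := by
  have h1 := X1_diff hz
  have h2 := Y2_diff hz
  unfold RR
  fun_prop

lemma R0_diff {z : ℂ} (hz : 0 < z.im) : DifferentiableAt ℂ R0 z := by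
  have h1 : DifferentiableOn ℂ X1 {z : ℂ | 0 < z.im} := fun w hw =>
    (X1_diff hw).differentiableWithinAt
  have h2 := (h1.deriv H_open).differentiableAt (H_open.mem_nhds hz)
  exact h2.div ((ff_diff hz).const_mul _) (mul_ne_zero tpi_ne (ff_ne hz))

lemma X1_cont : ContinuousOn X1 {z : ℂ | 0 < z.im} := fun _ hz =>
  (X1_diff hz).continuousAt.continuousWithinAt

lemma Y2_cont : ContinuousOn Y2 {z : ℂ | 0 < z.im} := fun _ hz =>
  (Y2_diff hz).continuousAt.continuousWithinAt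

lemma ff_cont : ContinuousOn ff {z : ℂ | 0 < z.im} := fun _ hz =>
  (ff_diff hz).continuousAt.continuousWithinAt

lemma Q_nes {z : ℂ} (hz : 0 < z.im) : Q (qq z) ≠ 0 ∧ Q (qq z ^ 3) ≠ 0 ∧ Q (qq z ^ 5) ≠ 0 ∧
    Q (qq z ^ 15) ≠ 0 :=
  ⟨Q_ne (norm_qq_lt hz), Q_ne_pow (norm_qq_lt hz) (by norm_num),
    Q_ne_pow (norm_qq_lt hz) (by norm_num), Q_ne_pow (norm_qq_lt hz) (by norm_num)⟩

lemma phi_ne {z : ℂ} (hz : 0 < z.im) : phi (qq z) ≠ 0 := by
  intro h0
  have hf := ff_ne hz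
  rw [ff_q, h0, mul_zero] at hf
  exact hf rfl

lemma qq_X1 {z : ℂ} (hz : 0 < z.im) : qq z ^ 2 * X1 z = xi (qq z) := by
  rw [X1_q hz]
  field_simp [qq_ne z]

lemma qq_Y2 {z : ℂ} (hz : 0 < z.im) : qq z ^ 4 * Y2 z = ups (qq z) := by
  rw [Y2_q hz]
  field_simp [qq_ne z]

lemma xi_zero : xi 0 = 1 := by
  unfold xi
  simp [Q_zero]

lemma ups_zero : ups 0 = 1 := by
  unfold ups
  simp [Q_zero]

lemma phi_zero : phi 0 = 1 := by
  unfold phi
  simp [Q_zero]

lemma xi_analytic : AnalyticAt ℂ xi 0 := by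
  have e1 := Qq_analytic 1 one_ne_zero
  have e3 := Qq_analytic 3 (by norm_num)
  have e5 := Qq_analytic 5 (by norm_num)
  have e15 := Qq_analytic 15 (by norm_num)
  simp only [pow_one] at e1
  exact (((e1.inv (by simp [Q_zero])).mul e3).mul (e5.pow 5)).mul
    ((e15.pow 5).inv (by simp [Q_zero]))

lemma ups_analytic : AnalyticAt ℂ ups 0 := by
  have e1 := Qq_analytic 1 one_ne_zero
  have e3 := Qq_analytic 3 (by norm_num)
  have e5 := Qq_analytic 5 (by norm_num)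
  have e15 := Qq_analytic 15 (by norm_num)
  simp only [pow_one] at e1
  exact (((e1.pow 2).mul (e3.pow 4)).mul (e5.pow 2)).mul ((e15.pow 8).inv (by simp [Q_zero]))

lemma phi_analytic : AnalyticAt ℂ phi 0 := by
  have e1 := Qq_analytic 1 one_ne_zero
  have e3 := Qq_analytic 3 (by norm_num)
  have e5 := Qq_analytic 5 (by norm_num)
  have e15 := Qq_analytic 15 (by norm_num)
  simp only [pow_one] at e1
  exact ((e1.mul e3).mul e5).mul e15

lemma QV_xi : QV (fun z => xi (qq z)) 1 := (QV.comp xi_analytic).of_val xi_zero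

lemma QV_ups : QV (fun z => ups (qq z)) 1 := (QV.comp ups_analytic).of_val ups_zero

lemma QV_phi : QV (fun z => phi (qq z)) 1 := (QV.comp phi_analytic).of_val phi_zero

lemma hasDerivAt_gamma {a b c d : ℤ} (h : a * d - b * (15 * c) = 1) {z : ℂ} (hz : 0 < z.im) :
    HasDerivAt (fun z : ℂ => (a * z + b) / (15 * c * z + d)) (((15 * c * z + d) ^ 2)⁻¹) z := by
  have h0 := (G_gamma h hz).2.1
  have h1 : HasDerivAt (fun w : ℂ => (a : ℂ) * w + b) a z := by
    simpa using ((hasDerivAt_id z).const_mul (a : ℂ)).add_const (b : ℂ)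
  have h2 : HasDerivAt (fun w : ℂ => 15 * (c : ℂ) * w + d) (15 * c) z := by
    simpa using ((hasDerivAt_id z).const_mul (15 * (c : ℂ))).add_const (d : ℂ)
  refine (h1.div h2 h0).congr_deriv ?_
  have h3 : (a : ℂ) * d - b * (15 * c) = 1 := by exact_mod_cast h
  field_simp
  linear_combination h3

theorem cp_zero (hcp : S_CP) {g : ℂ → ℂ} (hd : ∀ z : ℂ, 0 < z.im → DifferentiableAt ℂ g z)
    (hinv : Inv g) (h1 : QV g 0) {v15 v5 v3 : ℂ} (h15 : QV (fun z => g (m15 z)) v15)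
    (h5 : QV (fun z => g (m5 z)) v5) (h3 : QV (fun z => g (m3 z)) v3) :
    ∀ z : ℂ, 0 < z.im → g z = 0 := by
  obtain ⟨c, hc⟩ := hcp g (fun z hz => (hd z hz).differentiableWithinAt) hinv h1.bounded'
    h15.bounded h5.bounded h3.bounded
  have h3 : QV g c := (QV.const c).of_eq (iI_pos.mono fun z hz => hc z hz)
  have h4 := h3.val_unique h1
  intro z hz
  rw [hc z hz, h4]

/-- `R0` in terms of `q` -/
lemma R0_q {Ξ : PowerSeries ℤ} (hΞ : Rep xi Ξ) {z : ℂ} (hz : 0 < z.im) :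
    qq z ^ 3 * (R0 z * phi (qq z)) = qq z * deriv xi (qq z) - 2 * xi (qq z) := by
  have hx : DifferentiableAt ℂ xi (qq z) :=
    (Pool.Agent.W97.MT.RepC.differentiableOn hΞ).differentiableAt (Metric.isOpen_ball.mem_nhds
      (by simpa using norm_qq_lt hz))
  have hq := qq_ne z
  have h1 := (hx.hasDerivAt.comp z (hasDerivAt_qq z)).div ((hasDerivAt_qq z).pow 2)
    (pow_ne_zero 2 hq)
  have h2 : X1 =ᶠ[𝓝 z] (xi ∘ qq) / (qq ^ 2) := by
    filter_upwards [H_open.mem_nhds hz] with w hw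
    exact X1_q hw
  have h3 := (h1.congr_of_eventuallyEq h2).deriv
  have hf := ff_ne hz
  have hph := phi_ne hz
  have hI : (Complex.I : ℂ) ≠ 0 := Complex.I_ne_zero
  have hpi : (Real.pi : ℂ) ≠ 0 := by exact_mod_cast Real.pi_ne_zero
  unfold R0
  rw [h3, ff_q]
  simp only [Function.comp_apply, Pi.pow_apply]
  field_simp
  push_cast
  ring

end Pool.Agent.XV.MT
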