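import Pool.Agent.XV.MT.Sk2
import Pool.Agent.Y700.Lm

/-!
The central values of the `L`-functions of the twists of `X_0(15)` by `-n`, `n = 3 mod 4`
(port of `Y700/Lm.lean`, odd quadratic characters).
-/

set_option autoImplicit false
set_option linter.style.haveILetI false

open Complex Filter Topology Set UpperHalfPlane MatrixGroups CongruenceSubgroup ZMod

namespace Pool.Agent.XV.MT

namespace LV

open Pool.Agent.W97.MT (ap)
open Pool.Agent.Y687 (SS rr mem_rr)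
open Pool.Agent.H491R3.J (OS)
open Pool.Agent.Y700 (IsL)
open Pool.Agent.XV.T (W15)

/-- the square of the Gauss sum -/
theorem gs_sq (d : OS) (h4 : d.1 % 4 = 3) :
    (gaussSum (H491R3.J.chi d) (stdAddChar (N := d.1))) ^ 2 = -(d.1 : ℂ) := by
  have h1 := Pool.Agent.W378.CY.gauss_prod d.1 (H491R3.J.chi d) (H491R3.J.chi_primitive d)
  rw [H491R3.J.chi_inv d, H491R3.J.chi_neg_one, if_neg (by omega)] at h1
  rw [sq]
  linear_combination -h1

/-- the `L`-function of the twist by `-n` -/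
theorem exists_LM (hap : S_AP15) (hdel : S_DEL15) (hL : XL) (n : ℕ) [NeZero n] (hsq : Squarefree n)
    (h1 : 1 < n) (h4 : n % 4 = 3) (h15 : Nat.Coprime n 15) :
    ∃ (f : ℂ → ℂ) (τ : ℂ), IsL (W15 (-(n : ℤ))) f ∧ τ ^ 2 = -(n : ℂ) ∧
      τ * f 1 = ∑ u : (ZMod n)ˣ, ((jacobiSym (((u : ZMod n).val : ℕ) : ℤ) n : ℤ) : ℂ) *
        II (((u : ZMod n).val : ℚ) / n) := by
  classical
  have hodd : Odd n := Nat.odd_iff.2 (by omega)
  set d : OS := ⟨n, hodd, hsq, h1⟩ with hd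
  obtain ⟨g, hg1, hg2, hg3⟩ := hL n h15 (H491R3.J.chi d) (H491R3.J.chi_primitive d)
  have hchi : ∀ m : ℕ, H491R3.J.chi d (m : ZMod n) = ((jacobiSym (m : ℤ) n : ℤ) : ℂ) :=
    H491R3.J.chi_natCast d
  refine ⟨g, gaussSum (H491R3.J.chi d) (stdAddChar (N := n)), ⟨hg1, ?_⟩, gs_sq d h4, ?_⟩
  · intro s hs
    refine (congrArg (fun g => HasProd g _) (funext fun p => ?_)).mp (hg2 s hs)
    have hpp : (p : ℕ).Prime := p.2
    rw [hchi, hap n h4 p hpp]
    by_cases hpM : (p : ℕ) ∣ n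
    · have hbad : ((p : ℕ) : ℤ) ∣ (W15 (-(n : ℤ))).Δ := (hdel n h4 p hpp).2 (Or.inr hpM)
      have h0 : jacobiSym ((p : ℕ) : ℤ) n = 0 := by
        rw [jacobiSym.eq_zero_iff_not_coprime, Int.gcd_natCast_natCast]
        intro hg
        have := Nat.dvd_gcd (dvd_refl (p : ℕ)) hpM
        rw [hg] at this
        exact hpp.one_lt.ne' (Nat.dvd_one.1 this)
      rw [h0, if_pos hbad]
      simp
    · have hx : jacobiSym ((p : ℕ) : ℤ) n = 1 ∨ jacobiSym ((p : ℕ) : ℤ) n = -1 := by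
        refine jacobiSym.eq_one_or_neg_one ?_
        rw [Int.gcd_natCast_natCast]
        exact (Nat.Prime.coprime_iff_not_dvd hpp).2 hpM
      have hx2 : ((jacobiSym ((p : ℕ) : ℤ) n : ℤ) : ℂ) ^ 2 = 1 := by
        rcases hx with h | h <;> rw [h] <;> norm_num
      rw [hx2]
      have hΔ : ((p : ℕ) : ℤ) ∣ (W15 (-(n : ℤ))).Δ ↔ (p : ℕ) ∣ 15 := by
        rw [hdel n h4 p hpp]
        tauto
      by_cases h15' : (p : ℕ) ∣ 15
      · rw [if_pos h15', if_pos (hΔ.2 h15')]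
        push_cast
        ring
      · rw [if_neg h15', if_neg (fun h => h15' (hΔ.1 h)), mul_one,
          Pool.Agent.Y687.p_cpow hpp.ne_zero]
        push_cast
        ring
  · have hinv : (H491R3.J.chi d)⁻¹ = H491R3.J.chi d := H491R3.J.chi_inv d
    rw [hinv] at hg3
    rw [hg3]
    refine Finset.sum_congr rfl fun u _ => ?_
    rw [← hchi, ZMod.natCast_zmod_val]

/-- the sum over the classes is purely imaginary -/
theorem sum_imag (hi : IIOK) (n : ℕ) [NeZero n] (h1 : 1 < n) (h4 : n % 4 = 3) :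
    (∑ u : (ZMod n)ˣ, ((jacobiSym (((u : ZMod n).val : ℕ) : ℤ) n : ℤ) : ℂ) *
        II (((u : ZMod n).val : ℚ) / n)).re = 0 := by
  set T := ∑ u : (ZMod n)ˣ, ((jacobiSym (((u : ZMod n).val : ℕ) : ℤ) n : ℤ) : ℂ) *
        II (((u : ZMod n).val : ℚ) / n) with hT
  have h : T = -starRingEnd ℂ T := by
    rw [hT, map_sum, ← Finset.sum_neg_distrib]
    refine Fintype.sum_equiv (Equiv.neg (ZMod n)ˣ) _ _ fun u => ?_
    rw [map_mul, map_intCast, ← hi.conj]
    haveI : Nontrivial (ZMod n) := ZMod.nontrivial_iff.2 (by omega)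
    have hu0 : (u : ZMod n) ≠ 0 := u.ne_zero
    haveI : NeZero (u : ZMod n) := ⟨hu0⟩
    have hval : (((Equiv.neg (ZMod n)ˣ) u : (ZMod n)ˣ) : ZMod n).val = n - (u : ZMod n).val := by
      rw [Equiv.neg_apply, Units.val_neg, ZMod.val_neg_of_ne_zero]
    have hlt : (u : ZMod n).val ≤ n := (ZMod.val_lt _).le
    rw [hval, ← neg_mul]
    congr 1
    · rw [← Int.cast_neg]
      congr 1
      rw [Nat.cast_sub hlt]
      rw [show ((n : ℤ) - (((u : ZMod n).val : ℕ) : ℤ)) = -(((u : ZMod n).val : ℕ) : ℤ) + n * 1 by ring]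
      have e2 : jacobiSym (-(((u : ZMod n).val : ℕ) : ℤ) + n * 1) n =
          jacobiSym (-(((u : ZMod n).val : ℕ) : ℤ)) n := by
        refine jacobiSym.mod_left' ?_
        rw [Int.add_mul_emod_self_left]
      rw [e2, jacobiSym.neg _ (Nat.odd_iff.2 (by omega)), ZMod.χ₄_nat_eq_if_mod_four, h4]
      have : n % 2 = 1 := by omega
      rw [this]
      norm_num
    · have hMQ : (n : ℚ) ≠ 0 := by exact_mod_cast (by omega : n ≠ 0)
      have e3 : -(((n - (u : ZMod n).val : ℕ) : ℚ) / n) + 1 = ((u : ZMod n).val : ℚ) / n := by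
        rw [Nat.cast_sub hlt]
        field_simp
        ring
      rw [← e3, hi.per]
  have h3 := congrArg Complex.re h
  rw [Complex.neg_re, Complex.conj_re] at h3
  linarith

/-- the denominators -/
theorem den_ok {n : ℕ} (h0 : n ≠ 0) (h15 : Nat.Coprime n 15) (a : ℕ) :
    ¬ (3 : ℤ) ∣ ((a : ℚ) / n).den ∧ ¬ (5 : ℤ) ∣ ((a : ℚ) / n).den := by
  have h1 : ((((a : ℚ) / n).den : ℕ) : ℤ) ∣ (n : ℤ) := by
    have h2 : ((a : ℚ) / n) = ((a : ℤ) : ℚ) / ((n : ℤ) : ℚ) := by push_cast; rfl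
    rw [h2, ← Rat.divInt_eq_div]
    exact Rat.den_dvd (a : ℤ) (n : ℤ)
  constructor
  · intro h
    have h3 : ((3 : ℕ) : ℤ) ∣ (n : ℤ) := by
      push_cast
      exact h.trans h1
    have h4 : 3 ∣ n := by exact_mod_cast h3
    have h5 : 3 ∣ Nat.gcd n 15 := Nat.dvd_gcd h4 (by norm_num)
    rw [h15] at h5
    omega
  · intro h
    have h3 : ((5 : ℕ) : ℤ) ∣ (n : ℤ) := by
      push_cast
      exact h.trans h1
    have h4 : 5 ∣ n := by exact_mod_cast h3
    have h5 : 5 ∣ Nat.gcd n 15 := Nat.dvd_gcd h4 (by norm_num)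
    rw [h15] at h5
    omega

end LV

open LV in
/-- LV15 -/
theorem t_LV15 : S_LV15 := by
  intro hap hdel hL hi s Om hs n hsq h4 h15
  have h1 : 1 < n := by omega
  haveI : NeZero n := ⟨by omega⟩
  obtain ⟨f, τ, hf, hτ, hv⟩ := exists_LM hap hdel hL n hsq h1 h4 h15
  have hre := sum_imag hi n h1 h4
  have him : (∑ u : (ZMod n)ˣ, ((jacobiSym (((u : ZMod n).val : ℕ) : ℤ) n : ℤ) : ℂ) *
        II (((u : ZMod n).val : ℚ) / n)).im = Pool.Agent.Y687.SS s n n * Om := by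
    unfold Pool.Agent.Y687.SS
    rw [Pool.Agent.Y687.sum_rrC (M := n)
      (fun a => ((jacobiSym (a : ℤ) n : ℤ) : ℂ) * II ((a : ℚ) / n)) |>.symm, Complex.im_sum]
    push_cast
    rw [Finset.sum_mul]
    refine Finset.sum_congr rfl fun a _ => ?_
    have h3 : ((jacobiSym (a : ℤ) n : ℤ) : ℂ) = (((jacobiSym (a : ℤ) n : ℤ) : ℝ) : ℂ) := by
      push_cast; rfl
    rw [h3, Complex.im_ofReal_mul]
    obtain ⟨d3, d5⟩ := den_ok (by omega) h15 a
    have := hs ((a : ℚ) / n) d3 d5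
    rw [this]
    ring
  set T := ∑ u : (ZMod n)ˣ, ((jacobiSym (((u : ZMod n).val : ℕ) : ℤ) n : ℤ) : ℂ) *
        II (((u : ZMod n).val : ℚ) / n) with hT
  have hTr : T = ((Pool.Agent.Y687.SS s n n * Om : ℝ) : ℂ) * Complex.I := by
    apply Complex.ext
    · rw [Complex.re_ofReal_mul, Complex.I_re, mul_zero]
      exact hre
    · rw [Complex.im_ofReal_mul, Complex.I_im, mul_one]
      exact him
  have hMR : (0 : ℝ) < n := by exact_mod_cast (by omega : 0 < n)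
  have hsq0 : (Real.sqrt n) ≠ 0 := (Real.sqrt_pos.2 hMR).ne'
  have h6 : ((Real.sqrt n : ℝ) : ℂ) ^ 2 = n := by
    rw [← Complex.ofReal_pow, Real.sq_sqrt hMR.le]
    simp
  have hcases : τ = Real.sqrt n * Complex.I ∨ τ = -(Real.sqrt n * Complex.I) := by
    have h5 : (τ - Real.sqrt n * Complex.I) * (τ + Real.sqrt n * Complex.I) = 0 := by
      linear_combination hτ + h6 - ((Real.sqrt n : ℝ) : ℂ) ^ 2 * Complex.I_sq
    rcases mul_eq_zero.1 h5 with h | h
    · left; linear_combination h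
    · right; linear_combination h
  have hsqc : ((Real.sqrt n : ℝ) : ℂ) ≠ 0 := by exact_mod_cast hsq0
  have hI := Complex.I_ne_zero
  rcases hcases with h | h
  · refine ⟨f, 1, Or.inl rfl, hf, ?_⟩
    rw [h, hTr] at hv
    have h7 : ((Real.sqrt n : ℝ) : ℂ) * f 1 = ((Pool.Agent.Y687.SS s n n * Om : ℝ) : ℂ) := by
      apply mul_right_cancel₀ hI
      rw [← hv]
      ring
    push_cast at h7 ⊢
    rw [one_mul, ← mul_div_assoc, ← h7, mul_div_cancel_left₀ _ hsqc]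
  · refine ⟨f, -1, Or.inr rfl, hf, ?_⟩
    rw [h, hTr] at hv
    have h7 : ((Real.sqrt n : ℝ) : ℂ) * f 1 = -((Pool.Agent.Y687.SS s n n * Om : ℝ) : ℂ) := by
      apply mul_right_cancel₀ hI
      rw [neg_mul, ← hv]
      ring
    push_cast at h7 ⊢
    have h8 : (-1 : ℂ) * (Pool.Agent.Y687.SS s n n : ℂ) * (Om / (Real.sqrt n : ℂ)) =
        (-((Pool.Agent.Y687.SS s n n : ℂ) * Om)) / (Real.sqrt n : ℂ) := by ring
    rw [h8, ← h7, mul_div_cancel_left₀ _ hsqc]

end Pool.Agent.XV.MT
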