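import Pool.Agent.XV.MT.Sk2
import Pool.Agent.XV.Uod

/-!
# Project XV, part T1: the integral odd symbol (S_SY15)

The values of the symbol at the cusps `x / M`, `M` prime to `15`, are multiples of the value at
`1/4`, and they generate the group of the integers by the optimality.
-/

set_option autoImplicit false

open Filter Topology MeasureTheory Set

namespace Pool.Agent.XV.MT

namespace SY15

open Pool.Agent.XV.Uod
open Pool.Agent.W97.MT (affCount ap)

theorem eleven' {D : ℤ → ℤ → ℚ} (H : Hm D) (h516 : D 5 16 = 0) : D 4 11 = D 1 4 := by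
  have h2 := H.two
  have r1 := H.aff 19 (-7) 30 (-11) (by norm_num) ⟨2, by norm_num⟩ 1 2 ⟨1, -7, by norm_num⟩
    (by norm_num) (by norm_num)
  have r2 := H.aff 14 (-5) 45 (-16) (by norm_num) ⟨3, by norm_num⟩ 1 2 ⟨1, -7, by norm_num⟩
    (by norm_num) (by norm_num)
  have r3 := H.aff 4 (-3) 15 (-11) (by norm_num) ⟨1, by norm_num⟩ 5 8 ⟨3, -28, by norm_num⟩
    (by norm_num) (by norm_num)
  have r4 := H.aff 4 (-3) 15 (-11) (by norm_num) ⟨1, by norm_num⟩ 1 1 ⟨0, 1, by norm_num⟩
    (by norm_num) (by norm_num)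
  have a1 := H.neg2 7 11 (by norm_num)
  have a2 := H.per (-4) 11 (by norm_num)
  have a3 := H.odd 4 11 (by norm_num)
  have b1 := H.neg2 5 16 (by norm_num)
  have b2 := H.neg2 4 13 (by norm_num)
  have b3 := H.neg2 3 11 (by norm_num)
  have b4 := H.neg2 1 4 (by norm_num)
  have b5 := H.one 1
  norm_num at r1 r2 r3 r4 a1 a2 a3 b1 b2 b3 b4
  linarith

theorem mem_of {D : ℤ → ℤ → ℚ} (H : Hm D) (S : AddSubgroup ℚ) (h14 : D 1 4 ∈ S)
    (h411 : D 4 11 ∈ S) (n : ℕ) :
    ∀ x M : ℤ, M.natAbs = n → M ≠ 0 → IsCoprime (15 * x) M → D x M ∈ S := by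
  have neg0 : ∀ {x M : ℤ}, M ≠ 0 → D x M ∈ S → D (-x) M ∈ S := by
    intro x M hM h
    rw [H.odd x M hM]
    exact neg_mem h
  have neg20 : ∀ {x M : ℤ}, M ≠ 0 → D x M ∈ S → D (-x) (-M) ∈ S := by
    intro x M hM h
    rw [H.neg2 x M hM]
    exact h
  have z0 : ∀ {r : ℚ}, r = 0 → r ∈ S := by
    rintro r rfl
    exact zero_mem _
  induction n using Nat.strong_induction_on with
  | _ n ih =>
    intro x M hn hM0 hcop
    -- reduction to positive denominators
    wlog hMp : 0 < M generalizing x M
    · have h1 := this (-x) (-M) (by rw [Int.natAbs_neg, hn]) (neg_ne_zero.2 hM0)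
        (by rw [mul_neg]; exact hcop.neg_neg) (by omega)
      rwa [H.neg2 x M hM0] at h1
    rcases eq_or_ne M 1 with rfl | hM1
    · exact z0 (H.one x)
    -- the general step
    have step : ∀ (y : ℤ), IsCoprime (15 * y) M → 0 < y → 2 * y < M → D y M ∈ S := by
      intro y hy hy0 hy1
      have hnd' : ∀ j : ℤ, 15 * y ≠ j * M := by
        intro j hj
        have h3 := hy.isUnit_of_dvd' (Dvd.intro_left j hj.symm) (dvd_refl M)
        rw [Int.isUnit_iff] at h3
        omega
      have main : ∀ (A B E : ℤ) (c : ℕ), A * E - B * (15 * c) = 1 → 0 < c → c ≤ 2 →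
          |15 * c * y + E * M| < M → D B E ∈ S → D y M ∈ S := by
        intro A B E c hdet hc hc2 hlt hBD
        have hK : 15 * (c : ℤ) * y + E * M ≠ 0 := by
          intro h0
          obtain ⟨u, v, huv⟩ := hy
          have h1 : M ∣ (c : ℤ) := by
            refine ⟨v * c - u * E, ?_⟩
            linear_combination u * h0 - (c : ℤ) * huv
          have h2 := Int.le_of_dvd (by exact_mod_cast hc) h1
          have h3 : (c : ℤ) ≤ 2 := by exact_mod_cast hc2
          omega
        have h3 := H.aff A B (15 * c) E hdet ⟨c, rfl⟩ y M hy hM0 hK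
        have h3' : D y M = D (A * y + B * M) (15 * c * y + E * M) - D B E := by
          rw [h3]; ring
        rw [h3']
        refine sub_mem (ih _ ?_ _ _ rfl hK ?_) hBD
        · rw [← hn]
          zify
          rw [abs_of_pos hMp]
          exact hlt
        · -- coprimality
          obtain ⟨u, v, huv⟩ := hy
          have h15 : IsCoprime (15 : ℤ) (15 * (c : ℤ) * y + E * M) := by
            have h1 : IsCoprime (15 : ℤ) (E * M) := by
              refine IsCoprime.mul_right ⟨-(B * c), A, by linear_combination hdet⟩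
                ⟨u * y, v, by linear_combination huv⟩
            have h2 : 15 * (c : ℤ) * y + E * M = E * M + 15 * (c * y) := by ring
            rw [h2]
            exact (IsCoprime.add_mul_left_right_iff).2 h1
          refine IsCoprime.mul_left h15 ?_
          -- Bezout from the inverse matrix
          refine ⟨u * 15 * E - v * (15 * c), -(u * 15 * B) + v * A, ?_⟩
          linear_combination (u * 15 * y + v * M) * hdet + huv
      have c1 : 15 * y < 2 * M ∨ (2 * M < 15 * y ∧ 15 * y < 3 * M) ∨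
          (3 * M < 15 * y ∧ 15 * y < 5 * M) ∨ (5 * M < 15 * y ∧ 15 * y < 6 * M) ∨
          (6 * M < 15 * y ∧ 15 * y < 8 * M) := by
        have := hnd' 2
        have := hnd' 3
        have := hnd' 5
        have := hnd' 6
        omega
      rcases c1 with c1 | c1 | c1 | c1 | c1
      · refine main (-1) 0 (-1) 1 (by norm_num) one_pos (by norm_num) ?_ ?_
        · rw [abs_lt]
          push_cast
          constructor <;> omega
        · exact z0 (H.zero (by norm_num))
      · refine main 7 (-1) (-2) 1 (by norm_num) one_pos (by norm_num) ?_ ?_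
        · rw [abs_lt]
          push_cast
          constructor <;> omega
        · exact z0 (H.neg20 (by norm_num) H.two)
      · refine main (-4) 1 (-4) 1 (by norm_num) one_pos (by norm_num) ?_ ?_
        · rw [abs_lt]
          push_cast
          constructor <;> omega
        · have h1 := neg20 (by norm_num) (neg0 (by norm_num) h14)
          exact h1
      · refine main (-11) 4 (-11) 2 (by norm_num) two_pos le_rfl ?_ ?_
        · rw [abs_lt]
          push_cast
          constructor <;> omega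
        · have h1 := neg20 (by norm_num) (neg0 (by norm_num) h411)
          exact h1
      · refine main 2 (-1) (-7) 1 (by norm_num) one_pos (by norm_num) ?_ ?_
        · rw [abs_lt]
          push_cast
          constructor <;> omega
        · exact z0 (H.neg20 (by norm_num) H.seven)
    -- reduce `x` modulo `M`
    obtain ⟨y, m, hxy, hy0, hyM⟩ : ∃ y m : ℤ, x = y + m * M ∧ 0 ≤ y ∧ y < M :=
      ⟨x % M, x / M, by linear_combination -(Int.emod_add_mul_ediv x M), Int.emod_nonneg _ hM0,
        Int.emod_lt_of_pos _ hMp⟩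
    have hcy : IsCoprime (15 * y) M := by
      have h1 : 15 * x = 15 * y + (15 * m) * M := by rw [hxy]; ring
      rw [h1] at hcop
      exact (IsCoprime.add_mul_right_left_iff).1 hcop
    rw [hxy, H.add _ hM0]
    rcases eq_or_ne y 0 with rfl | hy00
    · exact z0 (H.zero hM0)
    rcases lt_trichotomy (2 * y) M with h1 | h1 | h1
    · exact step y hcy (by omega) h1
    · have h2 : y ∣ 1 := by
        obtain ⟨u, v, huv⟩ := hcy
        refine ⟨u * 15 + v * 2, ?_⟩
        rw [← huv, ← h1]
        ring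
      have h3 := Int.le_of_dvd one_pos h2
      have h4 : y = 1 := by omega
      subst h4
      rw [← h1]
      exact z0 H.two
    · have h2 : IsCoprime (15 * (M - y)) M := by
        have h3 : 15 * (M - y) = -(15 * y) + 15 * M := by ring
        rw [h3]
        exact (IsCoprime.add_mul_right_left_iff).2 hcy.neg_left
      have h3 := step (M - y) h2 (by omega) (by omega)
      have h4 := neg0 hM0 h3
      have h5 := H.add (-(M - y)) hM0 1
      have e : -(M - y) + 1 * M = y := by ring
      rw [e] at h5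
      rw [h5]
      exact h4

/-- the rational numbers with denominator prime to `15` -/
def Ok (r : ℚ) : Prop := ∃ a c : ℤ, IsCoprime 15 c ∧ r = a / c

theorem ok_iff (r : ℚ) : Ok r ↔ (¬ (3 : ℤ) ∣ r.den ∧ ¬ (5 : ℤ) ∣ r.den) := by
  have h35 : ∀ c : ℤ, IsCoprime 15 c ↔ ¬ (3 : ℤ) ∣ c ∧ ¬ (5 : ℤ) ∣ c := by
    intro c
    rw [show (15 : ℤ) = 3 * 5 by norm_num, IsCoprime.mul_left_iff]
    have h3 : Prime (3 : ℤ) := Int.prime_three
    have h5 : Prime (5 : ℤ) := Nat.prime_iff_prime_int.1 (by norm_num : Nat.Prime 5)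
    rw [h3.coprime_iff_not_dvd, h5.coprime_iff_not_dvd]
  rw [← h35]
  constructor
  · rintro ⟨a, c, hc, rfl⟩
    have hd := Rat.den_dvd a c
    have h1 : (((a : ℚ) / (c : ℚ)).den : ℤ) ∣ c := by
      have : ((a : ℚ) / (c : ℚ)) = Rat.divInt a c := (Rat.divInt_eq_div a c).symm
      rw [this]
      exact hd
    exact hc.of_isCoprime_of_dvd_right h1
  · intro h
    exact ⟨r.num, r.den, h, by push_cast; exact (Rat.num_div_den r).symm⟩

theorem ok_ne {c : ℤ} (h : IsCoprime 15 c) : (c : ℚ) ≠ 0 := by
  rintro h0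
  have : c = 0 := by exact_mod_cast h0
  subst this
  obtain ⟨u, v, huv⟩ := h
  omega

theorem Ok.add_int {r : ℚ} (h : Ok r) (b : ℤ) : Ok (r + b) := by
  obtain ⟨a, c, hc, rfl⟩ := h
  refine ⟨a + b * c, c, hc, ?_⟩
  have := ok_ne hc
  push_cast
  field_simp

theorem Ok.neg {r : ℚ} (h : Ok r) : Ok (-r) := by
  obtain ⟨a, c, hc, rfl⟩ := h
  exact ⟨-a, c, hc, by push_cast; ring⟩

theorem Ok.mul {r : ℚ} (h : Ok r) (q : ℤ) : Ok (q * r) := by
  obtain ⟨a, c, hc, rfl⟩ := h
  exact ⟨q * a, c, hc, by push_cast; ring⟩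

theorem Ok.div {r : ℚ} (h : Ok r) {q : ℤ} (hq : IsCoprime 15 q) : Ok (r / q) := by
  obtain ⟨a, c, hc, rfl⟩ := h
  refine ⟨a, c * q, hc.mul_right hq, ?_⟩
  push_cast
  rw [div_div]

end SY15

open SY15
open Pool.Agent.W97.TW
open Pool.Agent.W97.MT (qq tt iI QV Rep affCount ap hecke prim)

theorem t_SY15 : S_SY15 := by
  classical
  intro hlat hmin hcm _hprim hii hall
  obtain ⟨L, Op, Om, hOp, hOm, g2, g3, hL⟩ := hlat
  obtain ⟨hI, hP⟩ := hall L g2 g3
  have hab : ∀ r : ℚ, ∃ b : ℤ, (Ok r → (II r).im = b * Om) ∧ (¬ Ok r → b = 0) := by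
    intro r
    by_cases h : Ok r
    · obtain ⟨h3, h5⟩ := (ok_iff r).1 h
      obtain ⟨a, b, hb⟩ := (hL _).1 (hI.cop r h3 h5)
      refine ⟨b, fun _ => ?_, fun h' => absurd h h'⟩
      have h1 := congrArg Complex.im hb
      rw [Complex.sub_im, hii.im0] at h1
      simpa using h1
    · exact ⟨0, fun h' => absurd h' h, fun _ => rfl⟩
  choose s him hz using hab
  have injm : ∀ x y : ℤ, (x : ℝ) * Om = y * Om → x = y := fun x y h => by
    exact_mod_cast mul_right_cancel₀ hOm.ne' h
  have hneg : ∀ x, s (-x) = -s x := by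
    intro x
    by_cases h : Ok x
    · apply injm
      push_cast
      rw [← him _ h.neg, neg_mul, ← him _ h, hii.conj, Complex.conj_im]
    · have h' : ¬ Ok (-x) := fun h1 => h (by simpa using h1.neg)
      rw [hz _ h, hz _ h', neg_zero]
  have hper : ∀ x, s (x + 1) = s x := by
    intro x
    by_cases h : Ok x
    · apply injm
      have h1 : Ok (x + 1) := by simpa using h.add_int 1
      rw [← him _ h1, ← him _ h, hii.per]
    · have h' : ¬ Ok (x + 1) := fun h1 => h (by simpa using h1.add_int (-1))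
      rw [hz _ h, hz _ h']
  have hcq : ∀ q : ℕ, q.Prime → ¬ q ∣ 15 → IsCoprime (15 : ℤ) (q : ℤ) := by
    intro q hq hq15
    have h1 := (Nat.Prime.coprime_iff_not_dvd hq).2 hq15
    exact (Nat.isCoprime_iff_coprime.2 h1).symm
  have hS : SyM s (fun q => ap E15 q) := by
    refine ⟨hper, hneg, ?_, ?_, ?_⟩
    · intro q hq hq15 x
      have hc := hcq q hq hq15
      have hq0 : (q : ℚ) ≠ 0 := by exact_mod_cast hq.ne_zero
      by_cases h : Ok x
      · have o1 : Ok (q * x) := by exact_mod_cast h.mul q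
        have o2 : ∀ b : ℕ, Ok ((x + b) / q) := fun b => by
          exact_mod_cast (h.add_int b).div hc
        apply injm
        push_cast
        have h1 := congrArg Complex.im (hii.hec q hq hq15 x)
        rw [Complex.add_im, Complex.im_sum] at h1
        have h2 : ((ap E15 q : ℂ) * II x).im = (ap E15 q : ℝ) * (II x).im := by
          simp
        rw [h2] at h1
        rw [add_mul, Finset.sum_mul, ← him _ o1, mul_assoc, ← him _ h]
        have h3 : ∀ b ∈ Finset.range q, (s ((x + b) / q) : ℝ) * Om = (II ((x + b) / q)).im :=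
          fun b _ => (him _ (o2 b)).symm
        rw [Finset.sum_congr rfl h3]
        exact h1
      · have o1 : ¬ Ok (q * x) := by
          intro h1
          apply h
          have h2 := h1.div hc
          have e : (q : ℚ) * x / ((q : ℤ) : ℚ) = x := by
            push_cast
            field_simp
          rwa [e] at h2
        have o2 : ∀ b : ℕ, ¬ Ok ((x + b) / q) := by
          intro b h1
          apply h
          have h2 := (h1.mul q).add_int (-(b : ℤ))
          have e : (((q : ℤ) : ℚ) * ((x + b) / q)) + ((-(b : ℤ) : ℤ) : ℚ) = x := by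
            push_cast
            field_simp
            ring
          rwa [e] at h2
        rw [hz _ h, hz _ o1, mul_zero, zero_add]
        exact (Finset.sum_eq_zero fun b _ => hz _ (o2 b)).symm
    · intro A B C' D hdet x c hc
      have hD : IsCoprime 15 D := ⟨-(B * C'), A, by linear_combination hdet⟩
      have hc' : IsCoprime 15 c := by
        obtain ⟨u, v, huv⟩ := hc
        exact ⟨u * x, v, by linear_combination huv⟩
      have hk : IsCoprime 15 (15 * C' * x + D * c) := by
        have h1 : IsCoprime (15 : ℤ) (D * c) := hD.mul_right hc'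
        have h2 : 15 * C' * x + D * c = D * c + 15 * (C' * x) := by ring
        rw [h2]
        exact (IsCoprime.add_mul_left_right_iff).2 h1
      apply injm
      have h1 := congrArg Complex.im (hii.aff A B C' D hdet x c hc)
      rw [Complex.sub_im, Complex.add_im, hii.im0, sub_zero] at h1
      rw [← him _ ⟨_, _, hk, rfl⟩, h1, him _ ⟨x, c, hc', rfl⟩, him _ ⟨B, D, hD, rfl⟩]
      push_cast
      ring
    · have h1 := hmin.1
      simp only [ap, h1]
      norm_num
  refine ⟨s, L, Op, Om, hOp, hOm, g2, g3, hL, hS, ?_, fun r h3 h5 => him r ((ok_iff r).2 ⟨h3, h5⟩)⟩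
  obtain ⟨hcoc, hodd, h516⟩ := hcm s _ hS
  -- the values are multiples of the value at `1/4`
  have hq : CocR (fun x M => (s ((x : ℚ) / M) : ℚ)) :=
    ⟨fun x M _ => by exact_mod_cast hcoc.neg2 x M, fun x M _ => by exact_mod_cast hcoc.per x M,
      fun a b c d h1 h2 x M h3 _ _ => by exact_mod_cast hcoc.aff a b c d h1 h2 x M h3⟩
  have hp : ∀ x M : ℤ, M ≠ 0 → (fun x M : ℤ => (s ((x : ℚ) / M) : ℚ)) (-x) M =
      - (fun x M : ℤ => (s ((x : ℚ) / M) : ℚ)) x M := by
    intro x M _
    have := hodd x M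
    simp only
    rw [this]
    push_cast
    rfl
  have H := Uod.comb hq hq hp hp 0 1
  have e14 : s (((1 : ℤ) : ℚ) / ((4 : ℤ) : ℚ)) = s (1 / 4) := by
    push_cast; rfl
  have h516' : (fun x M : ℤ => (fun x M : ℤ => (s ((x : ℚ) / M) : ℚ)) x M * 1 -
      (fun x M : ℤ => (s ((x : ℚ) / M) : ℚ)) x M * 0) (5 : ℤ) (16 : ℤ) = 0 := by
    simp [h516]
  have h411 := eleven' H h516'
  set S : AddSubgroup ℚ := AddSubgroup.zmultiples ((s (1 / 4) : ℤ) : ℚ) with hSdef
  have m14 : (fun x M : ℤ => (fun x M : ℤ => (s ((x : ℚ) / M) : ℚ)) x M * 1 -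
      (fun x M : ℤ => (s ((x : ℚ) / M) : ℚ)) x M * 0) (1 : ℤ) (4 : ℤ) ∈ S := by
    have e : (fun x M : ℤ => (fun x M : ℤ => (s ((x : ℚ) / M) : ℚ)) x M * 1 -
      (fun x M : ℤ => (s ((x : ℚ) / M) : ℚ)) x M * 0) (1 : ℤ) (4 : ℤ) = ((s (1 / 4) : ℤ) : ℚ) := by
      simp
    rw [e]
    exact AddSubgroup.mem_zmultiples _
  have m411 : (s (((4 : ℤ) : ℚ) / ((11 : ℤ) : ℚ)) : ℚ) * 1 -
      (s (((4 : ℤ) : ℚ) / ((11 : ℤ) : ℚ)) : ℚ) * 0 ∈ S := by
    rw [h411]
    exact m14
  have key := mem_of H S m14 m411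
  -- the period
  have hmem : ((Om : ℂ) * Complex.I) ∈ L.lattice := (hL _).2 ⟨0, 1, by push_cast; ring⟩
  obtain ⟨a, b, c, d, hdet, hF⟩ := (hP _).1 hmem
  have hv := hii.pval a b c d hdet _ hF
  have hcop : IsCoprime (15 * b) d := ⟨-c, a, by linear_combination hdet⟩
  have hd : IsCoprime 15 d := ⟨-(b * c), a, by linear_combination hdet⟩
  have hd0 : d ≠ 0 := by
    have := ok_ne hd
    exact_mod_cast this
  have h1 := congrArg Complex.im hv
  rw [Complex.sub_im, hii.im0, him _ ⟨b, d, hd, rfl⟩] at h1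
  have h2 : s ((b : ℚ) / d) = 1 := by
    apply injm
    push_cast
    simp at h1
    linarith
  have h3 := key _ b d rfl hd0 hcop
  simp only [mul_one, mul_zero, sub_zero, h2] at h3
  rw [hSdef, AddSubgroup.mem_zmultiples_iff] at h3
  obtain ⟨k, hk⟩ := h3
  rw [zsmul_eq_mul] at hk
  have hk' : k * s (1 / 4) = 1 := by exact_mod_cast hk
  rcases Int.eq_one_or_neg_one_of_mul_eq_one' hk' with ⟨-, h⟩ | ⟨-, h⟩
  · rw [h]; decide
  · rw [h]; decide

end Pool.Agent.XV.MT
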